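import Pool.Agent.P.MP_303500_co.Paths

/-! The engine: completing all classes and finishing with Koenig's theorem. -/

set_option linter.unusedSectionVars false

namespace Pool.Agent.P.MP_303500_co
open Finset

variable {V : Type} [Fintype V] [DecidableEq V]

/-- The reserve stays robust after removing a graph of maximum degree `μ`. -/
def Good (c : Cf V) (W : V → V → ℕ) (μ q s0 : ℕ) : Prop :=
  ∀ U : V → V → ℕ, (∀ v, deg U v ≤ μ) →
    (∀ u, q ≤ (univ.filter fun v => U u v < W u v).card) ∧ Rob c (fun u v => U u v < W u v) s0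

lemma good_of (c : Cf V) {W : V → V → ℕ} {μ q s0 r : ℕ} (hr : 0 < r) (h1 : ∀ u v, W u v ≤ r)
    (h2 : ∀ u, r * q + μ ≤ deg W u)
    (h3 : ∀ S T : Finset V, (∀ u ∈ S, ∀ v ∈ T, c.Crs u v) → S.card = s0 → T.card = s0 →
      μ * s0 < ∑ u ∈ S, ∑ v ∈ T, W u v) : Good c W μ q s0 := by
  intro U hU
  refine ⟨fun u => ?_, fun S T h hS hT => ?_⟩
  · have : deg W u ≤ r * (univ.filter fun v => U u v < W u v).card + deg U u := by
      rw [card_filter, mul_sum, deg, deg, ← sum_add_distrib]
      exact sum_le_sum fun v _ => by have := h1 u v; split_ifs <;> omega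
    have := h2 u; have := hU u
    exact Nat.le_of_mul_le_mul_left (by omega) hr
  · obtain ⟨S', s1, s2⟩ := exists_subset_card_eq hS
    obtain ⟨T', t1, t2⟩ := exists_subset_card_eq hT
    by_contra hc
    push Not at hc
    refine absurd (h3 S' T' (fun u hu v hv => h u (s1 hu) v (t1 hv)) s2 t2) (not_lt.2 ?_)
    refine (sum_le_card_nsmul _ _ μ fun u hu => le_trans ?_ (hU u)).trans (by simp [s2, mul_comm])
    exact (sum_le_sum fun v hv => hc u (s1 hu) v (t1 hv)).trans
      (sum_le_sum_of_subset (subset_univ _))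

lemma loop {W : V → V → ℕ} (Pd : V → V → Prop) {μ lam ρ b a tot : ℕ}
    (hμ : lam + ρ ≤ μ) (hρ : 0 < ρ) (ht : tot ≤ ρ * b) (Cs : Multiset (V → V)) :
    ∀ U Lo : V → V → ℕ, Gr U → Gr Lo → (∀ u v, U u v ≤ W u v) →
    (∀ σ ∈ Cs, Invo σ ∧ ∀ U' : V → V → ℕ, Gr U' → (∀ v, deg U' v ≤ μ) → ∀ B : Finset V,
      B.card ≤ b → ∃ Z : Finset V, (∀ v ∈ Z, σ v ∈ Z ∧ v ∉ B ∧ Pd v (σ v)) ∧ Z.card ≤ a ∧
        MOn (fun u v => U' u v < W u v) ((supp σ)ᶜ ∪ Z)) →
    (∀ v, deg U v + Cs.countP (fun σ => σ v = v) ≤ lam + deg Lo v) → (∀ v, deg Lo v ≤ ρ) →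
    ∑ v, deg Lo v + a * Cs.card ≤ tot → (∀ u v, 0 < Lo u v → Pd u v) →
    ∃ (Ps : Multiset (V → V)) (U' Lo' : V → V → ℕ), Ps.card = Cs.card ∧ (∀ σ ∈ Ps, IsPM σ) ∧
      Gr U' ∧ Gr Lo' ∧ (∀ u v, U' u v ≤ W u v) ∧ (∀ v, deg U' v ≤ lam + deg Lo' v) ∧
      (∀ v, deg Lo' v ≤ ρ) ∧ ∑ v, deg Lo' v ≤ tot ∧ (∀ u v, 0 < Lo' u v → Pd u v) ∧
      ∀ u v, oc Ps u v + Lo' u v + U u v = oc Cs u v + U' u v + Lo u v := by
  induction Cs using Multiset.induction_on with
  | empty =>
    intro U Lo g1 g2 h1 _ h3 h4 h5 h6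
    exact ⟨0, U, Lo, rfl, by simp, g1, g2, h1, by simpa using h3, h4, by simpa using h5, h6,
      fun u v => by simp [add_comm]⟩
  | cons σ Cs ih =>
    intro U Lo g1 g2 h1 h2 h3 h4 h5 h6
    obtain ⟨hσ, h7⟩ := h2 σ (Multiset.mem_cons_self _ _)
    obtain ⟨Z, z1, z2, ω, z3⟩ := h7 U g1 (fun v => by have := h3 v; have := h4 v; omega)
      (univ.filter fun v => ρ ≤ deg Lo v) (by
        have a1 := card_nsmul_le_sum (univ.filter fun v => ρ ≤ deg Lo v) (deg Lo) ρ
          (fun v hv => (mem_filter.1 hv).2)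
        have a2 := sum_le_sum_of_subset (f := deg Lo) (filter_subset (fun v => ρ ≤ deg Lo v) univ)
        rw [smul_eq_mul, mul_comm] at a1
        exact Nat.le_of_mul_le_mul_left
          (a1.trans (a2.trans ((Nat.le_add_right _ _).trans (h5.trans ht)))) hρ)
    set F := (supp σ)ᶜ ∪ Z with hF
    let ω' : V → V := fun v => if v ∈ F then ω v else v
    have w1 : Invo ω' := fun v => by
      by_cases h : v ∈ F
      · simp [ω', h, (z3 v h).1, (z3 v h).2.1]
      · simp [ω', h]
    have w2 : ∀ v, ω' v = v ↔ v ∉ F := fun v => by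
      by_cases h : v ∈ F
      · simp [ω', h, (z3 v h).2.2.1]
      · simp [ω', h]
    have w3 : ∀ v, ser σ Z v = v ↔ v ∈ F := fun v => by
      have := @mem_supp_ser _ _ _ σ Z v
      have := z1 v
      simp only [hF, mem_union, mem_compl, mem_supp]; tauto
    have hd : ∀ v, ser σ Z v = v ∨ ω' v = v := fun v => by rw [w2, w3]; exact em _
    have w4 : ∀ v, res σ Z v ≠ v → v ∈ Z := fun v h => (mem_supp_res.1 h).1
    obtain ⟨Ps, U', Lo', p1, p2, p3, p4, p5, p6, p7, p8, p9, p10⟩ :=
      ih (fun u v => U u v + oc {ω'} u v) (fun u v => Lo u v + oc {res σ Z} u v)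
      (g1.add (gr_oc (by simpa using w1))) (g2.add (gr_oc (by simpa using hσ.res Z)))
      (fun u v => by
        rw [oc_single]; split_ifs with h
        · have hu : u ∈ F := by by_contra e; exact h.2 (((w2 u).2 e).symm.trans h.1)
          have := (z3 u hu).2.2.2
          rw [← h.1]; simpa [ω', hu] using this
        · exact h1 u v)
      (fun τ hτ => h2 τ (Multiset.mem_cons_of_mem hτ)) (fun v => by
        have := h3 v
        rw [Multiset.countP_cons] at this
        rw [deg_add, deg_add, deg_single, deg_single]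
        have a1 := w2 v
        have a2 := @mem_supp_res _ _ _ σ Z v
        have a3 := z1 v
        simp only [hF, mem_union, mem_compl, mem_supp] at a1
        split_ifs at this ⊢ <;> first | omega | tauto) (fun v => by
        rw [deg_add, deg_single]; split_ifs with h
        · exact h4 v
        · simpa using (z1 v (w4 v h)).2.1) (by
        simp only [deg_add, sum_add_distrib, sum_deg_single, univ_inter]
        have := card_le_card (s := supp (res σ Z)) fun v hv => w4 v (mem_supp.1 hv)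
        rw [Multiset.card_cons, mul_add] at h5
        omega) (fun u v h => by
        rcases Nat.eq_zero_or_pos (Lo u v) with e | e
        · rw [e, zero_add, oc_single] at h
          split_ifs at h with h'
          · have : res σ Z u ≠ u := by rw [h'.1]; exact h'.2.symm
            rw [← h'.1, res_eq this]; exact (z1 u (w4 u this)).2.2
          · omega
        · exact h6 u v e)
    refine ⟨un (ser σ Z) ω' ::ₘ Ps, U', Lo', by simp [p1], fun τ hτ => ?_, p3, p4, p5, p6, p7, p8,
      p9, fun u v => ?_⟩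
    · rcases Multiset.mem_cons.1 hτ with rfl | hτ
      · exact fun v => ⟨(hσ.ser Z).un w1 hd v, by rw [Ne, un_eq_self, w2, w3]; tauto⟩
      · exact p2 τ hτ
    · have := p10 u v
      have := oc_res σ Z u v
      simp only [oc_cons, oc_un hd]; omega

lemma pairs (c : Cf V) (k : ℕ) : ∀ R : V → V → ℕ, ∑ v, deg R v = k → Gr R →
    (∀ u v, 0 < R u v → c.Own u v) → (∀ β, wsum (c.sgn β) R = 0) →
    ∃ It : Multiset (V → V), (∀ ι ∈ It, Invo ι ∧ (supp ι).card ≤ 4 ∧ ∀ β, c.dl (supp ι) β = 0) ∧
      ∀ u v, R u v = oc It u v := by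
  induction k using Nat.strong_induction_on with
  | _ k ih =>
  intro R hk hR h1 h2
  by_cases h : ∃ a b, 0 < R a b
  swap
  · push Not at h
    exact ⟨0, by simp, fun u v => by simpa using h u v⟩
  obtain ⟨a, b, h⟩ := h
  have ha : 0 < deg R a := h.trans_le (single_le_sum (f := R a) (by simp) (mem_univ b))
  obtain ⟨x, -, hx, hax⟩ := c.exists_crs (F := univ) (f := deg R) h2 (mem_univ a) ha
  obtain ⟨y, -, h'⟩ := exists_ne_zero_of_sum_ne_zero hx.ne'
  replace h' := Nat.pos_of_ne_zero h'
  have hab : a ≠ b := fun e => by rw [e, hR.2] at h; omega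
  have hxy : x ≠ y := fun e => by rw [e, hR.2] at h'; omega
  have o1 := h1 a b h
  have o2 := h1 x y h'
  have hby : c.Crs b y := by simp only [Cf.Own, Cf.Crs] at *; grind
  have n1 := hax.ne
  have n2 := hby.ne
  have n3 : a ≠ y := by rintro rfl; simp only [Cf.Own, Cf.Crs] at *; grind
  have n4 : b ≠ x := by rintro rfl; simp only [Cf.Own, Cf.Crs] at *; grind
  have hd : ∀ v, sw a b v = v ∨ sw x y v = v := fun v => by unfold sw; grind
  have i1 := (invo_sw a b).un (invo_sw x y) hd
  have hle : ∀ u v, oc {un (sw a b) (sw x y)} u v ≤ R u v := fun u v => by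
    have := oc_sw_le hR h u v
    have := oc_sw_le hR h' u v
    rw [oc_un hd]
    rw [oc_sw hab, oc_sw hxy] at *
    grind
  have s1 : supp (un (sw a b) (sw x y)) = {a, b} ∪ {x, y} := by
    rw [supp_un, supp_sw hab, supp_sw hxy]
  have d1 : ∀ β, c.dl (supp (un (sw a b) (sw x y))) β = 0 := fun β => by
    rw [s1, c.dl_union (by simp [n1.symm, n2.symm, n3.symm, n4.symm]), Cf.dl, Cf.dl, sum_pair hab,
      sum_pair hxy]
    have := hax.sgn β; have := hby.sgn β; omega
  obtain ⟨It, p1, p2⟩ := ih _ (by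
      rw [← hk]
      refine sum_lt_sum (fun u _ => deg_mono (fun _ _ => Nat.sub_le _ _) u) ⟨a, mem_univ _, ?_⟩
      have := deg_sub hle a
      rw [deg_single, if_neg (mem_supp.1 (by simp [s1]))] at this
      omega)
    (fun u v => R u v - oc {un (sw a b) (sw x y)} u v) rfl (hR.sub (gr_oc (by simpa using i1)))
    (fun u v h => h1 u v (by omega)) (fun β => by
      have := h2 β
      rw [wsum_congr _ (fun u v => (Nat.sub_add_cancel (hle u v)).symm), wsum_add,
        wsum_single] at this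
      have := d1 β
      unfold Cf.dl at this; omega)
  refine ⟨un (sw a b) (sw x y) ::ₘ It, fun ι hι => ?_, fun u v => ?_⟩
  · rcases Multiset.mem_cons.1 hι with rfl | hι
    · refine ⟨i1, ?_, d1⟩
      rw [s1]; exact (card_union_le _ _).trans (add_le_add card_le_two card_le_two)
    · exact p1 ι hι
  · rw [oc_cons, ← p2]; have := hle u v; omega

lemma wsum_const (w : V → ℤ) {Ms : Multiset (V → V)} {d : ℤ}
    (h : ∀ σ ∈ Ms, ∑ v ∈ supp σ, w v = d) : wsum w (oc Ms) = Ms.card * d := by
  rw [wsum_oc, Multiset.map_congr rfl h]; simp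

lemma deg_pm {Ms : Multiset (V → V)} (h : ∀ σ ∈ Ms, IsPM σ) (v : V) : deg (oc Ms) v = Ms.card := by
  rw [deg_congr (oc_eq_cnt h)]; exact sum_cnt Ms v

theorem engine (c : Cf V) {m W Y R0 : V → V → ℕ} {Cs Ts : Multiset (V → V)} {X0 : Finset V}
    {Df μ q s0 y lam lam' ρ b cc f : ℕ} (hm : ∀ v, deg m v = Df + Cs.card + Ts.card)
    (hdec : ∀ u v, m u v = W u v + Y u v + R0 u v + oc Cs u v + oc Ts u v)
    (gW : Gr W) (gY : Gr Y) (gR : Gr R0) (hW : ∀ u v, 0 < W u v → c.Crs u v)
    (hG : Good c W μ q s0) (hY : ∀ u v, c.side u = c.side v → Y u v = 0)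
    (hY' : ∀ β, wsum (c.sgn β) Y = Df * c.dl univ β) (hR : ∀ u v, 0 < R0 u v → c.Own u v)
    (hC : ∀ σ ∈ Cs, Cls c y σ) (hC' : ∀ v, Cs.countP (fun σ => σ v = v) ≤ lam)
    (hT : ∀ σ ∈ Ts, Invo σ ∧ (∀ β, c.dl (supp σ)ᶜ β = 0) ∧ (supp σ).card ≤ cc + 4)
    (hX : ∀ v ∈ X0, deg R0 v = 0) (hX' : ∀ v ∉ X0, deg R0 v + deg (oc Ts) v ≤ lam')
    (n1 : 0 < ρ) (n2 : 5 * y * Cs.card ≤ ρ * b) (n3 : lam + ρ + Ts.card + 1 ≤ μ)
    (n4 : s0 + 6 * y + 2 * (b + X0.card) ≤ q) (n5 : s0 + cc + 4 ≤ q)
    (n6 : 4 * (lam' + ρ) + f < Ts.card)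
    (n7 : ∑ v, deg (oc Ts) v + ∑ v, deg R0 v + 5 * y * Cs.card ≤ f * cc) : Fac m := by
  have g0 : Gr (fun _ _ : V => 0) := ⟨fun _ _ => rfl, fun _ => rfl⟩
  have d0 : ∀ v, deg (fun _ _ : V => 0) v = 0 := fun v => by simp [deg]
  have hs : ∀ U : V → V → ℕ, Gr U → ∀ u v, U u v < W u v → U v u < W v u :=
    fun U g u v h => by rwa [g.1, gW.1]
  have hc : ∀ U : V → V → ℕ, ∀ u v, U u v < W u v → c.Crs u v := fun U u v h => hW u v (by omega)
  obtain ⟨Ps, U, Lo, p1, p2, p3, p4, p5, p6, p7, p8, p9, p10⟩ := loop (W := W)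
    (fun u v => (c.Own u v ∨ c.Crs u v) ∧ u ∉ X0) (μ := μ) (lam := lam) (a := 5 * y) (by omega) n1 n2
    Cs _ _ g0 g0 (by simp) (fun σ hσ => ⟨(hC σ hσ).1, fun U g hU B hB => by
      obtain ⟨Z, z1, z2, z3⟩ := complete c (hs U g) (hc U) (hG U hU).2 (hG U hU).1 (hC σ hσ)
        (B := B ∪ X0) (b := b + X0.card) (by have := card_union_le B X0; omega) n4
      refine ⟨Z, fun v hv => ?_, z2, z3⟩
      have := z1 v hv
      rw [mem_union] at this; tauto⟩) (by simpa [d0] using hC') (by simp [d0]) (by simp [d0])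
    (by simp)
  let Lc : V → V → ℕ := fun u v => if c.side u = c.side v then 0 else Lo u v
  let R : V → V → ℕ := fun u v => R0 u v + if c.side u = c.side v then Lo u v else 0
  have gc : Gr Lc := ⟨fun u v => by simp only [Lc, p4.1 u v, eq_comm], fun u => by simp [Lc]⟩
  have gr : Gr R := gR.add ⟨fun u v => by simp only [p4.1 u v, eq_comm], fun u => by simp [p4.2]⟩
  have dR : ∀ v, deg R v ≤ deg R0 v + deg Lo v := fun v => by
    rw [← deg_add]; exact deg_mono (fun u v => by simp only [R]; split_ifs <;> omega) v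
  have e1 : ∀ u v, m u v = (W u v - U u v + Lc u v) + Y u v + R u v + oc Ps u v + oc Ts u v := by
    intro u v
    have := p10 u v; have := p5 u v; have := hdec u v
    simp only [Lc, R]; split_ifs <;> omega
  obtain ⟨It, i1, i2⟩ := pairs c _ R rfl gr (fun u v h => by
      rcases Nat.eq_zero_or_pos (R0 u v) with e | e
      · simp only [R, e, zero_add] at h
        split_ifs at h with h'
        · exact (p9 u v h).1.resolve_right fun h'' => by simp [Cf.Crs, h'] at h''
        · omega
      · exact hR u v e) (fun β => by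
      have a1 := wsum_reg (c.sgn β) hm
      rw [wsum_congr _ e1, wsum_add, wsum_add, wsum_add, wsum_add, hY', wsum_reg _ (deg_pm p2),
        wsum_const _ (d := c.dl univ β) (fun σ hσ => by
          rw [← c.dl_compl (supp σ), (hT σ hσ).2.1, add_zero]; rfl),
        wsum_zero ((gW.sub p3).add gc).1 (fun u v h => Cf.Crs.sgn (by
          rcases Nat.eq_zero_or_pos (W u v) with e | e
          · simp only [Lc, e, Nat.zero_sub, zero_add] at h
            split_ifs at h with h'
            · omega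
            · exact (p9 u v h).1.resolve_left fun h'' => h' h''.1.symm
          · exact hW u v e) β), p1] at a1
      unfold Cf.dl at a1
      push_cast at a1; linarith)
  obtain ⟨Ns, a1, a2, a3⟩ := greedy (fun σ => ∀ β, c.dl (supp σ)ᶜ β = 0) cc f (f * cc) It Ts hT
    (fun ι hι => by
      obtain ⟨b1, b2, b3⟩ := i1 ι hι
      refine ⟨b1, b2, fun σ _ h hd β => ?_, ?_⟩
      · have := c.dl_compl (supp (un σ ι)) β
        have := c.dl_compl (supp σ) β
        have := h β; have := b3 β
        rw [supp_un, c.dl_union (disjoint_left.2 fun v h1 h2 => by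
          have := hd v; simp only [mem_supp] at h1 h2; tauto)] at *
        omega
      · have := sum_le_card_nsmul (supp ι) (fun v => deg (oc Ts) v + deg (oc It) v) (lam' + ρ)
          (fun v hv => by
            rw [← deg_congr i2]
            have h1 : 0 < deg R v := by
              rw [deg_congr i2, deg_oc, Multiset.countP_pos]; exact ⟨ι, hι, mem_supp.1 hv⟩
            have h2 : v ∉ X0 := fun h => by
              have := hX v h; have := dR v
              obtain ⟨x, -, hx⟩ := exists_ne_zero_of_sum_ne_zero (s := univ) (f := Lo v)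
                (by change deg Lo v ≠ 0; omega)
              exact (p9 v x (Nat.pos_of_ne_zero hx)).2 h
            have := hX' v h2; have := dR v; have := p7 v; omega)
        have := Nat.mul_le_mul_right (lam' + ρ) b2
        rw [smul_eq_mul] at *; omega) (by
      simp only [← deg_congr i2]
      have := sum_le_sum (s := univ) fun v _ => dR v
      rw [sum_add_distrib] at this; omega) (Or.inr le_rfl)
  obtain ⟨Qs, U', Lo', q1, q2, q3, q4, q5, -, -, q8, -, q10⟩ := loop (W := W)
    (fun _ _ => True) (μ := μ) (lam := lam + ρ + Ts.card) (ρ := 1) (a := 0) (b := 0) (tot := 0)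
    n3 one_pos le_rfl Ns U _ p3 g0 p5 (fun σ hσ => ⟨(a2 σ hσ).1, fun U g hU B hB => by
      refine ⟨∅, by simp, le_rfl, ?_⟩
      rw [union_empty]
      refine hall c (hs U g) (hc U) (hG U hU).2 (a2 σ hσ).2.1 fun v _ => ?_
      have := card_filter_sdiff univ (supp σ) fun x => U v x < W v x
      have := (hG U hU).1 v
      have := (a2 σ hσ).2.2
      rw [compl_eq_univ_sdiff]; omega⟩) (fun v => by
      have := Multiset.countP_le_card (fun σ => σ v = v) Ns
      have := p6 v; have := p7 v; omega) (by simp [d0]) (by simp [d0]) (by simp)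
  have z0 : ∀ u v, Lo' u v = 0 := fun u v => by
    have := single_le_sum (f := deg Lo') (s := univ) (by simp) (mem_univ u)
    have := single_le_sum (f := Lo' u) (s := univ) (by simp) (mem_univ v)
    unfold deg at *; omega
  have e2 : ∀ u v, m u v = (W u v - U' u v + Lc u v + Y u v) + oc (Ps + Qs) u v := by
    intro u v
    have := e1 u v; have := q10 u v; have := q5 u v; have := p5 u v; have := a3 u v
    have := i2 u v; have := z0 u v
    rw [oc_add]; omega
  have hP : ∀ σ ∈ Ps + Qs, IsPM σ := fun σ hσ => (Multiset.mem_add.1 hσ).elim (p2 σ) (q2 σ)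
  refine ((fac_bip c.side (D := Df) (((gW.sub q3).add gc).add gY) (fun u v h => ?_) fun v => ?_).add
    (fac_cnt hP)).congr fun u v => by rw [e2, oc_eq_cnt hP]
  · have : W u v = 0 := by
      by_contra h'; have := (hW u v (by omega)).1; simp [h] at this
    simp [this, Lc, h, hY u v h]
  · have := hm v
    rw [deg_congr e2, deg_add, deg_pm hP, Multiset.card_add] at this
    omega

end Pool.Agent.P.MP_303500_co
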