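import Pool.Agent.P.MP_303500_co.Inv

/-! Kempe changes: colourings with prescribed weights of the classes. -/

set_option linter.unusedSectionVars false

namespace Pool.Agent.P.MP_303500_co
open Finset

variable {V : Type} [Fintype V] [DecidableEq V]

lemma path (k : ℕ) : ∀ σ τ : V → V, Invo σ → Invo τ → (supp σ).card + (supp τ).card = k →
    ∀ v, τ v = v → ∃ O : Finset V, v ∈ O ∧ (∀ x ∈ O, σ x ∈ O) ∧ (∀ x ∈ O, τ x ∈ O) ∧
      (O.filter (fun x => σ x = x ∨ τ x = x)).card ≤ 2 := by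
  induction k using Nat.strong_induction_on with
  | _ k ih =>
  intro σ τ hσ hτ hk v hv
  by_cases h1 : σ v = v
  · exact ⟨{v}, by simp, by simp [h1], by simp [hv], (card_filter_le _ _).trans (by simp)⟩
  by_cases h2 : τ (σ v) = σ v
  · exact ⟨{v, σ v}, by simp, by simp [hσ v], by simp [hv, h2],
      (card_filter_le _ _).trans card_le_two⟩
  have e1 : ser σ {v, σ v} (σ v) = σ v := by simp [ser, hσ v]
  have hlt : (supp (ser σ {v, σ v})).card < (supp σ).card := by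
    apply card_lt_card
    refine ⟨fun x hx => ?_, fun h => ?_⟩
    · rw [mem_supp] at hx ⊢; exact (mem_supp_ser.1 hx).2
    · have := h (mem_supp.2 (hσ.ne h1))
      exact mem_supp.1 this e1
  obtain ⟨O, o1, o2, o3, o4⟩ := ih _ (by omega) τ (ser σ {v, σ v}) hτ (hσ.ser _) rfl (σ v) e1
  refine ⟨insert v O, by simp, ?_, ?_, ?_⟩
  · intro x hx
    by_cases p1 : x = v
    · rw [p1]; exact mem_insert_of_mem o1
    by_cases p2 : x = σ v
    · rw [p2, hσ v]; exact mem_insert_self _ _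
    have := o3 x (by simpa [p1] using hx)
    rw [ser, if_neg (by simp [p1, p2])] at this
    exact mem_insert_of_mem this
  · intro x hx
    rcases mem_insert.1 hx with rfl | hx
    · rw [hv]; exact mem_insert_self _ _
    · exact mem_insert_of_mem (o2 x hx)
  · have hm : σ v ∈ O.filter (fun x => τ x = x ∨ ser σ {v, σ v} x = x) := by simp [o1, e1]
    have := card_erase_of_mem hm
    have := card_insert_le v ((O.filter (fun x => τ x = x ∨ ser σ {v, σ v} x = x)).erase (σ v))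
    have := card_pos.2 ⟨_, hm⟩
    refine le_trans (card_le_card (t := insert v
      ((O.filter (fun x => τ x = x ∨ ser σ {v, σ v} x = x)).erase (σ v))) ?_) (by omega)
    intro x hx
    simp only [mem_filter, mem_insert, mem_erase] at hx ⊢
    obtain ⟨rfl | hx, h3⟩ := hx
    · exact Or.inl rfl
    refine Or.inr ⟨?_, hx, ?_⟩
    · rintro rfl
      rcases h3 with h3 | h3
      · exact hσ.ne h1 h3
      · exact h2 h3
    · rcases h3 with h3 | h3
      · right; by_contra h4; exact (mem_supp_ser.1 h4).2 h3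
      · exact Or.inl h3

lemma closed_pos {σ τ : V → V} (hσ : Invo σ) (hτ : Invo τ) (e : V → ℤ)
    (he : ∀ x, e x ≠ 0 → σ x = x ∨ τ x = x) (k : ℕ) : ∀ S : Finset V, S.card = k →
    (∀ x ∈ S, σ x ∈ S) → (∀ x ∈ S, τ x ∈ S) → 0 < ∑ x ∈ S, e x →
    ∃ O : Finset V, (∀ x ∈ O, σ x ∈ O) ∧ (∀ x ∈ O, τ x ∈ O) ∧ 0 < ∑ x ∈ O, e x ∧
      (O.filter (fun x => σ x = x ∨ τ x = x)).card ≤ 2 := by
  induction k using Nat.strong_induction_on with
  | _ k ih =>
  intro S hk h1 h2 h3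
  obtain ⟨v, hv, h4⟩ := exists_ne_zero_of_sum_ne_zero h3.ne'
  obtain ⟨C, c1, c2, c3, c4⟩ : ∃ O : Finset V, v ∈ O ∧ (∀ x ∈ O, σ x ∈ O) ∧ (∀ x ∈ O, τ x ∈ O) ∧
      (O.filter (fun x => σ x = x ∨ τ x = x)).card ≤ 2 := by
    rcases he v h4 with h | h
    · obtain ⟨O, a, b, c, d⟩ := path _ τ σ hτ hσ rfl v h
      exact ⟨O, a, c, b, by simpa only [or_comm] using d⟩
    · exact path _ σ τ hσ hτ rfl v h
  by_cases h5 : 0 < ∑ x ∈ S ∩ C, e x
  · refine ⟨S ∩ C, fun x hx => ?_, fun x hx => ?_, h5, le_trans (card_le_card ?_) c4⟩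
    · rw [mem_inter] at hx ⊢; exact ⟨h1 x hx.1, c2 x hx.2⟩
    · rw [mem_inter] at hx ⊢; exact ⟨h2 x hx.1, c3 x hx.2⟩
    · exact filter_subset_filter _ inter_subset_right
  have := sum_inter_add_sum_sdiff S C e
  refine ih _ ?_ (S \ C) rfl (fun x hx => ?_) (fun x hx => ?_) (by omega)
  · rw [← hk]
    exact card_lt_card ⟨sdiff_subset, fun h => by simpa [c1] using h hv⟩
  · rw [mem_sdiff] at hx ⊢
    exact ⟨h1 x hx.1, fun h => hx.2 (hσ x ▸ c2 _ h)⟩
  · rw [mem_sdiff] at hx ⊢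
    exact ⟨h2 x hx.1, fun h => hx.2 (hτ x ▸ c3 _ h)⟩

/-- Weight of the covered vertices. -/
def wt (w : V → ℤ) (σ : V → V) : ℤ := ∑ v ∈ supp σ, w v

lemma wt_eq (w : V → ℤ) (σ : V → V) : wt w σ = ∑ v, if σ v = v then 0 else w v := by
  simp only [wt, supp, sum_filter]
  exact sum_congr rfl fun v _ => by by_cases h : σ v = v <;> simp [h]

lemma wt_one (σ : V → V) : wt (fun _ => 1) σ = (supp σ).card := by simp [wt]

lemma even_wt {w : V → ℤ} (hw : ∀ v, w v = 1 ∨ w v = -1) {σ : V → V} (h : Invo σ) :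
    Even (wt w σ) :=
  even_sum_invo h (fun v hv => by simpa using ⟨h.ne (by simpa using hv), by simpa using hv⟩) w
    fun v _ => by rcases hw v with a | a <;> rcases hw (σ v) with b | b <;> rw [a, b] <;> decide

lemma swap_invo {σ τ : V → V} (hσ : Invo σ) (hτ : Invo τ) {O : Finset V}
    (h1 : ∀ x ∈ O, σ x ∈ O) (h2 : ∀ x ∈ O, τ x ∈ O) :
    Invo (fun x => if x ∈ O then τ x else σ x) := by
  intro x
  by_cases h : x ∈ O
  · simp only [h, if_true, h2 x h, hτ x]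
  · have : σ x ∉ O := fun h' => h (hσ x ▸ h1 _ h')
    simp only [h, if_false, this, hσ x]

lemma kempe {w : V → ℤ} (hw : ∀ v, w v = 1 ∨ w v = -1) {σ τ : V → V} (hσ : Invo σ) (hτ : Invo τ)
    (h : wt w τ < wt w σ) : ∃ σ' τ', Invo σ' ∧ Invo τ' ∧
      (∀ u v, oc {σ'} u v + oc {τ'} u v = oc {σ} u v + oc {τ} u v) ∧
      wt w σ' = wt w σ - 2 ∧ wt w τ' = wt w τ + 2 ∧
      (supp σ').card ≤ (supp σ).card + 2 ∧ (supp τ').card ≤ (supp τ).card + 2 := by
  let e : V → ℤ := fun x => (if σ x = x then 0 else w x) - (if τ x = x then 0 else w x)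
  obtain ⟨O, o1, o2, o3, o4⟩ := closed_pos hσ hτ e (fun x hx => by
    by_contra hc; push Not at hc; simp [e, hc.1, hc.2] at hx) _ univ rfl (by simp) (by simp) (by
    simp only [e, sum_sub_distrib, ← wt_eq]; omega)
  have i1 := swap_invo hσ hτ o1 o2
  have i2 := swap_invo hτ hσ o2 o1
  have e1 : wt w (fun x => if x ∈ O then τ x else σ x) = wt w σ - ∑ x ∈ O, e x := by
    rw [wt_eq, wt_eq, ← univ_inter O, ← sum_ite_mem, ← sum_sub_distrib, univ_inter]
    exact sum_congr rfl fun x _ => by by_cases hx : x ∈ O <;> simp [hx, e]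
  have e2 : wt w (fun x => if x ∈ O then σ x else τ x) = wt w τ + ∑ x ∈ O, e x := by
    rw [wt_eq, wt_eq, ← univ_inter O, ← sum_ite_mem, ← sum_add_distrib, univ_inter]
    exact sum_congr rfl fun x _ => by by_cases hx : x ∈ O <;> simp [hx, e]
  have e3 : ∑ x ∈ O, e x ≤ 2 := by
    rw [← sum_filter_of_ne (p := fun x => σ x = x ∨ τ x = x) (fun x _ hx => by
      by_contra hc; push Not at hc; simp [e, hc.1, hc.2] at hx)]
    refine (sum_le_card_nsmul _ _ 1 fun x hx => ?_).trans (by simpa using o4)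
    have := (mem_filter.1 hx).2
    rcases hw x with a | a <;> simp only [e, a] <;> split_ifs <;> simp_all
  have e4 : ∑ x ∈ O, e x = 2 := by
    obtain ⟨a, ha⟩ := even_wt hw i1
    obtain ⟨b, hb⟩ := even_wt hw hσ
    omega
  have s1 : ∀ σ τ : V → V, supp (fun x => if x ∈ O then τ x else σ x) ⊆
      supp σ ∪ O.filter (fun x => σ x = x ∨ τ x = x) := by
    intro σ τ x hx
    by_cases h1 : x ∈ O <;> by_cases h2 : σ x = x <;> simp_all
  refine ⟨_, _, i1, i2, fun u v => ?_, by rw [e1, e4], by rw [e2, e4], ?_, ?_⟩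
  · simp only [oc_single]; by_cases hu : u ∈ O <;> simp [hu, add_comm]
  · have := card_le_card (s1 σ τ)
    have := card_union_le (supp σ) (O.filter (fun x => σ x = x ∨ τ x = x))
    omega
  · have := card_le_card (s1 τ σ)
    have := card_union_le (supp τ) (O.filter (fun x => τ x = x ∨ σ x = x))
    simp only [or_comm (a := τ _ = _)] at *
    omega

lemma exists_lt_of_sum_eq {α : Type} (f g : α → ℤ) (M : Multiset α)
    (h : (M.map f).sum = (M.map g).sum) (h1 : ∃ x ∈ M, f x ≠ g x) :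
    (∃ x ∈ M, f x < g x) ∧ ∃ x ∈ M, g x < f x := by
  have key : ∀ f g : α → ℤ, (M.map f).sum = (M.map g).sum → (∃ x ∈ M, f x ≠ g x) →
      ∃ x ∈ M, f x < g x := by
    intro f g h ⟨x, hx, h1⟩
    by_contra hc
    push Not at hc
    exact absurd h (Multiset.sum_lt_sum hc ⟨x, hx, lt_of_le_of_ne (hc x hx) h1.symm⟩).ne'
  obtain ⟨x, hx, h1⟩ := h1
  exact ⟨key f g h ⟨x, hx, h1⟩, key g f h.symm ⟨x, hx, h1.symm⟩⟩

/-- Reaching prescribed weights by Kempe changes. -/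
lemma retarget {w : V → ℤ} (hw : ∀ v, w v = 1 ∨ w v = -1) (B : ℕ) (k : ℕ) :
    ∀ M : Multiset ((V → V) × ℤ), (M.map fun p => (wt w p.1 - p.2).natAbs).sum = k →
    (∀ p ∈ M, Invo p.1 ∧ Even p.2 ∧ (supp p.1).card + (wt w p.1 - p.2).natAbs ≤ B) →
    (M.map fun p => wt w p.1).sum = (M.map Prod.snd).sum →
    (∀ p ∈ M, ∀ q ∈ M, p.2 < wt w p.1 → wt w q.1 < q.2 → q.2 ≤ p.2 + 2) →
    ∃ M' : Multiset ((V → V) × ℤ), M'.map Prod.snd = M.map Prod.snd ∧
      (∀ p ∈ M', Invo p.1 ∧ wt w p.1 = p.2 ∧ (supp p.1).card ≤ B) ∧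
      ∀ u v, oc (M'.map Prod.fst) u v = oc (M.map Prod.fst) u v := by
  induction k using Nat.strong_induction_on with
  | _ k ih =>
  intro M hk h1 h2 h3
  by_cases h : ∃ p ∈ M, wt w p.1 ≠ p.2
  swap
  · push Not at h
    exact ⟨M, rfl, fun p hp => ⟨(h1 p hp).1, h p hp, by have := (h1 p hp).2.2; omega⟩,
      fun _ _ => rfl⟩
  obtain ⟨⟨q, hq, a1⟩, ⟨p, hp, a2⟩⟩ := exists_lt_of_sum_eq _ _ M h2 h
  have hpq : q ≠ p := by rintro rfl; omega
  obtain ⟨M1, rfl⟩ := Multiset.exists_cons_of_mem hp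
  obtain ⟨M2, rfl⟩ := Multiset.exists_cons_of_mem ((Multiset.mem_cons.1 hq).resolve_left hpq)
  obtain ⟨p1, ⟨pa, p2⟩, p3⟩ := h1 p hp
  obtain ⟨q1, ⟨qa, q2⟩, q3⟩ := h1 q hq
  obtain ⟨pb, p4⟩ := even_wt hw p1
  obtain ⟨qb, q4⟩ := even_wt hw q1
  have := h3 p hp q hq a2 a1
  obtain ⟨σ, τ, k1, k2, k3, k4, k5, k6, k7⟩ := kempe hw p1 q1 (by omega)
  have hsub : ∀ x ∈ M2, x ∈ p ::ₘ q ::ₘ M2 := fun x hx => by simp [hx]
  obtain ⟨M', m1, m2, m3⟩ := ih _ (by
      rw [← hk]; simp only [Multiset.map_cons, Multiset.sum_cons, k4, k5]; omega)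
    ((σ, p.2) ::ₘ (τ, q.2) ::ₘ M2) rfl (by
      intro x hx
      simp only [Multiset.mem_cons] at hx
      rcases hx with rfl | rfl | hx
      · exact ⟨k1, ⟨pa, p2⟩, by simp only [k4]; omega⟩
      · exact ⟨k2, ⟨qa, q2⟩, by simp only [k5]; omega⟩
      · exact h1 x (hsub x hx)) (by
      simp only [Multiset.map_cons, Multiset.sum_cons, k4, k5] at h2 ⊢; omega) (by
      intro x hx y hy b1 b2
      have c1 : ∃ x' ∈ p ::ₘ q ::ₘ M2, x'.2 = x.2 ∧ x'.2 < wt w x'.1 := by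
        simp only [Multiset.mem_cons] at hx
        rcases hx with rfl | rfl | hx
        · exact ⟨p, hp, rfl, a2⟩
        · simp only [k5] at b1; omega
        · exact ⟨x, hsub x hx, rfl, b1⟩
      have c2 : ∃ y' ∈ p ::ₘ q ::ₘ M2, y'.2 = y.2 ∧ wt w y'.1 < y'.2 := by
        simp only [Multiset.mem_cons] at hy
        rcases hy with rfl | rfl | hy
        · simp only [k4] at b2; omega
        · exact ⟨q, hq, rfl, a1⟩
        · exact ⟨y, hsub y hy, rfl, b2⟩
      obtain ⟨x', x1, x2, x3⟩ := c1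
      obtain ⟨y', y1, y2, y3⟩ := c2
      rw [← x2, ← y2]; exact h3 x' x1 y' y1 x3 y3)
  refine ⟨M', by simpa using m1, m2, fun u v => ?_⟩
  rw [m3]
  simp only [Multiset.map_cons, oc_cons]
  have := k3 u v; omega

lemma distrib {α : Type} (cap : α → ℕ) (M : Multiset α) : ∀ J : ℕ, J ≤ (M.map cap).sum →
    ∃ M' : Multiset (α × ℕ), M'.map Prod.fst = M ∧ (∀ p ∈ M', p.2 ≤ cap p.1) ∧
      (M'.map Prod.snd).sum = J := by
  induction M using Multiset.induction_on with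
  | empty => intro J h; exact ⟨0, rfl, by simp, by simp at h; simp [h]⟩
  | cons x M ih =>
    intro J h
    rw [Multiset.map_cons, Multiset.sum_cons] at h
    obtain ⟨M', a, b, c⟩ := ih (J - cap x) (by omega)
    refine ⟨(x, min J (cap x)) ::ₘ M', by simp [a], ?_, by simp [c]; omega⟩
    intro p hp
    rcases Multiset.mem_cons.1 hp with rfl | hp
    · exact min_le_right _ _
    · exact b p hp

/-- Prescribing the sizes of the classes: `lo + st * j` edges with `j ≤ cap`. -/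
lemma resize {α : Type} (M : Multiset α) (f : α → V → V) (lo cap : α → ℕ) (st J : ℕ)
    (h1 : ∀ x ∈ M, Invo (f x)) (h2 : J ≤ (M.map cap).sum)
    (h3 : ∑ u, deg (oc (M.map f)) u = 2 * ((M.map lo).sum + st * J))
    (h4 : ∀ x ∈ M, ∀ y ∈ M, ∀ i ≤ cap x, ∀ j ≤ cap y, 2 * (lo x + st * i) < (supp (f x)).card →
      (supp (f y)).card < 2 * (lo y + st * j) → lo y + st * j ≤ lo x + st * i + 1) :
    ∃ Ns : Multiset (V → V), Ns.card = M.card ∧
      (∀ σ ∈ Ns, Invo σ ∧ ∃ x ∈ M, ∃ j ≤ cap x, (supp σ).card = 2 * (lo x + st * j)) ∧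
      ∀ u v, oc Ns u v = oc (M.map f) u v := by
  obtain ⟨M', rfl, a2, a3⟩ := distrib cap M J h2
  let g : α × ℕ → (V → V) × ℤ := fun p => (f p.1, ((2 * (lo p.1 + st * p.2) : ℕ) : ℤ))
  obtain ⟨B, hB⟩ : ∃ B : ℕ, ∀ p ∈ M'.map g,
      (supp p.1).card + (wt (fun _ => 1) p.1 - p.2).natAbs ≤ B :=
    ⟨((M'.map g).map fun p => (supp p.1).card + (wt (fun _ => 1) p.1 - p.2).natAbs).sum,
      fun p hp => Multiset.single_le_sum (by simp) _ (Multiset.mem_map_of_mem _ hp)⟩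
  obtain ⟨N, n1, n2, n3⟩ := retarget (w := fun _ => 1) (fun _ => Or.inl rfl) B _ (M'.map g) rfl (by
      intro p hp
      refine ⟨?_, ?_, hB p hp⟩
      · obtain ⟨x, hx, rfl⟩ := Multiset.mem_map.1 hp
        exact h1 _ (Multiset.mem_map_of_mem _ hx)
      · obtain ⟨x, hx, rfl⟩ := Multiset.mem_map.1 hp
        simp [g]) (by
      rw [sum_deg_oc, ← a3] at h3
      have := congrArg (Nat.cast : ℕ → ℤ) h3
      simp only [Multiset.map_map, Function.comp_def, g, wt_one, univ_inter, Nat.cast_multiset_sum,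
        Nat.cast_mul, Nat.cast_add, Multiset.sum_map_mul_left, Multiset.sum_map_add] at this ⊢
      exact this) (by
      intro p hp q hq
      obtain ⟨x, hx, rfl⟩ := Multiset.mem_map.1 hp
      obtain ⟨y, hy, rfl⟩ := Multiset.mem_map.1 hq
      simp only [g, wt_one]
      intro b1 b2
      have := h4 _ (Multiset.mem_map_of_mem _ hx) _ (Multiset.mem_map_of_mem _ hy) _ (a2 x hx) _
        (a2 y hy) (by exact_mod_cast b1) (by exact_mod_cast b2)
      omega)
  refine ⟨N.map Prod.fst, ?_, ?_, fun u v => ?_⟩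
  · simpa using congrArg Multiset.card n1
  · intro σ hσ
    obtain ⟨p, hp, rfl⟩ := Multiset.mem_map.1 hσ
    obtain ⟨b1, b2, -⟩ := n2 p hp
    have : p.2 ∈ (M'.map g).map Prod.snd := n1 ▸ Multiset.mem_map_of_mem _ hp
    rw [Multiset.map_map] at this
    obtain ⟨x, hx, e⟩ := Multiset.mem_map.1 this
    refine ⟨b1, x.1, Multiset.mem_map_of_mem _ hx, x.2, a2 x hx, ?_⟩
    rw [wt_one, ← e] at b2
    simp only [Function.comp_def, g] at b2
    exact_mod_cast b2
  · rw [n3]; simp only [Multiset.map_map, Function.comp_def, g]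

lemma even_sum_deg {m : V → V → ℕ} (h : Gr m) : ∃ z, ∑ u, deg m u = 2 * z := by
  obtain ⟨Es, h1, -⟩ := edges _ m h rfl
  exact ⟨_, h1.symm⟩

/-- Equitable colourings. -/
lemma equit (Ms : Multiset (V → V)) (h1 : ∀ σ ∈ Ms, Invo σ) {z : ℕ}
    (h3 : ∑ u, deg (oc Ms) u = 2 * z) :
    ∃ Ns : Multiset (V → V), Ns.card = Ms.card ∧
      (∀ σ ∈ Ns, Invo σ ∧ ((supp σ).card = 2 * (z / Ms.card) ∨
        (supp σ).card = 2 * (z / Ms.card + 1))) ∧ ∀ u v, oc Ns u v = oc Ms u v := by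
  rcases Nat.eq_zero_or_pos Ms.card with h0 | h0
  · exact ⟨Ms, rfl, by simp [Multiset.card_eq_zero.1 h0], fun _ _ => rfl⟩
  obtain ⟨Ns, a1, a2, a3⟩ := resize Ms id (fun _ => z / Ms.card) (fun _ => 1) 1 (z % Ms.card) h1
    (by simpa using (Nat.mod_lt _ h0).le) (by simpa [Nat.div_add_mod] using h3) (by
      intro _ _ _ _ i _ j _ _ _; omega)
  refine ⟨Ns, a1, fun σ hσ => ?_, by simpa using a3⟩
  obtain ⟨b1, x, -, j, b2, b3⟩ := a2 σ hσ
  refine ⟨b1, ?_⟩
  interval_cases j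
  · exact Or.inl (by simpa using b3)
  · exact Or.inr (by simpa using b3)

/-- Equitable colouring, small classes. -/
lemma equit_le (Ms : Multiset (V → V)) (h1 : ∀ σ ∈ Ms, Invo σ) {y : ℕ}
    (h3 : ∑ u, deg (oc Ms) u ≤ Ms.card * y) :
    ∃ Ns : Multiset (V → V), Ns.card = Ms.card ∧
      (∀ σ ∈ Ns, Invo σ ∧ (supp σ).card ≤ y + 2) ∧ ∀ u v, oc Ns u v = oc Ms u v := by
  obtain ⟨z, hz⟩ := even_sum_deg (gr_oc h1)
  obtain ⟨Ns, a1, a2, a3⟩ := equit Ms h1 hz
  refine ⟨Ns, a1, fun σ hσ => ⟨(a2 σ hσ).1, ?_⟩, a3⟩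
  have h0 : 0 < Ms.card := a1 ▸ Multiset.card_pos_iff_exists_mem.2 ⟨σ, hσ⟩
  have h4 : 2 * (z / Ms.card) ≤ y := by
    have := Nat.mul_div_le z Ms.card
    apply Nat.le_of_mul_le_mul_left _ h0
    nlinarith
  rcases (a2 σ hσ).2 with h | h <;> omega

/-- Equitable colouring, large classes. -/
lemma equit_ge (Ms : Multiset (V → V)) (h1 : ∀ σ ∈ Ms, Invo σ) {y : ℕ}
    (h3 : Ms.card * Fintype.card V ≤ ∑ u, deg (oc Ms) u + Ms.card * y) :
    ∃ Ns : Multiset (V → V), Ns.card = Ms.card ∧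
      (∀ σ ∈ Ns, Invo σ ∧ (supp σ)ᶜ.card ≤ y + 2) ∧ ∀ u v, oc Ns u v = oc Ms u v := by
  obtain ⟨z, hz⟩ := even_sum_deg (gr_oc h1)
  obtain ⟨Ns, a1, a2, a3⟩ := equit Ms h1 hz
  refine ⟨Ns, a1, fun σ hσ => ⟨(a2 σ hσ).1, ?_⟩, a3⟩
  have h0 : 0 < Ms.card := a1 ▸ Multiset.card_pos_iff_exists_mem.2 ⟨σ, hσ⟩
  have h4 : Fintype.card V ≤ 2 * (z / Ms.card) + 2 + y := by
    have := Nat.lt_mul_div_succ z h0
    apply Nat.le_of_mul_le_mul_left _ h0
    nlinarith
  rw [card_compl]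
  rcases (a2 σ hσ).2 with h | h <;> omega

/-- All classes get the same signed weight. -/
lemma balance {w : V → ℤ} (hw : ∀ v, w v = 1 ∨ w v = -1) (Ms : Multiset (V → V)) {y t : ℕ}
    (h1 : ∀ σ ∈ Ms, Invo σ ∧ (supp σ).card ≤ y) (h2 : wsum w (oc Ms) = Ms.card * (2 * t)) :
    ∃ Ns : Multiset (V → V), Ns.card = Ms.card ∧
      (∀ σ ∈ Ns, Invo σ ∧ wt w σ = 2 * t ∧ (supp σ).card ≤ 2 * y + 2 * t) ∧
      ∀ u v, oc Ns u v = oc Ms u v := by
  obtain ⟨N, n1, n2, n3⟩ := retarget hw (2 * y + 2 * t) _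
    (Ms.map fun σ => (σ, (2 * t : ℤ))) rfl (by
      intro p hp
      obtain ⟨σ, hσ, rfl⟩ := Multiset.mem_map.1 hp
      refine ⟨(h1 σ hσ).1, by simp, ?_⟩
      have : |wt w σ| ≤ (supp σ).card := by
        refine (abs_sum_le_sum_abs _ _).trans ((sum_le_card_nsmul _ _ 1 fun v _ => ?_).trans (by simp))
        rcases hw v with a | a <;> simp [a]
      have := (h1 σ hσ).2
      rw [abs_le] at *
      simp only; omega) (by
      rw [wsum_oc] at h2
      simpa [Function.comp_def, wt] using h2) (by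
      intro p hp q hq _ _
      obtain ⟨σ, hσ, rfl⟩ := Multiset.mem_map.1 hp
      obtain ⟨τ, hτ, rfl⟩ := Multiset.mem_map.1 hq
      simp)
  refine ⟨N.map Prod.fst, by simpa using congrArg Multiset.card n1, ?_, fun u v => ?_⟩
  · intro σ hσ
    obtain ⟨p, hp, rfl⟩ := Multiset.mem_map.1 hσ
    obtain ⟨b1, b2, b3⟩ := n2 p hp
    have : p.2 ∈ (Ms.map fun σ => (σ, (2 * t : ℤ))).map Prod.snd :=
      n1 ▸ Multiset.mem_map_of_mem _ hp
    rw [Multiset.map_map] at this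
    obtain ⟨x, hx, e⟩ := Multiset.mem_map.1 this
    exact ⟨b1, b2.trans e.symm, b3⟩
  · rw [n3]; simp

/-- Colouring a bipartite multigraph with classes of prescribed parity. -/
lemma parity (s : V → Bool) {m : V → V → ℕ} (hm : Gr m) (hb : ∀ u v, s u = s v → m u v = 0)
    {p K Q z c : ℕ} (hp : p ≤ 1) (hz : ∑ u, deg m u = 2 * z) (hQ : ∀ u, deg m u ≤ Q)
    (h1 : (z + p * K) % 2 = 0) (h2 : 2 * Q ≤ z) (h3 : 3 * Q ≤ 2 * K)
    (h4 : p = 1 → 4 * Q ≤ z + K ∧ K ≤ z) (h5 : z ≤ Q * c) (h0 : 0 < Q) :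
    ∃ Ms : Multiset (V → V), Ms.card = K ∧ (∀ σ ∈ Ms, Invo σ ∧
      ∃ j, (supp σ).card = 2 * j ∧ (j + p) % 2 = 0 ∧ j ≤ c + 3) ∧ ∀ u v, m u v = oc Ms u v := by
  obtain ⟨M0, a1, a2, a3⟩ := koenig' s Q hm hb hQ
  have hz0 : ∑ u, deg (oc M0) u = 2 * z := by
    rw [← hz]; exact sum_congr rfl fun u _ => (deg_congr a3 u).symm
  obtain ⟨Ns, b1, b2, b3⟩ := equit M0 a2 hz0
  rw [a1] at b1 b2
  obtain ⟨a, ha⟩ : ∃ a, a = z / Q := ⟨_, rfl⟩
  rw [← ha] at b2
  have a_ge : 2 ≤ a := by rw [ha, Nat.le_div_iff_mul_le h0]; exact h2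
  have a_le : a ≤ c := by rw [ha]; exact Nat.div_le_of_le_mul h5
  obtain ⟨S, rfl⟩ : ∃ S, K = Q + S := ⟨K - Q, by omega⟩
  let sz : (V → V) → ℕ := fun σ => (supp σ).card / 2
  have hs : ∀ σ ∈ Ns, (supp σ).card = 2 * sz σ ∧ (sz σ = a ∨ sz σ = a + 1) := by
    intro σ hσ; have := (b2 σ hσ).2; simp only [sz]; omega
  have e0 : ∀ u v, oc (Ns + Multiset.replicate S id) u v = m u v := fun u v => by
    rw [oc_add, oc_replicate_id, b3, a3, add_zero]
  have hz1 : (Ns.map sz).sum = z := by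
    have : ∑ u, deg (oc Ns) u = 2 * z := by
      rw [← hz0]; exact sum_congr rfl fun u _ => deg_congr b3 u
    rw [sum_deg_oc, Multiset.map_congr rfl (g := fun σ => 2 * sz σ) (fun σ hσ => by
      rw [univ_inter]; exact (hs σ hσ).1), Multiset.sum_map_mul_left] at this
    omega
  obtain ⟨H, hH⟩ : ∃ H, H = (Ns.map fun σ => (sz σ - p) / 2).sum := ⟨_, rfl⟩
  obtain ⟨e, he⟩ : ∃ e, e = (Ns.map fun σ => (sz σ + p) % 2).sum := ⟨_, rfl⟩
  have e1 : z = Q * p + 2 * H + e := by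
    rw [← hz1, Multiset.map_congr rfl (g := fun σ => p + 2 * ((sz σ - p) / 2) + (sz σ + p) % 2)
      (fun σ hσ => by have := (hs σ hσ).2; omega), hH, he]
    simp [Multiset.sum_map_add, Multiset.sum_map_mul_left, b1]
  have e2 : e ≤ Q := by
    rw [he, ← b1]
    simpa using Multiset.sum_le_card_nsmul (Ns.map fun σ => (sz σ + p) % 2) 1 (by
      intro x hx; obtain ⟨σ, -, rfl⟩ := Multiset.mem_map.1 hx; omega)
  have hM : ∀ σ ∈ Ns + Multiset.replicate S id, Invo (id σ) ∧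
      ((supp σ).card = 2 * sz σ ∧ (sz σ = a ∨ sz σ = a + 1 ∨ sz σ = 0)) := by
    intro σ hσ
    rcases Multiset.mem_add.1 hσ with h | h
    · exact ⟨(b2 σ h).1, (hs σ h).1, by have := (hs σ h).2; omega⟩
    · rw [Multiset.eq_of_mem_replicate h]; exact ⟨invo_id, by simp [sz]⟩
  have hz2 : ∑ u, deg (oc ((Ns + Multiset.replicate S id).map id)) u = 2 * z := by
    rw [← hz, Multiset.map_id]; exact sum_congr rfl fun u _ => deg_congr e0 u
  have z0 : sz id = 0 := by simp [sz]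
  by_cases hA : p = 1 ∧ e ≤ S
  · obtain ⟨rfl, hA⟩ := hA
    obtain ⟨Ms, m1, m2, m3⟩ := resize (Ns + Multiset.replicate S id) id (fun _ => 1)
      (fun σ => (sz σ - 1) / 2) 2 ((z - (Q + S)) / 2) (fun σ hσ => (hM σ hσ).1)
      (by simp [← hH, z0]; omega) (by rw [hz2]; simp [b1]; omega) (by
        intro x hx y hy i hi j hj c1 c2
        have := (hM y hy).2
        simp only [id] at c2; omega)
    refine ⟨Ms, by simp [m1, b1], fun σ hσ => ?_, fun u v => by rw [m3, Multiset.map_id, e0]⟩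
    obtain ⟨c1, x, hx, j, c2, c3⟩ := m2 σ hσ
    have := (hM x hx).2
    exact ⟨c1, _, c3, by omega, by omega⟩
  · have e3 : p = 1 → a ≠ 2 := by
      rintro rfl rfl
      have : z + e = 3 * Q := by
        rw [← hz1, he, ← Multiset.sum_map_add, Multiset.map_congr rfl (g := fun _ => 3)
          (fun σ hσ => by have := (hs σ hσ).2; omega)]
        simp [b1, mul_comm]
      omega
    have e4 : (Ns.map fun σ => if sz σ = 0 then p else p + 2 * ((sz σ - p) / 2)).sum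
        = Q * p + 2 * H := by
      rw [Multiset.map_congr rfl (g := fun σ => p + 2 * ((sz σ - p) / 2))
        (fun σ hσ => by have := (hs σ hσ).2; rw [if_neg (by omega)]), hH]
      simp [Multiset.sum_map_add, Multiset.sum_map_mul_left, b1]
    obtain ⟨Ms, m1, m2, m3⟩ := resize (Ns + Multiset.replicate S id) id
      (fun σ => if sz σ = 0 then p else p + 2 * ((sz σ - p) / 2))
      (fun σ => if sz σ = 0 then 1 else 0) 2 ((e - S * p) / 2) (fun σ hσ => (hM σ hσ).1)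
      (by
        rw [Multiset.map_add, Multiset.sum_add]
        simp only [Multiset.map_replicate, z0, if_true, Multiset.sum_replicate, smul_eq_mul]
        omega) (by
        rw [hz2, Multiset.map_add, Multiset.sum_add, e4]
        simp only [Multiset.map_replicate, z0, if_true, Multiset.sum_replicate, smul_eq_mul]
        interval_cases p <;> omega) (by
        intro x hx y hy i hi j hj c1 c2
        have := (hM y hy).2
        have := (hM x hx).2
        simp only [id] at c1 c2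
        split_ifs at * <;> omega)
    refine ⟨Ms, by simp [m1, b1], fun σ hσ => ?_, fun u v => by rw [m3, Multiset.map_id, e0]⟩
    obtain ⟨c1, x, hx, j, c2, c3⟩ := m2 σ hσ
    have := (hM x hx).2
    refine ⟨c1, _, c3, ?_, ?_⟩ <;> split_ifs at * <;> omega

end Pool.Agent.P.MP_303500_co
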