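import Pool.Agent.P.MP_303500_co.Inv

/-! Random signs: balanced splittings, thinning and an approximate Vizing theorem. -/

set_option linter.unusedSectionVars false

namespace Pool.Agent.P.MP_303500_co
open Finset Real

noncomputable def sg (b : Bool) : ℝ := if b then 1 else -1

lemma sum_exp {ι : Type} [Fintype ι] [DecidableEq ι] (a : ι → ℝ) :
    ∑ ε : ι → Bool, exp (∑ i, a i * sg (ε i)) ≤ 2 ^ Fintype.card ι * exp ((∑ i, a i ^ 2) / 2) := by
  simp only [exp_sum]
  rw [← Fintype.piFinset_univ, ← prod_univ_sum (fun _ => univ) (fun i b => exp (a i * sg b)),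
    sum_div, exp_sum, ← card_univ, ← prod_const, ← prod_mul_distrib]
  refine prod_le_prod (fun i _ => sum_nonneg fun _ _ => (exp_pos _).le) fun i _ => ?_
  have := cosh_le_exp_half_sq (a i)
  rw [cosh_eq] at this
  simp only [Fintype.univ_bool, sg]
  rw [sum_pair (by simp)]
  simp only [if_true, mul_one, Bool.false_eq_true, if_false, mul_neg]
  linarith

lemma signs {ι J : Type} [Fintype ι] [DecidableEq ι] [Fintype J] (a : J → ι → ℝ) (A t : J → ℝ)
    (hA : ∀ j, 0 < A j) (ht : ∀ j, 0 ≤ t j) (ha : ∀ j, ∑ i, a j i ^ 2 ≤ A j)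
    (g : (ι → Bool) → ℝ) (g1 : ∀ ε, g ε ≤ 1) {G η : ℝ} (hG0 : 0 ≤ G)
    (hG : G * 2 ^ Fintype.card ι ≤ ∑ ε, g ε)
    (hη : ∑ j, 2 * exp (-t j ^ 2 / (2 * A j)) ≤ η) (hη2 : η < 1 / 2) :
    ∃ ε : ι → Bool, (∀ j, |∑ i, a j i * sg (ε i)| ≤ t j) ∧ G - 2 * η ≤ g ε := by
  let F : J → ℝ → (ι → Bool) → ℝ := fun j c ε =>
    exp (t j / A j * (c * ∑ i, a j i * sg (ε i) - t j))
  have hF : ∀ j c, c ^ 2 = 1 →
      ∑ ε, F j c ε ≤ 2 ^ Fintype.card ι * exp (-t j ^ 2 / (2 * A j)) := by
    intro j c hc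
    have h1 : ∀ ε, F j c ε =
        exp (-(t j / A j * t j)) * exp (∑ i, (t j / A j * c * a j i) * sg (ε i)) := by
      intro ε
      simp only [F, ← exp_add, mul_assoc, ← mul_sum]; congr 1; ring
    simp only [h1, ← mul_sum]
    refine (mul_le_mul_of_nonneg_left (sum_exp _) (exp_pos _).le).trans ?_
    rw [mul_left_comm, ← exp_add]
    refine mul_le_mul_of_nonneg_left (exp_le_exp.2 ?_) (by positivity)
    simp only [mul_pow, hc, ← mul_sum]
    have := mul_le_mul_of_nonneg_left (ha j) (sq_nonneg (t j / A j))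
    have e : -t j ^ 2 / (2 * A j) = -(t j / A j * t j) + (t j / A j) ^ 2 * A j / 2 := by
      have := (hA j).ne'
      field_simp; ring
    rw [e]; linarith
  let Φ : (ι → Bool) → ℝ := fun ε => ∑ j, (F j 1 ε + F j (-1) ε)
  have hΦ : ∑ ε, Φ ε ≤ 2 ^ Fintype.card ι * η := by
    simp only [Φ]
    rw [sum_comm]
    refine le_trans (sum_le_sum fun j _ => ?_)
      ((mul_sum _ _ _).ge.trans (mul_le_mul_of_nonneg_left hη (by positivity)))
    rw [sum_add_distrib]
    have := hF j 1 (by norm_num)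
    have := hF j (-1) (by norm_num)
    linarith
  obtain ⟨ε, -, hε⟩ := exists_le_of_sum_le (s := univ) (f := fun _ => G - 2 * η)
    (g := fun ε => g ε - 2 * Φ ε) univ_nonempty (by
      rw [sum_sub_distrib (f := g), ← mul_sum]
      simp only [sum_const, card_univ, Fintype.card_fun, Fintype.card_bool, nsmul_eq_mul]
      push_cast
      nlinarith)
  have p : ∀ j c ε, 0 < F j c ε := fun j c ε => exp_pos _
  have hΦ0 : 0 ≤ Φ ε := sum_nonneg fun j _ => (add_pos (p _ _ _) (p _ _ _)).le
  refine ⟨ε, fun j => ?_, by linarith⟩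
  have h1 : F j 1 ε + F j (-1) ε ≤ Φ ε :=
    single_le_sum (f := fun j => F j 1 ε + F j (-1) ε)
      (fun j _ => (add_pos (p _ _ _) (p _ _ _)).le) (mem_univ j)
  have := g1 ε
  have key : ∀ c, F j c ε < 1 → c * ∑ i, a j i * sg (ε i) ≤ t j := by
    intro c h
    have h2 := exp_lt_one_iff.1 h
    by_contra h3
    exact absurd (mul_nonneg (div_nonneg (ht j) (hA j).le) (by linarith)) h2.not_ge
  have := key 1 (by linarith [p j (-1) ε])
  have := key (-1) (by linarith [p j 1 ε])
  rw [abs_le]; constructor <;> linarith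

lemma card_two {ι : Type} [Fintype ι] [DecidableEq ι] {a c : ι} {α γ : Bool}
    (h : a = c → α = γ) :
    2 ^ Fintype.card ι ≤ 4 * (univ.filter fun ε : ι → Bool => ε a = α ∧ ε c = γ).card := by
  have := card_le_card_of_injOn (s := (univ : Finset (ι → Bool)))
    (t := (univ.filter fun ε : ι → Bool => ε a = α ∧ ε c = γ) ×ˢ (univ : Finset (Bool × Bool)))
    (fun ε => (Function.update (Function.update ε a α) c γ, ε a, ε c)) (by
      intro ε _
      by_cases e : a = c
      · subst e; simp [h rfl]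
      · simp [Function.update_of_ne e]) (by
      intro ε _ ε' _ e
      simp only [Prod.mk.injEq] at e
      funext i
      have := congrFun e.1 i
      by_cases p : i = c
      · rw [p]; exact e.2.2
      by_cases q : i = a
      · rw [q]; exact e.2.1
      simpa [Function.update_of_ne p, Function.update_of_ne q] using this)
  simpa [mul_comm] using this

/-- `z` is large compared with the square root of `N log N`. -/
def Big (N z : ℕ) : Prop :=
  (N : ℝ) ^ 4 * exp (-(z : ℝ) ^ 2 / (8 * N)) ≤ 1 ∧ 100 ≤ N ∧ 4 ≤ z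

variable {V : Type} [Fintype V] [DecidableEq V]

/-- Mass of `f` on one side. -/
def sd (s : V → Bool) (β : Bool) (f : V → ℕ) : ℕ := ∑ v, if s v = β then f v else 0

lemma sd_add (s : V → Bool) (β : Bool) (f : V → ℕ) : sd s β f + sd s (!β) f = ∑ v, f v := by
  rw [sd, sd, ← sum_add_distrib]
  exact sum_congr rfl fun v _ => by cases s v <;> cases β <;> simp

lemma split {κ : V → V} (hκ : Invo κ) (s0 : V → Bool) {J : Type} [Fintype J] (f : J → V → ℕ)
    (b : J → ℕ) (hb0 : ∀ j, 0 < b j) (hb : ∀ j v, f j v ≤ b j)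
    (hJ : Fintype.card J ≤ 4 * Fintype.card V ^ 2) (hfix : (supp κ)ᶜ.card ≤ 2) (w : V → V → ℕ)
    (hw : ∀ u v, 0 < w u v → u ≠ v ∧ (κ u = u → s0 u = true) ∧ (κ v = v → s0 v = false))
    {z : ℕ} (hB : Big (Fintype.card V) z) :
    ∃ s : V → Bool, (∀ v, κ v ≠ v → s (κ v) = !s v) ∧ (∀ v, κ v = v → s v = s0 v) ∧
      (∀ j β, sd s β (f j) ≤ sd s (!β) (f j) + b j * z) ∧
      (Fintype.card V - 8) * ∑ u, ∑ v, w u v ≤
        4 * Fintype.card V * ∑ u, ∑ v, if s u = true ∧ s v = false then w u v else 0 := by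
  obtain ⟨B1, B2, B3⟩ := hB
  set N := Fintype.card V with hN
  have hN0 : (100 : ℝ) ≤ N := by exact_mod_cast B2
  let e := Fintype.equivFin V
  let o : V → Prop := fun v => e v < e (κ v)
  have ho : ∀ v, κ v ≠ v → (o (κ v) ↔ ¬ o v) := by
    intro v hv
    have : e (κ v) ≠ e v := fun h => hv (e.injective h)
    simp only [o, hκ v]; omega
  have ho' : ∀ v, κ v = v → ¬ o v := fun v hv => by simp [o, hv]
  let S : (V → Bool) → V → Bool := fun ε v =>
    if κ v = v then s0 v else if o v then ε v else !ε (κ v)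
  let c : (V → Bool) → ℕ := fun ε => ∑ u, ∑ v, if S ε u = true ∧ S ε v = false then w u v else 0
  obtain ⟨T, hT⟩ : ∃ T, T = ∑ u, ∑ v, w u v := ⟨_, rfl⟩
  have hc : ∀ ε, c ε ≤ T := fun ε => hT ▸ sum_le_sum fun u _ => sum_le_sum fun v _ => by
    split_ifs <;> simp
  have hc2 : T * 2 ^ N ≤ 4 * ∑ ε, c ε := by
    simp only [c]
    rw [sum_comm, hT, sum_mul, mul_sum]
    refine sum_le_sum fun u _ => ?_
    rw [sum_comm, sum_mul, mul_sum]
    refine sum_le_sum fun v _ => ?_
    rcases Nat.eq_zero_or_pos (w u v) with h | h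
    · simp [h]
    obtain ⟨h1, h2, h3⟩ := hw u v h
    rw [← sum_filter, sum_const, smul_eq_mul, ← mul_assoc, mul_comm]
    refine Nat.mul_le_mul_right _ ((card_two (a := if o u then u else κ u)
      (c := if o v then v else κ v) (α := decide (o u)) (γ := decide (¬ o v)) ?_).trans
      (Nat.mul_le_mul_left _ (card_le_card ?_)))
    · intro h4
      split_ifs at h4 with p q q
      · exact absurd h4 h1
      · simp [p, q]
      · simp [p, q]
      · exact absurd (hκ.inj h4) h1
    · intro ε hε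
      simp only [mem_filter, mem_univ, true_and, S] at hε ⊢
      obtain ⟨h4, h5⟩ := hε
      constructor
      · split_ifs with p q
        · exact h2 p
        · simpa [q] using h4
        · simpa [q] using h4
      · split_ifs with p q
        · exact h3 p
        · simpa [q] using h5
        · simpa [q] using h5
  obtain ⟨ε, h1, h2⟩ := signs (ι := V) (fun j i => if o i then (f j i : ℝ) - f j (κ i) else 0)
    (fun j => (b j : ℝ) ^ 2 * N) (fun j => b j * z / 2)
    (fun j => by have := hb0 j; positivity) (fun j => by positivity) (fun j => by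
      refine (sum_le_card_nsmul _ _ ((b j : ℝ) ^ 2) fun i _ => ?_).trans (by simp [mul_comm, hN])
      have p1 : (f j i : ℝ) ≤ b j := by exact_mod_cast hb j i
      have p2 : (f j (κ i) : ℝ) ≤ b j := by exact_mod_cast hb j _
      have p3 : (0 : ℝ) ≤ f j i := by positivity
      have p4 : (0 : ℝ) ≤ f j (κ i) := by positivity
      split_ifs
      · exact sq_le_sq' (by linarith) (by linarith)
      · simp)
    (fun ε => if T = 0 then 1 else (c ε : ℝ) / T) (fun ε => by
      split_ifs with h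
      · rfl
      · exact div_le_one_of_le₀ (by exact_mod_cast hc ε) (by positivity))
    (G := 1 / 4) (η := 1 / N) (by norm_num) (by
      split_ifs with h
      · simp only [sum_const, card_univ, Fintype.card_fun, Fintype.card_bool, nsmul_eq_mul]
        push_cast
        have : (0 : ℝ) < 2 ^ Fintype.card V := by positivity
        linarith
      · rw [← sum_div, le_div_iff₀ (by positivity)]
        have : (T : ℝ) * 2 ^ N ≤ 4 * ∑ ε, (c ε : ℝ) := by exact_mod_cast hc2
        linarith) (by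
      have e1 : ∀ j, -((b j : ℝ) * z / 2) ^ 2 / (2 * ((b j : ℝ) ^ 2 * N))
          = -(z : ℝ) ^ 2 / (8 * N) := by
        intro j
        have := (hb0 j).ne'
        field_simp; ring
      simp only [e1, sum_const, card_univ, nsmul_eq_mul]
      have h3 : (Fintype.card J : ℝ) ≤ 4 * N ^ 2 := by exact_mod_cast hJ
      have h4 := exp_pos (-(z : ℝ) ^ 2 / (8 * N))
      rw [le_div_iff₀ (by positivity)]
      calc _ ≤ 4 * N ^ 2 * (2 * exp (-(z : ℝ) ^ 2 / (8 * N))) * N := by gcongr
        _ = 8 * N ^ 3 * exp (-(z : ℝ) ^ 2 / (8 * N)) := by ring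
        _ ≤ N * N ^ 3 * exp (-(z : ℝ) ^ 2 / (8 * N)) := by gcongr; linarith
        _ ≤ 1 := by rw [← pow_succ']; exact B1)
    (by rw [div_lt_div_iff₀ (by positivity) (by positivity)]; linarith)
  refine ⟨S ε, fun v hv => ?_, fun v hv => by simp [S, hv], fun j β => ?_, ?_⟩
  · simp only [S, hv, if_false, ho v hv, hκ v, hv.symm]
    by_cases p : o v <;> simp [p]
  · have e1 : (sd (S ε) true (f j) : ℝ) - sd (S ε) false (f j)
        = ∑ v ∈ (supp κ)ᶜ, sg (s0 v) * f j v
          + ∑ i, (if o i then (f j i : ℝ) - f j (κ i) else 0) * sg (ε i) := by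
      have e2 : ∑ i, (if o i then (f j (κ i) : ℝ) * sg (ε i) else 0)
          = ∑ i, (if o (κ i) then (f j i : ℝ) * sg (ε (κ i)) else 0) := by
        rw [← Equiv.sum_comp (Function.Involutive.toPerm κ hκ)]
        simp [hκ _]
      have e3 : ∑ i, (if o i then (f j i : ℝ) - f j (κ i) else 0) * sg (ε i)
          = ∑ i, (if o i then (f j i : ℝ) * sg (ε i) else 0)
            - ∑ i, (if o i then (f j (κ i) : ℝ) * sg (ε i) else 0) := by
        rw [← sum_sub_distrib]
        exact sum_congr rfl fun i _ => by split_ifs <;> ring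
      rw [e3, e2, ← univ_inter (supp κ)ᶜ, ← sum_ite_mem, ← sum_sub_distrib, ← sum_add_distrib]
      simp only [sd, Nat.cast_sum, ← sum_sub_distrib]
      refine sum_congr rfl fun v _ => ?_
      by_cases p : κ v = v
      · simp only [S, p, if_true, ho' v p]; cases s0 v <;> simp [sg, p]
      · by_cases q : o v
        · simp only [S, p, q, ho v p]; cases ε v <;> simp [sg, p]
        · simp only [S, p, q, ho v p]; cases ε (κ v) <;> simp [sg, p]
    have e4 : |∑ v ∈ (supp κ)ᶜ, sg (s0 v) * f j v| ≤ 2 * b j := by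
      refine (abs_sum_le_sum_abs _ _).trans ((sum_le_card_nsmul _ _ (b j : ℝ) fun v _ => ?_).trans ?_)
      · have p1 : (f j v : ℝ) ≤ b j := by exact_mod_cast hb j v
        cases s0 v <;> simpa [sg] using p1
      · rw [nsmul_eq_mul]; gcongr; exact_mod_cast hfix
    have e5 := h1 j
    have e6 : (b j : ℝ) * 4 ≤ b j * z := by gcongr; exact_mod_cast B3
    rw [abs_le] at e4 e5
    have : (sd (S ε) β (f j) : ℝ) ≤ sd (S ε) (!β) (f j) + b j * z := by
      cases β <;> simp only [Bool.not_true, Bool.not_false] <;> linarith [e4.1, e4.2, e5.1, e5.2]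
    exact_mod_cast this
  · rw [← hT]
    split_ifs at h2 with h
    · simp [h]
    · rw [le_div_iff₀ (by positivity)] at h2
      have : ((N - 8 : ℕ) : ℝ) * T ≤ 4 * N * c ε := by
        rw [Nat.cast_sub (by omega)]
        have e : ((N : ℝ) - (8 : ℕ)) * T = 4 * N * ((1 / 4 - 2 * (1 / N)) * T) := by
          field_simp; push_cast; ring
        rw [e]; gcongr
      exact_mod_cast this

/-- Thinning a bipartite multigraph to one half. -/
lemma thin (s : V → Bool) {C : V → V → ℕ} (hC : Gr C) (hb : ∀ u v, s u = s v → C u v = 0)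
    {z : ℕ} (hB : Big (Fintype.card V) z) :
    ∃ h : V → V → ℕ, Gr h ∧ (∀ u v, h u v ≤ C u v) ∧
      (∀ v, 2 * deg h v ≤ deg C v + z ∧ deg C v ≤ 2 * deg h v + z) ∧
      ∀ S T : Finset V, (∀ u ∈ S, s u = true) →
        2 * ∑ u ∈ S, ∑ v ∈ T, h u v ≤ ∑ u ∈ S, ∑ v ∈ T, C u v + z * Fintype.card V := by
  obtain ⟨B1, B2, B3⟩ := hB
  set N := Fintype.card V with hN
  have hN0 : (100 : ℝ) ≤ N := by exact_mod_cast B2
  let P : V ⊕ (Finset V × Finset V) → Finset (V × V) := fun j => match j with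
    | .inl v => if s v = true then {v} ×ˢ univ else univ ×ˢ {v}
    | .inr x => x.1 ×ˢ x.2
  let A : V ⊕ (Finset V × Finset V) → ℝ := fun j => match j with
    | .inl _ => N
    | .inr _ => N ^ 2
  let t : V ⊕ (Finset V × Finset V) → ℝ := fun j => match j with
    | .inl _ => z
    | .inr _ => z * N
  obtain ⟨ε, h1, -⟩ := signs (ι := V × V)
    (fun j i => if i ∈ P j ∧ C i.1 i.2 % 2 = 1 then (1 : ℝ) else 0) A t
    (by rintro (v | x) <;> simp only [A] <;> positivity)
    (by rintro (v | x) <;> simp only [t] <;> positivity) (fun j => by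
      have : ((P j).card : ℝ) ≤ A j := by
        rcases j with v | x
        · simp only [P, A]; split_ifs <;> simp [hN]
        · simp only [P, A, card_product]
          exact_mod_cast (Nat.mul_le_mul (card_le_univ _) (card_le_univ _)).trans (sq N).ge
      refine le_trans ?_ this
      rw [card_eq_sum_ones, Nat.cast_sum, ← univ_inter (P j), ← sum_ite_mem, univ_inter]
      exact sum_le_sum fun i _ => by split_ifs <;> simp_all)
    (fun _ => 0) (fun _ => zero_le_one) (G := 0) (η := 1 / 4) le_rfl (by simp) (by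
      rw [Fintype.sum_sum_type]
      simp only [A, t, sum_const, card_univ, nsmul_eq_mul, Fintype.card_prod, Fintype.card_finset,
        ← hN]
      obtain ⟨x, hx⟩ : ∃ x, x = exp (-(z : ℝ) ^ 2 / (8 * N)) := ⟨_, rfl⟩
      have x0 : 0 < x := hx ▸ exp_pos _
      have e1 : exp (-(z : ℝ) ^ 2 / (2 * N)) = x ^ 4 := by
        rw [hx, ← exp_nat_mul]; congr 1; field_simp; push_cast; ring
      have e2 : exp (-((z : ℝ) * N) ^ 2 / (2 * N ^ 2)) = (x ^ 4) ^ N := by
        rw [← e1, ← exp_nat_mul]; congr 1; field_simp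
      rw [← hx] at B1
      have x1 : N * x ≤ 1 / 100 := by
        have : (100 : ℝ) ≤ N ^ 3 := hN0.trans (le_self_pow₀ (by linarith) (by norm_num))
        have : 100 * (N * x) ≤ N ^ 3 * (N * x) := by gcongr
        nlinarith
      have x2 : x ≤ 1 / 100 := by nlinarith
      have x3 : x ^ 4 ≤ x := pow_le_of_le_one x0.le (by linarith) (by norm_num)
      have x4 : (4 * x ^ 4) ^ N ≤ 4 * x ^ 4 :=
        pow_le_of_le_one (by positivity) (by linarith) (by omega)
      have x5 : N * x ^ 4 ≤ N * x := by gcongr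
      rw [e1, e2]
      push_cast
      rw [← mul_pow, mul_left_comm _ 2 (_ ^ N), ← mul_pow]
      norm_num
      linarith) (by norm_num)
  let h0 : V → V → ℕ := fun u v => C u v / 2 + if C u v % 2 = 1 ∧ ε (u, v) = true then 1 else 0
  have key : ∀ j, |2 * (∑ i ∈ P j, (h0 i.1 i.2 : ℝ)) - ∑ i ∈ P j, (C i.1 i.2 : ℝ)| ≤ t j := by
    intro j
    convert h1 j using 2
    rw [mul_sum, ← sum_sub_distrib, ← univ_inter (P j), ← sum_ite_mem, univ_inter]
    refine sum_congr rfl fun i _ => ?_
    have e : (C i.1 i.2 : ℝ) = 2 * (C i.1 i.2 / 2 : ℕ) + (C i.1 i.2 % 2 : ℕ) := by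
      exact_mod_cast (Nat.div_add_mod _ 2).symm
    by_cases p : i ∈ P j
    · rw [e]
      rcases Nat.mod_two_eq_zero_or_one (C i.1 i.2) with q | q
      · simp [h0, p, q]
      · cases r : ε i <;> simp [h0, p, q, r, sg]; ring
    · simp [p]
  have hle : ∀ u v, h0 u v ≤ C u v := fun u v => by simp only [h0]; split_ifs <;> omega
  refine ⟨fun u v => if s u = true then h0 u v else h0 v u, ⟨fun u v => ?_, fun u => ?_⟩,
    fun u v => ?_, fun v => ?_, fun S T hS => ?_⟩
  · dsimp only
    by_cases e : s u = s v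
    · have := hle u v; have := hle v u; have := hb u v e; have := hb v u e.symm
      split_ifs <;> omega
    · revert e; cases s u <;> cases s v <;> simp
  · have := hle u u; have := hC.2 u; simp only [ite_self]; omega
  · dsimp only
    split_ifs
    · exact hle u v
    · rw [hC.1]; exact hle v u
  · have := key (.inl v)
    simp only [P, t, deg] at this ⊢
    split_ifs at this ⊢ with p
    · simp only [sum_product, sum_singleton, abs_le] at this
      constructor
      · have h2 : 2 * ∑ x, (h0 v x : ℝ) ≤ ∑ x, (C v x : ℝ) + z := by linarith [this.2]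
        exact_mod_cast h2
      · have h2 : ∑ x, (C v x : ℝ) ≤ 2 * ∑ x, (h0 v x : ℝ) + z := by linarith [this.1]
        exact_mod_cast h2
    · simp only [sum_product, sum_singleton, abs_le, hC.1 _ v] at this
      constructor
      · have h2 : 2 * ∑ x, (h0 x v : ℝ) ≤ ∑ x, (C v x : ℝ) + z := by linarith [this.2]
        exact_mod_cast h2
      · have h2 : ∑ x, (C v x : ℝ) ≤ 2 * ∑ x, (h0 x v : ℝ) + z := by linarith [this.1]
        exact_mod_cast h2
  · have := key (.inr (S, T))
    simp only [P, t, sum_product, abs_le] at this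
    rw [sum_congr rfl fun u hu => sum_congr rfl fun v _ => if_pos (hS u hu)]
    have h2 : 2 * ∑ u ∈ S, ∑ v ∈ T, (h0 u v : ℝ) ≤ ∑ u ∈ S, ∑ v ∈ T, (C u v : ℝ) + z * N := by
      linarith [this.2]
    exact_mod_cast h2

lemma exists_pairing (U : Finset V) (hU : Even U.card) : ∃ κ, Invo κ ∧ supp κ = U := by
  obtain ⟨σ, hσ⟩ := mOn_even (r := fun _ _ => True) hU (fun _ _ _ _ _ => trivial)
  refine ⟨fun v => if v ∈ U then σ v else v, fun v => ?_, ?_⟩
  · by_cases h : v ∈ U
    · simp [h, (hσ v h).1, (hσ v h).2.1]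
    · simp [h]
  · ext v
    by_cases h : v ∈ U
    · simp [h, (hσ v h).2.2.1]
    · simp [h]

lemma col_greedy {m : V → V → ℕ} (hm : Gr m) {D : ℕ} (hD : ∀ u, deg m u ≤ D) :
    ∃ Ms : Multiset (V → V), Ms.card = 2 * D + 1 ∧ (∀ σ ∈ Ms, Invo σ) ∧
      ∀ u v, m u v = oc Ms u v := by
  obtain ⟨Es, -, p2, p3⟩ := edges _ m hm rfl
  obtain ⟨Ns, a, b, c⟩ := greedy (fun _ => True) (Fintype.card V) 0 _ Es
    (Multiset.replicate (2 * D + 1) id) (by
      intro σ hσ; rw [Multiset.eq_of_mem_replicate hσ]; simp [invo_id]) (by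
      intro ι hι
      obtain ⟨a, b, h, rfl⟩ := p2 ι hι
      have hab : a ≠ b := fun e => by rw [e, hm.2] at h; omega
      rw [supp_sw hab, card_pair hab, sum_pair hab]
      simp only [deg_congr (oc_replicate_id _), ← deg_congr p3]
      have := hD a; have := hD b
      refine ⟨invo_sw a b, by omega, by simp, ?_⟩
      simp [deg] at *; omega) le_rfl (Or.inl le_rfl)
  exact ⟨Ns, by simpa using a, fun σ hσ => (b σ hσ).1, fun u v => by
    rw [c, oc_replicate_id, p3, zero_add]⟩

lemma viz_aux {z r : ℕ} (hB : Big (Fintype.card V) z) (hN : Even (Fintype.card V)) (hr : 0 < r)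
    (d j : ℕ) : ∀ m : V → V → ℕ, Gr m → (∀ u v, m u v ≤ r) → (∀ u, deg m u ≤ 2 ^ j * d + r * z) →
    ∃ Ms : Multiset (V → V), Ms.card = 2 ^ j * d + d + (j + 2) * (r * z) + 1 ∧
      (∀ σ ∈ Ms, Invo σ) ∧ ∀ u v, m u v = oc Ms u v := by
  induction j with
  | zero =>
    intro m hm _ h
    obtain ⟨Ms, a, b⟩ := col_greedy hm h
    exact ⟨Ms, by rw [a]; ring, b⟩
  | succ j ih =>
    intro m hm h1 h2
    obtain ⟨κ, k1, k2⟩ := exists_pairing (univ : Finset V) hN
    obtain ⟨s, -, -, hs, -⟩ := split k1 (fun _ => true) m (fun _ => r) (fun _ => hr) h1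
      (by nlinarith) (by simp [k2]) (fun _ _ => 0) (by simp) hB
    have e : ∀ u, deg (fun u v => if s v = s u then m u v else 0) u ≤ 2 ^ j * d + r * z ∧
        deg (fun u v => if s v = !s u then m u v else 0) u ≤ 2 ^ j * d + r * z := by
      intro u
      have a1 := hs u (s u)
      have a2 := hs u (!s u)
      have a3 := sd_add s (s u) (m u)
      have a4 := h2 u
      rw [Bool.not_not] at a2
      rw [pow_succ, mul_right_comm] at a4
      simp only [deg, sd] at *
      omega
    obtain ⟨M1, a1, a2, a3⟩ := ih (fun u v => if s v = s u then m u v else 0)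
      ⟨fun u v => by simp only [hm.1 u v, eq_comm (a := s u)], fun u => by simp [hm.2]⟩
      (fun u v => by split_ifs <;> simp [h1]) (fun u => (e u).1)
    obtain ⟨M2, b1, b2, b3⟩ := koenig' s _ (m := fun u v => if s v = !s u then m u v else 0)
      ⟨fun u v => by simp only [hm.1 u v]; cases s u <;> cases s v <;> simp, fun u => by simp⟩
      (fun u v h => by simp [h]) (fun u => (e u).2)
    refine ⟨M1 + M2, by rw [Multiset.card_add, a1, b1]; ring, fun σ hσ => ?_, fun u v => ?_⟩
    · rcases Multiset.mem_add.1 hσ with h | h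
      exacts [a2 σ h, b2 σ h]
    · rw [oc_add, ← a3, ← b3]; cases s u <;> cases s v <;> simp

/-- The error term `e` is enough for the approximate Vizing theorem. -/
def Viz (N e : ℕ) : Prop := ∃ z j, Big N z ∧ 2 ^ j + N / 2 ^ j + 3 + (j + 2) * z ≤ e

lemma viz {e r D C : ℕ} (hV : Viz (Fintype.card V) e) (hN : Even (Fintype.card V)) (hr : 0 < r)
    {m : V → V → ℕ} (hm : Gr m) (h1 : ∀ u v, m u v ≤ r) (h2 : ∀ u, deg m u ≤ D)
    (hC : D + r * e ≤ C) :
    ∃ Ms : Multiset (V → V), Ms.card = C ∧ (∀ σ ∈ Ms, Invo σ) ∧ ∀ u v, m u v = oc Ms u v := by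
  obtain ⟨z, j, hB, he⟩ := hV
  obtain ⟨D', hD'⟩ : ∃ D', D' = min D (r * Fintype.card V) := ⟨_, rfl⟩
  have hp : 0 < 2 ^ j := by positivity
  obtain ⟨Ms, a, b, c⟩ := viz_aux hB hN hr (D' / 2 ^ j + 1) j m hm h1 (fun u => by
    have := Nat.lt_mul_div_succ D' hp
    have : deg m u ≤ r * Fintype.card V :=
      (sum_le_card_nsmul _ _ r fun v _ => h1 u v).trans (by simp [mul_comm])
    have := h2 u
    omega)
  have h3 : Ms.card ≤ C := by
    have p1 := Nat.mul_div_le D' (2 ^ j)
    have p2 : D' / 2 ^ j ≤ r * (Fintype.card V / 2 ^ j + 1) := by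
      apply Nat.div_le_of_le_mul
      have := Nat.lt_mul_div_succ (Fintype.card V) hp
      calc D' ≤ r * Fintype.card V := by omega
        _ ≤ r * (2 ^ j * (Fintype.card V / 2 ^ j + 1)) := by gcongr
        _ = _ := by ring
    have p3 : r * (2 ^ j + Fintype.card V / 2 ^ j + 3 + (j + 2) * z) ≤ r * e := by gcongr
    have p4 : 2 ^ j ≤ r * 2 ^ j := Nat.le_mul_of_pos_left _ hr
    have p5 : D' ≤ D := by omega
    rw [a]; nlinarith
  obtain ⟨k, rfl⟩ := Nat.exists_eq_add_of_le h3
  refine ⟨Ms + Multiset.replicate k id, by simp, fun σ hσ => ?_, fun u v => by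
    rw [oc_add, oc_replicate_id, c, add_zero]⟩
  rcases Multiset.mem_add.1 hσ with h | h
  · exact b σ h
  · rw [Multiset.eq_of_mem_replicate h]; exact invo_id

/-- For large `N` the error terms can be taken as any fixed fraction of `N`. -/
lemma big_ev (P : ℕ) : ∃ N0, ∀ N z, N0 ≤ N → N ≤ P * z → Big N z := by
  have hP : (0 : ℝ) < 1 / (8 * (P + 1) ^ 2) := by positivity
  have := (tendsto_rpow_mul_exp_neg_mul_atTop_nhds_zero 4 _ hP).comp tendsto_natCast_atTop_atTop
  obtain ⟨N0, h⟩ := Filter.eventually_atTop.1 (this.eventually (ge_mem_nhds one_pos))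
  refine ⟨N0 + 100 + 4 * P, fun N z h1 h2 => ⟨?_, by omega, ?_⟩⟩
  · have h3 := h N (by omega)
    simp only [Function.comp_apply] at h3
    rw [show (4 : ℝ) = (4 : ℕ) by norm_num, rpow_natCast] at h3
    refine le_trans (mul_le_mul_of_nonneg_left (exp_le_exp.2 ?_) (by positivity)) h3
    have hN : (0 : ℝ) < N := by exact_mod_cast (by omega : 0 < N)
    have h4 : (N : ℝ) ≤ (P + 1) * z := by exact_mod_cast h2.trans (by nlinarith)
    rw [neg_div, neg_mul, neg_le_neg_iff, le_div_iff₀ (by positivity)]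
    have : (N : ℝ) ^ 2 ≤ ((P + 1) * z) ^ 2 := by gcongr
    have e : 1 / (8 * ((P : ℝ) + 1) ^ 2) * N * (8 * N) = N ^ 2 / (P + 1) ^ 2 := by field_simp
    rw [e, div_le_iff₀ (by positivity)]; nlinarith
  · by_contra h3
    have : P * z ≤ P * 3 := Nat.mul_le_mul_left _ (by omega)
    omega

lemma viz_ev (P : ℕ) : ∃ N0, ∀ N e, N0 ≤ N → N ≤ P * e → Viz N e := by
  obtain ⟨N0, h⟩ := big_ev (P * (8 * (4 * P + 2)))
  refine ⟨N0 + P * (4 * 2 ^ (4 * P) + 8 * (4 * P + 2) + 12), fun N e h1 h2 => ?_⟩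
  rcases Nat.eq_zero_or_pos P with rfl | hP
  · have := (h N 0 (by omega) (by omega)).2.2; omega
  have h3 : 4 * 2 ^ (4 * P) + 8 * (4 * P + 2) + 12 ≤ e :=
    Nat.le_of_mul_le_mul_left (by omega) hP
  have p0 : 0 < 4 * (4 * P + 2) := by omega
  have p1 := Nat.mul_div_le e (4 * (4 * P + 2))
  have p2 := Nat.lt_mul_div_succ e p0
  have p3 : 1 ≤ e / (4 * (4 * P + 2)) := by rw [Nat.le_div_iff_mul_le p0]; omega
  refine ⟨e / (4 * (4 * P + 2)), 4 * P, h N _ (by omega) (h2.trans ?_), ?_⟩
  · rw [mul_assoc]; exact Nat.mul_le_mul_left _ (by nlinarith)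
  · have p4 : 4 * (N / 2 ^ (4 * P)) ≤ e := by
      have q1 := Nat.mul_div_le N (2 ^ (4 * P))
      have q2 : 4 * P ≤ 2 ^ (4 * P) := Nat.lt_two_pow_self.le
      have q3 : 4 * P * (N / 2 ^ (4 * P)) ≤ 2 ^ (4 * P) * (N / 2 ^ (4 * P)) := by gcongr
      exact Nat.le_of_mul_le_mul_left (by nlinarith) hP
    nlinarith

end Pool.Agent.P.MP_303500_co
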