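import Pool.Agent.P.MP_303500_co.Assign
import Pool.Agent.P.MP_303500_co.Engine
import Pool.Agent.P.MP_303500_co.Kempe
import Pool.Agent.P.MP_303500_co.Signs

/-! From a special colouring and two dense graphs to the engine. -/

set_option linter.unusedSectionVars false

namespace Pool.Agent.P.MP_303500_co
open Finset

variable {V : Type} [Fintype V] [DecidableEq V]

/-- Three well separated scales. -/
structure Sc (n a b x : ℕ) : Prop where
  h0 : 2 ≤ a
  h1 : 2 * n ≤ a ^ 2
  h2 : 50 * a * n ≤ b ^ 2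
  h3 : 9 * b * n ≤ x ^ 2
  h4 : 1000 * x ≤ n
  h5 : 1000 * a ≤ b
  h6 : 1000 * b ≤ x

lemma miss_add_deg (Ms : Multiset (V → V)) (v : V) :
    Ms.countP (fun σ => σ v = v) + deg (oc Ms) v = Ms.card := by
  rw [deg_oc, Multiset.card_eq_countP_add_countP (fun σ => σ v = v)]

lemma oc_edge {Ms : Multiset (V → V)} {σ : V → V} (h : σ ∈ Ms) {v : V} (hv : σ v ≠ v) :
    0 < oc Ms v (σ v) := oc_pos.2 ⟨σ, h, rfl, hv.symm⟩

lemma deg_zero {m : V → V → ℕ} {v : V} (h : ∀ u, m v u = 0) : deg m v = 0 := by simp [deg, h]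

lemma sum_deg_le {Ms : Multiset (V → V)} {y : ℕ} (h : ∀ σ ∈ Ms, (supp σ).card ≤ y) :
    ∑ v, deg (oc Ms) v ≤ Ms.card * y := by
  rw [sum_deg_oc]
  simpa using Multiset.sum_le_card_nsmul (Ms.map fun σ => (univ ∩ supp σ).card) y (by
    intro x hx; obtain ⟨σ, hσ, rfl⟩ := Multiset.mem_map.1 hx; simpa using h σ hσ)

lemma dense {Ms : Multiset (V → V)} (h1 : ∀ σ ∈ Ms, Invo σ) {X0 : Finset V} {a e y : ℕ}
    (hX : X0.card ≤ a) (h2 : ∀ v ∉ X0, Ms.card ≤ deg (oc Ms) v + e)
    (h3 : Fintype.card V * e ≤ Ms.card * y) :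
    ∃ Ns : Multiset (V → V), Ns.card = Ms.card ∧
      (∀ σ ∈ Ns, Invo σ ∧ (supp σ)ᶜ.card ≤ a + y + 2) ∧ ∀ u v, oc Ns u v = oc Ms u v := by
  refine equit_ge Ms h1 ?_
  have : ∑ _v : V, Ms.card ≤ ∑ v, (deg (oc Ms) v + e + if v ∈ X0 then Ms.card else 0) :=
    sum_le_sum fun v _ => by
      split_ifs with h
      · omega
      · exact h2 v h
  simp only [sum_add_distrib, sum_const, card_univ, smul_eq_mul, sum_ite_mem, univ_inter] at this
  have := Nat.mul_le_mul_right Ms.card hX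
  nlinarith

lemma Cls.mono {c : Cf V} {y y' : ℕ} {σ : V → V} (h : Cls c y σ) (hy : y ≤ y') : Cls c y' σ :=
  ⟨h.1, h.2.imp (fun h => ⟨h.1.trans hy, h.2⟩) fun h => ⟨h.1.trans hy, h.2⟩⟩

theorem assemble (c : Cf V) {n a b x r : ℕ} (hS : Sc n a b x) (hN : Fintype.card V = 2 * n)
    (hr : 0 < r) (hV : Viz (Fintype.card V) a) {m W Y Do Dc : V → V → ℕ} {Ss : Multiset (V → V)}
    {X0 : Finset V} {Df k1 k2 : ℕ} (hm : ∀ v, deg m v = Df + Ss.card)
    (hK : Ss.card = k1 + k2 + 2 * r * x) (hK2 : Ss.card ≤ r * n)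
    (hdec : ∀ u v, m u v = W u v + Y u v + oc Ss u v + Do u v + Dc u v) (hmr : ∀ u v, m u v ≤ r)
    (gW : Gr W) (gY : Gr Y) (gO : Gr Do) (gC : Gr Dc) (hW : ∀ u v, 0 < W u v → c.Crs u v)
    (hG : Good c W (3 * r * x) (22 * x) (20 * x)) (hY : ∀ u v, c.side u = c.side v → Y u v = 0)
    (hY' : ∀ β, wsum (c.sgn β) Y = Df * c.dl univ β)
    (hO : ∀ u v, 0 < Do u v → c.Own u v ∧ u ∉ X0) (hC : ∀ u v, 0 < Dc u v → c.Crs u v ∧ u ∉ X0)
    (hX : X0.card ≤ a) (hd : (c.dl univ true).natAbs + (c.dl univ false).natAbs ≤ a)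
    (o1 : ∀ v, deg Do v + r * a ≤ k1 + r * b) (o2 : ∀ v ∉ X0, k1 + r * b ≤ deg Do v + 5 * r * a)
    (c1 : ∀ v, deg Dc v ≤ k2 + r * b) (c2 : ∀ v ∉ X0, k2 + r * b ≤ deg Dc v + 5 * r * a)
    (o3 : r * n ≤ 5 * (k1 + r * b)) (c3 : r * n ≤ 5 * (k2 + r * b))
    (s1 : ∀ σ ∈ Ss, Invo σ ∧ Lt c.p (c.dl (supp σ)ᶜ) ∧ (supp σ).card ≤ 12 * a)
    (s2 : ∀ v ∈ X0, Ss.card ≤ deg (oc Ss) v + 3 * r * a) (s3 : ∀ v ∉ X0, deg (oc Ss) v ≤ 2 * r * a)
    (hp : ∀ s β, 2 * b ≤ (univ.filter fun v => c.side v = s ∧ c.blk v = β).card) : Fac m := by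
  obtain ⟨t0, t1, t2, t3, t4, t5, t6⟩ := hS
  have u1 : 1000 * (r * a) ≤ r * b := by rw [mul_left_comm]; exact Nat.mul_le_mul_left _ t5
  have u2 : 1000 * (r * b) ≤ r * x := by rw [mul_left_comm]; exact Nat.mul_le_mul_left _ t6
  have u3 : a ≤ r * a := Nat.le_mul_of_pos_left _ hr
  have hb : 0 < b := by omega
  simp only [mul_assoc] at *
  obtain ⟨O0, a1, a2, a3⟩ := viz (D := k1 + r * b - r * a) (C := k1 + r * b) hV (by simp [hN]) hr gO
    (fun u v => by have := hdec u v; have := hmr u v; omega) (fun v => by have := o1 v; omega)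
    (by omega)
  obtain ⟨Os, b1, b2, b3⟩ := dense a2 (e := 5 * (r * a)) (y := 50 * a) hX
    (fun v hv => by rw [← deg_congr a3, a1]; exact o2 v hv) (by
      have := Nat.mul_le_mul_right a o3
      rw [a1, hN]; clear * - this; nlinarith)
  obtain ⟨C0, a4, a5, a6⟩ := koenig' c.side _ gC (fun u v h => by
    by_contra h'; have := (hC u v (by omega)).1.1; simp [h] at this) c1
  obtain ⟨Xs, b4, b5, b6⟩ := dense a5 (e := 5 * (r * a)) (y := 50 * a) hX
    (fun v hv => by rw [← deg_congr a6, a4]; exact c2 v hv) (by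
      have := Nat.mul_le_mul_right a c3
      rw [a4, hN]; clear * - this; nlinarith)
  replace b3 : ∀ u v, oc Os u v = Do u v := fun u v => by rw [b3, a3]
  replace b6 : ∀ u v, oc Xs u v = Dc u v := fun u v => by rw [b6, a6]
  rw [a1] at b1
  rw [a4] at b4
  clear a1 a2 a3 a4 a5 a6 O0 C0
  obtain ⟨A1, A, rfl, e1⟩ := exists_le_card Ss (k := k1) (by omega)
  rw [Multiset.card_add] at hK hK2 hm s2
  have hl : Fintype.card V ≤ a ^ 2 := hN ▸ t1
  have he : ∀ k y, k ≤ r * n → y ≤ 25 * a → 2 * r * y * k ≤ r * b * (r * b) := fun k y h h' => by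
    calc _ ≤ 2 * r * (25 * a) * (r * n) := by gcongr
      _ = r * r * (50 * (a * n)) := by ring
      _ ≤ r * r * b ^ 2 := by gcongr
      _ = _ := by ring
  obtain ⟨P1, Js, rfl, rfl, p1⟩ := assign (Ts := A1) (Ss := Os) (r := r) (y := 12 * a)
    (m0 := r * b) (by omega)
    (fun τ h => (s1 τ (Multiset.mem_add.2 (Or.inl h))).2.2) (by omega)
    (fun u v => by have := hdec u v; have := hmr u v; have := b3 u v; omega) hl
    (he _ _ (by omega) (by omega))
  simp only [Multiset.card_add, Multiset.card_map] at b1 e1 hK hK2 hm s2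
  have own : ∀ σ ∈ P1.map Prod.snd + Js, ∀ v, σ v ≠ v → c.Own v (σ v) :=
    fun σ h v hv => (hO _ _ (b3 _ _ ▸ oc_edge h hv)).1
  obtain ⟨A', Lf, f1, f2, f3, f4, f5⟩ := supply c (y := 12 * a) (g := n / b + 1) hd Js A (by
      have q1 := Nat.mul_le_mul_left r (Nat.lt_mul_div_succ n hb).le
      have q2 : A.card ≤ r * n := by omega
      rw [show Js.card = r * b by omega]; clear * - q1 q2; nlinarith) (fun σ h => by
      have h' := Multiset.mem_add.2 (Or.inr h : σ ∈ P1.map Prod.snd ∨ σ ∈ Js)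
      refine ⟨(b2 σ h').1, own σ h', fun s β => ?_⟩
      have := card_filter_sdiff univ (supp σ)ᶜ fun v => c.side v = s ∧ c.blk v = β
      rw [← compl_eq_univ_sdiff, compl_compl] at this
      have := hp s β; have := (b2 σ h').2
      have : 50 * (a * (n / b)) ≤ b := by
        have q1 := Nat.mul_le_mul_left a (Nat.mul_div_le n b)
        exact Nat.le_of_mul_le_mul_left (by clear * - q1 t2; nlinarith) hb
      have : (12 * a + a) * (n / b + 1) = 13 * (a * (n / b)) + 13 * a := by ring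
      omega) (fun τ h => s1 τ (Multiset.mem_add.2 (Or.inr h)))
  obtain ⟨A2, A3, rfl, e2⟩ := exists_le_card A' (k := k2) (by omega)
  obtain ⟨P2, Rs, rfl, rfl, p2⟩ := assign (Ts := A2) (Ss := Xs) (r := r) (y := 25 * a)
    (m0 := r * b) (by omega)
    (fun τ h => by have := (f3 τ (Multiset.mem_add.2 (Or.inl h))).2.2; omega) (by omega)
    (fun u v => by have := hdec u v; have := hmr u v; have := b6 u v; omega) hl
    (he _ _ (by rw [Multiset.card_add] at f1; omega) le_rfl)
  simp only [Multiset.card_add, Multiset.card_map] at b4 e2 f1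
  have crs : ∀ σ ∈ P2.map Prod.snd + Rs, ∀ v, σ v ≠ v → c.Crs v (σ v) :=
    fun σ h v hv => (hC _ _ (b6 _ _ ▸ oc_edge h hv)).1
  have g1 : Gr (oc (P1.map rm)) := gr_oc fun σ h => by
    obtain ⟨p, hp, rfl⟩ := Multiset.mem_map.1 h
    exact (b2 _ (Multiset.mem_add.2 (Or.inl (Multiset.mem_map_of_mem _ hp)))).1.ser _
  have g2 : Gr (oc (P2.map rm + Rs)) := gr_oc fun σ h => by
    rcases Multiset.mem_add.1 h with h | h
    · obtain ⟨p, hp, rfl⟩ := Multiset.mem_map.1 h
      exact (b5 _ (Multiset.mem_add.2 (Or.inl (Multiset.mem_map_of_mem _ hp)))).1.ser _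
    · exact (b5 _ (Multiset.mem_add.2 (Or.inr h))).1
  have l1 : ∀ u v, oc (P1.map rm) u v + Lf u v ≤ Do u v := fun u v => by
    have := oc_rm P1 u v; have := f5 u v; have := b3 u v
    rw [oc_add] at *; omega
  have l2 : ∀ u v, oc (P2.map rm + Rs) u v ≤ Dc u v := fun u v => by
    have := oc_rm P2 u v; have := b6 u v
    rw [oc_add] at *; omega
  have z1 : ∀ v ∈ X0, deg Do v = 0 := fun v hv => deg_zero fun u => by
    by_contra h; exact (hO v u (by omega)).2 hv
  have d1 : ∀ v, deg (oc (P2.map Prod.fst)) v + deg (oc A3) v + deg Lf v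
      = deg (oc A) v + deg (oc Js) v := fun v => by
    rw [← deg_oc_add, ← deg_add, ← deg_add]; exact deg_congr f4 v
  have d2 : ∀ v, deg Lf v ≤ deg (oc Js) v := deg_mono f5
  have d3 : ∀ v, deg (oc (P1.map Prod.snd)) v + deg (oc Js) v = deg Do v := fun v => by
    rw [← deg_oc_add]; exact deg_congr b3 v
  have d4 : ∀ v, deg (oc (P2.map Prod.snd)) v + deg (oc Rs) v = deg Dc v := fun v => by
    rw [← deg_oc_add]; exact deg_congr b6 v
  have d5 : ∀ v ∉ X0, deg (fun u v => oc (P1.map rm) u v + Lf u v) v + deg (oc A3) v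
      ≤ 4 * (r * b) := fun v hv => by
    have := s3 v hv; have := deg_rm P1 v; have := p1 v; have := d1 v; have := deg_oc_le Js v
    rw [deg_oc_add] at *
    rw [deg_add]; omega
  refine engine c (W := W) (Y := fun u v => Y u v + oc (P2.map rm + Rs) u v)
    (R0 := fun u v => oc (P1.map rm) u v + Lf u v) (Cs := P1.map mg + P2.map mg) (Ts := A3)
    (X0 := X0) (Df := Df) (y := 102 * a) (lam := 3 * (r * b)) (lam' := 4 * (r * b))
    (ρ := 3 * (r * b)) (b := 4 * b) (cc := x) (f := r * x) (fun v => by rw [hm]; simp; omega)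
    (fun u v => ?_) gW (gY.add g2) (g1.add f2) hW hG (fun u v h => ?_) (fun β => ?_)
    (fun u v h => (hO u v (h.trans_le (l1 u v))).1) (fun σ h => ?_) (fun v => ?_)
    (fun σ h => ?_) (fun v hv => ?_) d5 (by omega) ?_ (by omega) (by omega) (by omega) (by omega) ?_
  · have := hdec u v; have := oc_mg P1 u v; have := oc_mg P2 u v; have := f4 u v
    have := b3 u v; have := b6 u v
    simp only [oc_add] at *; omega
  · have := l2 u v
    have : Dc u v = 0 := by by_contra h'; have := (hC u v (by omega)).1.1; simp [h] at this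
    have := hY u v h; omega
  · rw [wsum_add, hY', wsum_zero g2.1 fun u v h => (hC u v (h.trans_le (l2 u v))).1.sgn β, add_zero]
  · rcases Multiset.mem_add.1 h with h | h <;> obtain ⟨p, hp, rfl⟩ := Multiset.mem_map.1 h
    · have q1 := s1 _ (Multiset.mem_add.2 (Or.inl (Multiset.mem_map_of_mem _ hp)))
      have h' := Multiset.mem_add.2 (Or.inl (Multiset.mem_map_of_mem Prod.snd hp) : _ ∨ _ ∈ Js)
      exact cls_own c (y1 := 52 * a) (y2 := 25 * a) q1.1 (b2 _ h').1 (own _ h')
        (by have := (b2 _ h').2; omega) (by omega) q1.2.1 |>.mono (by omega)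
    · have q1 := f3 _ (Multiset.mem_add.2 (Or.inl (Multiset.mem_map_of_mem _ hp)))
      have h' := Multiset.mem_add.2 (Or.inl (Multiset.mem_map_of_mem Prod.snd hp) : _ ∨ _ ∈ Rs)
      exact cls_crs c (y1 := 52 * a) (y2 := 25 * a) q1.1 (b5 _ h').1 (crs _ h')
        (by have := (b5 _ h').2; omega) (by omega) q1.2.1 |>.mono (by omega)
  · rw [Multiset.countP_add]
    have := miss_mg P1 v; have := miss_mg P2 v
    have := miss_add_deg (P1.map Prod.fst) v; have := miss_add_deg (P1.map Prod.snd) v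
    have := miss_add_deg (P2.map Prod.fst) v; have := miss_add_deg (P2.map Prod.snd) v
    have := d1 v; have := d2 v; have := d3 v; have := d4 v
    have := deg_oc_le Js v; have := deg_oc_le Rs v; have := deg_oc_le A3 v
    have := p1 v; have := p2 v
    simp only [Multiset.card_map] at *
    by_cases hv : v ∈ X0
    · have := s2 v hv; have := z1 v hv
      rw [deg_oc_add] at *; omega
    · have := o2 v hv; have := c2 v hv; omega
  · have := f3 σ (Multiset.mem_add.2 (Or.inr h))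
    exact ⟨this.1, this.2.1, by omega⟩
  · have := deg_mono l1 v; have := z1 v hv; omega
  · simp only [Multiset.card_add, Multiset.card_map]
    calc _ ≤ 5 * (102 * a) * (r * n) := by gcongr; omega
      _ = 510 * r * (a * n) := by ring
      _ ≤ 12 * r * (50 * (a * n)) := by clear * -; nlinarith [Nat.zero_le (r * (a * n))]
      _ ≤ 12 * r * b ^ 2 := by gcongr
      _ = _ := by ring
  · simp only [Multiset.card_add, Multiset.card_map]
    have q1 := sum_deg_le (Ms := A3) (y := 25 * a) fun σ h => by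
      have := (f3 σ (Multiset.mem_add.2 (Or.inr h))).2.2; omega
    have q2 := sum_le_card_nsmul univ (deg fun u v => oc (P1.map rm) u v + Lf u v) (4 * (r * b))
      fun v _ => by
        by_cases hv : v ∈ X0
        · have := deg_mono l1 v; have := z1 v hv; omega
        · have := d5 v hv; omega
    rw [card_univ, hN, smul_eq_mul] at q2
    have q3 : A3.card * (25 * a) ≤ r * n * (25 * a) := by gcongr; omega
    have q4 : 5 * (102 * a) * (P1.card + P2.card) ≤ 5 * (102 * a) * (r * n) := by gcongr; omega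
    have q5 : r * n * (1000 * a) ≤ r * n * b := by gcongr
    have q6 : r * (9 * (b * n)) ≤ r * x ^ 2 := by gcongr
    have r1 : r * n * (25 * a) = 25 * (r * n * a) := by ring
    have r2 : 5 * (102 * a) * (r * n) = 510 * (r * n * a) := by ring
    have r3 : r * n * (1000 * a) = 1000 * (r * n * a) := by ring
    have r4 : r * (9 * (b * n)) = 9 * (r * n * b) := by ring
    have r5 : 2 * n * (4 * (r * b)) = 8 * (r * n * b) := by ring
    have r6 : r * x ^ 2 = r * x * x := by ring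
    rw [r1] at q3; rw [r2] at q4; rw [r3] at q5; rw [r4, r6] at q6; rw [r5] at q2
    exact (add_le_add (add_le_add (q1.trans q3) q2) q4).trans (by omega)

end Pool.Agent.P.MP_303500_co
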