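import Pool.Agent.P.MP_303500_co.Paths

/-! Merging small special classes with dense classes. -/

set_option linter.unusedSectionVars false

namespace Pool.Agent.P.MP_303500_co
open Finset

variable {V : Type} [Fintype V] [DecidableEq V]

/-- Number of pairs in which the partner of `v` is covered by the special class. -/
def load (Ps : Multiset ((V → V) × (V → V))) (v : V) : ℕ :=
  Ps.countP fun p => p.2 v ≠ v ∧ p.1 (p.2 v) ≠ p.2 v

lemma count_hit (τ : V → V) (Ss : Multiset (V → V)) (v : V) :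
    Ss.countP (fun σ => σ v ≠ v ∧ τ (σ v) ≠ σ v) ≤ ∑ x ∈ supp τ, oc Ss v x := by
  induction Ss using Multiset.induction_on with
  | empty => simp
  | cons σ Ss ih =>
    simp only [Multiset.countP_cons, oc_cons, sum_add_distrib]
    split_ifs with h
    · have := single_le_sum (f := fun x => oc {σ} v x) (s := supp τ) (by simp) (mem_supp.2 h.2)
      rw [oc_single, if_pos ⟨rfl, h.1.symm⟩] at this
      omega
    · omega

lemma sum_hit (wt : V → ℝ) (p : (V → V) → V → Prop) [∀ σ v, Decidable (p σ v)]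
    (Ss : Multiset (V → V)) : (Ss.map fun σ => ∑ v, if p σ v then wt v else 0).sum
      = ∑ v, wt v * (Ss.countP (fun σ => p σ v) : ℕ) := by
  induction Ss using Multiset.induction_on with
  | empty => simp
  | cons σ Ss ih =>
    rw [Multiset.map_cons, Multiset.sum_cons, ih, ← sum_add_distrib]
    refine sum_congr rfl fun v _ => ?_
    rw [Multiset.countP_cons]; split_ifs <;> push_cast <;> ring

lemma assign_aux {r y m0 : ℕ} (hm0 : 0 < m0) (Ts : Multiset (V → V)) :
    ∀ (Ss : Multiset (V → V)) (wt : V → ℝ), (∀ τ ∈ Ts, (supp τ).card ≤ y) → (∀ v, 0 ≤ wt v) →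
    Ss.card = Ts.card + m0 → (∀ u v, oc Ss u v ≤ r) →
    ∃ (Ps : Multiset ((V → V) × (V → V))) (Rs : Multiset (V → V)), Ps.map Prod.fst = Ts ∧
      Ss = Ps.map Prod.snd + Rs ∧ ∑ v, wt v * Real.exp (load Ps v) ≤
        (∑ v, wt v) * Real.exp (2 * r * y / m0 * Ts.card) := by
  induction Ts using Multiset.induction_on with
  | empty => intro Ss wt _ _ _ _; exact ⟨0, Ss, rfl, by simp, by simp [load]⟩
  | cons τ Ts ih =>
    intro Ss wt h1 h2 h3 h4
    rw [Multiset.card_cons] at h3
    have hS : 0 ≤ ∑ v, wt v := sum_nonneg fun v _ => h2 v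
    obtain ⟨σ, hσ, h5⟩ : ∃ σ ∈ Ss, ∑ v, (if σ v ≠ v ∧ τ (σ v) ≠ σ v then wt v else 0) ≤
        (∑ v, wt v) * (r * y / m0) := by
      by_contra hc
      push Not at hc
      have a1 := Multiset.sum_lt_sum_of_nonempty (s := Ss) (by rintro e; simp [e] at h3; omega) hc
      rw [sum_hit wt (fun σ v => σ v ≠ v ∧ τ (σ v) ≠ σ v)] at a1
      have a2 : ∑ v, wt v * (Ss.countP (fun σ => σ v ≠ v ∧ τ (σ v) ≠ σ v) : ℕ) ≤
          (∑ v, wt v) * (r * y) := by
        rw [sum_mul]
        refine sum_le_sum fun v _ => mul_le_mul_of_nonneg_left ?_ (h2 v)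
        have := (count_hit τ Ss v).trans (sum_le_card_nsmul _ _ r fun x _ => h4 v x)
        have := Nat.mul_le_mul_right r (h1 τ (Multiset.mem_cons_self _ _))
        rw [smul_eq_mul] at *
        exact_mod_cast (by linarith : _ ≤ r * y)
      have a3 : (m0 : ℝ) ≤ Ss.card := by exact_mod_cast (by omega : m0 ≤ Ss.card)
      have a4 : (∑ v, wt v) * (r * y) = m0 * ((∑ v, wt v) * (r * y / m0)) := by field_simp
      have a5 := mul_le_mul_of_nonneg_right a3
        (show 0 ≤ (∑ v, wt v) * (r * y / m0) by positivity)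
      simp only [Multiset.map_const', Multiset.sum_replicate, nsmul_eq_mul] at a1
      linarith
    obtain ⟨Ss', rfl⟩ := Multiset.exists_cons_of_mem hσ
    obtain ⟨Ps, Rs, p1, p2, p3⟩ := ih Ss'
      (fun v => wt v * Real.exp (if σ v ≠ v ∧ τ (σ v) ≠ σ v then 1 else 0))
      (fun τ' h => h1 τ' (Multiset.mem_cons_of_mem h))
      (fun v => mul_nonneg (h2 v) (Real.exp_pos _).le) (by simp at h3; omega)
      (fun u v => (oc_mono (Multiset.le_cons_self _ _) u v).trans (h4 u v))
    refine ⟨(τ, σ) ::ₘ Ps, Rs, by simp [p1], by simp [p2], ?_⟩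
    have a1 : ∑ v, wt v * Real.exp (if σ v ≠ v ∧ τ (σ v) ≠ σ v then 1 else 0) ≤
        (∑ v, wt v) * Real.exp (2 * r * y / m0) := by
      have b1 : ∑ v, wt v * Real.exp (if σ v ≠ v ∧ τ (σ v) ≠ σ v then 1 else 0) ≤
          ∑ v, wt v + 2 * ∑ v, (if σ v ≠ v ∧ τ (σ v) ≠ σ v then wt v else 0) := by
        rw [mul_sum, ← sum_add_distrib]
        refine sum_le_sum fun v _ => ?_
        have := h2 v; have := Real.exp_one_lt_three
        split_ifs
        · nlinarith
        · simp
      have b2 := mul_le_mul_of_nonneg_left (Real.add_one_le_exp (2 * r * y / m0)) hS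
      have b3 : (2 * r * y / m0 : ℝ) = 2 * (r * y / m0) := by ring
      rw [b3] at b2 ⊢; linarith
    calc _ = ∑ v, wt v * Real.exp (if σ v ≠ v ∧ τ (σ v) ≠ σ v then 1 else 0)
          * Real.exp (load Ps v) := by
          refine sum_congr rfl fun v _ => ?_
          rw [mul_assoc, ← Real.exp_add, load, load, Multiset.countP_cons]
          push_cast; rw [add_comm]
      _ ≤ _ := p3
      _ ≤ (∑ v, wt v) * Real.exp (2 * r * y / m0) * Real.exp (2 * r * y / m0 * Ts.card) := by
          gcongr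
      _ = _ := by rw [mul_assoc, ← Real.exp_add, Multiset.card_cons]; push_cast; ring_nf

lemma assign {r y m0 l e : ℕ} (hm0 : 0 < m0) {Ts Ss : Multiset (V → V)}
    (h1 : ∀ τ ∈ Ts, (supp τ).card ≤ y) (h3 : Ss.card = Ts.card + m0) (h4 : ∀ u v, oc Ss u v ≤ r)
    (hl : Fintype.card V ≤ l ^ 2) (he : 2 * r * y * Ts.card ≤ e * m0) :
    ∃ (Ps : Multiset ((V → V) × (V → V))) (Rs : Multiset (V → V)), Ps.map Prod.fst = Ts ∧
      Ss = Ps.map Prod.snd + Rs ∧ ∀ v, load Ps v ≤ 2 * l + e := by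
  obtain ⟨Ps, Rs, p1, p2, p3⟩ := assign_aux hm0 Ts Ss (fun _ => 1) h1 (by simp) h3 h4
  refine ⟨Ps, Rs, p1, p2, fun v => ?_⟩
  have a1 := single_le_sum (f := fun v => 1 * Real.exp (load Ps v)) (s := univ)
    (fun _ _ => by positivity) (mem_univ v)
  have a2 : (2 * r * y / m0 * Ts.card : ℝ) ≤ e := by
    rw [div_mul_eq_mul_div, div_le_iff₀ (by positivity)]; exact_mod_cast he
  have a3 : (Fintype.card V : ℝ) ≤ Real.exp (2 * l) := by
    have : (l : ℝ) ≤ Real.exp l := by linarith [Real.add_one_le_exp l]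
    calc _ ≤ (l : ℝ) ^ 2 := by exact_mod_cast hl
      _ ≤ Real.exp l ^ 2 := by gcongr
      _ = _ := by rw [← Real.exp_nat_mul]; norm_num
  have a4 : Real.exp (load Ps v) ≤ Real.exp (2 * l + e) := by
    rw [Real.exp_add]
    simp only [one_mul, sum_const, card_univ, nsmul_eq_mul, mul_one] at a1 p3
    exact a1.trans (p3.trans (by gcongr))
  exact_mod_cast Real.exp_le_exp.1 a4

/-- The merged class. -/
def mg (p : (V → V) × (V → V)) : V → V := un p.1 (res p.2 (supp p.1)ᶜ)

/-- The removed edges. -/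
def rm (p : (V → V) × (V → V)) : V → V := ser p.2 (supp p.1)ᶜ

lemma mg_disj (p : (V → V) × (V → V)) (v : V) : p.1 v = v ∨ res p.2 (supp p.1)ᶜ v = v := by
  by_contra h
  push Not at h
  simpa [h.1] using (mem_supp_res.1 h.2).1

lemma oc_mg (Ps : Multiset ((V → V) × (V → V))) (u v : V) :
    oc (Ps.map mg) u v + oc (Ps.map rm) u v
      = oc (Ps.map Prod.fst) u v + oc (Ps.map Prod.snd) u v := by
  induction Ps using Multiset.induction_on with
  | empty => simp
  | cons p Ps ih =>
    have := oc_res p.2 (supp p.1)ᶜ u v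
    simp only [Multiset.map_cons, oc_cons, mg, rm, oc_un (mg_disj p)] at *
    omega

lemma oc_rm (Ps : Multiset ((V → V) × (V → V))) (u v : V) :
    oc (Ps.map rm) u v ≤ oc (Ps.map Prod.snd) u v := by
  induction Ps using Multiset.induction_on with
  | empty => simp
  | cons p Ps ih =>
    have := oc_res p.2 (supp p.1)ᶜ u v
    simp only [Multiset.map_cons, oc_cons, rm] at *
    omega

lemma countP_or {α : Type} (M : Multiset α) (p q r : α → Prop) [DecidablePred p] [DecidablePred q]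
    [DecidablePred r] (h : ∀ x, p x → q x ∨ r x) : M.countP p ≤ M.countP q + M.countP r := by
  induction M using Multiset.induction_on with
  | empty => simp
  | cons x M ih =>
    have := h x
    simp only [Multiset.countP_cons]
    split_ifs <;> first | omega | tauto

lemma countP_map' {α β : Type} (M : Multiset α) (f : α → β) (p : β → Prop) [DecidablePred p] :
    (M.map f).countP p = M.countP fun x => p (f x) := by
  rw [Multiset.countP_map, Multiset.countP_eq_card_filter]

lemma deg_rm (Ps : Multiset ((V → V) × (V → V))) (v : V) :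
    deg (oc (Ps.map rm)) v ≤ deg (oc (Ps.map Prod.fst)) v + load Ps v := by
  simp only [deg_oc, countP_map', load]
  refine countP_or _ _ _ _ fun p h => ?_
  have := mem_supp_ser.1 h
  simp only [mem_compl, mem_supp] at this; tauto

lemma miss_mg (Ps : Multiset ((V → V) × (V → V))) (v : V) :
    (Ps.map mg).countP (fun σ => σ v = v) ≤
      (Ps.map Prod.snd).countP (fun σ => σ v = v) + load Ps v ∧
    (Ps.map mg).countP (fun σ => σ v = v) ≤ (Ps.map Prod.fst).countP (fun σ => σ v = v) := by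
  simp only [countP_map', load, mg, un_eq_self]
  refine ⟨countP_or _ _ _ _ fun p h => ?_, ?_⟩
  · have := @mem_supp_res _ _ _ p.2 (supp p.1)ᶜ v
    simp only [mem_compl, mem_supp] at this; tauto
  · simpa using countP_or Ps _ (fun p => p.1 v = v) (fun _ => False) fun p h => Or.inl h.1

lemma supp_closed {σ : V → V} (h : Invo σ) : ∀ v ∈ supp σ, σ v ∈ supp σ ∧ σ v ≠ v :=
  fun v hv => by simpa using ⟨h.ne (by simpa using hv), by simpa using hv⟩

lemma lt_own (c : Cf V) {σ : V → V} (h : Invo σ) (ho : ∀ v, σ v ≠ v → c.Own v (σ v)) :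
    Lt c.p (c.dl (supp σ)) := by
  unfold Lt
  split_ifs with hp
  · have := sum_invo h (supp_closed h) (fun v => c.sgn true v - c.sgn false v) (fun v hv => by
      have := ho v (mem_supp.1 hv)
      simp only [Cf.Own, Cf.sgn] at *; grind)
    rw [sum_sub_distrib] at this
    unfold Cf.dl; omega
  · constructor <;> refine even_sum_invo h (supp_closed h) _ fun v hv => ?_ <;>
      have := ho v (mem_supp.1 hv) <;> simp only [Cf.Own, Cf.sgn, Int.even_iff] at * <;> grind

lemma mg_aux (c : Cf V) (K : V → V → Prop) [DecidableRel K] {p : (V → V) × (V → V)} {y1 y2 : ℕ}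
    (h2 : Invo p.2) (h3 : ∀ v, p.2 v ≠ v → K v (p.2 v)) (h4 : (supp p.2)ᶜ.card ≤ y1)
    (h5 : (supp p.1).card ≤ y2) :
    (univ.filter fun v => ¬ (mg p v ≠ v ∧ K v (mg p v))).card ≤ y1 + 2 * y2 ∧
      ∀ β, c.dl (supp (mg p))ᶜ β = c.dl (supp p.1)ᶜ β + -c.dl (supp (res p.2 (supp p.1)ᶜ)) β := by
  refine ⟨?_, fun β => ?_⟩
  · have := card_union_le (supp p.2)ᶜ (supp p.1 ∪ (supp p.1).image p.2)
    have := card_union_le (supp p.1) ((supp p.1).image p.2)
    have := card_image_le (s := supp p.1) (f := p.2)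
    refine (card_le_card (t := (supp p.2)ᶜ ∪ (supp p.1 ∪ (supp p.1).image p.2)) fun v hv => ?_).trans
      (by omega)
    by_contra hc
    simp only [mem_union, mem_compl, mem_supp, mem_image, not_or, not_not, mem_filter, mem_univ,
      true_and] at hc hv
    have e : mg p v = p.2 v := by
      have : p.1 (p.2 v) = p.2 v := by by_contra h; exact hc.2.2 ⟨_, h, h2 v⟩
      simp [mg, un, res, hc.2.1, this]
    rw [e] at hv
    exact hv ⟨hc.1, h3 v hc.1⟩
  · have := c.dl_compl (supp (mg p)) β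
    have := c.dl_compl (supp p.1) β
    rw [mg, supp_un, c.dl_union (disjoint_left.2 fun v h1 h2 => by
      have := mg_disj p v; simp only [mem_supp] at h1 h2; tauto)] at *
    omega

lemma cls_own (c : Cf V) {p : (V → V) × (V → V)} {y1 y2 : ℕ} (h1 : Invo p.1) (h2 : Invo p.2)
    (h3 : ∀ v, p.2 v ≠ v → c.Own v (p.2 v)) (h4 : (supp p.2)ᶜ.card ≤ y1)
    (h5 : (supp p.1).card ≤ y2) (h6 : Lt c.p (c.dl (supp p.1)ᶜ)) : Cls c (y1 + 2 * y2) (mg p) := by
  obtain ⟨a1, a2⟩ := mg_aux c c.Own h2 h3 h4 h5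
  refine ⟨h1.un (h2.res _) (mg_disj p), Or.inl ⟨a1, ?_⟩⟩
  rw [funext a2]
  exact h6.add (lt_own c (h2.res _) fun v hv => by
    rw [res_eq hv]; exact h3 v (mem_supp_res.1 hv).2.2).neg

lemma cls_crs (c : Cf V) {p : (V → V) × (V → V)} {y1 y2 : ℕ} (h1 : Invo p.1) (h2 : Invo p.2)
    (h3 : ∀ v, p.2 v ≠ v → c.Crs v (p.2 v)) (h4 : (supp p.2)ᶜ.card ≤ y1)
    (h5 : (supp p.1).card ≤ y2) (h6 : ∀ β, c.dl (supp p.1)ᶜ β = 0) :
    Cls c (y1 + 2 * y2) (mg p) := by
  obtain ⟨a1, a2⟩ := mg_aux c c.Crs h2 h3 h4 h5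
  refine ⟨h1.un (h2.res _) (mg_disj p), Or.inr ⟨a1, fun β => ?_⟩⟩
  rw [a2, h6, zero_add, neg_eq_zero]
  exact sum_invo (h2.res _) (supp_closed (h2.res _)) _ fun v hv => by
    rw [mem_supp] at hv
    rw [res_eq hv]; exact (h3 v (mem_supp_res.1 hv).2.2).sgn β

lemma supply1 (c : Cf V) {y d : ℕ} (hd : (c.dl univ true).natAbs + (c.dl univ false).natAbs ≤ d)
    (Ts : Multiset (V → V)) : ∀ σ : V → V, Invo σ → (∀ v, σ v ≠ v → c.Own v (σ v)) →
    (∀ τ ∈ Ts, Invo τ ∧ Lt c.p (c.dl (supp τ)ᶜ) ∧ (supp τ).card ≤ y) →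
    (∀ s β, 2 * y + (y + d) * Ts.card ≤
      ((supp σ).filter fun v => c.side v = s ∧ c.blk v = β).card) →
    ∃ (Ts' : Multiset (V → V)) (σ' : V → V), Ts'.card = Ts.card ∧ Invo σ' ∧
      (∀ τ ∈ Ts', Invo τ ∧ (∀ β, c.dl (supp τ)ᶜ β = 0) ∧ (supp τ).card ≤ 2 * y + d) ∧
      (∀ u v, oc Ts' u v + oc {σ'} u v = oc Ts u v + oc {σ} u v) ∧
      ∀ u v, oc {σ'} u v ≤ oc {σ} u v := by
  induction Ts using Multiset.induction_on with
  | empty => intro σ h _ _ _; exact ⟨0, σ, rfl, h, by simp, fun _ _ => rfl, fun _ _ => le_rfl⟩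
  | cons τ Ts ih =>
    intro σ h1 h2 h3 h4
    obtain ⟨t1, t2, t3⟩ := h3 τ (Multiset.mem_cons_self _ _)
    simp only [Multiset.card_cons, mul_add (y + d), mul_one] at h4
    obtain ⟨Z, z1, z2, z3, z4⟩ := equalize c h1 (y + d) _
      (supp σ \ (supp τ ∪ (supp τ).image σ)) t2 (by
        have := c.dl_le (supp τ)
        have := c.dl_compl (supp τ) true
        have := c.dl_compl (supp τ) false
        omega) (fun v hv => by
        simp only [mem_sdiff, mem_supp, mem_union, mem_image, not_or] at hv ⊢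
        exact ⟨⟨h1.ne hv.1, fun h => hv.2.2 ⟨_, h, h1 v⟩,
          fun ⟨x, hx, e⟩ => hv.2.1 (h1.inj e ▸ hx)⟩, hv.1, h2 v hv.1⟩) (fun β s _ => by
        have := h4 s β
        have := card_filter_sdiff (supp σ) (supp τ ∪ (supp τ).image σ)
          fun v => c.side v = s ∧ c.blk v = β
        have := card_union_le (supp τ) ((supp τ).image σ)
        have := card_image_le (s := supp τ) (f := σ)
        omega)
    have z5 : ∀ v ∈ Z, σ v ≠ v ∧ τ v = v := fun v hv => by
      have := z1 hv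
      simp only [mem_sdiff, mem_supp, mem_union, not_or, not_not] at this
      exact ⟨this.1, this.2.1⟩
    have e1 : supp (res σ Z) = Z := by
      ext v; rw [mem_supp, mem_supp_res]; have := z2 v; have := z5 v; tauto
    have e2 : supp (ser σ Z) = supp σ \ Z := by
      ext v; rw [mem_supp, mem_supp_ser, mem_sdiff, mem_supp]; have := z2 v; tauto
    have hd' : ∀ v, τ v = v ∨ res σ Z v = v := fun v => by
      have := z5 v; have := @mem_supp_res _ _ _ σ Z v; tauto
    obtain ⟨Ts', σ', p1, p2, p3, p4, p5⟩ := ih (ser σ Z) (h1.ser Z) (fun v hv => by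
        rw [ser_eq hv]; exact h2 v (mem_supp_ser.1 hv).2)
      (fun τ' h => h3 τ' (Multiset.mem_cons_of_mem h)) (fun s β => by
        have := h4 s β
        have := card_filter_sdiff (supp σ) Z fun v => c.side v = s ∧ c.blk v = β
        rw [e2]; omega)
    refine ⟨un τ (res σ Z) ::ₘ Ts', σ', by simp [p1], p2, fun τ' h => ?_, fun u v => ?_,
      fun u v => ?_⟩
    · rcases Multiset.mem_cons.1 h with rfl | h
      · refine ⟨t1.un (h1.res Z) hd', fun β => ?_, ?_⟩
        · have := c.dl_compl (supp (un τ (res σ Z))) β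
          have := c.dl_compl (supp τ) β
          have := z4 β
          rw [supp_un, e1, c.dl_union (disjoint_right.2 fun v h => by simp [(z5 v h).2])] at *
          omega
        · rw [supp_un, e1]; have := card_union_le (supp τ) Z; omega
      · exact p3 τ' h
    · have := p4 u v; have := oc_res σ Z u v
      simp only [oc_cons, oc_un hd']; omega
    · have := p5 u v; have := oc_res σ Z u v; omega

lemma supply (c : Cf V) {y d g : ℕ} (hd : (c.dl univ true).natAbs + (c.dl univ false).natAbs ≤ d)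
    (Js : Multiset (V → V)) : ∀ Ts : Multiset (V → V), Ts.card ≤ g * Js.card →
    (∀ σ ∈ Js, Invo σ ∧ (∀ v, σ v ≠ v → c.Own v (σ v)) ∧ ∀ s β, 2 * y + (y + d) * g ≤
      ((supp σ).filter fun v => c.side v = s ∧ c.blk v = β).card) →
    (∀ τ ∈ Ts, Invo τ ∧ Lt c.p (c.dl (supp τ)ᶜ) ∧ (supp τ).card ≤ y) →
    ∃ (Ts' : Multiset (V → V)) (Lf : V → V → ℕ), Ts'.card = Ts.card ∧ Gr Lf ∧
      (∀ τ ∈ Ts', Invo τ ∧ (∀ β, c.dl (supp τ)ᶜ β = 0) ∧ (supp τ).card ≤ 2 * y + d) ∧
      (∀ u v, oc Ts' u v + Lf u v = oc Ts u v + oc Js u v) ∧ ∀ u v, Lf u v ≤ oc Js u v := by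
  induction Js using Multiset.induction_on with
  | empty =>
    intro Ts h _ _
    rw [Multiset.card_eq_zero.1 (by simpa using h : Ts.card = 0)]
    exact ⟨0, fun _ _ => 0, rfl, ⟨fun _ _ => rfl, fun _ => rfl⟩, by simp, by simp, by simp⟩
  | cons σ Js ih =>
    intro Ts h1 h2 h3
    obtain ⟨A, B, rfl, hA⟩ := exists_le_card Ts (k := min g Ts.card) (min_le_right _ _)
    obtain ⟨s1, s2, s3⟩ := h2 σ (Multiset.mem_cons_self _ _)
    obtain ⟨A', σ', a1, a2, a3, a4, a5⟩ := supply1 c hd A σ s1 s2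
      (fun τ h => h3 τ (Multiset.mem_add.2 (Or.inl h))) (fun s β => le_trans (by
        have := Nat.mul_le_mul_left (y + d) (hA.le.trans (min_le_left _ _)); omega) (s3 s β))
    obtain ⟨B', Lf, b1, b2, b3, b4, b5⟩ := ih B (by
        rw [Multiset.card_cons, mul_add] at h1
        rw [Multiset.card_add] at h1 hA; omega)
      (fun σ h => h2 σ (Multiset.mem_cons_of_mem h))
      (fun τ h => h3 τ (Multiset.mem_add.2 (Or.inr h)))
    refine ⟨A' + B', fun u v => Lf u v + oc {σ'} u v, by simp [a1, b1],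
      b2.add (gr_oc (by simpa using a2)), fun τ h => (Multiset.mem_add.1 h).elim (a3 τ) (b3 τ),
      fun u v => ?_, fun u v => ?_⟩
    · have := a4 u v; have := b4 u v
      simp only [oc_add, oc_cons]; omega
    · have := a5 u v; have := b5 u v
      simp only [oc_cons]; omega

end Pool.Agent.P.MP_303500_co
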