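import Mathlib

/-! Perfect matchings as fixed point free involutions, factorable multigraphs, Koenig, gluing. -/

set_option linter.unusedSectionVars false

namespace Pool.Agent.P.MP_303500_co
open Finset

variable {V : Type} [Fintype V] [DecidableEq V]

def IsPM (σ : V → V) : Prop := ∀ v, σ (σ v) = v ∧ σ v ≠ v

def cnt (Ms : Multiset (V → V)) (u v : V) : ℕ := Ms.countP (fun σ => σ u = v)

def Fac (m : V → V → ℕ) : Prop :=
  ∃ Ms : Multiset (V → V), (∀ σ ∈ Ms, IsPM σ) ∧ ∀ u v, m u v = cnt Ms u v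

lemma IsPM.symm {σ : V → V} (h : IsPM σ) {u v : V} : σ u = v ↔ σ v = u := by
  constructor
  · rintro rfl; exact (h u).1
  · rintro rfl; exact (h v).1

@[simp] lemma cnt_zero (u v : V) : cnt (0 : Multiset (V → V)) u v = 0 := by simp [cnt]

lemma cnt_add (Ms Ns : Multiset (V → V)) (u v : V) :
    cnt (Ms + Ns) u v = cnt Ms u v + cnt Ns u v := by simp [cnt]

lemma cnt_cons (σ : V → V) (Ms : Multiset (V → V)) (u v : V) :
    cnt (σ ::ₘ Ms) u v = cnt Ms u v + if σ u = v then 1 else 0 := by
  simp [cnt, Multiset.countP_cons]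

lemma cnt_singleton (σ : V → V) (u v : V) :
    cnt ({σ} : Multiset (V → V)) u v = if σ u = v then 1 else 0 := by
  have := cnt_cons σ 0 u v
  simpa using this

lemma cnt_nsmul (k : ℕ) (Ms : Multiset (V → V)) (u v : V) :
    cnt (k • Ms) u v = k * cnt Ms u v := by simp [cnt, Multiset.countP_nsmul]

lemma cnt_sum {ι : Type} (s : Finset ι) (F : ι → Multiset (V → V)) (u v : V) :
    cnt (∑ i ∈ s, F i) u v = ∑ i ∈ s, cnt (F i) u v := by
  classical
  induction s using Finset.induction_on with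
  | empty => simp
  | insert a s ha ih => rw [sum_insert ha, sum_insert ha, cnt_add, ih]

lemma cnt_le_card (Ms : Multiset (V → V)) (u v : V) : cnt Ms u v ≤ Ms.card :=
  Multiset.countP_le_card _ _

lemma cnt_pos {Ms : Multiset (V → V)} {u v : V} : 0 < cnt Ms u v ↔ ∃ σ ∈ Ms, σ u = v := by
  simp [cnt, Multiset.countP_pos]

lemma sum_cnt (Ms : Multiset (V → V)) (u : V) : ∑ v, cnt Ms u v = Ms.card := by
  induction Ms using Multiset.induction_on with
  | empty => simp
  | cons σ Ms ih => simp [cnt_cons, sum_add_distrib, ih]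

lemma cnt_symm {Ms : Multiset (V → V)} (h : ∀ σ ∈ Ms, IsPM σ) (u v : V) :
    cnt Ms u v = cnt Ms v u := by
  unfold cnt
  apply Multiset.countP_congr rfl
  intro σ hσ
  exact propext (h σ hσ).symm

lemma cnt_diag {Ms : Multiset (V → V)} (h : ∀ σ ∈ Ms, IsPM σ) (u : V) : cnt Ms u u = 0 := by
  by_contra h0
  obtain ⟨σ, hσ, h1⟩ := cnt_pos.1 (Nat.pos_of_ne_zero h0)
  exact (h σ hσ u).2 h1

lemma Fac.add {m m' : V → V → ℕ} (h : Fac m) (h' : Fac m') : Fac (fun u v => m u v + m' u v) := by
  obtain ⟨Ms, h1, h2⟩ := h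
  obtain ⟨Ns, h3, h4⟩ := h'
  refine ⟨Ms + Ns, ?_, fun u v => by simp only [cnt_add, h2, h4]⟩
  intro σ hσ
  rcases Multiset.mem_add.1 hσ with h | h
  exacts [h1 σ h, h3 σ h]

lemma Fac.mul {m : V → V → ℕ} (h : Fac m) (k : ℕ) : Fac (fun u v => k * m u v) := by
  obtain ⟨Ms, h1, h2⟩ := h
  exact ⟨k • Ms, fun σ hσ => h1 σ (Multiset.mem_of_mem_nsmul hσ), fun u v => by simp only [cnt_nsmul, h2]⟩

lemma fac_cnt {Ms : Multiset (V → V)} (h : ∀ σ ∈ Ms, IsPM σ) : Fac (cnt Ms) := ⟨Ms, h, fun _ _ => rfl⟩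

lemma Fac.congr {m m' : V → V → ℕ} (h : Fac m) (e : ∀ u v, m' u v = m u v) : Fac m' := by
  have : m' = m := by funext u v; exact e u v
  rwa [this]

/-- Remove a multiset of perfect matchings. -/
lemma fac_of_sub {m : V → V → ℕ} {Ms : Multiset (V → V)} (h : ∀ σ ∈ Ms, IsPM σ)
    (hle : ∀ u v, cnt Ms u v ≤ m u v) (hf : Fac (fun u v => m u v - cnt Ms u v)) : Fac m :=
  (hf.add (fac_cnt h)).congr fun u v => by have := hle u v; omega

/-- A perfect matching of the vertex set `U` all of whose edges satisfy `r`. -/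
def MOn (r : V → V → Prop) (U : Finset V) : Prop :=
  ∃ σ : V → V, ∀ v ∈ U, σ v ∈ U ∧ σ (σ v) = v ∧ σ v ≠ v ∧ r v (σ v)

lemma MOn.union {r : V → V → Prop} {U W : Finset V} (h1 : MOn r U) (h2 : MOn r W)
    (hd : Disjoint U W) : MOn r (U ∪ W) := by
  obtain ⟨σ, hσ⟩ := h1
  obtain ⟨τ, hτ⟩ := h2
  refine ⟨fun v => if v ∈ U then σ v else τ v, fun v hv => ?_⟩
  by_cases hU : v ∈ U
  · obtain ⟨a, b, c, d⟩ := hσ v hU
    simp only [hU, a, if_true]
    exact ⟨mem_union_left _ a, b, c, d⟩
  · have hW : v ∈ W := by simpa [hU] using hv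
    obtain ⟨a, b, c, d⟩ := hτ v hW
    have : τ v ∉ U := fun h => disjoint_left.1 hd h a
    simp only [hU, this, if_false]
    exact ⟨mem_union_right _ a, b, c, d⟩

lemma MOn.pm {r : V → V → Prop} {U : Finset V} (h : MOn r U) (hU : ∀ v, v ∈ U) :
    ∃ σ, IsPM σ ∧ ∀ v, r v (σ v) := by
  obtain ⟨σ, hσ⟩ := h
  exact ⟨σ, fun v => ⟨(hσ v (hU v)).2.1, (hσ v (hU v)).2.2.1⟩, fun v => (hσ v (hU v)).2.2.2⟩

lemma mOn_pair {r : V → V → Prop} {e : Finset V} (he : e.card = 2)
    (h : ∀ u ∈ e, ∀ v ∈ e, u ≠ v → r u v) : MOn r e := by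
  obtain ⟨u, v, huv, rfl⟩ := card_eq_two.1 he
  refine ⟨fun w => if w = u then v else u, fun w hw => ?_⟩
  have h1 := h u (by simp) v (by simp) huv
  have h2 := h v (by simp) u (by simp) huv.symm
  simp only [mem_insert, mem_singleton] at hw
  rcases hw with rfl | rfl
  · simp [huv.symm, h1]
  · simp [huv.symm, huv, h2]

lemma mOn_hall {r r' : V → V → Prop} [DecidableRel r'] {P Q : Finset V} (hd : Disjoint P Q)
    (hc : P.card = Q.card)
    (hH : ∀ X ⊆ P, X.card ≤ (Q.filter (fun q => ∃ p ∈ X, r' p q)).card)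
    (hr : ∀ p ∈ P, ∀ q ∈ Q, r' p q → r p q ∧ r q p) : MOn r (P ∪ Q) := by
  have key : ∀ s : Finset P, s.card ≤ (s.biUnion (fun p => Q.filter (fun q => r' p q))).card := by
    intro s
    have := hH (s.map (Function.Embedding.subtype _)) (by
      intro x hx; obtain ⟨y, -, rfl⟩ := mem_map.1 hx; exact y.2)
    rw [card_map] at this
    refine this.trans (card_le_card ?_)
    intro q hq
    simp only [mem_filter, mem_map, Function.Embedding.coe_subtype, mem_biUnion] at hq ⊢
    obtain ⟨hq, p, ⟨y, hy, rfl⟩, h⟩ := hq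
    exact ⟨y, hy, hq, h⟩
  obtain ⟨f, hf, hf2⟩ := (Finset.all_card_le_biUnion_card_iff_exists_injective _).1 key
  simp only [mem_filter] at hf2
  let g : P → Q := fun p => ⟨f p, (hf2 p).1⟩
  have hg : Function.Injective g := fun a b h => hf (congrArg Subtype.val h)
  have hb : Function.Bijective g :=
    (Fintype.bijective_iff_injective_and_card g).2 ⟨hg, by simp [hc]⟩
  let E := Equiv.ofBijective g hb
  have hE : ∀ p : P, r' p (E p) := fun p => (hf2 p).2
  refine ⟨fun v => if h : v ∈ P then (E ⟨v, h⟩ : V) else if h : v ∈ Q then (E.symm ⟨v, h⟩ : V)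
    else v, fun v hv => ?_⟩
  by_cases hP : v ∈ P
  · have a : (E ⟨v, hP⟩ : V) ∈ Q := (E ⟨v, hP⟩).2
    have b : (E ⟨v, hP⟩ : V) ∉ P := fun h => disjoint_left.1 hd h a
    simp only [hP, dif_pos, b, a, dif_neg, not_false_eq_true]
    refine ⟨mem_union_right _ a, by simp, fun h => b (by rw [h]; exact hP), (hr _ hP _ a (hE ⟨v, hP⟩)).1⟩
  · have hQ : v ∈ Q := by simpa [hP] using hv
    have a : (E.symm ⟨v, hQ⟩ : V) ∈ P := (E.symm ⟨v, hQ⟩).2
    simp only [hP, hQ, dif_pos, a, dif_neg, not_false_eq_true]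
    refine ⟨mem_union_left _ a, by simp, fun h => hP (h ▸ a), ?_⟩
    have := hE (E.symm ⟨v, hQ⟩)
    rw [Equiv.apply_symm_apply] at this
    exact (hr _ a _ hQ this).2

lemma mOn_complete {r : V → V → Prop} {P Q : Finset V} (hd : Disjoint P Q)
    (hc : P.card = Q.card) (hr : ∀ p ∈ P, ∀ q ∈ Q, r p q ∧ r q p) : MOn r (P ∪ Q) := by
  refine mOn_hall (r' := fun _ _ => True) hd hc ?_ (fun p hp q hq _ => hr p hp q hq)
  intro X hX
  rcases X.eq_empty_or_nonempty with rfl | ⟨x, hx⟩
  · simp
  · have : Q.filter (fun q => ∃ p ∈ X, True) = Q := filter_true_of_mem fun q _ => ⟨x, hx, trivial⟩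
    rw [this, ← hc]; exact card_le_card hX

lemma mOn_even {r : V → V → Prop} {U : Finset V} (he : Even U.card)
    (hr : ∀ p ∈ U, ∀ q ∈ U, p ≠ q → r p q) : MOn r U := by
  obtain ⟨k, hk⟩ := he
  obtain ⟨P, hP, hPc⟩ := exists_subset_card_eq (s := U) (n := k) (by omega)
  have : P ∪ (U \ P) = U := union_sdiff_of_subset hP
  rw [← this]
  refine mOn_complete disjoint_sdiff (by rw [card_sdiff_of_subset hP]; omega) ?_
  intro p hp q hq
  have hq' := mem_sdiff.1 hq
  have : p ≠ q := fun h => hq'.2 (h ▸ hp)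
  exact ⟨hr p (hP hp) q hq'.1 this, hr q hq'.1 p (hP hp) this.symm⟩

/-- Koenig: a regular bipartite multigraph is factorable. -/
lemma koenig (A : Finset V) (hA : A.card = Aᶜ.card) (d : ℕ) :
    ∀ W : V → V → ℕ, (∀ u v, W u v = W v u) → (∀ u v, (u ∈ A ↔ v ∈ A) → W u v = 0) →
      (∀ u, ∑ v, W u v = d) → Fac W := by
  induction d with
  | zero =>
    intro W _ _ h
    refine ⟨0, by simp, fun u v => ?_⟩
    have := h u
    rw [sum_eq_zero_iff] at this
    simpa using this v (mem_univ _)
  | succ d ih =>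
    intro W hs h0 hd
    have hM : MOn (fun u v => 0 < W u v) (A ∪ Aᶜ) := by
      refine mOn_hall (r' := fun u v => 0 < W u v) disjoint_compl_right hA ?_
        (fun p _ q _ h => ⟨h, hs p q ▸ h⟩)
      intro X hX
      set N := Aᶜ.filter (fun q => ∃ p ∈ X, 0 < W p q) with hN
      have h1 : ∑ p ∈ X, ∑ q, W p q = ∑ p ∈ X, ∑ q ∈ N, W p q := by
        refine sum_congr rfl fun p hp => (sum_subset (subset_univ _) ?_).symm
        intro q _ hq
        by_cases hqA : q ∈ A
        · exact h0 p q (by simp [hX hp, hqA])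
        · by_contra hne
          exact hq (mem_filter.2 ⟨mem_compl.2 hqA, p, hp, Nat.pos_of_ne_zero hne⟩)
      have h2 : ∑ p ∈ X, ∑ q ∈ N, W p q ≤ ∑ q ∈ N, (d + 1) := by
        rw [sum_comm]
        refine sum_le_sum fun q _ => ?_
        rw [← hd q]
        calc ∑ p ∈ X, W p q = ∑ p ∈ X, W q p := sum_congr rfl fun p _ => hs p q
          _ ≤ _ := sum_le_sum_of_subset (subset_univ _)
      simp only [hd, sum_const, smul_eq_mul] at h1 h2
      have : X.card * (d + 1) ≤ N.card * (d + 1) := by omega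
      exact Nat.le_of_mul_le_mul_right this (by omega)
    obtain ⟨σ, hσ, hpos⟩ := hM.pm (by simp)
    have hall : ∀ τ ∈ ({σ} : Multiset (V → V)), IsPM τ := by simpa using hσ
    have hle : ∀ u v, cnt {σ} u v ≤ W u v := by
      intro u v; rw [cnt_singleton]; split_ifs with h
      · subst h; exact hpos u
      · omega
    refine fac_of_sub hall hle (ih _ ?_ ?_ ?_)
    · intro u v; rw [hs u v, cnt_symm hall u v]
    · intro u v h; simp [h0 u v h]
    · intro u
      rw [sum_tsub_distrib _ (fun v _ => hle u v), hd, sum_cnt]; simp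

/-- Contract the complement of `S` to one vertex. -/
def contr (S : Finset V) (m : V → V → ℕ) : Option S → Option S → ℕ
  | some u, some v => m u v
  | some u, none => ∑ w ∈ Sᶜ, m u w
  | none, some v => ∑ w ∈ Sᶜ, m v w
  | none, none => 0

lemma glue (S : Finset V) (k : ℕ) : ∀ (m : V → V → ℕ), (∀ u v, m u v = m v u) →
    ∀ (M1 : Multiset (Option S → Option S)) (M2 : Multiset (Option (Sᶜ : Finset V) → Option (Sᶜ : Finset V))),
    M1.card = k → (∀ σ ∈ M1, IsPM σ) → (∀ σ ∈ M2, IsPM σ) →
    (∀ u v, contr S m u v = cnt M1 u v) → (∀ u v, contr Sᶜ m u v = cnt M2 u v) → Fac m := by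
  induction k with
  | zero =>
    intro m hs M1 M2 hk h1 h2 e1 e2
    rw [Multiset.card_eq_zero] at hk
    subst hk
    have z1 : ∀ u ∈ S, ∀ v, m u v = 0 := by
      intro u hu v
      by_cases hv : v ∈ S
      · simpa [contr] using e1 (some ⟨u, hu⟩) (some ⟨v, hv⟩)
      · have := e1 (some ⟨u, hu⟩) none
        simp only [contr, cnt_zero, sum_eq_zero_iff] at this
        exact this v (mem_compl.2 hv)
    have hM2 : M2 = 0 := by
      rw [← Multiset.card_eq_zero, ← sum_cnt M2 none]
      refine sum_eq_zero fun v _ => ?_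
      rw [← e2]
      cases v with
      | none => rfl
      | some v =>
        simp only [contr, compl_compl]
        exact sum_eq_zero fun w hw => by rw [hs, z1 w hw]
    subst hM2
    refine ⟨0, by simp, fun u v => ?_⟩
    by_cases hu : u ∈ S
    · simp [z1 u hu]
    by_cases hv : v ∈ S
    · rw [hs]; simp [z1 v hv]
    simpa [contr] using e2 (some ⟨u, mem_compl.2 hu⟩) (some ⟨v, mem_compl.2 hv⟩)
  | succ k ih =>
    intro m hs M1 M2 hk h1 h2 e1 e2
    obtain ⟨σ1, hσ1⟩ := Multiset.card_pos_iff_exists_mem.1 (by omega : 0 < M1.card)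
    obtain ⟨M1', rfl⟩ := Multiset.exists_cons_of_mem hσ1
    have p1 := h1 σ1 hσ1
    obtain ⟨a, ha⟩ := Option.ne_none_iff_exists'.1 (p1 none).2
    have ha' : σ1 (some a) = none := p1.symm.1 ha
    have : 0 < contr S m (some a) none := by rw [e1]; exact cnt_pos.2 ⟨σ1, hσ1, ha'⟩
    simp only [contr] at this
    obtain ⟨b, hb, hab⟩ : ∃ b ∈ Sᶜ, 0 < m a b := by
      by_contra hc
      push Not at hc
      have : ∑ w ∈ Sᶜ, m a w = 0 := sum_eq_zero fun w hw => by have := hc w hw; omega
      omega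
    have : 0 < contr Sᶜ m none (some ⟨b, hb⟩) := by
      simp only [contr, compl_compl]
      exact lt_of_lt_of_le (hs a b ▸ hab) (single_le_sum (f := fun w => m b w)
        (fun _ _ => Nat.zero_le _) a.2)
    rw [e2] at this
    obtain ⟨σ2, hσ2, hb2⟩ := cnt_pos.1 this
    obtain ⟨M2', rfl⟩ := Multiset.exists_cons_of_mem hσ2
    have p2 := h2 σ2 hσ2
    have hb' : σ2 (some ⟨b, hb⟩) = none := p2.symm.1 hb2
    let σ : V → V := fun v => if h : v ∈ S then (σ1 (some ⟨v, h⟩)).elim b (fun x => x.1)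
      else (σ2 (some ⟨v, mem_compl.2 h⟩)).elim a.1 (fun x => x.1)
    have hbS : b ∉ S := mem_compl.1 hb
    have s1 : ∀ (u v : S), σ u = v ↔ σ1 (some u) = some v := by
      intro u v
      simp only [σ, u.2, dif_pos]
      cases h : σ1 (some u) with
      | none => simp only [Option.elim]; constructor
                · intro h'; exact absurd (h' ▸ v.2) hbS
                · intro h'; cases h'
      | some x => simp only [Option.elim, Option.some.injEq]; exact Subtype.ext_iff.symm
    have s2 : ∀ (u v : (Sᶜ : Finset V)), σ u = v ↔ σ2 (some u) = some v := by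
      intro u v
      have hu : u.1 ∉ S := mem_compl.1 u.2
      simp only [σ, hu, dif_neg, not_false_eq_true]
      cases h : σ2 (some u) with
      | none => simp only [Option.elim]; constructor
                · intro h'; exact absurd (h' ▸ a.2) (mem_compl.1 v.2)
                · intro h'; cases h'
      | some x => simp only [Option.elim, Option.some.injEq]; exact Subtype.ext_iff.symm
    have s3 : ∀ (u : S) (v : V), v ∉ S → (σ u = v ↔ u = a ∧ v = b) := by
      intro u v hv
      simp only [σ, u.2, dif_pos]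
      cases h : σ1 (some u) with
      | none =>
        have : some u = some a := by rw [← ha]; exact (p1.symm.1 h).symm
        have : u = a := Option.some.inj this
        simp [this, eq_comm]
      | some x =>
        simp only [Option.elim]
        constructor
        · intro h'; exact absurd (h' ▸ x.2) hv
        · rintro ⟨rfl, -⟩; rw [ha'] at h; cases h
    have s4 : ∀ (u : (Sᶜ : Finset V)) (v : V), v ∈ S → (σ u = v ↔ u.1 = b ∧ v = a) := by
      intro u v hv
      have hu : u.1 ∉ S := mem_compl.1 u.2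
      simp only [σ, hu, dif_neg, not_false_eq_true]
      cases h : σ2 (some u) with
      | none =>
        have : some u = some ⟨b, hb⟩ := by rw [← hb2]; exact (p2.symm.1 h).symm
        have : u = ⟨b, hb⟩ := Option.some.inj this
        simp [this, eq_comm]
      | some x =>
        simp only [Option.elim]
        constructor
        · intro h'; exact absurd (h' ▸ hv) (mem_compl.1 x.2)
        · rintro ⟨h1, -⟩
          have : u = ⟨b, hb⟩ := Subtype.ext h1
          rw [this, hb'] at h; cases h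
    have hσ : IsPM σ := by
      intro v
      by_cases hv : v ∈ S
      · by_cases hw : σ v ∈ S
        · have := (s1 ⟨v, hv⟩ ⟨σ v, hw⟩).1 rfl
          refine ⟨(s1 ⟨σ v, hw⟩ ⟨v, hv⟩).2 (p1.symm.1 this), fun h => ?_⟩
          exact (p1 (some ⟨v, hv⟩)).2 ((s1 ⟨v, hv⟩ ⟨v, hv⟩).1 h)
        · have := (s3 ⟨v, hv⟩ (σ v) hw).1 rfl
          refine ⟨(s4 ⟨σ v, mem_compl.2 hw⟩ v hv).2 ⟨this.2, congrArg Subtype.val this.1⟩,
            fun h => hw (h.symm ▸ hv)⟩
      · have hv' := mem_compl.2 hv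
        by_cases hw : σ v ∈ S
        · have := (s4 ⟨v, hv'⟩ (σ v) hw).1 rfl
          refine ⟨(s3 ⟨σ v, hw⟩ v hv).2 ⟨Subtype.ext this.2, this.1⟩, fun h => hv (h ▸ hw)⟩
        · have hw' := mem_compl.2 hw
          have := (s2 ⟨v, hv'⟩ ⟨σ v, hw'⟩).1 rfl
          refine ⟨(s2 ⟨σ v, hw'⟩ ⟨v, hv'⟩).2 (p2.symm.1 this), fun h => ?_⟩
          exact (p2 (some ⟨v, hv'⟩)).2 ((s2 ⟨v, hv'⟩ ⟨v, hv'⟩).1 h)
    have hall : ∀ τ ∈ ({σ} : Multiset (V → V)), IsPM τ := by simpa using hσ
    have hle : ∀ u v, cnt {σ} u v ≤ m u v := by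
      intro u v; rw [cnt_singleton]; split_ifs with h
      swap
      · omega
      by_cases hu : u ∈ S <;> by_cases hv : v ∈ S
      · have := e1 (some ⟨u, hu⟩) (some ⟨v, hv⟩)
        rw [cnt_cons, if_pos ((s1 ⟨u, hu⟩ ⟨v, hv⟩).1 h)] at this
        simp only [contr] at this; omega
      · obtain ⟨h3, h4⟩ := (s3 ⟨u, hu⟩ v hv).1 h
        rw [← h3, ← h4] at hab; exact hab
      · obtain ⟨h3, h4⟩ := (s4 ⟨u, mem_compl.2 hu⟩ v hv).1 h
        simp only at h3
        rw [← h3, ← h4, hs] at hab; exact hab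
      · have := e2 (some ⟨u, mem_compl.2 hu⟩) (some ⟨v, mem_compl.2 hv⟩)
        rw [cnt_cons, if_pos ((s2 ⟨u, mem_compl.2 hu⟩ ⟨v, mem_compl.2 hv⟩).1 h)] at this
        simp only [contr] at this; omega
    have c1 : ∀ u : S, ∑ w ∈ Sᶜ, (m u w - cnt {σ} u w) = cnt M1' (some u) none := by
      intro u
      have := e1 (some u) none
      rw [cnt_cons] at this
      simp only [contr] at this
      rw [sum_tsub_distrib _ (fun v _ => hle u v), this]
      have : ∑ w ∈ Sᶜ, cnt {σ} u w = if σ1 (some u) = none then 1 else 0 := by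
        by_cases hua : u = a
        · subst hua
          rw [if_pos ha', sum_eq_single_of_mem b hb]
          · rw [cnt_singleton, if_pos ((s3 u b hbS).2 ⟨rfl, rfl⟩)]
          · intro w hw hwb
            rw [cnt_singleton, if_neg (fun h => hwb ((s3 u w (mem_compl.1 hw)).1 h).2)]
        · rw [if_neg]
          · exact sum_eq_zero fun w hw => by
              rw [cnt_singleton, if_neg (fun h => hua ((s3 u w (mem_compl.1 hw)).1 h).1)]
          · intro h; apply hua
            have : some u = some a := by rw [← ha]; exact (p1.symm.1 h).symm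
            exact Option.some.inj this
      omega
    have c2 : ∀ u : (Sᶜ : Finset V), ∑ w ∈ Sᶜᶜ, (m u w - cnt {σ} u w) = cnt M2' (some u) none := by
      intro u
      have := e2 (some u) none
      rw [cnt_cons] at this
      simp only [contr] at this
      rw [sum_tsub_distrib _ (fun v _ => hle u v), this]
      have : ∑ w ∈ Sᶜᶜ, cnt {σ} u w = if σ2 (some u) = none then 1 else 0 := by
        rw [compl_compl]
        by_cases hub : u = ⟨b, hb⟩
        · subst hub
          rw [if_pos hb', sum_eq_single_of_mem a.1 a.2]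
          · rw [cnt_singleton, if_pos ((s4 ⟨b, hb⟩ a a.2).2 ⟨rfl, rfl⟩)]
          · intro w hw hwb
            rw [cnt_singleton, if_neg (fun h => hwb ((s4 ⟨b, hb⟩ w hw).1 h).2)]
        · rw [if_neg]
          · exact sum_eq_zero fun w hw => by
              rw [cnt_singleton, if_neg (fun h => hub (Subtype.ext ((s4 u w hw).1 h).1))]
          · intro h; apply hub
            have : some u = some ⟨b, hb⟩ := by rw [← hb2]; exact (p2.symm.1 h).symm
            exact Option.some.inj this
      omega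
    have h1' : ∀ τ ∈ M1', IsPM τ := fun τ h => h1 τ (Multiset.mem_cons_of_mem h)
    have h2' : ∀ τ ∈ M2', IsPM τ := fun τ h => h2 τ (Multiset.mem_cons_of_mem h)
    refine fac_of_sub hall hle (ih _ ?_ M1' M2' (by simpa using hk) h1' h2' ?_ ?_)
    · intro u v; rw [hs u v, cnt_symm hall u v]
    · intro u v
      rcases u with _ | u <;> rcases v with _ | v
      · rw [cnt_diag h1']; rfl
      · rw [cnt_symm h1', ← c1]; rfl
      · rw [← c1]; rfl
      · have := e1 (some u) (some v)
        rw [cnt_cons] at this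
        simp only [contr] at this ⊢
        rw [this, cnt_singleton, if_congr (s1 u v) rfl rfl]; omega
    · intro u v
      rcases u with _ | u <;> rcases v with _ | v
      · rw [cnt_diag h2']; rfl
      · rw [cnt_symm h2', ← c2]; rfl
      · rw [← c2]; rfl
      · have := e2 (some u) (some v)
        rw [cnt_cons] at this
        simp only [contr] at this ⊢
        rw [this, cnt_singleton, if_congr (s2 u v) rfl rfl]; omega

lemma fac_glue (S : Finset V) {m : V → V → ℕ} (hs : ∀ u v, m u v = m v u)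
    (h1 : Fac (contr S m)) (h2 : Fac (contr Sᶜ m)) : Fac m := by
  obtain ⟨M1, a, b⟩ := h1
  obtain ⟨M2, c, d⟩ := h2
  exact glue S _ m hs M1 M2 rfl a c b d

end Pool.Agent.P.MP_303500_co
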