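import Pool.Agent.P.MP_303500_co.Special

/-! The common part of the two extremal cases. -/

set_option linter.unusedSectionVars false

namespace Pool.Agent.P.MP_303500_co
open Finset

variable {V : Type} [Fintype V] [DecidableEq V]

/-- The sparse part of `m` with respect to the types `ty`. -/
def spr (ty : V → Bool) (p : Bool) (m : V → V → ℕ) (u v : V) : ℕ :=
  if ty v = (ty u ^^ p) then 0 else m u v

/-- The part of the row of `v` going to type `β`. -/
def rw' (ty : V → Bool) (m : V → V → ℕ) (v : V) (β : Bool) (w : V) : ℕ :=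
  if ty w = β then m v w else 0

lemma Reg.gr {d : ℕ} {m : V → V → ℕ} (h : Reg d m) : Gr m := ⟨h.symm, h.diag⟩

lemma gr_spr {m : V → V → ℕ} (h : Gr m) (ty : V → Bool) (p : Bool) : Gr (spr ty p m) :=
  ⟨fun u v => by unfold spr; rw [h.1 u v]; cases ty u <;> cases ty v <;> cases p <;> simp,
    fun u => by simp [spr, h.2]⟩

lemma spr_add (ty : V → Bool) (p : Bool) (m : V → V → ℕ) (v : V) :
    ∑ w, rw' ty m v (ty v ^^ p) w + deg (spr ty p m) v = deg m v := by
  rw [deg, deg, ← sum_add_distrib]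
  exact sum_congr rfl fun w _ => by unfold rw' spr; split_ifs <;> simp

lemma spr_eq (ty : V → Bool) (p : Bool) (m : V → V → ℕ) (v : V) :
    deg (spr ty p m) v = ∑ w, rw' ty m v (!(ty v ^^ p)) w :=
  sum_congr rfl fun w _ => by unfold rw' spr; cases ty w <;> cases (ty v ^^ p) <;> simp

lemma exists_sub (f : V → ℕ) {k : ℕ} (h : k ≤ ∑ v, f v) :
    ∃ g : V → ℕ, (∀ v, g v ≤ f v) ∧ ∑ v, g v = k := by
  induction k with
  | zero => exact ⟨fun _ => 0, by simp, by simp⟩
  | succ k ih =>
    obtain ⟨g, g1, g2⟩ := ih (by omega)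
    obtain ⟨v, -, hv⟩ := exists_lt_of_sum_lt (s := univ) (f := g) (g := f) (by omega)
    refine ⟨fun w => g w + if w = v then 1 else 0, fun w => ?_, by simp [sum_add_distrib, g2]⟩
    have := g1 w
    dsimp only
    split_ifs with e
    · subst e; omega
    · omega

lemma sum_in_le {m : V → V → ℕ} {r : ℕ} (h : ∀ u v, m u v ≤ r) (v : V) (X : Finset V) :
    ∑ w, (if w ∈ X then m v w else 0) ≤ r * X.card := by
  rw [sum_ite_mem, univ_inter, mul_comm]
  exact sum_le_card_nsmul _ _ _ fun w _ => h v w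

/-- The data produced by the random splitting. -/
structure St (c : Cf V) (ty : V → Bool) (m : V → V → ℕ) (n a r : ℕ) : Prop where
  blk : ∀ v, c.blk v = (ty v ^^ (c.p && !c.side v))
  row : ∀ v β s, sd c.side s (rw' ty m v β) ≤ sd c.side (!s) (rw' ty m v β) + r * a
  big : ∀ β, (univ.filter fun v => ty v = β).card ≤ n + a
  prt : ∀ s β, n ≤ 2 * (univ.filter fun v => c.side v = s ∧ ty v = β).card + 2 * a

lemma St.own {c : Cf V} {ty : V → Bool} {m : V → V → ℕ} {n a r : ℕ} (h : St c ty m n a r)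
    (u v : V) : c.Own u v ↔ c.side v = c.side u ∧ ty v = (ty u ^^ c.p) := by
  simp only [Cf.Own, h.blk]
  cases c.side u <;> cases c.side v <;> cases c.p <;> cases ty u <;> cases ty v <;> simp

lemma St.crs {c : Cf V} {ty : V → Bool} {m : V → V → ℕ} {n a r : ℕ} (h : St c ty m n a r)
    (u v : V) : c.Crs u v ↔ c.side v = (!c.side u) ∧ ty v = (ty u ^^ c.p) := by
  simp only [Cf.Crs, h.blk]
  cases c.side u <;> cases c.side v <;> cases c.p <;> cases ty u <;> cases ty v <;> simp

lemma robust {c : Cf V} {ty : V → Bool} {m : V → V → ℕ} {n a b x r : ℕ} (hS : Sc n a b x)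
    (hr : 0 < r) (st : St c ty m n a r) (h : Reg (r * n) m) (hmr : ∀ u v, m u v ≤ r)
    {X0 : Finset V} (hX : X0.card ≤ a) (hX' : ∀ v ∉ X0, deg (spr ty c.p m) v ≤ r * a)
    {W k : V → V → ℕ} (gW : Gr W)
    (h1 : ∀ u ∉ X0, ∀ v ∉ X0, c.Crs u v → m u v ≤ W u v + k u v)
    (h2 : ∀ S T : Finset V, (∀ u ∈ S, c.side u = true ∧ u ∉ X0) → (∀ v ∈ T, v ∉ X0) →
      (∀ u ∈ S, ∀ v ∈ T, c.Crs u v) →
        2 * ∑ u ∈ S, ∑ v ∈ T, k u v ≤ ∑ u ∈ S, ∑ v ∈ T, m u v + a * (2 * n))
    (S T : Finset V) (h3 : ∀ u ∈ S, ∀ v ∈ T, c.Crs u v) (s1 : S.card = 20 * x)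
    (s2 : T.card = 20 * x) : 3 * r * x * (20 * x) < ∑ u ∈ S, ∑ v ∈ T, W u v := by
  obtain ⟨t0, t1, t2, t3, t4, t5, t6⟩ := hS
  wlog hs : ∀ u ∈ S, c.side u = true generalizing S T
  · rw [sum_comm]
    push Not at hs
    obtain ⟨u, hu, e⟩ := hs
    have := this T S (fun u hu v hv => (h3 v hv u hu).symm) s2 s1 fun v hv => by
      have := (h3 u hu v hv).1; simp_all
    exact this.trans_eq (sum_congr rfl fun u _ => sum_congr rfl fun v _ => gW.1 _ _)
  have a1 : 19 * x ≤ (S \ X0).card := by have := card_le_card_sdiff_add_card (s := S) (t := X0); omega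
  have a2 : 20 * x ≤ (T \ X0).card + a := by
    have := card_le_card_sdiff_add_card (s := T) (t := X0); omega
  have a3 : ∀ u ∈ S \ X0, 19 * (r * x) ≤ ∑ v ∈ T \ X0, m u v := fun u hu => by
    rw [mem_sdiff] at hu
    have b1 := spr_add ty c.p m u
    have b2 := hX' u hu.2
    have b3 : deg m u = r * n := h.deg u
    have b4 : T \ X0 ⊆ univ.filter fun v => ty v = (ty u ^^ c.p) := fun v hv => by
      simpa using ((st.crs u v).1 (h3 u hu.1 v (mem_sdiff.1 hv).1)).2
    have b5 := sum_sdiff (f := m u) b4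
    have b6 := sum_le_card_nsmul ((univ.filter fun v => ty v = (ty u ^^ c.p)) \ (T \ X0)) (m u) r
      fun v _ => hmr u v
    have b7 := card_sdiff_add_card_eq_card b4
    have b8 := st.big (ty u ^^ c.p)
    simp only [rw', ← sum_filter] at b1
    have b9 : ((univ.filter fun v => ty v = (ty u ^^ c.p)) \ (T \ X0)).card + 20 * x
      ≤ n + 2 * a := by omega
    have := Nat.mul_le_mul_right r b9
    have : r * (1000 * a) ≤ r * x := Nat.mul_le_mul_left _ (by omega)
    rw [smul_eq_mul] at b6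
    nlinarith
  have a4 := card_nsmul_le_sum _ _ _ a3
  have a5 := h2 (S \ X0) (T \ X0) (fun u hu => ⟨hs u (mem_sdiff.1 hu).1, (mem_sdiff.1 hu).2⟩)
    (fun v hv => (mem_sdiff.1 hv).2) fun u hu v hv => h3 u (mem_sdiff.1 hu).1 v (mem_sdiff.1 hv).1
  have a6 : ∑ u ∈ S \ X0, ∑ v ∈ T \ X0, m u v ≤
      ∑ u ∈ S, ∑ v ∈ T, W u v + ∑ u ∈ S \ X0, ∑ v ∈ T \ X0, k u v := by
    refine le_trans ?_ (Nat.add_le_add_right (sum_le_sum_of_subset (sdiff_subset (t := X0))) _)
    rw [← sum_add_distrib]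
    refine sum_le_sum fun u hu => le_trans ?_
      (Nat.add_le_add_right (sum_le_sum_of_subset (sdiff_subset (t := X0))) _)
    rw [← sum_add_distrib]
    rw [mem_sdiff] at hu
    exact sum_le_sum fun v hv => h1 u hu.2 v (mem_sdiff.1 hv).2 (h3 u hu.1 v (mem_sdiff.1 hv).1)
  have a7 : 19 * x * (19 * (r * x)) ≤ (S \ X0).card * (19 * (r * x)) := by gcongr
  have a8 : a * (2 * n) ≤ r * x * x := by
    have : b ^ 2 ≤ x ^ 2 := by gcongr; omega
    have : x * x ≤ r * x * x := by rw [mul_assoc]; exact Nat.le_mul_of_pos_left _ hr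
    nlinarith
  have a9 : 0 < r * x * x := by have : 0 < x := by omega
                                positivity
  have e1 : 19 * x * (19 * (r * x)) = 361 * (r * x * x) := by ring
  have e2 : 3 * r * x * (20 * x) = 60 * (r * x * x) := by ring
  rw [smul_eq_mul] at a4
  omega

lemma dec_aux {O C P q q' : Prop} [Decidable O] [Decidable C] [Decidable P] [Decidable q]
    [Decidable q'] (h1 : O → P) (h2 : C → P) (h3 : P → O ∨ C) (h4 : ¬ (O ∧ C)) {m we k y : ℕ}
    (w : we ≤ if C ∧ (q ∨ q') then m else 0) (hk : k ≤ if C ∧ ¬q ∧ ¬q' then m else 0)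
    (hy : y ≤ if P then 0 else m) :
    m = ((if C ∧ ¬q ∧ ¬q' then m else 0) - k + we) + y + ((if P then 0 else m) - y +
      ((if P ∧ (q ∨ q') then m else 0) - we)) + (if O ∧ ¬q ∧ ¬q' then m else 0) + k := by
  by_cases O <;> by_cases C <;> by_cases P <;> by_cases q <;> by_cases q' <;> simp_all

theorem core {c : Cf V} {ty : V → Bool} {m : V → V → ℕ} {n a b x r : ℕ} (hS : Sc n a b x)
    (hN : Fintype.card V = 2 * n) (hr : 0 < r) (hV : Viz (Fintype.card V) a)
    (hB : Big (Fintype.card V) a) (st : St c ty m n a r) (h : Reg (r * n) m)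
    (hmr : ∀ u v, m u v ≤ r) {X0 : Finset V} (hX : X0.card ≤ a)
    (hX' : ∀ v ∉ X0, deg (spr ty c.p m) v ≤ r * a) (hh : ∀ v, 2 * deg (spr ty c.p m) v ≤ r * n)
    (hd : (c.dl univ true).natAbs + (c.dl univ false).natAbs ≤ a) {K Df : ℕ}
    (hK : K + 2 * (r * b) = r * n / 2 + r * n / 4 + 4 * (r * a) + 2 * (r * x))
    (hD : Df + K = r * n) {Y : V → V → ℕ} (gY : Gr Y) (y1 : ∀ u v, Y u v ≤ spr ty c.p m u v)
    (y2 : ∀ v, 5 * deg Y v ≤ 4 * Df) (hY : ∀ u v, c.side u = c.side v → Y u v = 0)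
    (hY' : ∀ β, wsum (c.sgn β) Y = Df * c.dl univ β) :
    ∃ Dd : V → V → ℕ, Gr Dd ∧ (∀ u v, spr ty c.p m u v + Dd u v ≤ m u v) ∧
      (∀ u v, 0 < Dd u v → ty v = (ty u ^^ c.p) ∧ (u ∈ X0 ∨ v ∈ X0)) ∧
      (∀ v ∈ X0, deg (fun u v => spr ty c.p m u v - Y u v) v + deg Dd v + 3 * (r * a) = K) ∧
      (∀ v ∉ X0, deg (fun u v => spr ty c.p m u v - Y u v) v + deg Dd v ≤ 2 * (r * a)) ∧
      ∀ Ss : Multiset (V → V), Ss.card = K →
        (∀ σ ∈ Ss, Invo σ ∧ Lt c.p (c.dl (supp σ)ᶜ) ∧ (supp σ).card ≤ 12 * a) →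
        (∀ u v, oc Ss u v = spr ty c.p m u v - Y u v + Dd u v) → Fac m := by
  have hS' := hS
  obtain ⟨t0, t1, t2, t3, t4, t5, t6⟩ := hS'
  have u1 : 1000 * (r * a) ≤ r * b := by rw [mul_left_comm]; exact Nat.mul_le_mul_left _ t5
  have u2 : 1000 * (r * b) ≤ r * x := by rw [mul_left_comm]; exact Nat.mul_le_mul_left _ t6
  have u3 : a ≤ r * a := Nat.le_mul_of_pos_left _ hr
  have u4 : 1000 * (r * x) ≤ r * n := by rw [mul_left_comm]; exact Nat.mul_le_mul_left _ t4
  clear t1 t2 t3
  have u5 : r * X0.card ≤ r * a := Nat.mul_le_mul_left _ hX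
  have hm : ∀ v, deg m v = r * n := h.deg
  let O : V → V → ℕ := fun u v => if c.Own u v ∧ u ∉ X0 ∧ v ∉ X0 then m u v else 0
  let C : V → V → ℕ := fun u v => if c.Crs u v ∧ u ∉ X0 ∧ v ∉ X0 then m u v else 0
  have gO : Gr O := ⟨fun u v => if_congr ⟨fun h => ⟨h.1.symm, h.2.symm⟩,
    fun h => ⟨h.1.symm, h.2.symm⟩⟩ (h.symm u v) rfl, fun u => by simp [O, h.diag]⟩
  have gC : Gr C := ⟨fun u v => if_congr ⟨fun h => ⟨h.1.symm, h.2.symm⟩,
    fun h => ⟨h.1.symm, h.2.symm⟩⟩ (h.symm u v) rfl, fun u => by simp [C, h.diag]⟩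
  have rows : ∀ v s, ∀ K : V → Prop, ∀ [DecidablePred K],
      (∀ w, K w ↔ c.side w = s ∧ ty w = (ty v ^^ c.p)) →
      2 * ∑ w, (if K w ∧ w ∉ X0 then m v w else 0) ≤ r * n + r * a ∧
      r * n ≤ 2 * ∑ w, (if K w ∧ w ∉ X0 then m v w else 0) + 3 * (r * a)
        + deg (spr ty c.p m) v := by
    intro v s K _ hK
    have a1 := st.row v (ty v ^^ c.p) s
    have a2 := st.row v (ty v ^^ c.p) (!s)
    have a3 := sd_add c.side s (rw' ty m v (ty v ^^ c.p))
    have a4 := spr_add ty c.p m v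
    have a5 := sum_in_le hmr v X0
    have a6 : ∑ w, (if K w ∧ w ∉ X0 then m v w else 0) ≤ sd c.side s (rw' ty m v (ty v ^^ c.p)) :=
      sum_le_sum fun w _ => by
        simp only [hK, rw']
        by_cases p : c.side w = s <;> by_cases q : ty w = (ty v ^^ c.p) <;>
          by_cases q' : w ∈ X0 <;> simp [p, q, q']
    have a7 : sd c.side s (rw' ty m v (ty v ^^ c.p)) ≤ ∑ w, (if K w ∧ w ∉ X0 then m v w else 0)
        + ∑ w, (if w ∈ X0 then m v w else 0) := by
      rw [← sum_add_distrib]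
      exact sum_le_sum fun w _ => by
        simp only [hK, rw']
        by_cases p : c.side w = s <;> by_cases q : ty w = (ty v ^^ c.p) <;>
          by_cases q' : w ∈ X0 <;> simp [p, q, q']
    rw [Bool.not_not] at a2
    have := hm v
    omega
  have dO : ∀ v, deg O v = if v ∈ X0 then 0 else ∑ w, if c.Own v w ∧ w ∉ X0 then m v w else 0 :=
    fun v => by split_ifs with e <;> simp [deg, O, e]
  have dC : ∀ v, deg C v = if v ∈ X0 then 0 else ∑ w, if c.Crs v w ∧ w ∉ X0 then m v w else 0 :=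
    fun v => by split_ifs with e <;> simp [deg, C, e]
  have rO := fun v => rows v _ _ (st.own v)
  have rC := fun v => rows v _ _ (st.crs v)
  obtain ⟨k, k1, k2, k3, k4⟩ := thin c.side gC (fun u v e => by
    simp only [C]; rw [if_neg]; exact fun h => by simp [Cf.Crs, e] at h) hB
  have := fun v => exists_sub (fun w => if c.Crs v w ∧ w ∉ X0 then m v w else 0)
    (k := if v ∈ X0 then Df + 3 * (r * a) - deg Y v else 0) (by
      have := rC v; have := hh v
      split_ifs <;> omega)
  choose g g1 g2 using this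
  let We : V → V → ℕ := fun u v => if u ∈ X0 then g u v else if v ∈ X0 then g v u else 0
  have g3 : ∀ u v, v ∈ X0 → g u v = 0 := fun u v hv => by simpa [hv] using g1 u v
  have gE : Gr We := ⟨fun u v => by
    simp only [We]
    split_ifs with p q
    · rw [g3 u v q, g3 v u p]
    all_goals rfl, fun u => by
    simp only [We]; split_ifs with e
    · exact g3 u u e
    · rfl⟩
  have w1 : ∀ u v, We u v ≤ if c.Crs u v ∧ (u ∈ X0 ∨ v ∈ X0) then m u v else 0 := fun u v => by
    have a1 := g1 u v; have a2 := g1 v u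
    simp only [We]
    by_cases p : u ∈ X0
    · rw [if_pos p]; refine a1.trans ?_
      split_ifs with p1 p2
      · rfl
      · exact absurd ⟨p1.1, Or.inl p⟩ p2
      · omega
      · rfl
    rw [if_neg p]
    by_cases q : v ∈ X0
    · rw [if_pos q, h.symm u v]; refine a2.trans ?_
      split_ifs with p1 p2
      · rfl
      · exact absurd ⟨p1.1.symm, Or.inr q⟩ p2
      · omega
      · rfl
    · rw [if_neg q]; omega
  let Dd : V → V → ℕ := fun u v =>
    (if ty v = (ty u ^^ c.p) ∧ (u ∈ X0 ∨ v ∈ X0) then m u v else 0) - We u v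
  have e1 : ∀ u v, m u v = (C u v - k u v + We u v) + Y u v + (spr ty c.p m u v - Y u v + Dd u v)
      + O u v + k u v := fun u v =>
    dec_aux (fun h => ((st.own u v).1 h).2) (fun h => ((st.crs u v).1 h).2) (fun h => by
      rw [st.own, st.crs]; simp only [h]; cases c.side u <;> cases c.side v <;> simp)
      (fun h => by have a1 := h.2.1; rw [h.1.1] at a1; simp at a1)
      (w1 u v) (k2 u v) (y1 u v)
  have w2 : ∀ v, deg (fun u v => C u v - k u v + We u v) v + deg k v = deg C v + deg We v :=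
    fun v => by rw [deg_add]; have := deg_sub k2 v; omega
  have w3 : ∀ v ∈ X0, deg We v + deg Y v = Df + 3 * (r * a) := fun v hv => by
    have a1 := g2 v; have := y2 v
    have : deg We v = ∑ w, g v w := by simp only [deg, We, hv, if_true]
    rw [if_pos hv] at a1; omega
  have w4 : ∀ v ∈ X0, deg k v = 0 := fun v hv => by
    have := deg_mono k2 v; have := dC v; rw [if_pos hv] at this; omega
  have d1 : ∀ v ∈ X0, deg (fun u v => spr ty c.p m u v - Y u v) v + deg Dd v + 3 * (r * a) = K :=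
    fun v hv => by
    have a1 := hm v; have := w2 v; have := w3 v hv; have := w4 v hv
    have a2 := dO v; have a3 := dC v
    rw [deg_congr e1, deg_add, deg_add, deg_add, deg_add, deg_add (fun u v => _ - Y u v)] at a1
    rw [if_pos hv] at a2 a3; omega
  have d2 : ∀ v ∉ X0, deg (fun u v => spr ty c.p m u v - Y u v) v + deg Dd v ≤ 2 * (r * a) :=
    fun v hv => by
    have := deg_sub y1 v; have := hX' v hv; have := sum_in_le hmr v X0
    have : deg Dd v ≤ ∑ w, (if w ∈ X0 then m v w else 0) := sum_le_sum fun w _ => by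
      simp only [Dd, hv, false_or]
      split_ifs with p q
      · omega
      · exact absurd p.2 q
      · omega
      · omega
    omega
  refine ⟨Dd, Gr.sub ⟨fun u v => if_congr ?_ (h.symm u v) rfl, fun u => by simp [h.diag]⟩ gE,
    fun u v => ?_, fun u v hp => ?_, d1, d2, fun Ss s0 s1 s2 => ?_⟩
  · cases ty u <;> cases ty v <;> cases c.p <;> simp [or_comm]
  · have := e1 u v; have := y1 u v; omega
  · by_contra e; simp [Dd, e] at hp
  have s3 : ∀ v, deg (oc Ss) v = deg (fun u v => spr ty c.p m u v - Y u v) v + deg Dd v :=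
    fun v => by rw [deg_congr s2, deg_add]
  have gW := (gC.sub k1).add gE
  refine assemble c hS hN hr hV (W := fun u v => C u v - k u v + We u v) (Y := Y) (Do := O)
    (Dc := k) (Ss := Ss) (X0 := X0) (Df := Df) (k1 := r * n / 2 + 2 * (r * a) - r * b)
    (k2 := r * n / 4 + 2 * (r * a) - r * b) (fun v => by rw [hm]; omega)
    (by rw [mul_assoc]; omega) (by omega) (fun u v => by rw [s2]; exact e1 u v) hmr gW gY gO k1
    (fun u v hp => ?_) (good_of c hr (fun u v => by have := e1 u v; have := hmr u v; omega)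
      (fun v => ?_) (robust hS hr st h hmr hX hX' (k := k) gW (fun u hu v hv e => ?_)
        fun S T p1 p2 p3 => ?_)) hY hY' (fun u v hp => ?_) (fun u v hp => ?_) hX hd
    (fun v => ?_) (fun v hv => ?_) (fun v => ?_) (fun v hv => ?_) (by omega) (by omega) s1
    (fun v hv => by rw [s3, mul_assoc]; have := d1 v hv; omega)
    (fun v hv => by rw [s3, mul_assoc]; exact d2 v hv) fun s β => ?_
  · by_contra e
    have := w1 u v
    simp only [C, e, false_and, if_false] at this hp; omega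
  · have e : r * (22 * x) + 3 * r * x = 25 * (r * x) := by ring
    have := w2 v; have a1 := dC v; have := k3 v; have := rC v; have := y2 v
    by_cases hv : v ∈ X0
    · have := w3 v hv; have := w4 v hv; omega
    · have := hX' v hv; rw [if_neg hv] at a1; omega
  · have := k2 u v
    have : C u v = m u v := if_pos ⟨e, hu, hv⟩
    omega
  · refine (k4 S T fun u hu => (p1 u hu).1).trans_eq ?_
    rw [hN]; congr 1
    exact sum_congr rfl fun u hu => sum_congr rfl fun v hv =>
      if_pos ⟨p3 u hu v hv, (p1 u hu).2, p2 v hv⟩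
  · by_contra e; simp only [O] at hp; rw [if_neg (fun h => e ⟨h.1, h.2.1⟩)] at hp; omega
  · have := k2 u v
    by_contra e; simp only [C] at this; rw [if_neg (fun h => e ⟨h.1, h.2.1⟩)] at this; omega
  · have a1 := dO v; have := rO v; split_ifs at a1 <;> omega
  · have a1 := dO v; have := rO v; have := hX' v hv
    rw [if_neg hv] at a1; rw [mul_assoc]; omega
  · have a1 := dC v; have := rC v; have := k3 v; split_ifs at a1 <;> omega
  · have a1 := dC v; have := rC v; have := k3 v; have := hX' v hv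
    rw [if_neg hv] at a1; rw [mul_assoc]; omega
  · have := st.prt s (β ^^ (c.p && !s))
    rw [filter_congr (q := fun v => c.side v = s ∧ c.blk v = β) fun v _ => by
      rw [st.blk]; cases c.side v <;> cases s <;> cases c.p <;> cases ty v <;> cases β <;> simp]
      at this
    omega

end Pool.Agent.P.MP_303500_co
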