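import Pool.Agent.P.MP_303500_co.Tight

/-! Absorbing a pair of inside edges at bounded cost. -/

set_option linter.unusedSectionVars false

namespace Pool.Agent.P.MP_303500_co
open Finset

variable {V : Type} [Fintype V] [DecidableEq V]

def Cross (A B : Finset V) (u v : V) : Prop := (u ∈ A ∧ v ∈ B) ∨ (u ∈ B ∧ v ∈ A)

def GoodM (H : V → V → Prop) (A B : Finset V) (σ : V → V) : Prop :=
  IsPM σ ∧ ∀ v, Cross A B v (σ v) → H v (σ v)

def ThickM (H : V → V → Prop) (σ : V → V) : Prop := IsPM σ ∧ ∀ v, H v (σ v)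

def Cost (H : V → V → Prop) (A B : Finset V) (k : ℕ) (x : V → V → ℤ) : Prop :=
  ∃ Ms Ps : Multiset (V → V), Ms.card ≤ k ∧ Ps.card ≤ k ∧ (∀ σ ∈ Ms, GoodM H A B σ) ∧
    (∀ σ ∈ Ps, ThickM H σ) ∧ ∀ u v, ¬ Cross A B u v → x u v = cnt Ms u v - cnt Ps u v

def vec (e : Finset V) : V → V → ℤ := fun u v => if u ∈ e ∧ v ∈ e ∧ u ≠ v then 1 else 0

def PP (H : V → V → Prop) (A B : Finset V) (t : Prop) (U : Finset V) (x : V → V → ℤ) : Prop :=
  ∃ σ : V → V, (∀ v ∈ U, σ v ∈ U ∧ σ (σ v) = v ∧ σ v ≠ v ∧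
    ((t ∨ Cross A B v (σ v)) → H v (σ v))) ∧
    ∀ u v, ¬ Cross A B u v → x u v = if u ∈ U ∧ σ u = v then 1 else 0

variable {n k l : ℕ} {H : V → V → Prop} {A B X Y X' Y' e f U : Finset V} {x y : V → V → ℤ}
  {t : Prop}

lemma cross_swap {u v : V} : Cross A B u v ↔ Cross B A u v := by unfold Cross; tauto

lemma Cost.swap (h : Cost H A B k x) : Cost H B A k x := by
  obtain ⟨Ms, Ps, a, b, c, d, e⟩ := h
  exact ⟨Ms, Ps, a, b, fun σ hσ => ⟨(c σ hσ).1, fun v hv => (c σ hσ).2 v (cross_swap.1 hv)⟩, d,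
    fun u v h => e u v fun h' => h (cross_swap.1 h')⟩

lemma Cost.add (h : Cost H A B k x) (h' : Cost H A B l y) : Cost H A B (k + l) (x + y) := by
  obtain ⟨Ms, Ps, a, b, c, d, e⟩ := h
  obtain ⟨Ms', Ps', a', b', c', d', e'⟩ := h'
  refine ⟨Ms + Ms', Ps + Ps', by simp; omega, by simp; omega, ?_, ?_, ?_⟩
  · intro σ hσ; rcases Multiset.mem_add.1 hσ with h | h; exacts [c σ h, c' σ h]
  · intro σ hσ; rcases Multiset.mem_add.1 hσ with h | h; exacts [d σ h, d' σ h]
  · intro u v h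
    simp only [Pi.add_apply, e u v h, e' u v h, cnt_add]; push_cast; ring

lemma Cost.mono (h : Cost H A B k x) (hk : k ≤ l) (e : y = x) : Cost H A B l y := by
  obtain ⟨Ms, Ps, a, b, c⟩ := h
  exact ⟨Ms, Ps, a.trans hk, b.trans hk, e ▸ c⟩

lemma PP.base (h : MOn (fun u v => Cross A B u v ∧ H u v) U) : PP H A B t U 0 := by
  obtain ⟨σ, hσ⟩ := h
  refine ⟨σ, fun v hv => ⟨(hσ v hv).1, (hσ v hv).2.1, (hσ v hv).2.2.1, fun _ => (hσ v hv).2.2.2.2⟩,
    fun u v h => ?_⟩
  rw [if_neg]; · rfl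
  rintro ⟨hu, rfl⟩
  exact h (hσ u hu).2.2.2.1

lemma PP.step (C : Ctx n H A B) (h : PP H A B t U x) {g : Finset V} (hd : Disjoint U g)
    (hg : Pr A g ∨ Pr B g) (ht : t → Thick H g) : PP H A B t (U ∪ g) (x + vec g) := by
  obtain ⟨σ, hσ, hx⟩ := h
  obtain ⟨a, b, hab, rfl⟩ := card_eq_two.1 (show g.card = 2 from hg.elim (·.2) (·.2))
  have ha : a ∉ U := fun h => disjoint_left.1 hd h (by simp)
  have hb : b ∉ U := fun h => disjoint_left.1 hd h (by simp)
  have nc : ¬ Cross A B a b ∧ ¬ Cross A B b a := by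
    have d1 := C.dis a
    have d2 := C.dis b
    unfold Cross
    rcases hg with hg | hg
    · have h1 : a ∈ A := hg.1 (by simp)
      have h2 : b ∈ A := hg.1 (by simp)
      tauto
    · have h1 : a ∈ B := hg.1 (by simp)
      have h2 : b ∈ B := hg.1 (by simp)
      tauto
  refine ⟨fun v => if v ∈ U then σ v else if v = a then b else a, fun v hv => ?_, fun u v h => ?_⟩
  · by_cases hU : v ∈ U
    · obtain ⟨p, q, r, s⟩ := hσ v hU
      simp only [hU, p, if_true]
      exact ⟨mem_union_left _ p, q, r, s⟩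
    · have : v = a ∨ v = b := by simpa [hU] using hv
      rcases this with rfl | rfl
      · simp only [ha, hb, if_false, if_true, hab.symm]
        exact ⟨by simp, trivial, hab.symm, fun h =>
          ht (h.resolve_right nc.1) _ (by simp) _ (by simp) hab⟩
      · simp only [ha, hb, if_false, if_true, hab.symm]
        exact ⟨by simp, trivial, hab, fun h =>
          ht (h.resolve_right nc.2) _ (by simp) _ (by simp) hab.symm⟩
  · simp only [Pi.add_apply, hx u v h, vec]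
    by_cases hU : u ∈ U
    · have h1 : u ≠ a := fun e => ha (e ▸ hU)
      have h2 : u ≠ b := fun e => hb (e ▸ hU)
      simp [hU, h1, h2]
    · by_cases h1 : u = a
      · subst h1
        by_cases h2 : v = b
        · subst h2; simp [ha, hab]
        · by_cases h3 : v = u
          · subst h3; simp [ha, hab.symm]
          · simp [ha, h2, h3, Ne.symm h2]
      · by_cases h2 : u = b
        · subst h2
          by_cases h3 : v = a
          · subst h3; simp [hb, h1]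
          · by_cases h4 : v = u
            · subst h4; simp [hb, h1, hab]
            · simp [hb, h1, h3, h4, Ne.symm h3]
        · simp [hU, h1, h2]

lemma PP.pos (h : PP H A B False U x) (hU : ∀ v, v ∈ U) : Cost H A B 1 x := by
  obtain ⟨σ, hσ, hx⟩ := h
  refine ⟨{σ}, 0, by simp, by simp, ?_, by simp, fun u v h => ?_⟩
  · intro τ hτ
    rw [Multiset.mem_singleton] at hτ
    subst hτ
    exact ⟨fun v => ⟨(hσ v (hU v)).2.1, (hσ v (hU v)).2.2.1⟩,
      fun v hv => (hσ v (hU v)).2.2.2 (Or.inr hv)⟩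
  · simp [hx u v h, hU, cnt_singleton]

lemma PP.neg (h : PP H A B True U x) (hU : ∀ v, v ∈ U) : Cost H A B 1 (-x) := by
  obtain ⟨σ, hσ, hx⟩ := h
  refine ⟨0, {σ}, by simp, by simp, by simp, ?_, fun u v h => ?_⟩
  · intro τ hτ
    rw [Multiset.mem_singleton] at hτ
    subst hτ
    exact ⟨fun v => ⟨(hσ v (hU v)).2.1, (hσ v (hU v)).2.2.1⟩,
      fun v => (hσ v (hU v)).2.2.2 (Or.inl trivial)⟩
  · simp [hx u v h, hU, cnt_singleton]

lemma Ctx.disj (C : Ctx n H A B) {P Q : Finset V} (hP : P ⊆ A) (hQ : Q ⊆ B) : Disjoint P Q :=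
  disjoint_left.2 fun v h1 h2 => C.dis v (hP h1) (hQ h2)

lemma Ctx.hall (C : Ctx n H A B) {P Q : Finset V} (hP : P ⊆ A) (hQ : Q ⊆ B) (hc : P.card = Q.card)
    (h : ∀ X ⊆ P, ∀ Y ⊆ Q, X.Nonempty → Y.Nonempty → NoE H X Y → X.card + Y.card ≤ Q.card) :
    MOn (fun u v => Cross A B u v ∧ H u v) (P ∪ Q) := by
  classical
  refine mOn_hall (r' := H) (C.disj hP hQ) hc ?_ fun p hp q hq h =>
    ⟨⟨Or.inl ⟨hP hp, hQ hq⟩, h⟩, ⟨Or.inr ⟨hQ hq, hP hp⟩, C.hs _ _ h⟩⟩
  intro X hX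
  by_contra hlt
  push Not at hlt
  set N := Q.filter (fun q => ∃ p ∈ X, H p q) with hN
  have hNQ : N ⊆ Q := filter_subset _ _
  have c1 := card_sdiff_of_subset hNQ
  have c2 := card_le_card hX
  have c3 := card_le_card hNQ
  have := h X hX (Q \ N) sdiff_subset (card_pos.1 (by omega)) (card_pos.1 (by omega))
    (fun a ha b hb hab => (mem_sdiff.1 hb).2 (mem_filter.2 ⟨(mem_sdiff.1 hb).1, a, ha, hab⟩))
  omega

lemma Ctx.complete (C : Ctx n H A B) {P Q : Finset V} (hP : P ⊆ A) (hQ : Q ⊆ B)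
    (hc : P.card = Q.card) (h : ∀ p ∈ P, ∀ q ∈ Q, H q p) :
    MOn (fun u v => Cross A B u v ∧ H u v) (P ∪ Q) :=
  C.hall hP hQ hc fun _ hX _ hY ⟨a, ha⟩ ⟨b, hb⟩ hn =>
    absurd (C.hs _ _ (h a (hX ha) b (hY hb))) (hn a ha b hb)

lemma Cp.pp (C : Ctx n H A B) (h : Cp n H A B e f) (he : Pr A e) (hf : Pr B f)
    (h1 : t → Thick H e) (h2 : t → Thick H f) :
    PP H A B t ((((A \ e) ∪ (B \ f)) ∪ e) ∪ f) ((0 + vec e) + vec f) ∧
      ∀ v, v ∈ (((A \ e) ∪ (B \ f)) ∪ e) ∪ f := by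
  have c1 := card_sdiff_of_subset he.1
  have c2 := card_sdiff_of_subset hf.1
  have := he.2
  have := hf.2
  have := C.cA
  have := C.cB
  have := card_le_card hf.1
  refine ⟨((PP.base (C.hall sdiff_subset sdiff_subset (by omega) ?_)).step C ?_ (Or.inl he)
    h1).step C ?_ (Or.inr hf) h2, ?_⟩
  · intro X hX Y hY a b c
    have := C.el X (hX.trans sdiff_subset) Y (hY.trans sdiff_subset) a b c
    by_contra hlt
    exact h X Y ⟨hX.trans sdiff_subset, hY.trans sdiff_subset, a, b, c, by omega⟩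
      (disjoint_sdiff.mono_right hX) (disjoint_sdiff.mono_right hY)
  · exact disjoint_union_left.2 ⟨sdiff_disjoint, (C.disj he.1 sdiff_subset).symm⟩
  · exact disjoint_union_left.2 ⟨disjoint_union_left.2 ⟨C.disj sdiff_subset hf.1, sdiff_disjoint⟩,
      C.disj he.1 hf.1⟩
  · intro v
    have := C.cov v
    simp only [mem_union, mem_sdiff]; tauto

lemma Cp.pos (C : Ctx n H A B) (h : Cp n H A B e f) (he : Pr A e) (hf : Pr B f) :
    Cost H A B 1 (vec e + vec f) := by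
  obtain ⟨a, b⟩ := h.pp (t := False) C he hf False.elim False.elim
  exact (a.pos b).mono le_rfl (by simp)

lemma Cp.neg (C : Ctx n H A B) (h : Cp n H A B e f) (he : Pr A e) (hf : Pr B f)
    (h1 : Thick H e) (h2 : Thick H f) : Cost H A B 1 (-(vec e + vec f)) := by
  obtain ⟨a, b⟩ := h.pp (t := True) C he hf (fun _ => h1) (fun _ => h2)
  exact (a.neg b).mono le_rfl (by simp)

/-- Every cross edge lies in a perfect matching made of cross edges. -/
lemma Ctx.dpm (C : Ctx n H A B) {a b : V} (ha : a ∈ A) (hb : b ∈ B) (h : H a b) :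
    ∃ σ, IsPM σ ∧ σ a = b ∧ ∀ v, Cross A B v (σ v) ∧ H v (σ v) := by
  have c1 := card_erase_of_mem ha
  have c2 := card_erase_of_mem hb
  have := C.cA
  have := C.cB
  have M1 := C.hall (erase_subset a A) (erase_subset b B) (by omega) (fun X hX Y hY p q r => by
    have := C.el X (hX.trans (erase_subset _ _)) Y (hY.trans (erase_subset _ _)) p q r
    omega)
  have M2 := C.complete (P := {a}) (Q := {b}) (by simpa) (by simpa) (by simp)
    (by simpa using C.hs _ _ h)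
  obtain ⟨σ, hσ⟩ := M1
  obtain ⟨τ, hτ⟩ := M2
  have hab : a ≠ b := fun e => C.dis a ha (e ▸ hb)
  have hba : b ∉ A := fun h => C.dis b h hb
  have haB : a ∉ B := C.dis a ha
  have M3 : MOn (fun u v => (Cross A B u v ∧ H u v) ∧ (u = a → v = b))
      ((A.erase a ∪ B.erase b) ∪ ({a} ∪ {b})) := by
    refine MOn.union ⟨σ, fun v hv => ?_⟩ ⟨τ, fun v hv => ?_⟩ ?_
    · obtain ⟨p, q, r, s⟩ := hσ v hv
      exact ⟨p, q, r, s, fun e => by simp [e, haB] at hv⟩
    · obtain ⟨p, q, r, s⟩ := hτ v hv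
      refine ⟨p, q, r, s, fun e => ?_⟩
      subst e
      simpa [r] using p
    · simp [haB, hba]
  obtain ⟨ρ, h1, h2⟩ := M3.pm (by
    intro v
    have := C.cov v
    simp only [mem_union, mem_erase, mem_singleton]; tauto)
  exact ⟨ρ, h1, (h2 a).2 rfl, fun v => (h2 v).1⟩

def Link (n : ℕ) (H : V → V → Prop) (A B X f : Finset V) : Prop :=
  ∃ e, Pr A e ∧ Thick H e ∧ ¬ Disjoint e X ∧ Cp n H A B e f

lemma Atom.nonlink (C : Ctx n H A B) (hA : Atom n H A B X Y) (hf : Pr B f)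
    (hL : ¬ Link n H A B X f) : ∃ X0 Y0, Atom n H A B X0 Y0 ∧ X0.card = X.card ∧ Disjoint X X0 ∧
      Disjoint f Y0 ∧ NoE H X X0 ∧
      ∀ X1 ⊆ A, X1.card = X.card → Disjoint X X1 → NoE H X X1 → X1 = X0 := by
  have T := hA.1
  have NL : ∀ a ∈ X, ∀ a' ∈ A, H a a' →
      ∃ X' Y', (Tight n H A B X' Y' ∧ Disjoint X X' ∧ Disjoint f Y') ∧ a' ∉ X' := by
    intro a ha a' ha' h
    obtain ⟨p1, p2⟩ := C.pair (T.sX ha) ha' h
    by_contra hc
    refine hL ⟨_, p1, p2, by simp [ha], fun X' Y' T' h1 h2 => hc ⟨X', Y', ⟨T', ?_, h2⟩, ?_⟩⟩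
    · refine (hA.a1 C T').resolve_left fun h => ?_
      exact disjoint_left.1 h1 (show a ∈ {a, a'} by simp) (h ha)
    · exact disjoint_left.1 h1 (show a' ∈ {a, a'} by simp)
  obtain ⟨a, ha⟩ := T.nX
  obtain ⟨a', ha', h⟩ := (T.swap C).chord C.swap ha
  obtain ⟨X0, Y0, ⟨T0, d0, f0⟩, hm⟩ := exists_max_pair
    (fun X' Y' => Tight n H A B X' Y' ∧ Disjoint X X' ∧ Disjoint f Y') (fun _ Y => Y.card)
    (by obtain ⟨X', Y', h, -⟩ := NL a ha a' ha' h; exact ⟨X', Y', h⟩)
  have cA := C.cA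
  have cB := C.cB
  have hno : NoE H X X0 := by
    intro a ha a' ha0 h
    obtain ⟨X', Y', ⟨T', d', f'⟩, hn⟩ := NL a ha a' (T0.sX ha0) h
    have F := T0.fam C T' (cA ▸ card_miss1 (union_subset T0.sX T'.sX) (T.sX ha)
      (by simp [disjoint_left.1 d0 ha, disjoint_left.1 d' ha]))
      (by have := card_miss (union_subset T0.sY T'.sY) hf.1 (disjoint_union_right.2 ⟨f0, f'⟩)
          have := hf.2; omega)
    have := hm _ _ ⟨F, d0.mono_right inter_subset_left, disjoint_union_right.2 ⟨f0, f'⟩⟩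
    have h1 := F.card
    have h2 := T0.card
    have := eq_of_subset_of_card_le (inter_subset_left (s₁ := X0) (s₂ := X')) (by omega)
    exact hn (mem_inter.1 (this.symm ▸ ha0)).2
  have h1 : ∀ w, H a w → w ∈ (A \ X0).erase a ∨ w ∈ B \ Y := by
    intro w hw
    rcases C.cov w with h | h
    · exact Or.inl (mem_erase.2 ⟨fun e => C.hi a (e ▸ hw), mem_sdiff.2 ⟨h, fun h' => hno a ha w h' hw⟩⟩)
    · exact Or.inr (mem_sdiff.2 ⟨h, fun h' => T.no a ha w h' hw⟩)
  have c1 : ((A \ X0).erase a).card = Y0.card := by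
    rw [card_erase_of_mem (mem_sdiff.2 ⟨T.sX ha, disjoint_left.1 d0 ha⟩), card_sdiff_of_subset T0.sX]
    have := T0.card
    omega
  have c2 := card_sdiff_of_subset T.sY
  have c3 := C.deg2 a _ _ h1
  have c4 := T.card
  have c5 := T0.card
  have c6 := (hA.2 _ _ T0).1
  have hc : X0.card = X.card := by omega
  refine ⟨X0, Y0, ⟨T0, hc ▸ hA.2⟩, hc, d0, f0, hno, fun X1 s1 e1 d1 n1 => ?_⟩
  refine eq_of_subset_of_card_le (fun w hw => ?_) (by omega)
  by_contra hn
  exact n1 a ha w hw ((C.deg2_eq a _ _ h1 (by omega)).1 w (mem_erase.2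
    ⟨fun e => disjoint_left.1 d1 ha (e ▸ hw), mem_sdiff.2 ⟨s1 hw, hn⟩⟩))

lemma Atom.link (C : Ctx n H A B) (hA : Atom n H A B X Y) {g : Finset V} (hg : Pr B g)
    (tg : Thick H g) (hU : Univ n H A B X g) (hf : Pr B f) :
    Cost H A B 4 (vec f - vec g) ∧ (Thick H f → Cost H A B 4 (vec g - vec f)) := by
  have two : ∀ e f f', Pr A e → Thick H e → Pr B f → Pr B f' → Cp n H A B e f → Cp n H A B e f' →
      Thick H f' → Cost H A B 2 (vec f - vec f') := by
    intro e f f' he te hf hf' c c' t'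
    exact ((c.pos C he hf).add (c'.neg C he hf' te t')).mono le_rfl (by abel)
  have L : ∀ f, Pr B f → Link n H A B X f →
      Cost H A B 2 (vec f - vec g) ∧ (Thick H f → Cost H A B 2 (vec g - vec f)) := by
    rintro f hf ⟨e, he, te, hd, c⟩
    exact ⟨two e f g he te hf hg c (hA.a4 C hU hd) tg,
      fun tf => two e g f he te hg hf (hA.a4 C hU hd) c tf⟩
  by_cases hL : Link n H A B X f
  · exact ⟨(L f hf hL).1.mono (by norm_num) rfl, fun t => ((L f hf hL).2 t).mono (by norm_num) rfl⟩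
  obtain ⟨X0, Y0, A0, c0, d0, f0, n0, u0⟩ := hA.nonlink C hf hL
  have T := hA.1
  have T0 := A0.1
  obtain ⟨g', hg', tg', m1, m2⟩ : ∃ g', Pr B g' ∧ Thick H g' ∧ ¬ Disjoint g' Y ∧ ¬ Disjoint g' Y0 := by
    by_contra hc
    have hc' : ∀ b ∈ B, ∀ w ∈ B, H b w → (b ∈ Y ∨ w ∈ Y) → (b ∈ Y0 ∨ w ∈ Y0) → False := by
      intro b hb w hw h h1 h2
      obtain ⟨p1, p2⟩ := C.pair hb hw h
      exact hc ⟨_, p1, p2, by simp; tauto, by simp; tauto⟩
    have dY : Disjoint Y Y0 := by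
      refine disjoint_left.2 fun w h1 h2 => ?_
      obtain ⟨w', hw', h⟩ := T.chord C h1
      exact hc' w (T.sY h1) w' hw' h (Or.inl h1) (Or.inl h2)
    have := T.card
    have := T0.card
    have := card_pos.2 T.nX
    have := card_pos.2 T.nY
    refine C.c3 (by omega) (X ∪ Y0) (X0 ∪ Y) ?_ (T.nX.mono subset_union_left)
      (T0.nX.mono subset_union_left) ?_ ?_
    · simp only [disjoint_union_left, disjoint_union_right]
      exact ⟨⟨d0, (C.disj T0.sX T0.sY).symm⟩, C.disj T.sX T.sY, dY.symm⟩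
    · rw [card_union_of_disjoint (C.disj T.sX T0.sY), card_union_of_disjoint (C.disj T0.sX T.sY)]
      omega
    · intro a ha b hb h
      rcases mem_union.1 ha with ha | ha <;> rcases mem_union.1 hb with hb | hb
      · exact n0 a ha b hb h
      · exact T.no a ha b hb h
      · exact T0.no b hb a ha (C.hs _ _ h)
      · exact hc' a (T0.sY ha) b (T.sY hb) h (Or.inr hb) (Or.inl ha)
  have L1 : Link n H A B X g' := by
    by_contra hn
    obtain ⟨X1, Y1, A1, c1, d1, f1, n1, -⟩ := hA.nonlink C hg' hn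
    have := u0 X1 A1.1.sX c1 d1 n1
    subst this
    exact m2 (f1.mono_right (A1.1.anti C subset_rfl T0.sY T0.no))
  have L2 : Link n H A B X0 g' := by
    by_contra hn
    obtain ⟨X1, Y1, A1, c1, d1, f1, n1, u1⟩ := A0.nonlink C hg' hn
    have := u1 X T.sX c0.symm d0.symm (n0.symm C)
    subst this
    exact m1 (f1.mono_right (A1.1.anti C subset_rfl T.sY T.no))
  obtain ⟨e, he, te, hd, c⟩ := L2
  have c' := A0.a4 C (A0.a3 C hf f0) hd
  exact ⟨((two e f g' he te hf hg' c' c tg').add (L g' hg' L1).1).mono le_rfl (by abel),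
    fun tf => ((two e g' f he te hg' hf c c' tf).add ((L g' hg' L1).2 tg')).mono le_rfl (by abel)⟩

end Pool.Agent.P.MP_303500_co
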