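import Pool.Agent.P.MP_303500_co.Ext2

/-! Stability: either the reserve is robust or the graph is close to an extremal one. -/

set_option linter.unusedSectionVars false

namespace Pool.Agent.P.MP_303500_co
open Finset

variable {V : Type} [Fintype V] [DecidableEq V]

lemma sum_at {F : V → V → ℕ} (g : Gr F) (v : V) :
    ∑ u, deg F u = 2 * deg F v + ∑ u ∈ univ.erase v, ∑ w ∈ univ.erase v, F u w := by
  have a1 : ∀ u, deg F u = F v u + ∑ w ∈ univ.erase v, F u w := fun u => by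
    rw [g.1 v u]; exact (add_sum_erase _ (fun w => F u w) (mem_univ v)).symm
  have a2 := a1 v
  rw [← add_sum_erase _ _ (mem_univ v), sum_congr rfl fun u _ => a1 u, sum_add_distrib]
  rw [g.2] at a2
  omega

lemma flip {m : V → V → ℕ} (g : Gr m) (ty : V → Bool) (p : Bool) (v : V) :
    ∑ u, deg (spr (Function.update ty v (!ty v)) p m) u + 4 * deg (spr ty p m) v
      = ∑ u, deg (spr ty p m) u + 2 * deg m v := by
  have a1 : deg (spr (Function.update ty v (!ty v)) p m) v + deg (spr ty p m) v = deg m v := by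
    rw [← deg_add]
    refine sum_congr rfl fun w _ => ?_
    by_cases e : w = v
    · simp [e, spr, g.2]
    · simp only [spr, Function.update_self, Function.update_of_ne e]
      cases ty v <;> cases ty w <;> cases p <;> simp
  have a2 : ∑ u ∈ univ.erase v, ∑ w ∈ univ.erase v, spr (Function.update ty v (!ty v)) p m u w
      = ∑ u ∈ univ.erase v, ∑ w ∈ univ.erase v, spr ty p m u w :=
    sum_congr rfl fun u hu => sum_congr rfl fun w hw => by
      simp only [spr, Function.update_of_ne (ne_of_mem_erase hu),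
        Function.update_of_ne (ne_of_mem_erase hw)]
  rw [sum_at (gr_spr g _ p) v, sum_at (gr_spr g ty p) v]
  omega

theorem ext_any {n a b x r u : ℕ} (hS : Sc n a b x) (hu : u * n ≤ a ^ 2) (hu' : 100 * u ≤ a)
    (hN : Fintype.card V = 2 * n) (hr : 0 < r) (hV : Viz (Fintype.card V) a)
    (hB : Big (Fintype.card V) a) {m : V → V → ℕ} (h : Reg (r * n) m) (hmr : ∀ u v, m u v ≤ r)
    (ha : 100 ≤ a) (p : Bool) (ty : V → Bool) (hΓ : ∑ v, deg (spr ty p m) v ≤ r * (u * n))
    (hs : p = false → ∀ β, n ≤ 2 * (tp ty β).card) : Fac m := by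
  obtain ⟨ty', t1, t2⟩ := exists_min_image
    (univ.filter fun ty : V → Bool => p = false → ∀ β, n ≤ 2 * (tp ty β).card)
    (fun ty => ∑ v, deg (spr ty p m) v) ⟨ty, by simpa using hs⟩
  have hΓ' := (t2 ty (by simpa using hs)).trans hΓ
  replace t1 := (mem_filter.1 t1).2
  have hh : ∀ v, 2 * deg (spr ty' p m) v ≤ r * n := fun v => by
    have a1 := flip h.gr ty' p v
    have a2 := t2 (Function.update ty' v (!ty' v)) (mem_filter.2 ⟨mem_univ _, ?_⟩)
    · have : deg m v = r * n := h.deg v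
      omega
    rintro rfl β
    have := hS.h4; have := hS.h5; have := hS.h6
    have := size_false hr (by omega) h hmr hΓ' (t1 rfl) β
    have := card_le_card (s := tp ty' β) (t := insert v (tp (Function.update ty' v (!ty' v)) β))
      fun w hw => by by_cases e : w = v <;> simp_all
    have := card_insert_le v (tp (Function.update ty' v (!ty' v)) β)
    omega
  cases p
  · exact ext_false hS hu hu' hN hr hV hB h hmr ty' hΓ' hh ha (t1 rfl)
  · exact ext_true hS hu hu' hN hr hV hB h hmr ty' hΓ' hh ha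

/-- Heavy neighbours of `a`. -/
def NA (m : V → V → ℕ) (r : ℕ) (a : V) : Finset V := univ.filter fun v => r ≤ 2 * m a v

/-- Vertices sending almost all edges into `A`. -/
def SA (m : V → V → ℕ) (d t : ℕ) (A : Finset V) : Finset V :=
  univ.filter fun u => d ≤ ∑ w ∈ A, m u w + t

lemma sd_in (s : V → Bool) (β : Bool) (A : Finset V) (f : V → ℕ) :
    sd s β (fun w => if w ∈ A then f w else 0) = ∑ w ∈ tp s β ∩ A, f w := by
  rw [← sum_ite_mem, tp, sum_filter]; rfl

lemma sum_sides (s : V → Bool) (β : Bool) (A : Finset V) (f : V → ℕ) :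
    ∑ w ∈ tp s β ∩ A, f w + ∑ w ∈ tp s (!β) ∩ A, f w = ∑ w ∈ A, f w := by
  rw [← sd_in, ← sd_in, sd_add, sum_ite_mem, univ_inter]

lemma final_dich {n r h i : ℕ} (hN : Fintype.card V = 2 * n) (hr : 0 < r) {m : V → V → ℕ}
    (hm : Reg (r * n) m) (hmr : ∀ u v, m u v ≤ r) (A : Finset V) (h1 : A.card ≤ n + h)
    (h2 : n ≤ A.card + h) (h3 : n ≤ (SA m (r * n) (3 * (r * h)) A).card + 3 * h)
    (n1 : 8 * h * n ≤ i ^ 2) (n2 : 6 * h ≤ i) (n3 : i ≤ n) :
    ∃ p ty, ∑ v, deg (spr ty p m) v ≤ r * (6 * i * n) ∧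
      (p = false → ∀ β, n ≤ 2 * (tp ty β).card) := by
  set S := SA m (r * n) (3 * (r * h)) A with hS
  have s1 : ∀ u ∈ S, r * n ≤ ∑ w ∈ A, m u w + 3 * (r * h) := fun u hu => (mem_filter.1 hu).2
  have s2 : ∀ u ∈ S, ∑ w ∈ Aᶜ, m u w ≤ 3 * (r * h) := fun u hu => by
    have := s1 u hu; have := sum_add_sum_compl A (m u); have := hm.deg u; omega
  have c1 := card_inter_add_card_sdiff S A
  have c2 := card_le_univ S
  have c3 := card_sdiff_add_card_eq_card (inter_subset_right (s₁ := S) (s₂ := A))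
  have e1 : tp (fun v => decide (v ∈ A)) true = A := by ext; simp
  have e2 := sum_spr_false hm fun v => decide (v ∈ A)
  rw [e1] at e2
  have a1 : ∑ u ∈ S ∩ A, ∑ w ∈ S \ A, m u w ≤ (S ∩ A).card * (3 * (r * h)) :=
    sum_le_card_nsmul _ _ _ fun u hu => le_trans (sum_le_sum_of_subset fun w hw =>
      mem_compl.2 (mem_sdiff.1 hw).2) (s2 u (mem_inter.1 hu).1)
  have a2 : (S \ A).card * (r * (S ∩ A).card) ≤
      ∑ u ∈ S \ A, (∑ w ∈ S ∩ A, m w u + 4 * (r * h)) :=
    card_nsmul_le_sum _ _ _ fun u hu => by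
      have b1 := s1 u (mem_sdiff.1 hu).1
      have b2 := sum_sdiff (f := fun w => m u w) (inter_subset_right (s₁ := S) (s₂ := A))
      have b3 : ∑ w ∈ A \ (S ∩ A), m u w ≤ (A \ (S ∩ A)).card * r :=
        sum_le_card_nsmul _ _ r fun w _ => hmr u w
      have b4 := Nat.mul_le_mul_right r (c3.le.trans h1)
      simp only [hm.symm _ u]
      clear * - b1 b2 b3 b4
      nlinarith
  rw [sum_add_distrib, sum_comm, sum_const, smul_eq_mul] at a2
  rw [hN] at c2
  have a3 : (S ∩ A).card * (S \ A).card ≤ i * i := by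
    have b1 : ((S ∩ A).card + (S \ A).card) * (4 * (r * h)) ≤ 2 * n * (4 * (r * h)) :=
      Nat.mul_le_mul_right _ (by omega)
    have b2 := Nat.mul_le_mul_left r n1
    clear * - a1 a2 b1 b2 hr
    exact Nat.le_of_mul_le_mul_left (by nlinarith [Nat.zero_le ((S ∩ A).card * (r * h))]) hr
  have hi : 6 * (h * (r * n)) ≤ i * (r * n) := by
    rw [← mul_assoc]; exact Nat.mul_le_mul_right _ n2
  have e3 : r * (6 * i * n) = 6 * (i * (r * n)) := by ring
  by_cases hQ : (S \ A).card ≤ i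
  · refine ⟨false, fun v => decide (v ∈ A), ?_, fun _ β => ?_⟩
    · have b1 : ∑ u ∈ S ∩ A, ∑ w ∈ Aᶜ, m u w ≤ (S ∩ A).card * (3 * (r * h)) :=
        sum_le_card_nsmul _ _ _ fun u hu => s2 u (mem_inter.1 hu).1
      have b2 : ∑ u ∈ A \ (S ∩ A), ∑ w ∈ Aᶜ, m u w ≤ (A \ (S ∩ A)).card * (r * n) :=
        sum_le_card_nsmul _ _ _ fun u _ => hm.deg u ▸ sum_le_sum_of_subset (subset_univ _)
      have b3 := sum_sdiff (f := fun u => ∑ w ∈ Aᶜ, m u w)
        (inter_subset_right (s₁ := S) (s₂ := A))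
      have b4 : (A \ (S ∩ A)).card * (r * n) ≤ (4 * h + i) * (r * n) :=
        Nat.mul_le_mul_right _ (by omega)
      have b5 : (S ∩ A).card * (3 * (r * h)) ≤ 2 * n * (3 * (r * h)) :=
        Nat.mul_le_mul_right _ (by omega)
      have b6 : (4 * h + i) * (r * n) = 4 * (h * (r * n)) + i * (r * n) := by ring
      have b7 : 2 * n * (3 * (r * h)) = 6 * (h * (r * n)) := by ring
      rw [e2, cut]; omega
    · cases β
      · rw [← Bool.not_true, ← tp_compl, e1, card_compl]; omega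
      · rw [e1]; omega
  · have hP : (S ∩ A).card ≤ i := by
      by_contra hc
      exact absurd (Nat.mul_lt_mul'' (not_le.1 hc) (not_le.1 hQ)) (not_lt.2 a3)
    refine ⟨true, fun v => decide (v ∈ A), ?_, by simp⟩
    have b1 : ∑ v, deg (spr (fun v => decide (v ∈ A)) true m) v
        + ∑ v, deg (spr (fun v => decide (v ∈ A)) false m) v = 2 * n * (r * n) := by
      rw [← sum_add_distrib, ← hN, ← card_univ, ← smul_eq_mul, ← sum_const]
      refine sum_congr rfl fun v _ => ?_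
      rw [← deg_add, ← hm.deg v]
      refine sum_congr rfl fun w _ => ?_
      by_cases p : v ∈ A <;> by_cases q : w ∈ A <;> simp [spr, p, q]
    have b2 : (S \ A).card * (r * n) ≤ ∑ u ∈ S \ A, (∑ w ∈ A, m u w + 3 * (r * h)) :=
      card_nsmul_le_sum _ _ _ fun u hu => s1 u (mem_sdiff.1 hu).1
    have b3 : ∑ u ∈ S \ A, ∑ w ∈ A, m u w ≤ cut m A := by
      rw [← hm.cut_compl, cut, compl_compl]
      exact sum_le_sum_of_subset fun w hw => mem_compl.2 (mem_sdiff.1 hw).2
    have b4 : (S \ A).card * (3 * (r * h)) ≤ 2 * n * (3 * (r * h)) :=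
      Nat.mul_le_mul_right _ (by omega)
    have b5 : n * (r * n) ≤ ((S \ A).card + 3 * h + i) * (r * n) :=
      Nat.mul_le_mul_right _ (by omega)
    have b6 : ((S \ A).card + 3 * h + i) * (r * n)
      = (S \ A).card * (r * n) + 3 * (h * (r * n)) + i * (r * n) := by ring
    have b7 : 2 * n * (3 * (r * h)) = 6 * (h * (r * n)) := by ring
    rw [sum_add_distrib, sum_const, smul_eq_mul] at b2
    rw [mul_assoc 2] at b1
    omega

lemma dich {n r e h i s0 : ℕ} (hN : Fintype.card V = 2 * n) (hr : 0 < r) {m : V → V → ℕ}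
    (hm : Reg (r * n) m) (hmr : ∀ u v, m u v ≤ r) {s : V → Bool} (hs : ∀ β, (tp s β).card = n)
    (st1 : ∀ v β, sd s β (m v) ≤ sd s (!β) (m v) + r * e)
    (st2 : ∀ a β, (tp s β ∩ NA m r a).card ≤ (tp s (!β) ∩ NA m r a).card + e)
    (st3 : ∀ a u β, ∑ w ∈ tp s β ∩ NA m r a, m u w ≤ ∑ w ∈ tp s (!β) ∩ NA m r a, m u w + r * e)
    (st4 : ∀ a β, (tp s β ∩ SA m (r * n) (3 * (r * h)) (NA m r a)).card ≤
      (tp s (!β) ∩ SA m (r * n) (3 * (r * h)) (NA m r a)).card + e)
    {S T : Finset V} {β : Bool} (hS : S ⊆ tp s β) (hT : T ⊆ tp s (!β)) (s1 : S.card = s0)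
    (s2 : T.card = s0) (s3 : 0 < s0) (s4 : 2 * s0 ≤ n) (s5 : n ≤ 2 * s0 + 2 * e)
    (s6 : ∑ u ∈ S, ∑ v ∈ T, m u v ≤ r * e * s0) (n0 : e * n ≤ h ^ 2) (n0' : 12 * e ≤ h)
    (n1 : 8 * h * n ≤ i ^ 2) (n2 : 6 * h ≤ i) (n3 : i ≤ n) (h0 : 0 < h) :
    ∃ p ty, ∑ v, deg (spr ty p m) v ≤ r * (6 * i * n) ∧
      (p = false → ∀ β, n ≤ 2 * (tp ty β).card) := by
  obtain ⟨a, ha, a1⟩ := exists_le_of_sum_le (s := S) (f := fun u => ∑ v ∈ T, m u v)
    (g := fun _ => r * e) (card_pos.1 (by omega)) (by simpa [s1, mul_comm] using s6)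
  set A := NA m r a with hA
  set R := tp s (!β) with hR
  have cr : ∀ u, r * n ≤ 2 * (∑ v ∈ R \ T, m u v + ∑ v ∈ T, m u v) + r * e := fun u => by
    have b1 := st1 u β
    have b2 := sd_add s β (m u)
    have b3 : sd s (!β) (m u) = ∑ v ∈ R, m u v := by rw [hR, tp, sum_filter]; rfl
    rw [sum_sdiff hT, ← b3]; have := hm.deg u; omega
  have c1 := card_sdiff_add_card_eq_card hT
  rw [hs, s2] at c1
  have c2 := card_inter_add_card_sdiff (R \ T) A
  have c3 : ((R \ T) \ A).card ≤ 5 * e := by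
    have b1 := sum_inter_add_sum_sdiff (R \ T) A fun v => m a v
    have b2 : ∑ v ∈ (R \ T) ∩ A, m a v ≤ ((R \ T) ∩ A).card * r :=
      sum_le_card_nsmul _ _ _ fun v _ => hmr a v
    have b3 : ∑ v ∈ (R \ T) \ A, 2 * m a v ≤ ((R \ T) \ A).card * r :=
      sum_le_card_nsmul _ _ _ fun v hv => by
        have := (mem_sdiff.1 hv).2; simp only [hA, NA, mem_filter, mem_univ, true_and] at this; omega
    have b4 := cr a
    have b5 : r * (2 * (((R \ T) ∩ A).card + ((R \ T) \ A).card)) ≤ r * (n + 2 * e) :=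
      Nat.mul_le_mul_left _ (by omega)
    rw [← mul_sum] at b3
    clear * - b1 b2 b3 b4 b5 a1 hr
    exact Nat.le_of_mul_le_mul_left (by nlinarith) hr
  have c4 : (T ∩ A).card ≤ 2 * e := by
    have b1 : (T ∩ A).card * r ≤ ∑ v ∈ T ∩ A, 2 * m a v :=
      card_nsmul_le_sum _ _ _ fun v hv => (mem_filter.1 (mem_inter.1 hv).2).2
    have b2 : ∑ v ∈ T ∩ A, m a v ≤ ∑ v ∈ T, m a v := sum_le_sum_of_subset inter_subset_left
    rw [← mul_sum] at b1
    clear * - b1 b2 a1 hr
    exact Nat.le_of_mul_le_mul_left (by nlinarith) hr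
  have c5 : (R ∩ A).card ≤ ((R \ T) ∩ A).card + (T ∩ A).card :=
    (card_le_card fun v => by simp only [mem_inter, mem_union, mem_sdiff]; tauto).trans
      (card_union_le _ _)
  have c6 : (R \ T) ∩ A ⊆ R ∩ A := inter_subset_inter_right sdiff_subset
  have c7 := card_le_card c6
  have c8 := sum_sides s β A fun _ => 1
  have c9 := st2 a β
  have c10 := st2 a (!β)
  simp only [← card_eq_sum_ones] at c8
  rw [Bool.not_not] at c10
  rw [← hA, ← hR] at c9 c10
  rw [← hR] at c8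
  have d1 : S.filter (fun u => ∑ v ∈ T, m u v ≤ r * h) ⊆
      tp s β ∩ SA m (r * n) (3 * (r * h)) A := fun u hu => by
    rw [mem_filter] at hu
    refine mem_inter.2 ⟨hS hu.1, mem_filter.2 ⟨mem_univ _, ?_⟩⟩
    have b1 := sum_inter_add_sum_sdiff (R \ T) A fun v => m u v
    have b2 : ∑ v ∈ (R \ T) \ A, m u v ≤ ((R \ T) \ A).card * r :=
      sum_le_card_nsmul _ _ _ fun v _ => hmr u v
    have b3 : ∑ v ∈ (R \ T) ∩ A, m u v ≤ ∑ v ∈ R ∩ A, m u v := sum_le_sum_of_subset c6
    have b4 := cr u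
    have b5 := st3 a u (!β)
    have b6 := sum_sides s β A fun v => m u v
    have b7 := Nat.mul_le_mul_right r c3
    have b8 := Nat.mul_le_mul_left r n0'
    have b9 := hu.2
    rw [Bool.not_not, ← hA, ← hR] at b5
    rw [← hR] at b6
    clear * - b1 b2 b3 b4 b5 b6 b7 b8 b9
    nlinarith
  have d2 : (S.filter fun u => ¬ ∑ v ∈ T, m u v ≤ r * h).card ≤ h := by
    have b1 : (S.filter fun u => ¬ ∑ v ∈ T, m u v ≤ r * h).card * (r * h) ≤
        ∑ u ∈ S.filter fun u => ¬ ∑ v ∈ T, m u v ≤ r * h, ∑ v ∈ T, m u v :=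
      card_nsmul_le_sum _ _ _ fun u hu => (not_le.1 (mem_filter.1 hu).2).le
    have b2 := b1.trans ((sum_le_sum_of_subset (filter_subset _ _)).trans s6)
    have b3 : r * e * s0 ≤ h * (r * h) := by
      calc _ ≤ r * e * n := Nat.mul_le_mul_left _ (by omega)
        _ = r * (e * n) := by ring
        _ ≤ r * h ^ 2 := Nat.mul_le_mul_left _ n0
        _ = _ := by ring
    exact Nat.le_of_mul_le_mul_right (b2.trans b3) (by positivity)
  have d3 := card_filter_add_card_filter_not (s := S) fun u => ∑ v ∈ T, m u v ≤ r * h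
  have d4 := card_le_card d1
  have d5 := sum_sides s β (SA m (r * n) (3 * (r * h)) A) fun _ => 1
  have d6 := st4 a β
  simp only [← card_eq_sum_ones] at d5
  rw [← hA] at d6
  exact final_dich hN hr hm hmr A (by omega) (by omega) (by omega) n1 n2 n3

end Pool.Agent.P.MP_303500_co
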