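import Mathlib

/-! Dirac's theorem and the elementary balanced bipartition given by a Hamilton cycle. -/

set_option linter.unusedSectionVars false

namespace Pool.Agent.P.MP_303500_co
open Finset

variable {V : Type} [Fintype V] [DecidableEq V]

def nxt (N j : ℕ) : ℕ := if j + 1 = N then 0 else j + 1

lemma surj_of_inj {N : ℕ} (hN : Fintype.card V = N) {c : ℕ → V}
    (hc : ∀ i < N, ∀ j < N, c i = c j → i = j) (v : V) : ∃ j < N, c j = v := by
  have : (range N).image c = univ := by
    apply eq_univ_of_card
    rw [card_image_of_injOn, card_range, hN]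
    intro i hi j hj h
    exact hc i (mem_range.1 hi) j (mem_range.1 hj) h
  have hv : v ∈ (range N).image c := this ▸ mem_univ v
  simpa using hv

theorem dirac {n : ℕ} (hN : Fintype.card V = 2 * n) (hn : 0 < n) (H : V → V → Prop)
    [DecidableRel H] (hs : ∀ u v, H u v → H v u) (hi : ∀ u, ¬ H u u)
    (hd : ∀ v, n ≤ (univ.filter (H v)).card) :
    ∃ c : ℕ → V, (∀ i < 2 * n, ∀ j < 2 * n, c i = c j → i = j) ∧
      ∀ j < 2 * n, H (c j) (c (nxt (2 * n) j)) := by
  set N := 2 * n with hNn
  let G : (ℕ → V) → Finset ℕ := fun c => (range N).filter (fun j => H (c j) (c (nxt N j)))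
  have step : ∀ c : ℕ → V, (∀ i < N, ∀ j < N, c i = c j → i = j) → ∀ lo hi', lo < hi' → hi' < N →
      H (c lo) (c hi') → H (c (lo + 1)) (c (nxt N hi')) → (lo ∉ G c ∨ hi' ∉ G c) →
      ∃ c' : ℕ → V, (∀ i < N, ∀ j < N, c' i = c' j → i = j) ∧ (G c).card < (G c').card := by
    intro c hc lo hi' h1 h2 h3 h4 h5
    let ρ : ℕ → ℕ := fun j => if lo < j ∧ j ≤ hi' then lo + 1 + hi' - j else j
    let ψ : ℕ → ℕ := fun j => if lo < j ∧ j < hi' then lo + hi' - j else j
    refine ⟨fun j => c (ρ j), fun i hi1 j hj1 h => ?_, ?_⟩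
    · have := hc (ρ i) (by simp only [ρ]; split_ifs <;> omega) (ρ j)
        (by simp only [ρ]; split_ifs <;> omega) h
      simp only [ρ] at this
      split_ifs at this <;> omega
    · have a : (G c).card < (insert lo (insert hi' (G c))).card := by
        apply card_lt_card
        refine ⟨(subset_insert _ _).trans (subset_insert _ _), fun h => ?_⟩
        rcases h5 with h5 | h5
        · exact h5 (h (by simp))
        · exact h5 (h (by simp))
      refine a.trans_le (card_le_card_of_injOn ψ ?_ ?_)
      · intro j hj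
        simp only [coe_insert, Set.mem_insert_iff, mem_coe, G, mem_filter, mem_range] at hj ⊢
        by_cases e1 : j = lo
        · subst e1
          have x1 : ψ j = j := by simp [ψ]
          have x2 : ρ j = j := by simp [ρ]
          have x3 : ρ (nxt N j) = hi' := by
            simp only [ρ, nxt]; split_ifs <;> omega
          rw [x1, x2, x3]; exact ⟨by omega, h3⟩
        by_cases e2 : j = hi'
        · subst e2
          have x1 : ψ j = j := by simp [ψ]
          have x2 : ρ j = lo + 1 := by simp only [ρ]; split_ifs <;> omega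
          have x3 : ρ (nxt N j) = nxt N j := by
            simp only [ρ, nxt]; split_ifs <;> omega
          rw [x1, x2, x3]; exact ⟨h2, h4⟩
        obtain ⟨hjN, hj⟩ : j < N ∧ H (c j) (c (nxt N j)) := by tauto
        by_cases e3 : lo < j ∧ j < hi'
        · have x1 : ψ j = lo + hi' - j := by simp [ψ, e3]
          have x2 : ρ (lo + hi' - j) = nxt N j := by
            simp only [ρ, nxt]; split_ifs <;> omega
          have x3 : ρ (nxt N (lo + hi' - j)) = j := by
            simp only [ρ, nxt]; split_ifs <;> omega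
          rw [x1, x2, x3]; exact ⟨by omega, hs _ _ hj⟩
        · have x1 : ψ j = j := by simp only [ψ, if_neg e3]
          have x2 : ρ j = j := by simp only [ρ]; split_ifs <;> omega
          have x3 : ρ (nxt N j) = nxt N j := by
            simp only [ρ, nxt]; split_ifs <;> omega
          rw [x1, x2, x3]; exact ⟨hjN, hj⟩
      · intro i _ j _ h
        simp only [ψ] at h
        split_ifs at h <;> omega
  have key : ∀ k, ∀ c : ℕ → V, (∀ i < N, ∀ j < N, c i = c j → i = j) → N - (G c).card = k →
      ∃ c : ℕ → V, (∀ i < N, ∀ j < N, c i = c j → i = j) ∧ ∀ j < N, H (c j) (c (nxt N j)) := by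
    intro k
    induction k using Nat.strong_induction_on with
    | _ k ih =>
    intro c hc hk
    by_cases hall : ∀ j < N, H (c j) (c (nxt N j))
    · exact ⟨c, hc, hall⟩
    push Not at hall
    obtain ⟨p, hp, hbad⟩ := hall
    have hpG : p ∉ G c := fun h => hbad (mem_filter.1 h).2
    let S := (range N).filter (fun i => H (c (nxt N p)) (c (nxt N i)))
    let T := (range N).filter (fun i => H (c p) (c i))
    have hS : n ≤ S.card := by
      refine (hd (c (nxt N p))).trans (card_le_card_of_surjOn (fun i => c (nxt N i)) ?_)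
      intro v hv
      obtain ⟨j, hj, rfl⟩ := surj_of_inj hN hc v
      have : nxt N (if j = 0 then N - 1 else j - 1) = j := by
        simp only [nxt]; split_ifs <;> omega
      refine ⟨if j = 0 then N - 1 else j - 1, ?_, by simp only [this]⟩
      simp only [S, coe_filter, mem_range, Set.mem_ofPred_eq, this]
      exact ⟨by split_ifs <;> omega, by simpa using hv⟩
    have hT : n ≤ T.card := by
      refine (hd (c p)).trans (card_le_card_of_surjOn c ?_)
      intro v hv
      obtain ⟨j, hj, rfl⟩ := surj_of_inj hN hc v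
      exact ⟨j, by simpa [T, hj] using hv, rfl⟩
    have : ¬ Disjoint S T := by
      intro hdis
      have h1 : S ∪ T ⊆ (range N).erase p := by
        intro i hi1
        rcases mem_union.1 hi1 with h | h
        · have := mem_filter.1 h
          exact mem_erase.2 ⟨fun e => hi _ (e ▸ this.2), this.1⟩
        · have := mem_filter.1 h
          exact mem_erase.2 ⟨fun e => hi _ (e ▸ this.2), this.1⟩
      have := card_le_card h1
      rw [card_union_of_disjoint hdis, card_erase_of_mem (mem_range.2 hp), card_range] at this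
      omega
    obtain ⟨i, hiS, hiT⟩ := not_disjoint_iff.1 this
    obtain ⟨hiN, a⟩ := mem_filter.1 hiS
    have b := (mem_filter.1 hiT).2
    have hiN := mem_range.1 hiN
    have hle : ∀ c, (G c).card ≤ N := fun c => (card_filter_le _ _).trans (by simp)
    obtain ⟨c', hc', hlt⟩ : ∃ c' : ℕ → V, (∀ i < N, ∀ j < N, c' i = c' j → i = j) ∧
        (G c).card < (G c').card := by
      rcases lt_trichotomy i p with h | h | h
      · refine step c hc i p h hp (hs _ _ b) ?_ (Or.inr hpG)
        have : nxt N i = i + 1 := by simp only [nxt]; split_ifs <;> omega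
        rw [← this]; exact hs _ _ a
      · exact absurd (h ▸ b) (hi _)
      · refine step c hc p i h hiN b ?_ (Or.inl hpG)
        have : nxt N p = p + 1 := by simp only [nxt]; split_ifs <;> omega
        rw [← this]; exact a
    exact ih _ (by have := hle c'; omega) c' hc' rfl
  let E := Fintype.equivFinOfCardEq hN
  refine key _ (fun j => if h : j < N then E.symm ⟨j, h⟩ else E.symm ⟨0, by omega⟩) ?_ rfl
  intro i hi1 j hj h
  simpa [hi1, hj] using h

theorem exists_elem {n : ℕ} (hN : Fintype.card V = 2 * n) (hn : 0 < n) (H : V → V → Prop)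
    [DecidableRel H] (hs : ∀ u v, H u v → H v u) (hi : ∀ u, ¬ H u u)
    (hd : ∀ v, n ≤ (univ.filter (H v)).card) :
    ∃ A : Finset V, A.card = n ∧ ∀ X ⊆ A, ∀ Y ⊆ Aᶜ, X.Nonempty → Y.Nonempty →
      (∀ a ∈ X, ∀ b ∈ Y, ¬ H a b) → X.card + Y.card + 1 ≤ n := by
  obtain ⟨c, hc, hH⟩ := dirac hN hn H hs hi hd
  let A := (range n).image (fun j => c (2 * j))
  have hA : A.card = n := by
    rw [card_image_of_injOn, card_range]
    intro i hi1 j hj h
    have := hc _ (by have := mem_range.1 hi1; omega) _ (by have := mem_range.1 hj; omega) h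
    omega
  have hAc : Aᶜ.card = n := by rw [card_compl, hA, hN]; omega
  have hmem : ∀ j < 2 * n, c j ∈ A ↔ j % 2 = 0 := by
    intro j hj
    simp only [A, mem_image, mem_range]
    constructor
    · rintro ⟨i, hi1, h⟩
      have := hc _ (by omega) _ hj h
      omega
    · intro h
      exact ⟨j / 2, by omega, by congr 1; omega⟩
  refine ⟨A, hA, fun X hX Y hY hXn hYn hno => ?_⟩
  let I := (range (2 * n)).filter (fun j => c j ∈ X)
  have hI : ∀ j ∈ I, j < 2 * n ∧ j % 2 = 0 ∧ c j ∈ X := by
    intro j hj
    obtain ⟨h1, h2⟩ := mem_filter.1 hj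
    exact ⟨mem_range.1 h1, (hmem j (mem_range.1 h1)).1 (hX h2), h2⟩
  have hIc : X.card ≤ I.card := by
    refine card_le_card_of_surjOn c fun v hv => ?_
    obtain ⟨j, hj, rfl⟩ := surj_of_inj hN hc v
    exact ⟨j, by simpa [I, hj] using hv, rfl⟩
  obtain ⟨j1, hj1, hpp⟩ : ∃ j ∈ I, (if j = 0 then 2 * n - 2 else j - 2) ∉ I := by
    by_contra hcon
    push Not at hcon
    have down : ∀ t, ∀ j ∈ I, 2 * t ≤ j → j - 2 * t ∈ I := by
      intro t
      induction t with
      | zero => intro j hj _; simpa using hj
      | succ t ih =>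
        intro j hj h
        have := hcon _ (ih j hj (by omega))
        rw [if_neg (by omega)] at this
        rwa [show j - 2 * (t + 1) = j - 2 * t - 2 by omega]
    obtain ⟨x, hx⟩ := hXn
    obtain ⟨j, hj, rfl⟩ := surj_of_inj hN hc x
    have hjI : j ∈ I := mem_filter.2 ⟨mem_range.2 hj, hx⟩
    have h0 := down (j / 2) j hjI (by omega)
    rw [show j - 2 * (j / 2) = 0 by have := (hI j hjI).2.1; omega] at h0
    have h1 := hcon 0 h0
    rw [if_pos rfl] at h1
    obtain ⟨y, hy⟩ := hYn
    obtain ⟨k, hk, rfl⟩ := surj_of_inj hN hc y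
    have hk2 : ¬ k % 2 = 0 := fun h => mem_compl.1 (hY hy) ((hmem k hk).2 h)
    have h2 := down ((2 * n - 1 - k) / 2) _ h1 (by omega)
    rw [show 2 * n - 2 - 2 * ((2 * n - 1 - k) / 2) = k - 1 by omega] at h2
    have h3 := hH (k - 1) (by omega)
    rw [show nxt (2 * n) (k - 1) = k by simp only [nxt]; split_ifs <;> omega] at h3
    exact hno _ (hI _ h2).2.2 _ hy h3
  let q := if j1 = 0 then 2 * n - 1 else j1 - 1
  obtain ⟨a1, a2, a3⟩ := hI j1 hj1
  have hq : q ∉ I.image (· + 1) := by
    intro h
    obtain ⟨j, hj, e⟩ := mem_image.1 h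
    apply hpp
    have : (if j1 = 0 then 2 * n - 2 else j1 - 2) = j := by
      simp only [q] at e; split_ifs at e ⊢ <;> omega
    rwa [this]
  have hW : ∀ j ∈ insert q (I.image (· + 1)), j < 2 * n ∧ c j ∈ Aᶜ \ Y := by
    intro j hj
    rcases mem_insert.1 hj with rfl | hj
    · have b1 : q < 2 * n := by simp only [q]; split_ifs <;> omega
      have b2 : ¬ q % 2 = 0 := by simp only [q]; split_ifs <;> omega
      have h3 := hH q b1
      rw [show nxt (2 * n) q = j1 by simp only [nxt, q]; split_ifs <;> omega] at h3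
      exact ⟨b1, mem_sdiff.2 ⟨mem_compl.2 fun h => b2 ((hmem q b1).1 h),
        fun h => hno _ a3 _ h (hs _ _ h3)⟩⟩
    · obtain ⟨i, hi1, rfl⟩ := mem_image.1 hj
      obtain ⟨b1, b2, b3⟩ := hI i hi1
      have h3 := hH i b1
      rw [show nxt (2 * n) i = i + 1 by simp only [nxt]; split_ifs <;> omega] at h3
      exact ⟨by omega, mem_sdiff.2 ⟨mem_compl.2 fun h => by
        have := (hmem (i + 1) (by omega)).1 h; omega, fun h => hno _ b3 _ h h3⟩⟩
  have h1 : (insert q (I.image (· + 1))).card ≤ (Aᶜ \ Y).card :=
    card_le_card_of_injOn c (fun j hj => (hW j hj).2)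
      (fun i hi1 j hj h => hc i (hW i hi1).1 j (hW j hj).1 h)
  rw [card_insert_of_notMem hq, card_image_of_injective _ (add_left_injective 1),
    card_sdiff_of_subset hY, hAc] at h1
  have := card_le_card hY
  omega

end Pool.Agent.P.MP_303500_co
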