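import Pool.Agent.P.MP_303500_co.Basic

/-! Edmonds' perfect matching polytope theorem in integral form. -/

set_option linter.unusedSectionVars false

namespace Pool.Agent.P.MP_303500_co
open Finset

variable {V : Type} [Fintype V] [DecidableEq V]

def cut (m : V → V → ℕ) (S : Finset V) : ℕ := ∑ u ∈ S, ∑ v ∈ Sᶜ, m u v

def inner (m : V → V → ℕ) (S : Finset V) : ℕ := ∑ u ∈ S, ∑ v ∈ S, m u v

structure Reg (d : ℕ) (m : V → V → ℕ) : Prop where
  symm : ∀ u v, m u v = m v u
  diag : ∀ u, m u u = 0
  deg : ∀ u, ∑ v, m u v = d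

lemma Reg.le {d : ℕ} {m : V → V → ℕ} (h : Reg d m) (u v : V) : m u v ≤ d := by
  rw [← h.deg u]; exact single_le_sum (f := fun v => m u v) (fun _ _ => Nat.zero_le _) (mem_univ v)

lemma Reg.cut_compl {d : ℕ} {m : V → V → ℕ} (h : Reg d m) (S : Finset V) :
    cut m Sᶜ = cut m S := by
  unfold cut
  rw [compl_compl, sum_comm]
  exact sum_congr rfl fun u _ => sum_congr rfl fun v _ => h.symm _ _

lemma Reg.inner_add_cut {d : ℕ} {m : V → V → ℕ} (h : Reg d m) (S : Finset V) :
    inner m S + cut m S = S.card * d := by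
  unfold inner cut
  rw [← sum_add_distrib]
  simp only [sum_add_sum_compl, h.deg, sum_const, smul_eq_mul]

lemma Reg.even_inner {d : ℕ} {m : V → V → ℕ} (h : Reg d m) (S : Finset V) :
    Even (inner m S) := by
  unfold inner
  induction S using Finset.induction_on with
  | empty => simp
  | insert a S ha ih =>
    simp only [sum_insert ha, sum_add_distrib, h.diag]
    have : ∑ u ∈ S, m u a = ∑ u ∈ S, m a u := sum_congr rfl fun u _ => h.symm _ _
    rw [this]
    obtain ⟨k, hk⟩ := ih
    exact ⟨k + ∑ u ∈ S, m a u, by omega⟩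

lemma reg_cnt {Ms : Multiset (V → V)} (h : ∀ σ ∈ Ms, IsPM σ) : Reg Ms.card (cnt Ms) :=
  ⟨cnt_symm h, cnt_diag h, sum_cnt Ms⟩

lemma Reg.cut_le {d : ℕ} {m : V → V → ℕ} (h : Reg d m) (S : Finset V) :
    cut m S ≤ S.card * d := by have := h.inner_add_cut S; omega

lemma Reg.sub {d d' : ℕ} {m m' : V → V → ℕ} (h : Reg d m) (h' : Reg d' m')
    (hle : ∀ u v, m' u v ≤ m u v) : Reg (d - d') (fun u v => m u v - m' u v) :=
  ⟨fun u v => by simp only [h.symm u v, h'.symm u v], fun u => by simp [h.diag],
    fun u => by rw [sum_tsub_distrib _ (fun v _ => hle u v), h.deg, h'.deg]⟩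

lemma Reg.add {d d' : ℕ} {m m' : V → V → ℕ} (h : Reg d m) (h' : Reg d' m') :
    Reg (d + d') (fun u v => m u v + m' u v) :=
  ⟨fun u v => by simp only [h.symm u v, h'.symm u v], fun u => by simp [h.diag, h'.diag],
    fun u => by rw [sum_add_distrib, h.deg, h'.deg]⟩

lemma Reg.mul {d : ℕ} {m : V → V → ℕ} (h : Reg d m) (k : ℕ) :
    Reg (k * d) (fun u v => k * m u v) :=
  ⟨fun u v => by simp only [h.symm u v], fun u => by simp [h.diag],
    fun u => by rw [← mul_sum, h.deg]⟩

lemma cut_sub {m m' : V → V → ℕ} (hle : ∀ u v, m' u v ≤ m u v) (S : Finset V) :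
    cut (fun u v => m u v - m' u v) S + cut m' S = cut m S := by
  unfold cut
  rw [← sum_add_distrib]
  refine sum_congr rfl fun u _ => ?_
  rw [← sum_add_distrib]
  exact sum_congr rfl fun v _ => Nat.sub_add_cancel (hle u v)

lemma cut_mul (m : V → V → ℕ) (k : ℕ) (S : Finset V) :
    cut (fun u v => k * m u v) S = k * cut m S := by
  simp [cut, mul_sum]

lemma Reg.contr {d : ℕ} {m : V → V → ℕ} (h : Reg d m) {S : Finset V} (hc : cut m S = d) :
    Reg d (contr S m) := by
  refine ⟨?_, ?_, ?_⟩
  · rintro (_ | u) (_ | v)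
    · rfl
    · rfl
    · rfl
    · exact h.symm _ _
  · rintro (_ | u)
    · rfl
    · exact h.diag _
  · rintro (_ | u)
    · rw [Fintype.sum_option]
      simp only [MP_303500_co.contr, zero_add]
      rw [sum_coe_sort S (fun v => ∑ w ∈ Sᶜ, m v w)]; exact hc
    · rw [Fintype.sum_option]
      simp only [MP_303500_co.contr]
      rw [sum_coe_sort S (fun v => m u v), add_comm, sum_add_sum_compl, h.deg]

lemma contr_odd {d : ℕ} {m : V → V → ℕ} (h : Reg d m) {S : Finset V} (hc : cut m S = d)
    (hS : Odd S.card) (ho : ∀ T : Finset V, Odd T.card → d ≤ cut m T)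
    (T : Finset (Option S)) (hT : Odd T.card) : d ≤ cut (contr S m) T := by
  have key : ∀ T : Finset (Option S), none ∉ T → Odd T.card → d ≤ cut (contr S m) T := by
    intro T hn hT
    obtain ⟨T', rfl⟩ : ∃ T' : Finset S, T = T'.map Function.Embedding.some := by
      refine ⟨T.eraseNone, ?_⟩
      rw [map_some_eraseNone, erase_eq_of_notMem hn]
    have h1 := (h.contr hc).inner_add_cut (T'.map Function.Embedding.some)
    have h2 := h.inner_add_cut (T'.map (Function.Embedding.subtype _))
    have h3 := ho (T'.map (Function.Embedding.subtype _)) (by simpa using hT)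
    have : inner (contr S m) (T'.map Function.Embedding.some)
        = inner m (T'.map (Function.Embedding.subtype _)) := by
      simp [inner, sum_map, contr]
    simp only [card_map] at h1 h2
    omega
  by_cases hn : none ∈ T
  · rw [← (h.contr hc).cut_compl]
    refine key _ (by simpa using hn) ?_
    have := card_add_card_compl T
    simp only [Fintype.card_option, Fintype.card_coe] at this
    obtain ⟨a, ha⟩ := hS
    obtain ⟨b, hb⟩ := hT
    exact ⟨a - b, by omega⟩
  · exact key T hn hT

lemma exists_pm {d : ℕ} {m : V → V → ℕ} (h : Reg d m) (hd : 0 < d)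
    (ho : ∀ T : Finset V, Odd T.card → d ≤ cut m T) : ∃ σ, IsPM σ ∧ ∀ v, 0 < m v (σ v) := by
  classical
  let G : SimpleGraph V :=
    { Adj := fun u v => 0 < m u v
      symm := ⟨fun u v huv => h.symm u v ▸ huv⟩
      loopless := ⟨fun u hu => by simp [h.diag] at hu⟩ }
  have : ∃ M : G.Subgraph, M.IsPerfectMatching := by
    rw [SimpleGraph.tutte]
    intro u hu
    unfold SimpleGraph.IsTutteViolator at hu
    set G' := ((⊤ : G.Subgraph).deleteVerts u).coe with hG'
    let K : G'.ConnectedComponent → Finset V := fun c =>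
      univ.filter (fun x => ∃ hx, G'.connectedComponentMk ⟨x, hx⟩ = c)
    have hK : ∀ c, (K c).card = c.supp.ncard := by
      intro c
      rw [← Set.ncard_image_of_injective _ Subtype.val_injective, ← Set.ncard_coe_finset]
      congr 1
      ext x
      simp [K]
    let U := u.toFinset
    have h1 : ∀ c, cut m (K c) ≤ ∑ x ∈ K c, ∑ y ∈ U, m x y := by
      intro c
      refine sum_le_sum fun x hx => ?_
      refine sum_le_sum_of_ne_zero fun y hy hne => ?_
      by_contra hyU
      apply mem_compl.1 hy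
      obtain ⟨hx', hxc⟩ := (mem_filter.1 hx).2
      have hy' : y ∈ ((⊤ : G.Subgraph).deleteVerts u).verts := by simpa [U] using hyU
      refine mem_filter.2 ⟨mem_univ _, hy', ?_⟩
      rw [← hxc]
      apply SimpleGraph.ConnectedComponent.connectedComponentMk_eq_of_adj
      have hx'' : x ∉ u := by simpa using hx'
      have hy'' : y ∉ u := by simpa using hy'
      have : G.Adj y x := by
        change 0 < m y x
        rw [h.symm]; exact Nat.pos_of_ne_zero hne
      simp [G', hx'', hy'', this]
    let O := G'.oddComponents.toFinset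
    have h2 : O.card * d ≤ ∑ c ∈ O, ∑ x ∈ K c, ∑ y ∈ U, m x y := by
      rw [← smul_eq_mul, ← sum_const]
      refine sum_le_sum fun c hc => (ho _ ?_).trans (h1 c)
      rw [hK]; simpa [O] using hc
    have h3 : ∑ c ∈ O, ∑ x ∈ K c, ∑ y ∈ U, m x y ≤ U.card * d := by
      rw [← sum_biUnion]
      · calc _ ≤ ∑ x, ∑ y ∈ U, m x y := sum_le_sum_of_subset (subset_univ _)
          _ = ∑ y ∈ U, ∑ x, m y x := by
            rw [sum_comm]; exact sum_congr rfl fun y _ => sum_congr rfl fun x _ => h.symm _ _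
          _ = _ := by simp [h.deg]
      · intro c _ c' _ hcc
        refine disjoint_left.2 fun x hx hx' => hcc ?_
        obtain ⟨_, a⟩ := (mem_filter.1 hx).2
        obtain ⟨_, b⟩ := (mem_filter.1 hx').2
        rw [← a, ← b]
    have h4 : O.card ≤ U.card := Nat.le_of_mul_le_mul_right (h2.trans h3) hd
    rw [Set.ncard_eq_toFinset_card', Set.ncard_eq_toFinset_card'] at hu
    exact absurd h4 (not_le.2 hu)
  obtain ⟨M, hM⟩ := this
  rw [SimpleGraph.Subgraph.isPerfectMatching_iff] at hM
  choose σ hσ hu using hM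
  refine ⟨σ, fun v => ⟨(hu _ _ (hσ v).symm).symm, fun e => ?_⟩, fun v => (hσ v).adj_sub⟩
  exact (hσ v).ne e.symm

lemma pm_even {σ : V → V} (h : IsPM σ) : Even (Fintype.card V) := by
  have hall : ∀ τ ∈ ({σ} : Multiset (V → V)), IsPM τ := by simpa using h
  have h1 := (reg_cnt hall).inner_add_cut univ
  have h2 := (reg_cnt hall).even_inner univ
  simp only [cut, compl_univ, sum_empty, sum_const_zero, add_zero, Multiset.card_singleton,
    mul_one, card_univ] at h1
  rwa [h1] at h2

theorem edmonds (n : ℕ) : ∀ (V : Type) [Fintype V] [DecidableEq V], Fintype.card V = n →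
    ∀ (d : ℕ) (m : V → V → ℕ), Reg d m → (∀ T : Finset V, Odd T.card → d ≤ cut m T) →
      ∃ K, 0 < K ∧ Fac (fun u v => K * m u v) := by
  induction n using Nat.strong_induction_on with
  | _ n ihn =>
  intro V _ _ hn
  have tight : ∀ (d : ℕ) (m : V → V → ℕ), Reg d m → (∀ T : Finset V, Odd T.card → d ≤ cut m T) →
      ∀ S : Finset V, Odd S.card → Odd Sᶜ.card → 2 ≤ S.card → 2 ≤ Sᶜ.card → cut m S = d →
      ∃ K, 0 < K ∧ Fac (fun u v => K * m u v) := by
    intro d m h ho S h1 h2 h3 h4 hc
    have hc' : cut m Sᶜ = d := by rw [h.cut_compl, hc]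
    have hcard := card_add_card_compl S
    obtain ⟨K1, p1, f1⟩ := ihn (S.card + 1) (by omega) (Option S) (by simp) d _ (h.contr hc)
      (contr_odd h hc h1 ho)
    obtain ⟨K2, p2, f2⟩ := ihn (Sᶜ.card + 1) (by omega) (Option (Sᶜ : Finset V))
      (by rw [Fintype.card_option, Fintype.card_coe]) d _ (h.contr hc') (contr_odd h hc' h2 ho)
    refine ⟨K1 * K2, Nat.mul_pos p1 p2, fac_glue S (fun u v => by rw [h.symm]) ?_ ?_⟩
    · refine (f1.mul K2).congr ?_
      rintro (_ | u) (_ | v) <;> simp only [contr, ← mul_sum] <;> ring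
    · refine (f2.mul K1).congr ?_
      rintro (_ | u) (_ | v) <;> simp only [contr, ← mul_sum] <;> ring
  suffices H : ∀ (k d : ℕ) (m : V → V → ℕ),
      (univ.filter (fun p : V × V => m p.1 p.2 ≠ 0)).card = k → Reg d m →
      (∀ T : Finset V, Odd T.card → d ≤ cut m T) → ∃ K, 0 < K ∧ Fac (fun u v => K * m u v) from
    fun d m => H _ d m rfl
  intro k
  induction k using Nat.strong_induction_on with
  | _ k ihk =>
  intro d m hk h ho
  rcases Nat.eq_zero_or_pos d with rfl | hd
  · refine ⟨1, one_pos, 0, by simp, fun u v => ?_⟩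
    have := h.le u v
    simp; omega
  rcases isEmpty_or_nonempty V with hV | ⟨⟨v0⟩⟩
  · exact ⟨1, one_pos, 0, by simp, fun u => isEmptyElim u⟩
  obtain ⟨σ, hσ, hpos⟩ := exists_pm h hd ho
  have hall : ∀ τ ∈ ({σ} : Multiset (V → V)), IsPM τ := by simpa using hσ
  have hχ : Reg 1 (cnt {σ}) := by simpa using reg_cnt hall
  let P : V ⊕ Finset V → ℕ := Sum.elim (fun u => m u (σ u)) (fun S => cut m S - d)
  let Q : V ⊕ Finset V → ℕ := Sum.elim (fun _ => 1) (fun S => cut (cnt {σ}) S - 1)
  let ok : V ⊕ Finset V → Prop :=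
    Sum.elim (fun _ => True) (fun S => Odd S.card ∧ 1 < cut (cnt {σ}) S)
  classical
  obtain ⟨i, hi, hmin⟩ := exists_min_image (univ.filter ok) (fun i => (P i : ℚ) / Q i)
    ⟨Sum.inl v0, by simp [ok]⟩
  have hQ : ∀ j, ok j → 0 < Q j := by
    rintro (u | S) hj
    · simp [Q]
    · have := hj.2; simp only [Q, Sum.elim_inr]; omega
  have hi' : ok i := (mem_filter.1 hi).2
  have hmin' : ∀ j, ok j → P i * Q j ≤ P j * Q i := by
    intro j hj
    have := hmin j (mem_filter.2 ⟨mem_univ _, hj⟩)
    rw [div_le_div_iff₀ (by exact_mod_cast hQ i hi') (by exact_mod_cast hQ j hj)] at this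
    exact_mod_cast this
  set p := P i with hp
  set q := Q i with hq
  have hq0 : 0 < q := hQ i hi'
  have hle : ∀ u v, p * cnt {σ} u v ≤ q * m u v := by
    intro u v
    rw [cnt_singleton]; split_ifs with e
    · subst e
      have := hmin' (Sum.inl u) trivial
      simp only [P, Q, Sum.elim_inl] at this
      nlinarith
    · simp
  have hR := (h.mul q).sub (hχ.mul p) hle
  have hcut : ∀ S, cut (fun u v => q * m u v - p * cnt {σ} u v) S + p * cut (cnt {σ}) S
      = q * cut m S := by
    intro S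
    rw [← cut_mul, ← cut_mul]; exact cut_sub hle S
  have ho' : ∀ T : Finset V, Odd T.card →
      q * d - p * 1 ≤ cut (fun u v => q * m u v - p * cnt {σ} u v) T := by
    intro T hT
    have h1 := hcut T
    have h2 := Nat.mul_le_mul_left q (ho T hT)
    by_cases hc : 1 < cut (cnt {σ}) T
    · have := hmin' (Sum.inr T) ⟨hT, hc⟩
      simp only [P, Q, Sum.elim_inr] at this
      rw [Nat.mul_sub, Nat.sub_mul, mul_comm _ q, mul_comm _ q] at this
      have h3 : p * 1 ≤ p * cut (cnt {σ}) T := Nat.mul_le_mul_left p hc.le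
      omega
    · have h3 : p * cut (cnt {σ}) T ≤ p * 1 := Nat.mul_le_mul_left p (by omega)
      omega
  have main : ∃ K, 0 < K ∧ Fac (fun u v => K * (q * m u v - p * cnt {σ} u v)) := by
    rcases i with u | S
    · refine ihk _ ?_ _ _ rfl hR ho'
      rw [← hk]
      apply card_lt_card
      refine ⟨fun x hx => ?_, fun hsub => ?_⟩
      · simp only [mem_filter, mem_univ, true_and] at hx ⊢
        intro h0; simp [h0] at hx
      · have := hsub (mem_filter.2 ⟨mem_univ (u, σ u), (hpos u).ne'⟩)
        simp [hp, hq, P, Q, cnt_singleton] at this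
    · obtain ⟨hS, hc⟩ := hi'
      have a1 := hχ.cut_le S
      have a2 := hχ.cut_le Sᶜ
      rw [hχ.cut_compl] at a2
      have hcard := card_add_card_compl S
      obtain ⟨x, hx⟩ := pm_even hσ
      refine tight _ _ hR ho' S hS ?_ (by omega) (by omega) ?_
      · obtain ⟨y, hy⟩ := hS
        exact ⟨x - y - 1, by omega⟩
      · have h1 := hcut S
        have h2 := ho S hS
        simp only [hp, hq, P, Q, Sum.elim_inr] at h1 ⊢
        obtain ⟨c, hc'⟩ : ∃ c, cut (cnt {σ}) S = c + 1 := ⟨cut (cnt {σ}) S - 1, by omega⟩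
        obtain ⟨e, he⟩ : ∃ e, cut m S = d + e := ⟨cut m S - d, by omega⟩
        rw [hc', he] at h1 ⊢
        simp only [Nat.add_sub_cancel, Nat.add_sub_cancel_left] at h1 ⊢
        have : c * (d + e) = c * d + e * c := by ring
        have : e * (c + 1) = e * c + e := by ring
        omega
  obtain ⟨K, hK, hf⟩ := main
  refine ⟨K * q, Nat.mul_pos hK hq0, (hf.add ((fac_cnt hall).mul (K * p))).congr fun u v => ?_⟩
  have := hle u v
  rw [mul_assoc, mul_assoc, ← mul_add]
  congr 1; omega

end Pool.Agent.P.MP_303500_co
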