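import Pool.Agent.P.MP_303500_co.Edmonds

/-! Caratheodory rounding of a fractional 1-factorization. -/

set_option linter.unusedSectionVars false

namespace Pool.Agent.P.MP_303500_co
open Finset

variable {V : Type} [Fintype V] [DecidableEq V]

lemma cnt_eq_sum (Ms : Multiset (V → V)) (u v : V) :
    (cnt Ms u v : ℝ) = ∑ σ ∈ Ms.toFinset, (Ms.count σ : ℝ) * (if σ u = v then 1 else 0) := by
  have : (cnt Ms u v : ℝ) = (Ms.map (fun σ => if σ u = v then (1 : ℝ) else 0)).sum := by
    induction Ms using Multiset.induction_on with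
    | empty => simp
    | cons σ Ms ih => rw [cnt_cons, Multiset.map_cons, Multiset.sum_cons, ← ih]; push_cast; ring
  rw [this, Finset.sum_multiset_map_count]
  simp

theorem round {d : ℕ} {m : V → V → ℕ} (h : Reg d m)
    (ho : ∀ T : Finset V, Odd T.card → d ≤ cut m T) :
    ∃ Ns : Multiset (V → V), (∀ σ ∈ Ns, IsPM σ) ∧ (∀ u v, cnt Ns u v ≤ m u v) ∧
      d ≤ Ns.card + (Fintype.card V) ^ 2 + 1 := by
  rcases Nat.eq_zero_or_pos d with rfl | hd
  · exact ⟨0, by simp, by simp, by simp⟩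
  obtain ⟨K, hK, Ms, hMs, hm⟩ := edmonds _ V rfl d m h ho
  rcases isEmpty_or_nonempty V with hV | ⟨⟨v0⟩⟩
  · exact ⟨d • {id}, fun σ _ v => isEmptyElim v, fun u => isEmptyElim u, by simp⟩
  have hcard : Ms.card = K * d := by
    rw [← sum_cnt Ms v0, ← (h.mul K).deg v0]
    exact sum_congr rfl fun v _ => (hm v0 v).symm
  have hdR : (0 : ℝ) < d := by exact_mod_cast hd
  have hKR : (0 : ℝ) < K := by exact_mod_cast hK
  let vec : (V → V) → (V → V → ℝ) := fun σ u v => if σ u = v then 1 else 0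
  let x : V → V → ℝ := fun u v => m u v / d
  have hx : x ∈ convexHull ℝ (vec '' {σ | IsPM σ}) := by
    have : x = ∑ σ ∈ Ms.toFinset, ((Ms.count σ : ℝ) / (K * d)) • vec σ := by
      funext u v
      have h1 := cnt_eq_sum Ms u v
      rw [← hm] at h1
      simp only [Finset.sum_apply, Pi.smul_apply, smul_eq_mul, x, vec]
      have : ∑ σ ∈ Ms.toFinset, (Ms.count σ : ℝ) / (K * d) * (if σ u = v then 1 else 0)
          = (∑ σ ∈ Ms.toFinset, (Ms.count σ : ℝ) * (if σ u = v then 1 else 0)) / (K * d) := by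
        rw [sum_div]; exact sum_congr rfl fun σ _ => by ring
      rw [this, ← h1]
      push_cast
      field_simp
    rw [this]
    refine (convex_convexHull ℝ _).sum_mem (fun σ _ => by positivity) ?_ fun σ hσ =>
      subset_convexHull ℝ _ ⟨σ, hMs σ (Multiset.mem_toFinset.1 hσ), rfl⟩
    rw [← sum_div, ← Nat.cast_sum, Multiset.toFinset_sum_count_eq, hcard]
    push_cast
    field_simp
  obtain ⟨ι, _, z, w, hz, hai, hw, hw1, hsum⟩ := eq_pos_convex_span_of_mem_convexHull hx
  have hι : Fintype.card ι ≤ (Fintype.card V) ^ 2 + 1 := by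
    refine hai.card_le_finrank_succ.trans (Nat.succ_le_succ ((Submodule.finrank_le _).trans ?_))
    simp [Module.finrank_pi_fintype, sq]
  have : ∀ i, ∃ σ, IsPM σ ∧ vec σ = z i := fun i => hz ⟨i, rfl⟩
  choose τ hτ hτz using this
  refine ⟨∑ i, ⌊d * w i⌋₊ • ({τ i} : Multiset (V → V)), ?_, ?_, ?_⟩
  · intro σ hσ
    obtain ⟨i, -, hi⟩ := Multiset.mem_sum.1 hσ
    have := Multiset.mem_of_mem_nsmul hi
    rw [Multiset.mem_singleton] at this
    rw [this]; exact hτ i
  · intro u v
    have h1 := congrFun (congrFun hsum u) v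
    simp only [Finset.sum_apply, Pi.smul_apply, smul_eq_mul, x, ← hτz, vec] at h1
    rw [eq_div_iff hdR.ne', sum_mul] at h1
    rw [cnt_sum, ← Nat.cast_le (α := ℝ), ← h1, Nat.cast_sum]
    refine sum_le_sum fun i _ => ?_
    rw [cnt_nsmul, cnt_singleton]
    have := Nat.floor_le (mul_pos hdR (hw i)).le
    split_ifs <;> simp
    linarith
  · rw [Multiset.card_sum]
    simp only [Multiset.card_nsmul, Multiset.card_singleton, mul_one]
    have h1 : (d : ℝ) ≤ ∑ i, ((⌊d * w i⌋₊ : ℝ) + 1) := by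
      calc (d : ℝ) = ∑ i, d * w i := by rw [← mul_sum, hw1, mul_one]
        _ ≤ _ := sum_le_sum fun i _ => (Nat.lt_floor_add_one _).le
    rw [sum_add_distrib] at h1
    simp only [sum_const, card_univ, nsmul_eq_mul, mul_one] at h1
    have h2 : d ≤ ∑ i, ⌊d * w i⌋₊ + Fintype.card ι := by exact_mod_cast h1
    omega

end Pool.Agent.P.MP_303500_co
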