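import Pool.Agent.P.MP_303500_co.Partner
import Pool.Agent.P.MP_303500_co.Round
import Pool.Agent.P.MP_303500_co.Dirac

/-! The case without a nearly tight cut of size `n`. -/

set_option linter.unusedSectionVars false

namespace Pool.Agent.P.MP_303500_co
open Finset

variable {V : Type} [Fintype V] [DecidableEq V]

lemma sum_vec {A e : Finset V} (he : Pr A e) : ∑ u ∈ A, ∑ v ∈ A, vec e u v = 2 := by
  obtain ⟨a, b, hab, rfl⟩ := card_eq_two.1 he.2
  have h1 : ∀ u, ∑ v ∈ A, vec {a, b} u v = ∑ v ∈ ({a, b} : Finset V), vec {a, b} u v := fun u =>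
    (sum_subset he.1 fun v _ hv => by simp only [vec]; rw [if_neg]; tauto).symm
  simp only [h1]
  rw [← sum_subset he.1 fun u _ hu => sum_eq_zero fun v _ => by simp only [vec]; rw [if_neg]; tauto]
  simp [sum_pair hab, vec, hab, hab.symm]

lemma sum_vec0 {A e : Finset V} (he : Disjoint e A) : ∑ u ∈ A, ∑ v ∈ A, vec e u v = 0 :=
  sum_eq_zero fun u hu => sum_eq_zero fun v _ => by
    simp only [vec]; rw [if_neg]; exact fun h => disjoint_left.1 he h.1 hu

lemma pick {A : Finset V} {x : V → V → ℤ} (hs : ∀ u v, x u v = x v u) (hd : ∀ u, x u u = 0)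
    (h : 0 < ∑ u ∈ A, ∑ v ∈ A, x u v) :
    ∃ e, Pr A e ∧ ∀ u v, u ∈ e → v ∈ e → u ≠ v → 1 ≤ x u v := by
  obtain ⟨a, ha, h⟩ := exists_lt_of_sum_lt (f := fun _ => (0 : ℤ)) (by simpa using h)
  obtain ⟨b, hb, h⟩ := exists_lt_of_sum_lt (f := fun _ => (0 : ℤ)) (s := A) (by simpa using h)
  have hab : a ≠ b := fun e => by subst e; simp [hd] at h
  refine ⟨{a, b}, ⟨by simp [insert_subset_iff, ha, hb], card_pair hab⟩, fun u v hu hv huv => ?_⟩
  simp only [mem_insert, mem_singleton] at hu hv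
  rcases hu with rfl | rfl <;> rcases hv with rfl | rfl
  · exact absurd rfl huv
  · exact h
  · rw [hs]; exact h
  · exact absurd rfl huv

lemma inside_decomp {n : ℕ} {H : V → V → Prop} {A B : Finset V} (C : Ctx n H A B)
    {Pl : Multiset (V → V)} (hP : ∀ e f, Pr A e → Pr B f →
      ∃ Ms Ps : Multiset (V → V), Ms.card ≤ 12 ∧ Ps ≤ Pl ∧ (∀ σ ∈ Ms, GoodM H A B σ) ∧
        ∀ u v, ¬ Cross A B u v → vec e u v + vec f u v = cnt Ms u v - cnt Ps u v) (t : ℕ) :
    ∀ x : V → V → ℤ, (∀ u v, x u v = x v u) → (∀ u, x u u = 0) → (∀ u v, 0 ≤ x u v) →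
      ∑ u ∈ A, ∑ v ∈ A, x u v = 2 * t → ∑ u ∈ B, ∑ v ∈ B, x u v = 2 * t →
      ∃ Ms Ps : Multiset (V → V), Ms.card ≤ 12 * t ∧ Ps ≤ t • Pl ∧ (∀ σ ∈ Ms, GoodM H A B σ) ∧
        ∀ u v, ¬ Cross A B u v → x u v = cnt Ms u v - cnt Ps u v := by
  induction t with
  | zero =>
    intro x _ _ h0 hA hB
    refine ⟨0, 0, by simp, by simp, by simp, fun u v h => ?_⟩
    have z : ∀ A : Finset V, ∑ u ∈ A, ∑ v ∈ A, x u v = 0 → u ∈ A → v ∈ A → x u v = 0 := by
      intro A hA hu hv
      rw [sum_eq_zero_iff_of_nonneg fun u _ => sum_nonneg fun v _ => h0 u v] at hA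
      exact (sum_eq_zero_iff_of_nonneg fun v _ => h0 u v).1 (hA u hu) v hv
    have := C.cov u
    have := C.cov v
    unfold Cross at h
    by_cases hu : u ∈ A
    · simpa using z A (by simpa using hA) hu (by tauto)
    · simpa using z B (by simpa using hB) (by tauto) (by tauto)
  | succ t ih =>
    intro x hs hd h0 hA hB
    obtain ⟨e, he, pe⟩ := pick hs hd (A := A) (by rw [hA]; positivity)
    obtain ⟨f, hf, pf⟩ := pick hs hd (A := B) (by rw [hB]; positivity)
    obtain ⟨Ms, Ps, a, b, c, d⟩ := hP e f he hf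
    obtain ⟨Ms', Ps', a', b', c', d'⟩ := ih (fun u v => x u v - vec e u v - vec f u v)
      (fun u v => by simp only [hs u v, vec, and_left_comm, ne_comm])
      (fun u => by simp [hd, vec])
      (fun u v => by
        have := h0 u v
        have := pe u v
        have := pf u v
        have : u ∈ e → u ∉ f := fun h => disjoint_left.1 (C.disj he.1 hf.1) h
        simp only [vec]
        split_ifs <;> grind)
      (by simp only [sum_sub_distrib, hA, sum_vec he, sum_vec0 (C.disj subset_rfl hf.1).symm]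
          push_cast; ring)
      (by simp only [sum_sub_distrib, hB, sum_vec hf, sum_vec0 (C.disj he.1 subset_rfl)]
          push_cast; ring)
    refine ⟨Ms' + Ms, Ps' + Ps, by simp; omega, by rw [succ_nsmul]; exact add_le_add b' b, ?_, ?_⟩
    · intro σ hσ; rcases Multiset.mem_add.1 hσ with h | h; exacts [c' _ h, c _ h]
    · intro u v h
      have h1 := d u v h
      have h2 := d' u v h
      rw [cnt_add, cnt_add]; push_cast; linarith

lemma Reg.row_le {d s : ℕ} {m : V → V → ℕ} (h : Reg d m) (hs : ∀ u v, m u v ≤ s) {S : Finset V}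
    {u : V} (hu : u ∈ S) : ∑ v ∈ S, m u v ≤ (S.card - 1) * s := by
  rw [← add_sum_erase _ _ hu, h.diag, zero_add, ← card_erase_of_mem hu]
  exact sum_le_card_nsmul _ _ _ fun v _ => hs u v

lemma Reg.inner_le {d s : ℕ} {m : V → V → ℕ} (h : Reg d m) (hs : ∀ u v, m u v ≤ s) (S : Finset V) :
    inner m S ≤ S.card * ((S.card - 1) * s) :=
  sum_le_card_nsmul _ _ _ fun _ hu => h.row_le hs hu

lemma Reg.thick_le {d T : ℕ} {m : V → V → ℕ} (h : Reg d m) (v : V) (S : Finset V)
    (hS : ∀ w, T ≤ m v w → w ∈ S) : d ≤ ∑ w ∈ S, m v w + Fintype.card V * T := by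
  rw [← h.deg v, ← sum_add_sum_compl S]
  refine Nat.add_le_add_left ((sum_le_card_nsmul _ _ T fun w hw => ?_).trans ?_) _
  · by_contra hlt
    exact mem_compl.1 hw (hS w (by omega))
  · exact Nat.mul_le_mul_right _ (card_le_univ _)

lemma exists_ctx {n s d T : ℕ} (hN : Fintype.card V = 2 * n) (hn : 0 < n) {m : V → V → ℕ}
    (h : Reg d m) (hs : ∀ u v, m u v ≤ s) (hd : s * n ≤ d) (hT : 0 < T) (big : 8 * n * T < s) :
    ∃ A, Ctx n (fun u v => T ≤ m u v) A Aᶜ := by
  have hdeg : ∀ v, ∀ S : Finset V, (∀ w, T ≤ m v w → w ∈ S) → n ≤ S.card := by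
    intro v S hS
    by_contra hlt
    have h1 := h.thick_le v S hS
    have h2 : ∑ w ∈ S, m v w ≤ S.card * s := sum_le_card_nsmul _ _ _ fun w _ => hs v w
    have h3 : (S.card + 1) * s ≤ n * s := Nat.mul_le_mul_right _ (by omega)
    rw [hN] at h1
    nlinarith
  have hsym : ∀ u v, T ≤ m u v → T ≤ m v u := fun u v huv => h.symm u v ▸ huv
  have hirr : ∀ u, ¬ T ≤ m u u := fun u hu => by rw [h.diag] at hu; omega
  obtain ⟨A, hA, el⟩ := exists_elem hN hn (fun u v => T ≤ m u v) hsym hirr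
    (fun v => hdeg v _ fun w hw => by simpa using hw)
  refine ⟨A, hsym, hirr, hdeg, hA, by rw [card_compl, hA, hN]; omega, fun v hv => by simpa using hv,
    fun v => by simpa using em _, el, fun h3 S S' hdis hS hS' hc hno => ?_⟩
  obtain ⟨c1, c2, hne, hc12⟩ := card_eq_two.1 (show (S ∪ S')ᶜ.card = 2 by
    rw [card_compl, card_union_of_disjoint hdis]; omega)
  have hm : ∀ w, w ∈ S ∨ w ∈ S' ∨ w = c1 ∨ w = c2 := by
    intro w
    by_cases hw : w ∈ S ∪ S'
    · have := mem_union.1 hw; tauto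
    · have := mem_compl.2 hw; rw [hc12] at this; simp at this; tauto
  have one : ∀ S S' : Finset V, (∀ w, w ∈ S ∨ w ∈ S' ∨ w = c1 ∨ w = c2) →
      (∀ a ∈ S, ∀ b ∈ S', ¬ T ≤ m a b) → ∀ v ∈ S,
      n ≤ S.card + 1 ∧ d ≤ m v c1 + S.card * s + 2 * n * T := by
    intro S S' hm hno v hv
    have hsub : ∀ w, T ≤ m v w → w ∈ insert c1 (insert c2 (S.erase v)) := by
      intro w hw
      have := hm w
      have := hno v hv w
      have : w ≠ v := fun e => hirr v (e ▸ hw)
      simp only [mem_insert, mem_erase]; tauto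
    have k1 := card_insert_le c1 (insert c2 (S.erase v))
    have k2 := card_insert_le c2 (S.erase v)
    have k3 := card_erase_of_mem hv
    have k4 := card_pos.2 ⟨v, hv⟩
    refine ⟨by have := hdeg v _ hsub; omega, ?_⟩
    have h1 := h.thick_le v _ hsub
    have h2 : ∑ w ∈ insert c1 (insert c2 (S.erase v)), m v w
        ≤ m v c1 + ∑ w ∈ insert c2 (S.erase v), m v w := by
      by_cases hc : c1 ∈ insert c2 (S.erase v)
      · rw [insert_eq_of_mem hc]; omega
      · rw [sum_insert hc]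
    have h3 : ∑ w ∈ insert c2 (S.erase v), m v w ≤ S.card * s :=
      (sum_le_card_nsmul _ _ _ fun w _ => hs v w).trans (Nat.mul_le_mul_right _ (by omega))
    rw [hN] at h1
    omega
  have o1 := one S S' hm hno
  have o2 := one S' S (fun w => by have := hm w; tauto) (fun a ha b hb h' => hno b hb a ha (hsym _ _ h'))
  obtain ⟨v1, hv1⟩ := hS
  obtain ⟨v2, hv2⟩ := hS'
  have e1 := (o1 v1 hv1).1
  have e2 := (o2 v2 hv2).1
  obtain ⟨k, rfl⟩ : ∃ k, n = k + 3 := ⟨n - 3, by omega⟩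
  have f1 : S.card = k + 2 := by omega
  have f2 : S'.card = k + 2 := by omega
  have all : ∀ v ∈ S ∪ S', d ≤ m c1 v + ((k + 2) * s + 2 * (k + 3) * T) := by
    intro v hv
    rw [h.symm, ← add_assoc]
    rcases mem_union.1 hv with hv | hv
    · exact f1 ▸ (o1 v hv).2
    · exact f2 ▸ (o2 v hv).2
  have := sum_le_sum all
  rw [sum_add_distrib, sum_const, sum_const, card_union_of_disjoint hdis, f1, f2, smul_eq_mul,
    smul_eq_mul] at this
  have h5 : ∑ v ∈ S ∪ S', m c1 v ≤ d := h.deg c1 ▸ sum_le_sum_of_subset (subset_univ _)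
  have h6 : (2 * k + 3) * (s * (k + 3)) ≤ (2 * k + 3) * d := Nat.mul_le_mul_left _ hd
  have h7 : (k + 1) * (8 * (k + 3) * T + 1) ≤ (k + 1) * s := Nat.mul_le_mul_left _ big
  nlinarith [Nat.zero_le (k * k * T), Nat.zero_le (k * T)]

theorem generic {n s d : ℕ} (hN : Fintype.card V = 2 * n) (hn : 0 < n) {m : V → V → ℕ}
    (h : Reg d m) (hs : ∀ u v, m u v ≤ s) (hd : s * n ≤ d) (big : 600 * n ^ 6 ≤ s)
    (ne : ∀ S : Finset V, S.card = n → Odd n → d + (n - 1) * (72 * n ^ 5) ≤ cut m S) : Fac m := by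
  have hn5 : 0 < n ^ 5 := by positivity
  have hn6 : n ^ 6 = n * n ^ 5 := by ring
  obtain ⟨A, C⟩ := exists_ctx (T := 72 * n ^ 5) hN hn h hs hd (by omega) (by nlinarith)
  set H : V → V → Prop := fun u v => 72 * n ^ 5 ≤ m u v with hH
  obtain ⟨Pl, cPl, tPl, hPl⟩ := C.absorb
  have : ∀ p : V × V, ∃ Z : Multiset (V → V), Z.card ≤ 1 ∧
      (∀ σ ∈ Z, IsPM σ ∧ ∀ v, Cross A Aᶜ v (σ v) ∧ H v (σ v)) ∧
      (p.1 ∈ A → p.2 ∈ Aᶜ → H p.1 p.2 → 0 < cnt Z p.1 p.2) := by
    intro p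
    by_cases hp : p.1 ∈ A ∧ p.2 ∈ Aᶜ ∧ H p.1 p.2
    · obtain ⟨σ, a, b, c⟩ := C.dpm hp.1 hp.2.1 hp.2.2
      exact ⟨{σ}, by simp, by simpa using ⟨a, c⟩, fun _ _ _ => cnt_pos.2 ⟨σ, by simp, b⟩⟩
    · exact ⟨0, by simp, by simp, by tauto⟩
  choose Z z1 z2 z3 using this
  let Z0 := ∑ p ∈ A ×ˢ Aᶜ, Z p
  have cZ : Z0.card ≤ n ^ 2 := by
    rw [Multiset.card_sum]
    refine (sum_le_card_nsmul _ _ 1 fun p _ => z1 p).trans ?_
    rw [card_product, C.cA, C.cB]; simp [sq]
  have tZ : ∀ σ ∈ Z0, IsPM σ ∧ ∀ v, Cross A Aᶜ v (σ v) ∧ H v (σ v) := by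
    intro σ hσ
    obtain ⟨p, -, hp⟩ := Multiset.mem_sum.1 hσ
    exact z2 p σ hp
  have pZ : ∀ u v, Cross A Aᶜ u v → H u v → 0 < cnt Z0 u v := by
    have : ∀ u v, u ∈ A → v ∈ Aᶜ → H u v → 0 < cnt Z0 u v := by
      intro u v hu hv huv
      obtain ⟨σ, h1, h2⟩ := cnt_pos.1 (z3 (u, v) hu hv huv)
      exact cnt_pos.2 ⟨σ, Multiset.mem_sum.2 ⟨(u, v), mem_product.2 ⟨hu, hv⟩, h1⟩, h2⟩
    rintro u v (⟨hu, hv⟩ | ⟨hu, hv⟩) huv
    · exact this u v hu hv huv
    · rw [cnt_symm fun σ hσ => (tZ σ hσ).1]; exact this v u hv hu (C.hs _ _ huv)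
  set τ := 3 * n ^ 3 with hτ
  let Res := τ • Pl + (12 * τ) • Z0
  have tR : ∀ σ ∈ Res, ThickM H σ := by
    intro σ hσ
    rcases Multiset.mem_add.1 hσ with h | h
    · exact tPl σ (Multiset.mem_of_mem_nsmul h)
    · have := tZ σ (Multiset.mem_of_mem_nsmul h)
      exact ⟨this.1, fun v => (this.2 v).2⟩
  have cR : Res.card ≤ 72 * n ^ 5 := by
    have h1 : Pl.card ≤ 12 * n ^ 2 := by
      refine cPl.trans ?_
      rw [hN, Nat.choose_two_right, mul_assoc, Nat.mul_div_cancel_left _ two_pos]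
      have : n * (2 * n - 1) ≤ n * (2 * n) := Nat.mul_le_mul_left _ (by omega)
      nlinarith
    simp only [Res, Multiset.card_add, Multiset.card_nsmul]
    calc τ * Pl.card + 12 * τ * Z0.card ≤ τ * (12 * n ^ 2) + 12 * τ * n ^ 2 := by gcongr
      _ = 72 * n ^ 5 := by rw [hτ]; ring
  have pR : ∀ σ ∈ Res, IsPM σ := fun σ hσ => (tR σ hσ).1
  have leR : ∀ u v, cnt Res u v ≤ m u v := by
    intro u v
    rcases Nat.eq_zero_or_pos (cnt Res u v) with h0 | h0
    · omega
    · obtain ⟨σ, hσ, rfl⟩ := cnt_pos.1 h0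
      exact (cnt_le_card _ _ _).trans (cR.trans ((tR σ hσ).2 u))
  have hy := h.sub (reg_cnt pR) leR
  have small : ∀ S : Finset V, Odd S.card → S.card ≤ n →
      d - Res.card ≤ cut (fun u v => m u v - cnt Res u v) S := by
    intro S hS hSn
    have h1 := cut_sub leR S
    have h2 := (reg_cnt pR).cut_le S
    obtain ⟨k, hk⟩ : ∃ k, S.card = k + 1 := ⟨S.card - 1, by have := hS.pos; omega⟩
    have h3 : d + k * Res.card ≤ cut m S := by
      rcases hSn.eq_or_lt with e | e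
      · have := ne S e (e ▸ hS)
        rw [← e, hk, Nat.add_sub_cancel] at this
        rw [← e, hk] at cR
        exact le_trans (by gcongr) this
      · have h4 := h.inner_add_cut S
        have h5 := h.inner_le hs S
        rw [hk] at h4 h5
        simp only [Nat.add_sub_cancel] at h5
        have h6 : s * (k + 2) ≤ d := le_trans (Nat.mul_le_mul_left _ (by omega)) hd
        have h7 : Res.card ≤ s := by nlinarith
        have h8 := Nat.mul_le_mul_left k h6
        have h9 := Nat.mul_le_mul_left k h7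
        nlinarith
    rw [hk] at h2
    have : (k + 1) * Res.card = k * Res.card + Res.card := by ring
    omega
  obtain ⟨Ns, pN, leN, cN⟩ := round hy (by
    intro S hS
    rcases le_total S.card n with e | e
    · exact small S hS e
    · rw [← hy.cut_compl]
      have := card_add_card_compl S
      obtain ⟨j, hj⟩ := hS
      exact small _ ⟨n - j - 1, by omega⟩ (by omega))
  have hRr := hy.sub (reg_cnt pN) leN
  set R : V → V → ℕ := fun u v => m u v - cnt Res u v - cnt Ns u v with hRdef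
  set k := d - Res.card - Ns.card with hk
  have hkle : k ≤ 4 * n ^ 2 + 1 := by
    rw [hN, mul_pow] at cN; omega
  obtain ⟨t, ht⟩ := hRr.even_inner A
  have i1 := hRr.inner_add_cut A
  have i2 := hRr.inner_add_cut Aᶜ
  rw [hRr.cut_compl, C.cB] at i2
  rw [C.cA] at i1
  have htτ : t ≤ τ := by
    have : n * k ≤ n * (4 * n ^ 2 + 1) := Nat.mul_le_mul_left _ hkle
    have : n ≤ n ^ 3 := Nat.le_self_pow (by norm_num) n
    have : n * (4 * n ^ 2 + 1) = 4 * n ^ 3 + n := by ring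
    omega
  obtain ⟨Ms, Ps, a, b, c, e⟩ := inside_decomp C hPl t (fun u v => (R u v : ℤ))
    (fun u v => by rw [hRr.symm]) (fun u => by simp [hRr.diag]) (fun u v => by positivity)
    (by have : inner R A = 2 * t := by omega
        unfold inner at this; exact_mod_cast this)
    (by have : inner R Aᶜ = 2 * t := by omega
        unfold inner at this; exact_mod_cast this)
  obtain ⟨Rest, hRest⟩ := Multiset.le_iff_exists_add.1
    (b.trans (nsmul_le_nsmul_left (Multiset.zero_le Pl) htτ))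
  have pτ : ∀ σ ∈ Ps + Rest, IsPM σ := fun σ hσ =>
    (tPl σ (Multiset.mem_of_mem_nsmul (hRest ▸ hσ))).1
  have pPs : ∀ σ ∈ Ps, IsPM σ := fun σ hσ => pτ σ (Multiset.mem_add.2 (Or.inl hσ))
  have pRest : ∀ σ ∈ Rest, IsPM σ := fun σ hσ => pτ σ (Multiset.mem_add.2 (Or.inr hσ))
  have pMs : ∀ σ ∈ Ms, IsPM σ := fun σ hσ => (c σ hσ).1
  have pZ' : ∀ σ ∈ (12 * τ) • Z0, IsPM σ := fun σ hσ => (tZ σ (Multiset.mem_of_mem_nsmul hσ)).1
  have zin : ∀ u v, ¬ Cross A Aᶜ u v → cnt ((12 * τ) • Z0) u v = 0 := by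
    intro u v huv
    by_contra h0
    obtain ⟨σ, hσ, rfl⟩ := cnt_pos.1 (Nat.pos_of_ne_zero h0)
    exact huv ((tZ σ (Multiset.mem_of_mem_nsmul hσ)).2 u).1
  have leM : ∀ u v, cnt Ms u v ≤ R u v + cnt ((12 * τ) • Z0) u v + cnt Ps u v := by
    intro u v
    by_cases huv : Cross A Aᶜ u v
    · rcases Nat.eq_zero_or_pos (cnt Ms u v) with h0 | h0
      · omega
      · obtain ⟨σ, hσ, rfl⟩ := cnt_pos.1 h0
        have h1 := pZ u _ huv ((c σ hσ).2 u huv)
        have h2 := cnt_le_card Ms u (σ u)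
        rw [cnt_nsmul]
        nlinarith
    · have := e u v huv
      omega
  have hW := ((hRr.add (reg_cnt pZ')).add (reg_cnt pPs)).sub (reg_cnt pMs) leM
  have fW := koenig A (by rw [C.cA, C.cB]) _ _ hW.symm (by
    intro u v huv
    have huv' : ¬ Cross A Aᶜ u v := by simp only [Cross, mem_compl]; tauto
    have := e u v huv'
    have := zin u v huv'
    omega) hW.deg
  refine (((fW.add (fac_cnt pMs)).add (fac_cnt pN)).add (fac_cnt pRest)).congr fun u v => ?_
  have h1 := leM u v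
  have h2 := leN u v
  have h3 := leR u v
  have h4 : cnt Res u v = cnt Ps u v + cnt Rest u v + cnt ((12 * τ) • Z0) u v := by
    simp only [Res]; rw [hRest, cnt_add, cnt_add]
  simp only [hRdef] at h1 h2 ⊢
  omega

end Pool.Agent.P.MP_303500_co
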