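import Pool.Agent.P.MP_303500_co.Core
import Pool.Agent.P.MP_303500_co.Generic

/-! The two extremal cases. -/

set_option linter.unusedSectionVars false

namespace Pool.Agent.P.MP_303500_co
open Finset

variable {V : Type} [Fintype V] [DecidableEq V]

/-- Sparse edges that may be left for the last bipartite graph. -/
def wy (ty : V → Bool) (p : Bool) (m : V → V → ℕ) (u v : V) : ℕ :=
  if ty u = true ∧ ty v = p then m u v else 0

def cw (s : V → Bool) (w : V → V → ℕ) : ℕ :=
  ∑ u, ∑ v, if s u = true ∧ s v = false then w u v else 0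

lemma stats {n a r : ℕ} (hN : Fintype.card V = 2 * n) (hr : 0 < r) (hB : Big (Fintype.card V) a)
    (ty : V → Bool) (p : Bool) {m : V → V → ℕ} (hm : Gr m) (hmr : ∀ u v, m u v ≤ r) {κ : V → V}
    (hκ : Invo κ) (h1 : (supp κ)ᶜ.card ≤ 2) (h2 : ∀ v, κ v = v → p = false)
    (h3 : ∀ β, (univ.filter fun v => ty v = β).card ≤ n + a) :
    ∃ c : Cf V, c.p = p ∧ St c ty m n a r ∧ (∀ v, κ v ≠ v → c.side (κ v) = !c.side v) ∧
      (∀ v, κ v = v → c.side v = ty v) ∧
      (2 * n - 8) * ∑ u, ∑ v, wy ty p m u v ≤ 4 * (2 * n) * cw c.side (wy ty p m) := by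
  have hn := hB.2.1
  obtain ⟨s, s1, s2, s3, s4⟩ := split hκ ty (J := (V × Bool) ⊕ Bool)
    (Sum.elim (fun x => rw' ty m x.1 x.2) fun β w => if ty w = β then 1 else 0)
    (Sum.elim (fun _ => r) fun _ => 1) (by rintro (x | β) <;> simp [hr]) (by
      rintro (x | β) w <;> simp only [Sum.elim_inl, Sum.elim_inr, rw'] <;> split_ifs <;> simp [hmr])
    (by simp; nlinarith) h1 (wy ty p m) (fun u v h => by
      unfold wy at h
      split_ifs at h with e
      · exact ⟨fun e' => by rw [e', hm.2] at h; omega, fun _ => e.1, fun e' => e.2.trans (h2 v e')⟩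
      · omega) hB
  refine ⟨⟨s, fun v => ty v ^^ (p && !s v), p⟩, rfl,
    ⟨fun _ => rfl, fun v β t => s3 (.inl (v, β)) t, h3, fun t β => ?_⟩, s1, s2, by rwa [hN] at s4⟩
  have a1 := s3 (.inr β) (!t)
  have a2 := sd_add s t fun w => if ty w = β then 1 else 0
  have a3 : sd s t (fun w => if ty w = β then 1 else 0)
      = (univ.filter fun v => s v = t ∧ ty v = β).card := by
    rw [card_filter, sd]; exact sum_congr rfl fun v _ => by split_ifs <;> simp_all
  have a4 := card_ty ty univ
  have := h3 true; have := h3 false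
  rw [← card_filter] at a2
  simp only [Sum.elim_inr, Bool.not_not, one_mul, card_univ] at a1 a4 ⊢
  cases β <;> omega

lemma wsum_sub (w w' : V → ℤ) (m : V → V → ℕ) :
    wsum (fun v => w v - w' v) m = wsum w m - wsum w' m := by
  simp only [wsum, sub_mul, sum_sub_distrib]

lemma wsum_one {w : V → ℤ} {m : V → V → ℕ} (h : ∀ u v, 0 < m u v → w u = 1) :
    wsum w m = (∑ v, deg m v : ℕ) := by
  rw [wsum, Nat.cast_sum]
  refine sum_congr rfl fun u _ => ?_
  rcases Nat.eq_zero_or_pos (deg m u) with e | e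
  · simp [e]
  · obtain ⟨v, -, hv⟩ := exists_ne_zero_of_sum_ne_zero e.ne'
    rw [h u v (Nat.pos_of_ne_zero hv), one_mul]

lemma selY {c : Cf V} {ty : V → Bool} {m : V → V → ℕ} {n a r : ℕ} (st : St c ty m n a r)
    (hm : Gr m) {d Df Q : ℕ} (d1 : c.dl univ true = d) (d2 : c.dl univ false = -d)
    (hQ : ∀ v, deg (spr ty c.p m) v + r * a ≤ 2 * Q) (h0 : 20 ≤ Df)
    (h1 : d * Df ≤ cw c.side (wy ty c.p m)) (h2 : 4 * d * Q ≤ 3 * cw c.side (wy ty c.p m)) :
    ∃ Y : V → V → ℕ, Gr Y ∧ (∀ u v, Y u v ≤ spr ty c.p m u v) ∧ (∀ v, 5 * deg Y v ≤ 4 * Df) ∧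
      (∀ u v, c.side u = c.side v → Y u v = 0) ∧ (∀ β, wsum (c.sgn β) Y = Df * c.dl univ β) ∧
      ∑ v, deg Y v = 2 * (d * Df) ∧ ∀ u v, 0 < Y u v → c.p = true → ty u = true := by
  let F : V → V → ℕ := fun u v => if c.side u = true ∧ c.side v = false then wy ty c.p m u v else 0
  have key : ∀ u v, 0 < F u v + F v u → (c.side u = true ∧ ty u = true ∧ c.side v = false ∧
      ty v = c.p ∨ c.side v = true ∧ ty v = true ∧ c.side u = false ∧ ty u = c.p) ∧
      F u v + F v u = m u v := fun u v => by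
    simp only [F, wy, hm.1 v u]
    cases c.side u <;> cases c.side v <;> simp <;> split_ifs <;> simp_all
  have e1 : ∑ u, deg (fun u v => F u v + F v u) u = 2 * cw c.side (wy ty c.p m) := by
    simp only [deg, sum_add_distrib]
    rw [sum_comm (f := fun u v => F v u), two_mul]; rfl
  obtain ⟨Y, y1, y2, y3, y4⟩ := select c.side (m := fun u v => F u v + F v u)
    ⟨fun u v => add_comm _ _, fun u => by simp [F]⟩ (fun u v h => by simp [F, h]) (Q := Q)
    (D := 4 * Df / 5) (j := d * Df) (fun u => by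
      have a1 := st.row u (!(ty u ^^ c.p)) (!c.side u)
      have a2 := sd_add c.side (c.side u) (rw' ty m u (!(ty u ^^ c.p)))
      have a3 := hQ u
      have a4 : deg (fun u v => F u v + F v u) u ≤
          sd c.side (!c.side u) (rw' ty m u (!(ty u ^^ c.p))) := sum_le_sum fun v _ => by
        rcases Nat.eq_zero_or_pos (F u v + F v u) with e | e
        · exact e.le.trans (Nat.zero_le _)
        · obtain ⟨b1, b2⟩ := key u v e
          dsimp only
          rw [b2, rw', if_pos (by grind), if_pos (by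
            rcases b1 with ⟨-, p, -, q⟩ | ⟨-, p, -, q⟩ <;> simp [p, q])]
      rw [spr_eq] at a3
      rw [Bool.not_not] at a1
      omega) (by omega) (by
      rw [e1]
      have : 3 * Df ≤ 4 * (4 * Df / 5) := by omega
      have a1 := Nat.mul_le_mul h2 this
      nlinarith)
  have k2 : ∀ u v, 0 < Y u v → (c.side u = true ∧ ty u = true ∧ c.side v = false ∧
      ty v = c.p ∨ c.side v = true ∧ ty v = true ∧ c.side u = false ∧ ty u = c.p) :=
    fun u v h => (key u v (h.trans_le (y2 u v))).1
  refine ⟨Y, y1, fun u v => ?_, fun v => by have := y3 v; omega, fun u v h => ?_, ?_, y4,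
    fun u v h => by have := k2 u v h; grind⟩
  · rcases Nat.eq_zero_or_pos (Y u v) with e | e
    · omega
    · have := k2 u v e
      rw [spr, if_neg (by rcases this with ⟨-, p, -, q⟩ | ⟨-, p, -, q⟩ <;> simp [p, q]), ← (key u v (e.trans_le (y2 u v))).2]; exact y2 u v
  · by_contra e; have := k2 u v (by omega); grind
  · have a1 := wsum_one (w := fun v => c.sgn true v - c.sgn false v) (m := Y) fun u v h => by
      have := k2 u v h; simp only [Cf.sgn, st.blk]; grind
    have a2 := wsum_zero (w := fun v => c.sgn true v - -c.sgn false v) y1.1 fun u v h => by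
      have := k2 u v h; simp only [Cf.sgn, st.blk]; grind
    have a3 : wsum (fun v => -c.sgn false v) Y = -wsum (c.sgn false) Y := by simp [wsum]
    rw [wsum_sub] at a1 a2
    rw [y4] at a1
    intro β
    cases β
    · rw [d2]; push_cast at a1; linarith
    · rw [d1]; push_cast at a1; linarith

lemma exc_card {S : V → V → ℕ} {r a g : ℕ} (hr : 0 < r) (ha : 0 < a) (h : ∑ v, deg S v ≤ r * g)
    (hu : g ≤ a ^ 2) : (univ.filter fun v => r * a < deg S v).card ≤ a := by
  have a1 := card_nsmul_le_sum (univ.filter fun v => r * a < deg S v) (deg S) (r * a)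
    (fun v hv => (mem_filter.1 hv).2.le)
  have a2 : ∑ v ∈ univ.filter fun v => r * a < deg S v, deg S v ≤ ∑ v, deg S v :=
    sum_le_sum_of_subset (filter_subset _ _)
  have a3 : r * g ≤ a * (r * a) := (Nat.mul_le_mul_left r hu).trans_eq (by ring)
  exact Nat.le_of_mul_le_mul_right (a1.trans (a2.trans (h.trans a3))) (by positivity)

lemma sum_deg_touch {D : V → V → ℕ} (g : Gr D) {X : Finset V} {d : ℕ} (h1 : ∀ v, deg D v ≤ d)
    (h2 : ∀ u v, 0 < D u v → u ∈ X ∨ v ∈ X) : ∑ v, deg D v ≤ 2 * (X.card * d) := by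
  have a1 : ∑ u, ∑ v, (if u ∈ X then D u v else 0) ≤ X.card * d := by
    simp only [sum_ite_irrel, sum_const_zero, sum_ite_mem, univ_inter]
    exact sum_le_card_nsmul _ _ _ fun v _ => h1 v
  have a2 : ∑ u, ∑ v, (if v ∈ X then D u v else 0) = ∑ u, ∑ v, (if u ∈ X then D u v else 0) := by
    rw [sum_comm]; simp only [g.1 _ _]
  have a3 : ∑ v, deg D v ≤ ∑ u, ∑ v, (if u ∈ X then D u v else 0)
      + ∑ u, ∑ v, (if v ∈ X then D u v else 0) := by
    rw [← sum_add_distrib]
    refine sum_le_sum fun u _ => ?_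
    rw [← sum_add_distrib]
    refine sum_le_sum fun v _ => ?_
    have := h2 u v
    split_ifs with p q q
    · omega
    · omega
    · omega
    · by_contra e; exact (this (by omega)).elim p q
  omega

lemma row_ty {m : V → V → ℕ} {r : ℕ} (hmr : ∀ u v, m u v ≤ r) (ty : V → Bool) (v : V) (β : Bool) :
    ∑ w, rw' ty m v β w ≤ r * (univ.filter fun v => ty v = β).card := by
  simp only [rw', ← sum_filter]
  rw [mul_comm]; exact sum_le_card_nsmul _ _ _ fun w _ => hmr v w

lemma wsum_spr {ty : V → Bool} {m : V → V → ℕ} (g : Gr m) :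
    wsum (pm ty) (spr ty true m) = wsum (pm ty) m := by
  have : ∀ u v, m u v = spr ty true m u v + (m u v - spr ty true m u v) := fun u v => by
    unfold spr; split_ifs <;> omega
  rw [wsum_congr _ this, wsum_add, wsum_zero (g.sub (gr_spr g ty true)).1, add_zero]
  intro u v h
  unfold spr at h
  split_ifs at h with e
  · unfold pm; grind
  · omega

theorem ext_true {n a b x r u : ℕ} (hS : Sc n a b x) (hu : u * n ≤ a ^ 2) (hu' : 100 * u ≤ a)
    (hN : Fintype.card V = 2 * n) (hr : 0 < r) (hV : Viz (Fintype.card V) a)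
    (hB : Big (Fintype.card V) a) {m : V → V → ℕ} (h : Reg (r * n) m) (hmr : ∀ u v, m u v ≤ r)
    (ty : V → Bool) (hΓ : ∑ v, deg (spr ty true m) v ≤ r * (u * n))
    (hh : ∀ v, 2 * deg (spr ty true m) v ≤ r * n) (ha : 100 ≤ a) : Fac m := by
  wlog ht : n ≤ (univ.filter fun v => ty v = true).card generalizing ty
  · have e : spr (fun v => !ty v) true m = spr ty true m := by
      funext u v
      exact if_congr (by dsimp only; cases ty u <;> cases ty v <;> simp) rfl rfl
    refine this (fun v => !ty v) (e ▸ hΓ) (e ▸ hh) ?_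
    have := card_ty ty univ
    simp only [Bool.not_eq_eq_eq_not, Bool.not_true, card_univ] at *; omega
  obtain ⟨t, e1⟩ := Nat.exists_eq_add_of_le ht
  have e2 := card_ty ty univ
  rw [card_univ, hN, e1] at e2
  have hm : ∀ v, deg m v = r * n := h.deg
  have hS' := hS
  obtain ⟨t0, -, -, -, t4, t5, t6⟩ := hS'
  have u1 : 1000 * (r * a) ≤ r * b := by rw [mul_left_comm]; exact Nat.mul_le_mul_left _ t5
  have u2 : 1000 * (r * b) ≤ r * x := by rw [mul_left_comm]; exact Nat.mul_le_mul_left _ t6
  have u3 : a ≤ r * a := Nat.le_mul_of_pos_left _ hr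
  have u4 : 1000 * (r * x) ≤ r * n := by rw [mul_left_comm]; exact Nat.mul_le_mul_left _ t4
  have a1 : ∀ v ∈ univ.filter fun v => ty v = true, r * t ≤ deg (spr ty true m) v := fun v hv => by
    have b1 := spr_add ty true m v
    have b2 := row_ty hmr ty v false
    rw [(mem_filter.1 hv).2, hm] at b1
    have : r * n = r * (univ.filter fun v => ty v = false).card + r * t := by
      rw [← mul_add]; congr 1; omega
    simp only [Bool.xor_self] at b1; omega
  have a2 : t ≤ u := by
    have b1 := card_nsmul_le_sum _ _ _ a1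
    have b2 := sum_le_sum_of_subset (f := deg (spr ty true m))
      (filter_subset (fun v => ty v = true) univ)
    have b3 : n * (r * t) ≤ (n + t) * (r * t) := by gcongr; omega
    rw [e1, smul_eq_mul] at b1
    have : r * n * t ≤ r * n * u := by
      calc _ = n * (r * t) := by ring
        _ ≤ r * (u * n) := b3.trans (b1.trans (b2.trans hΓ))
        _ = _ := by ring
    exact Nat.le_of_mul_le_mul_left this (by omega)
  obtain ⟨κ, k1, k2⟩ := exists_pairing (univ : Finset V) (by simp [hN])
  have k3 : ∀ v, κ v ≠ v := fun v => mem_supp.1 (k2 ▸ mem_univ v)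
  obtain ⟨c, c1, st, c2, -, c3⟩ := stats hN hr hB ty true h.gr hmr k1 (by simp [k2])
    (fun v hv => absurd hv (k3 v)) (fun β => by cases β <;> omega)
  have e3 : ∑ v, pm ty v = 2 * t := by rw [sum_pm]; omega
  have ⟨d1, d2⟩ : c.dl univ true = t ∧ c.dl univ false = -t := by
    have b1 := sum_invo k1 (S := univ) (fun v _ => ⟨mem_univ _, k3 v⟩)
      (fun v => c.sgn true v + c.sgn false v) fun v _ => by
        simp only [Cf.sgn, c2 v (k3 v)]
        cases c.blk v <;> cases c.blk (κ v) <;> cases c.side v <;> simp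
    have b2 : ∑ v, (c.sgn true v - c.sgn false v) = ∑ v, pm ty v := sum_congr rfl fun v _ => by
      simp only [Cf.sgn, pm, st.blk, c1]; cases ty v <;> cases c.side v <;> simp
    rw [sum_add_distrib] at b1
    rw [sum_sub_distrib] at b2
    unfold Cf.dl; omega
  have a3 : 2 * t * (r * n) ≤ ∑ u, ∑ v, wy ty true m u v := by
    have b1 := h.inner_add_cut (univ.filter fun v => ty v = true)
    have b2 := h.cut_le (univ.filter fun v => ty v = true)ᶜ
    have b3 : inner m (univ.filter fun v => ty v = true) = ∑ u, ∑ v, wy ty true m u v := by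
      simp only [inner, sum_filter, wy, ite_and, sum_ite_irrel, sum_const_zero]
    rw [h.cut_compl, card_compl, hN, e1] at b2
    rw [e1, b3] at b1
    obtain ⟨n', rfl⟩ : ∃ n', n = n' + t := ⟨n - t, by omega⟩
    rw [show 2 * (n' + t) - (n' + t + t) = n' by omega] at b2
    nlinarith
  have a4 : 46 * (t * (r * n)) ≤ 100 * cw c.side (wy ty true m) := by
    obtain ⟨n', rfl⟩ : ∃ n', n = n' + 4 := ⟨n - 4, by omega⟩
    rw [show 2 * (n' + 4) - 8 = 2 * n' by omega] at c3
    have b1 : 23 * (n' + 4) ≤ 25 * n' := by omega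
    have b2 := Nat.mul_le_mul b1 a3
    exact Nat.le_of_mul_le_mul_left (c := n' + 4) (by nlinarith) (by omega)
  obtain ⟨K, hK⟩ : ∃ K, K + 2 * (r * b) = r * n / 2 + r * n / 4 + 4 * (r * a) + 2 * (r * x) :=
    ⟨_, Nat.sub_add_cancel (by omega)⟩
  obtain ⟨Df, hD⟩ : ∃ Df, Df + K = r * n := ⟨_, Nat.sub_add_cancel (by omega)⟩
  rw [← c1] at a4 hh hΓ
  obtain ⟨Y, y1, y2, y3, y4, y5, y6, y7⟩ := selY st h.gr d1 d2 (Df := Df)
    (Q := r * n / 4 + r * a + 1) (fun v => by have := hh v; omega) (by omega)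
    (by have : t * (4 * Df) ≤ t * (r * n) := Nat.mul_le_mul_left _ (by omega); nlinarith) (by
      have : t * (400 * (r * n / 4 + r * a + 1)) ≤ t * (101 * (r * n)) :=
        Nat.mul_le_mul_left _ (by omega)
      nlinarith)
  have hX := exc_card hr (by omega) hΓ hu
  obtain ⟨Dd, f1, f2, f3, f4, f5, f6⟩ := core hS hN hr hV hB st h hmr hX
    (fun v hv => by simpa using hv) hh (by omega) hK hD y1 y2 y3 y4 y5
  have gS := (gr_spr h.gr ty c.p).sub y1
  obtain ⟨Ms, m1, m2, m3⟩ := spec1 hV (by simp [hN]) hr ty (gS.add f1) (K := K) (y := 4 * a)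
    (t := t) (fun u v => by have := f2 u v; have := hmr u v; omega) (fun v => by
      rw [deg_add]
      by_cases hv : v ∈ univ.filter fun v => r * a < deg (spr ty c.p m) v
      · have := f4 v hv; omega
      · have := f5 v hv; omega) (by
      have b1 := sum_deg_touch f1 (d := r * n) (fun v => (deg_mono (fun u v => by
        have := f2 u v; omega) v).trans (hm v).le) fun u v h => (f3 u v h).2
      have b2 : ∑ v, deg (fun u v => spr ty c.p m u v - Y u v) v ≤ ∑ v, deg (spr ty c.p m) v :=
        sum_le_sum fun v _ => deg_mono (fun _ _ => Nat.sub_le _ _) v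
      have b3 := Nat.mul_le_mul_right (r * n) hX
      have b4 : 3 * (r * n) * a ≤ 4 * K * a := Nat.mul_le_mul_right _ (by omega)
      have b5 : u * (r * n) ≤ a * (r * n) := Nat.mul_le_mul_right _ (by omega)
      simp only [deg_add, sum_add_distrib]
      have b6 : r * (u * n) = u * (r * n) := by ring
      have b7 : 3 * (r * n) * a = 3 * (a * (r * n)) := by ring
      have b8 : 4 * K * a = K * (4 * a) := by ring
      omega) (by omega) (by
      have b1 := wsum_spr (ty := ty) h.gr
      rw [wsum_reg _ hm, e3, ← c1,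
        wsum_congr _ (fun u v => (Nat.sub_add_cancel (y2 u v)).symm), wsum_add,
        wsum_one (m := Y) (fun u v h => by simp [pm, y7 u v h c1]), y6, ← hD] at b1
      rw [wsum_add, wsum_zero f1.1 fun u v h => by have := (f3 u v h).1; unfold pm; grind]
      push_cast at b1; linarith)
  refine f6 Ms m1 (fun σ hσ => ?_) fun u v => (m3 u v).symm
  obtain ⟨b1, b2, b3⟩ := m2 σ hσ
  refine ⟨b1, lt_true c c1 st.blk ?_, by omega⟩
  have := sum_add_sum_compl (supp σ) (pm ty)
  unfold wt at b2; omega

end Pool.Agent.P.MP_303500_co
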