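import Pool.Agent.P.MP_303500_co.Ext

/-! The case of two cliques. -/

set_option linter.unusedSectionVars false

namespace Pool.Agent.P.MP_303500_co
open Finset

variable {V : Type} [Fintype V] [DecidableEq V]

/-- The vertices of one type. -/
def tp (ty : V → Bool) (β : Bool) : Finset V := univ.filter fun v => ty v = β

@[simp] lemma mem_tp {ty : V → Bool} {β : Bool} {v : V} : v ∈ tp ty β ↔ ty v = β := by simp [tp]

lemma tp_compl (ty : V → Bool) (β : Bool) : (tp ty β)ᶜ = tp ty (!β) := by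
  ext v; simp only [mem_compl, mem_tp]; cases ty v <;> cases β <;> simp

lemma spr_false {ty : V → Bool} {m : V → V → ℕ} {β : Bool} {v : V} (hv : v ∈ tp ty β) :
    deg (spr ty false m) v = ∑ w ∈ (tp ty β)ᶜ, m v w := by
  rw [tp_compl, spr_eq, tp, sum_filter, mem_tp.1 hv]; simp [rw']

lemma cut_tp {d : ℕ} {m : V → V → ℕ} (h : Reg d m) (ty : V → Bool) (β : Bool) :
    ∑ v ∈ tp ty β, deg (spr ty false m) v = cut m (tp ty true) := by
  rw [sum_congr rfl fun v hv => spr_false hv]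
  cases β
  · rw [← h.cut_compl, tp_compl ty true]; rfl
  · rfl

lemma sum_spr_false {d : ℕ} {m : V → V → ℕ} (h : Reg d m) (ty : V → Bool) :
    ∑ v, deg (spr ty false m) v = 2 * cut m (tp ty true) := by
  rw [← sum_add_sum_compl (tp ty true), tp_compl, cut_tp h, cut_tp h, two_mul]

lemma spr_false_ge {d r : ℕ} {m : V → V → ℕ} (h : Reg d m) (hmr : ∀ u v, m u v ≤ r)
    {ty : V → Bool} {β : Bool} {v : V} (hv : v ∈ tp ty β) :
    d ≤ deg (spr ty false m) v + ((tp ty β).card - 1) * r := by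
  have := h.row_le hmr hv
  have := sum_add_sum_compl (tp ty β) (m v)
  rw [spr_false hv, ← h.deg v]; omega

lemma size_false {n r u : ℕ} (hr : 0 < r) (hn : 0 < n)
    {m : V → V → ℕ} (h : Reg (r * n) m) (hmr : ∀ u v, m u v ≤ r) {ty : V → Bool}
    (hΓ : ∑ v, deg (spr ty false m) v ≤ r * (u * n)) (hs : ∀ β, n ≤ 2 * (tp ty β).card)
    (β : Bool) : n ≤ (tp ty β).card + u := by
  by_contra hc
  obtain ⟨t, ht⟩ : ∃ t, n = (tp ty β).card + t := ⟨n - (tp ty β).card, by omega⟩
  have a1 := card_nsmul_le_sum (tp ty β) (fun v => deg (spr ty false m) v) (r * t) fun v hv => by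
    have := spr_false_ge h hmr hv
    have : ((tp ty β).card - 1) * r ≤ (tp ty β).card * r := by gcongr; omega
    have : r * n = (tp ty β).card * r + r * t := by rw [ht]; ring_nf
    omega
  have a2 := cut_tp h ty β
  have a3 := sum_spr_false h ty
  have a4 := Nat.mul_le_mul_right (r * t) (hs β)
  have a5 : r * n * t ≤ r * n * u := by
    rw [smul_eq_mul] at a1
    calc _ = n * (r * t) := by ring
      _ ≤ r * (u * n) := by
        refine a4.trans (le_trans ?_ hΓ); rw [mul_assoc]; omega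
      _ = _ := by ring
  have := Nat.le_of_mul_le_mul_left a5 (by positivity)
  omega

lemma cut_ge {n r : ℕ} (hN : Fintype.card V = 2 * n) (hn : 4 ≤ n) {m : V → V → ℕ}
    (h : Reg (r * n) m) (hmr : ∀ u v, m u v ≤ r) {ty : V → Bool}
    (hs : ∀ β, n ≤ 2 * (tp ty β).card) (hh : ∀ v, 2 * deg (spr ty false m) v ≤ r * n) :
    r * n ≤ cut m (tp ty true) ∧
      ∀ v, deg (spr ty false m) v + r * n ≤ cut m (tp ty true) + r := by
  obtain ⟨β, hβ⟩ : ∃ β, (tp ty β).card ≤ n := by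
    have := card_ty ty univ
    rw [card_univ, hN] at this
    by_contra hc
    push Not at hc
    have := hc true; have := hc false
    unfold tp at *; omega
  have key : ∀ β, (tp ty β).card ≤ n → ∃ s t, (tp ty β).card = s + 1 ∧ n = s + 1 + t ∧
      ∀ v ∈ tp ty β, r * (t + 1) ≤ deg (spr ty false m) v := fun β hβ => by
    obtain ⟨s, e⟩ : ∃ s, (tp ty β).card = s + 1 :=
      ⟨(tp ty β).card - 1, by have := hs β; omega⟩
    obtain ⟨t, ht⟩ : ∃ t, n = s + 1 + t := ⟨n - (s + 1), by omega⟩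
    refine ⟨s, t, e, ht, fun v hv => ?_⟩
    have := spr_false_ge h hmr hv
    rw [e, Nat.add_sub_cancel, ht] at this
    have : r * (s + 1 + t) = s * r + r * (t + 1) := by ring
    omega
  have own : ∀ β, (tp ty β).card ≤ n → ∀ v ∈ tp ty β,
      deg (spr ty false m) v + r * n ≤ cut m (tp ty true) + r := fun β hβ v hv => by
    obtain ⟨s, t, e1, e2, e3⟩ := key β hβ
    have a1 := card_nsmul_le_sum ((tp ty β).erase v) (fun v => deg (spr ty false m) v) _
      fun w hw => e3 w (mem_of_mem_erase hw)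
    rw [card_erase_of_mem hv, e1, Nat.add_sub_cancel, smul_eq_mul] at a1
    rw [← cut_tp h ty β, ← add_sum_erase _ _ hv]
    have a2 : t ≤ s * t := Nat.le_mul_of_pos_left _ (by have := hs β; omega)
    have a3 := Nat.mul_le_mul_left r a2
    have : r * n = r * s + r + r * t := by rw [e2]; ring
    have : s * (r * (t + 1)) = r * (s * t) + r * s := by ring
    omega
  obtain ⟨s, t, e1, e2, e3⟩ := key β hβ
  have a1 := card_nsmul_le_sum _ _ _ e3
  rw [cut_tp h, e1, smul_eq_mul] at a1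
  have a2 : (s + 1) * (r * (t + 1)) = r * (s * t) + r * n := by rw [e2]; ring
  refine ⟨by omega, fun v => ?_⟩
  by_cases hv : v ∈ tp ty β
  · exact own β hβ v hv
  rcases Nat.eq_zero_or_pos t with rfl | ht
  · refine own (!β) ?_ v (by rw [← tp_compl]; exact mem_compl.2 hv)
    rw [← tp_compl, card_compl]; omega
  · have a3 : n ≤ 2 * (s * t) + 2 := by
      have := hs β
      have : s ≤ s * t := Nat.le_mul_of_pos_right _ ht
      omega
    have a4 := Nat.mul_le_mul_left r a3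
    have := hh v
    have : r * (2 * (s * t) + 2) = 2 * (r * (s * t)) + 2 * r := by ring
    omega

lemma pairing_false {n : ℕ} (hN : Fintype.card V = 2 * n) (ty : V → Bool) :
    ∃ κ, Invo κ ∧ (∀ v, ty (κ v) = ty v) ∧
      ∀ β, ((supp κ)ᶜ.filter fun v => ty v = β).card = (tp ty true).card % 2 := by
  have key : ∀ β, ∃ κ, Invo κ ∧ supp κ ⊆ tp ty β ∧
      (tp ty β \ supp κ).card = (tp ty β).card % 2 := fun β => by
    obtain ⟨U, u1, u2⟩ := exists_subset_card_eq (s := tp ty β)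
      (n := (tp ty β).card - (tp ty β).card % 2) (by omega)
    obtain ⟨κ, k1, rfl⟩ := exists_pairing U (by rw [u2, Nat.even_iff]; omega)
    exact ⟨κ, k1, u1, by rw [card_sdiff_of_subset u1]; omega⟩
  obtain ⟨κ, k1, k2, k3⟩ := key true
  obtain ⟨κ', l1, l2, l3⟩ := key false
  have k4 : ∀ v, κ v ≠ v → ty v = true := fun v h => mem_tp.1 (k2 (mem_supp.2 h))
  have l4 : ∀ v, κ' v ≠ v → ty v = false := fun v h => mem_tp.1 (l2 (mem_supp.2 h))
  have hd : ∀ v, κ v = v ∨ κ' v = v := fun v => by have := k4 v; have := l4 v; grind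
  refine ⟨un κ κ', k1.un l1 hd, fun v => ?_, fun β => ?_⟩
  · unfold un
    split_ifs with e
    · by_cases e' : κ' v = v
      · rw [e']
      · rw [l4 v e', l4 _ (l1.ne e')]
    · rw [k4 v e, k4 _ (k1.ne e)]
  · have := card_ty ty univ
    rw [card_univ, hN] at this
    cases β
    · rw [show (tp ty true).card % 2 = (tp ty false).card % 2 by unfold tp; omega, ← l3]
      congr 1; ext v
      have := k4 v
      simp only [supp_un, mem_filter, mem_compl, mem_union, mem_supp, mem_sdiff, mem_tp]; grind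
    · rw [← k3]
      congr 1; ext v
      have := l4 v
      simp only [supp_un, mem_filter, mem_compl, mem_union, mem_supp, mem_sdiff, mem_tp]; grind

lemma num_false {A B E D r C K Df p W : ℕ} (u1 : 1000 * A ≤ B) (u2 : 1000 * B ≤ E)
    (u4 : 1000 * E ≤ D) (u5 : 100 * r ≤ A) (hr : 0 < r) (a2 : D ≤ C)
    (hK : K + 2 * B = D / 2 + D / 4 + 4 * A + 2 * E) (hD : Df + K = D) (hp : p ≤ 1)
    (a6 : (C + p * D) % 2 = 0) (a7 : 23 * C ≤ 100 * W) (a8 : Df ≤ W) :
    ∃ X Q' z K' Q, (∀ s, 2 * s ≤ D → s + D ≤ C + r → s ≤ X) ∧ X + A ≤ 2 * Q' ∧ 20 ≤ Df ∧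
      p * Df ≤ W ∧ 4 * p * Q' ≤ 3 * W ∧ z + p * (20 * (A + 1)) + p * Df = C ∧
      K' + 20 * (A + 1) = K ∧ D ≤ 4 * Q ∧ (p = 1 → 20 * X ≤ 9 * z) ∧ X ≤ Q ∧
      (z + p * K') % 2 = 0 ∧ 2 * Q ≤ z ∧ 3 * Q ≤ 2 * K' ∧ (p = 1 → 4 * Q ≤ z + K' ∧ K' ≤ z) ∧
      0 < Q := by
  have b1 : 4 * Df + 4 * E ≤ D := by omega
  have b2 : D ≤ 4 * Df + 8 * E := by omega
  clear hK
  obtain ⟨X, x1, x2, x3⟩ : ∃ X, (∀ s, 2 * s ≤ D → s + D ≤ C + r → s ≤ X) ∧ 2 * X ≤ D ∧
      X + D ≤ C + r := ⟨min (D / 2) (C + r - D), fun s _ _ => by omega, by omega, by omega⟩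
  obtain ⟨z, hz⟩ : ∃ z, z + p * (20 * (A + 1)) + p * Df = C :=
    ⟨C - p * Df - p * (20 * (A + 1)), by interval_cases p <;> omega⟩
  obtain ⟨K', hK'⟩ : ∃ K', K' + 20 * (A + 1) = K := ⟨_, Nat.sub_add_cancel (by omega)⟩
  have b3 : 4 * X + 3 * D ≤ 4 * z := by interval_cases p <;> omega
  have b4 : 3 * D ≤ 4 * K' := by omega
  obtain ⟨Q, q1, q2, q3, q4, q5⟩ : ∃ Q, 2 * Q ≤ z ∧ 2 * Q ≤ D ∧ 4 * Q ≤ z + K' ∧ X ≤ Q ∧
      D ≤ 4 * Q := by
    have b5 : 1000 ≤ D := by omega
    clear * - b3 b4 b5 x2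
    exact ⟨max X (D / 4 + 1), by omega, by omega, by omega, by omega, by omega⟩
  exact ⟨X, (X + A) / 2 + 1, z, K', Q, x1, by omega, by omega, by interval_cases p <;> omega,
    by interval_cases p <;> omega, hz, hK', q5, by omega, q4, by interval_cases p <;> omega, q1,
    by omega, by rintro rfl; omega, by omega⟩

theorem ext_false {n a b x r u : ℕ} (hS : Sc n a b x) (hu : u * n ≤ a ^ 2) (hu' : 100 * u ≤ a)
    (hN : Fintype.card V = 2 * n) (hr : 0 < r) (hV : Viz (Fintype.card V) a)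
    (hB : Big (Fintype.card V) a) {m : V → V → ℕ} (h : Reg (r * n) m) (hmr : ∀ u v, m u v ≤ r)
    (ty : V → Bool) (hΓ : ∑ v, deg (spr ty false m) v ≤ r * (u * n))
    (hh : ∀ v, 2 * deg (spr ty false m) v ≤ r * n) (ha : 100 ≤ a)
    (hs : ∀ β, n ≤ 2 * (tp ty β).card) : Fac m := by
  have hm : ∀ v, deg m v = r * n := h.deg
  have hS' := hS
  obtain ⟨t0, -, -, -, t4, t5, t6⟩ := hS'
  have u1 : 1000 * (r * a) ≤ r * b := by rw [mul_left_comm]; exact Nat.mul_le_mul_left _ t5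
  have u2 : 1000 * (r * b) ≤ r * x := by rw [mul_left_comm]; exact Nat.mul_le_mul_left _ t6
  have u3 : a ≤ r * a := Nat.le_mul_of_pos_left _ hr
  have u4 : 1000 * (r * x) ≤ r * n := by rw [mul_left_comm]; exact Nat.mul_le_mul_left _ t4
  have u5 : 100 * r ≤ r * a := by rw [mul_comm]; exact Nat.mul_le_mul_left _ ha
  have e2 := card_ty ty univ
  rw [card_univ, hN] at e2
  have a1 := size_false hr (by omega) h hmr hΓ hs
  obtain ⟨a2, a3⟩ := cut_ge hN (by omega) h hmr hs hh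
  have a4 := sum_spr_false h ty
  obtain ⟨κ, k1, k2, k3⟩ := pairing_false hN ty
  obtain ⟨p, hp⟩ : ∃ p, p = (tp ty true).card % 2 := ⟨_, rfl⟩
  rw [← hp] at k3
  obtain ⟨c, c1, st, c2, c3, c4⟩ := stats hN hr hB ty false h.gr hmr k1
    (by rw [← card_ty ty, k3, k3]; omega) (fun _ _ => rfl) (fun β => by
      have := a1 true; have := a1 false; unfold tp at *; cases β <;> omega)
  have hb : ∀ v, c.blk v = ty v := fun v => by simp [st.blk, c1]
  have d0 : ∀ β, c.dl univ β = (if β = true then 1 else -1) * p := fun β => by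
    rw [← c.dl_compl (supp κ), Cf.dl, sum_invo k1 (supp_closed k1) _ (fun v hv =>
      Cf.Crs.sgn ⟨c2 v (mem_supp.1 hv), by rw [hb, hb, k2]⟩ β), zero_add, ← k3 β, card_filter, Cf.dl]
    push_cast
    rw [mul_sum]
    refine sum_congr rfl fun v hv => ?_
    rw [Cf.sgn, hb, c3 v (by simpa using hv)]
    cases ty v <;> cases β <;> simp
  have a5 : ∑ u, ∑ v, wy ty false m u v = cut m (tp ty true) := by
    rw [cut, tp_compl]
    simp only [tp, sum_filter, wy, ite_and, sum_ite_irrel, sum_const_zero, Bool.not_true]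
  obtain ⟨C, hC⟩ : ∃ C, C = cut m (tp ty true) := ⟨_, rfl⟩
  have a6 : (C + p * (r * n)) % 2 = 0 := by
    have b1 := h.inner_add_cut (tp ty true)
    obtain ⟨i, b2⟩ := h.even_inner (tp ty true)
    have b3 : (tp ty true).card * (r * n)
        = 2 * ((tp ty true).card / 2 * (r * n)) + p * (r * n) := by
      rw [← mul_assoc 2, ← add_mul, hp, Nat.div_add_mod]
    omega
  rw [a5] at c4
  rw [← hC] at a2 a3 a4 c4
  obtain ⟨K, hK⟩ : ∃ K, K + 2 * (r * b) = r * n / 2 + r * n / 4 + 4 * (r * a) + 2 * (r * x) :=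
    ⟨_, Nat.sub_add_cancel (by omega)⟩
  obtain ⟨Df, hD⟩ : ∃ Df, Df + K = r * n := ⟨_, Nat.sub_add_cancel (by omega)⟩
  have ⟨a7, a8⟩ : 23 * C ≤ 100 * cw c.side (wy ty false m) ∧ Df ≤ cw c.side (wy ty false m) := by
    have b0 : 4 * Df + 4 * r ≤ r * n := by omega
    obtain ⟨n', rfl⟩ : ∃ n', n = n' + 4 := ⟨n - 4, by omega⟩
    rw [show 2 * (n' + 4) - 8 = 2 * n' by omega] at c4
    have b1 : 23 * (n' + 4) * C ≤ 25 * n' * C := Nat.mul_le_mul_right _ (by omega)
    have b2 := Nat.mul_le_mul_left (n' + 4) b0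
    have b3 := Nat.mul_le_mul_left n' a2
    clear * - c4 b1 b2 b3
    exact ⟨Nat.le_of_mul_le_mul_left (c := n' + 4) (by nlinarith) (by omega),
      Nat.le_of_mul_le_mul_left (c := n' + 4) (by nlinarith) (by omega)⟩
  have hp1 : p ≤ 1 := by omega
  obtain ⟨X, Q', z, K', Q, n1, n2, n3, n4, n5, n6, n7, n8, n9, n10, n11, n12, n13, n14, n15⟩ :=
    num_false u1 u2 u4 u5 hr a2 hK hD hp1 a6 a7 a8
  have hX2 : ∀ v, deg (spr ty false m) v ≤ X := fun v => n1 _ (hh v) (a3 v)
  rw [← c1] at a4 n4 n5 hh hΓ hX2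
  obtain ⟨Y, y1, y2, y3, y4, y5, y6, -⟩ := selY st h.gr (d := p) (by simp [d0]) (by simp [d0])
    (Df := Df) (Q := Q') (fun v => le_trans (Nat.add_le_add_right (hX2 v) _) n2) n3 n4 n5
  have hX := exc_card hr (by omega) hΓ hu
  obtain ⟨Dd, f1, f2, f3, f4, f5, f6⟩ := core hS hN hr hV hB st h hmr hX
    (fun v hv => by simpa using hv) hh (by simp [d0]; omega) hK hD y1 y2 y3 y4 y5
  have gS := (gr_spr h.gr ty c.p).sub y1
  have a9 : ∑ v, deg (fun u v => spr ty c.p m u v - Y u v) v + 2 * (p * Df) = 2 * C := by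
    rw [← y6, ← a4, ← sum_add_distrib]; exact sum_congr rfl fun v _ => deg_sub y2 v
  obtain ⟨Ms, m1, m2, m3⟩ := spec2 ty (X0 := univ.filter fun v => r * a < deg (spr ty c.p m) v)
    (p := p) (k := r * a + 1) (K := K') (z := z) (X := X) (Q := Q) (c := 2 * u) hp1 gS f1
    (fun u v e => by simp [spr, c1, e])
    (fun u v e => ⟨by have := (f3 u v e).1; simp [this, c1], (f3 u v e).2⟩) (fun v => by
      have b1 := sum_le_card_nsmul (univ.filter fun v => r * a < deg (spr ty c.p m) v) (Dd v) r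
        fun w _ => (Nat.le_add_left _ _).trans ((f2 v w).trans (hmr v w))
      have b2 := Nat.mul_le_mul_right r hX
      rw [smul_eq_mul] at b1; rw [mul_comm a] at b2; exact Nat.lt_succ_of_le (b1.trans b2))
    (by clear * - a9 n6; omega)
    (fun v => (deg_mono (fun _ _ => Nat.sub_le _ _) v).trans (hX2 v)) n9 n10 n11 n12 n13 n14 (by
      have b1 := Nat.mul_le_mul_right u n8
      have b2 : r * (u * n) = r * n * u := by ring
      have b3 : 4 * Q * u = 2 * (Q * (2 * u)) := by ring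
      clear * - b1 b2 b3 hΓ a4 n6
      omega) n15 (fun v hv w hw => by
      have b1 := f4 v hv; have b2 := f5 w hw; clear * - b1 b2 n7 u3 ha; omega)
  refine f6 Ms (m1.trans n7) (fun σ hσ => ?_) m3
  obtain ⟨b1, b2, b3⟩ := m2 σ hσ
  refine ⟨b1, lt_false c c1 fun β => ?_, ?_⟩
  · have b4 := b2 β
    have b5 := card_filter_add_card_filter_not (s := tp ty β) (fun v => v ∈ supp σ)
    have b6 : (tp ty β).card % 2 = p := by
      unfold tp at hp ⊢; clear * - hp e2; cases β <;> omega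
    rw [show (tp ty β).filter (fun v => v ∈ supp σ) = (supp σ).filter fun v => ty v = β by
      ext v; simp [and_comm], show (tp ty β).filter (fun v => v ∉ supp σ)
        = (supp σ)ᶜ.filter fun v => c.blk v = β by ext v; simp [and_comm, hb]] at b5
    rw [Nat.even_iff]; clear * - b4 b5 b6; omega
  · have := card_le_card (inter_subset_right (s₁ := supp σ)
      (s₂ := univ.filter fun v => r * a < deg (spr ty c.p m) v))
    clear * - this b3 hX hu' ha; omega

end Pool.Agent.P.MP_303500_co
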