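import Pool.Agent.P.MP_303500_co.Edmonds

/-! Matchings as involutions, colourings as multisets of involutions. -/

set_option linter.unusedSectionVars false

namespace Pool.Agent.P.MP_303500_co
open Finset

variable {V : Type} [Fintype V] [DecidableEq V]

def Invo (σ : V → V) : Prop := ∀ v, σ (σ v) = v

def supp (σ : V → V) : Finset V := univ.filter (fun v => σ v ≠ v)

/-- The multigraph formed by a multiset of matchings. -/
def oc (Ms : Multiset (V → V)) (u v : V) : ℕ := Ms.countP (fun σ => σ u = v ∧ u ≠ v)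

def deg (m : V → V → ℕ) (u : V) : ℕ := ∑ v, m u v

/-- Symmetric and loopless. -/
def Gr (m : V → V → ℕ) : Prop := (∀ u v, m u v = m v u) ∧ ∀ u, m u u = 0

/-- Disjoint union of two matchings. -/
def un (σ τ : V → V) : V → V := fun v => if σ v = v then τ v else σ v

@[simp] lemma mem_supp {σ : V → V} {v : V} : v ∈ supp σ ↔ σ v ≠ v := by simp [supp]

@[simp] lemma supp_id : supp (id : V → V) = ∅ := by ext; simp

lemma invo_id : Invo (id : V → V) := fun _ => rfl

lemma Invo.symm {σ : V → V} (h : Invo σ) {u v : V} : σ u = v ↔ σ v = u := by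
  constructor
  · rintro rfl; exact h u
  · rintro rfl; exact h v

lemma Invo.inj {σ : V → V} (h : Invo σ) : Function.Injective σ :=
  Function.LeftInverse.injective h

lemma Invo.ne {σ : V → V} (h : Invo σ) {v : V} (hv : σ v ≠ v) : σ (σ v) ≠ σ v :=
  fun e => hv (h.inj e)

lemma IsPM.invo {σ : V → V} (h : IsPM σ) : Invo σ := fun v => (h v).1

@[simp] lemma oc_zero (u v : V) : oc (0 : Multiset (V → V)) u v = 0 := by simp [oc]

lemma oc_add (Ms Ns : Multiset (V → V)) (u v : V) :
    oc (Ms + Ns) u v = oc Ms u v + oc Ns u v := by simp [oc]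

lemma oc_cons (σ : V → V) (Ms : Multiset (V → V)) (u v : V) :
    oc (σ ::ₘ Ms) u v = oc Ms u v + oc {σ} u v := by
  rw [← oc_add, add_comm, Multiset.singleton_add]

lemma oc_single (σ : V → V) (u v : V) :
    oc ({σ} : Multiset (V → V)) u v = if σ u = v ∧ u ≠ v then 1 else 0 := by
  have : ({σ} : Multiset (V → V)) = σ ::ₘ 0 := rfl
  rw [oc, this, Multiset.countP_cons]; simp

@[simp] lemma oc_id (u v : V) : oc ({id} : Multiset (V → V)) u v = 0 := by
  rw [oc_single]; simp

lemma oc_replicate_id (k : ℕ) (u v : V) : oc (Multiset.replicate k (id : V → V)) u v = 0 := by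
  rw [oc, Multiset.countP_eq_zero]
  intro σ hσ
  rw [Multiset.eq_of_mem_replicate hσ]; simp

lemma oc_pos {Ms : Multiset (V → V)} {u v : V} :
    0 < oc Ms u v ↔ ∃ σ ∈ Ms, σ u = v ∧ u ≠ v := by simp [oc, Multiset.countP_pos]

lemma oc_mono {Ms Ns : Multiset (V → V)} (h : Ms ≤ Ns) (u v : V) : oc Ms u v ≤ oc Ns u v :=
  Multiset.countP_le_of_le _ h

lemma deg_single (σ : V → V) (u : V) : deg (oc {σ}) u = if σ u = u then 0 else 1 := by
  unfold deg
  rw [sum_eq_single (σ u)]
  · rw [oc_single]; simp [eq_comm]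
  · intro v _ hv; rw [oc_single, if_neg]; tauto
  · simp

lemma deg_add (m m' : V → V → ℕ) (u : V) :
    deg (fun u v => m u v + m' u v) u = deg m u + deg m' u := sum_add_distrib

lemma deg_congr {m m' : V → V → ℕ} (h : ∀ u v, m u v = m' u v) (u : V) : deg m u = deg m' u :=
  sum_congr rfl fun v _ => h u v

lemma deg_mono {m m' : V → V → ℕ} (h : ∀ u v, m u v ≤ m' u v) (u : V) : deg m u ≤ deg m' u :=
  sum_le_sum fun v _ => h u v

lemma deg_oc_add (Ms Ns : Multiset (V → V)) (u : V) :
    deg (oc (Ms + Ns)) u = deg (oc Ms) u + deg (oc Ns) u := by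
  rw [← deg_add]; exact deg_congr (oc_add _ _) u

lemma deg_oc (Ms : Multiset (V → V)) (u : V) :
    deg (oc Ms) u = Ms.countP (fun σ => σ u ≠ u) := by
  induction Ms using Multiset.induction_on with
  | empty => simp [deg]
  | cons σ Ms ih =>
    rw [← Multiset.singleton_add, deg_oc_add, ih, deg_single, Multiset.singleton_add,
      Multiset.countP_cons]
    by_cases h : σ u = u <;> simp [h, add_comm]

lemma deg_oc_le (Ms : Multiset (V → V)) (u : V) : deg (oc Ms) u ≤ Ms.card := by
  rw [deg_oc]; exact Multiset.countP_le_card _ _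

lemma sum_deg_oc (Ms : Multiset (V → V)) (S : Finset V) :
    ∑ u ∈ S, deg (oc Ms) u = (Ms.map fun σ => (S ∩ supp σ).card).sum := by
  induction Ms using Multiset.induction_on with
  | empty => simp [deg]
  | cons σ Ms ih =>
    rw [Multiset.map_cons, Multiset.sum_cons, ← ih, ← Multiset.singleton_add]
    simp only [deg_oc_add, sum_add_distrib, deg_single]
    congr 1
    rw [card_eq_sum_ones, ← filter_mem_eq_inter, sum_filter]
    exact sum_congr rfl fun u _ => by by_cases h : σ u = u <;> simp [h]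

lemma gr_oc {Ms : Multiset (V → V)} (h : ∀ σ ∈ Ms, Invo σ) : Gr (oc Ms) := by
  refine ⟨fun u v => ?_, fun u => by simp [oc]⟩
  unfold oc
  apply Multiset.countP_congr rfl
  intro σ hσ
  rw [(h σ hσ).symm, ne_comm]

lemma oc_eq_cnt {Ms : Multiset (V → V)} (h : ∀ σ ∈ Ms, IsPM σ) (u v : V) :
    oc Ms u v = cnt Ms u v := by
  unfold oc cnt
  apply Multiset.countP_congr rfl
  intro σ hσ
  exact propext ⟨fun a => a.1, fun a => ⟨a, fun e => (h σ hσ u).2 (a.trans e.symm)⟩⟩

lemma Gr.sub {m m' : V → V → ℕ} (h : Gr m) (h' : Gr m') : Gr (fun u v => m u v - m' u v) :=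
  ⟨fun u v => by simp only [h.1 u v, h'.1 u v], fun u => by simp [h.2]⟩

lemma Gr.add {m m' : V → V → ℕ} (h : Gr m) (h' : Gr m') : Gr (fun u v => m u v + m' u v) :=
  ⟨fun u v => by simp only [h.1 u v, h'.1 u v], fun u => by simp [h.2, h'.2]⟩

lemma deg_sub {m m' : V → V → ℕ} (hle : ∀ u v, m' u v ≤ m u v) (u : V) :
    deg (fun u v => m u v - m' u v) u + deg m' u = deg m u := by
  rw [← deg_add]; exact deg_congr (fun u v => Nat.sub_add_cancel (hle u v)) u

lemma Invo.un {σ τ : V → V} (h : Invo σ) (h' : Invo τ) (hd : ∀ v, σ v = v ∨ τ v = v) :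
    Invo (un σ τ) := by
  intro v
  unfold MP_303500_co.un
  by_cases hv : σ v = v
  · rw [if_pos hv]
    by_cases hw : τ v = v
    · rw [hw, if_pos hv, hw]
    · rw [if_pos ((hd (τ v)).resolve_right (h'.ne hw)), h']
  · rw [if_neg hv, if_neg (h.ne hv), h]

lemma un_eq_self {σ τ : V → V} {v : V} : un σ τ v = v ↔ σ v = v ∧ τ v = v := by
  unfold un; split_ifs with h <;> simp [h]

lemma supp_un (σ τ : V → V) : supp (un σ τ) = supp σ ∪ supp τ := by
  ext v; simp only [mem_supp, mem_union, ne_eq, un_eq_self]; tauto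

lemma oc_un {σ τ : V → V} (hd : ∀ v, σ v = v ∨ τ v = v) (u v : V) :
    oc {un σ τ} u v = oc {σ} u v + oc {τ} u v := by
  simp only [oc_single, un]
  rcases hd u with h | h
  · simp only [h, if_true]; split_ifs <;> simp_all
  · by_cases h' : σ u = u
    · simp only [h', if_true]; split_ifs <;> simp_all
    · simp only [h', h, if_false]; split_ifs <;> simp_all

/-- The single edge `ab`. -/
def sw (a b : V) : V → V := fun v => if v = a then b else if v = b then a else v

lemma invo_sw (a b : V) : Invo (sw a b) := by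
  intro v; unfold sw; split_ifs <;> simp_all

lemma supp_sw {a b : V} (h : a ≠ b) : supp (sw a b) = {a, b} := by
  ext v; simp only [mem_supp, sw, mem_insert, mem_singleton]; split_ifs <;> simp_all [eq_comm]

lemma oc_sw {a b : V} (h : a ≠ b) (u v : V) :
    oc {sw a b} u v = if (u = a ∧ v = b) ∨ (u = b ∧ v = a) then 1 else 0 := by
  rw [oc_single]
  apply if_congr _ rfl rfl
  unfold sw; split_ifs <;> grind

lemma oc_sw_le {m : V → V → ℕ} (hm : Gr m) {a b : V} (h : 0 < m a b) (u v : V) :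
    oc {sw a b} u v ≤ m u v := by
  have hab : a ≠ b := fun e => by rw [e, hm.2] at h; omega
  rw [oc_sw hab]; split_ifs with h'
  · rcases h' with ⟨rfl, rfl⟩ | ⟨rfl, rfl⟩
    · exact h
    · rw [hm.1]; exact h
  · omega

lemma sum_deg_single (σ : V → V) (S : Finset V) :
    ∑ u ∈ S, deg (oc {σ}) u = (S ∩ supp σ).card := by rw [sum_deg_oc]; simp

/-- A multigraph is the sum of its edges. -/
lemma edges (k : ℕ) : ∀ m : V → V → ℕ, Gr m → ∑ u, deg m u = k →
    ∃ Es : Multiset (V → V), 2 * Es.card = k ∧ (∀ σ ∈ Es, ∃ a b, 0 < m a b ∧ σ = sw a b) ∧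
      ∀ u v, m u v = oc Es u v := by
  induction k using Nat.strong_induction_on with
  | _ k ih =>
  intro m hm hk
  by_cases h : ∃ a b, 0 < m a b
  · obtain ⟨a, b, h⟩ := h
    have hab : a ≠ b := fun e => by rw [e, hm.2] at h; omega
    have hle := oc_sw_le hm h
    have h1 : ∑ u, deg (fun u v => m u v - oc {sw a b} u v) u + 2 = k := by
      rw [← hk, ← card_pair hab, ← supp_sw hab, ← univ_inter (supp _), ← sum_deg_single,
        ← sum_add_distrib]
      exact sum_congr rfl fun u _ => deg_sub hle u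
    obtain ⟨Es, p1, p2, p3⟩ := ih _ (by omega) _ (hm.sub (gr_oc (Ms := {sw a b}) (by simpa using invo_sw a b))) rfl
    refine ⟨sw a b ::ₘ Es, by simp; omega, ?_, fun u v => ?_⟩
    · intro σ hσ
      rcases Multiset.mem_cons.1 hσ with rfl | hσ
      · exact ⟨a, b, h, rfl⟩
      · obtain ⟨c, d, h1, h2⟩ := p2 σ hσ
        exact ⟨c, d, by omega, h2⟩
    · rw [oc_cons, ← p3]; have := hle u v; omega
  · push Not at h
    refine ⟨0, ?_, by simp, fun u v => by simpa using h u v⟩
    rw [← hk]; simp only [deg]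
    exact (sum_eq_zero fun u _ => sum_eq_zero fun v _ => by simpa using h u v).symm

lemma sum_map_le_of_le {α : Type} (f : α → ℕ) {A B : Multiset α} (h : A ≤ B) :
    (A.map f).sum ≤ (B.map f).sum := by
  obtain ⟨C, rfl⟩ := Multiset.le_iff_exists_add.1 h
  simp

lemma exists_le_card {α : Type} (Ms : Multiset α) {k : ℕ} (h : k ≤ Ms.card) :
    ∃ A B : Multiset α, Ms = A + B ∧ A.card = k := by
  induction Ms using Quotient.inductionOn with
  | _ l =>
  refine ⟨(l.take k : List α), (l.drop k : List α), by simp, ?_⟩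
  simpa using h

/-- Koenig's edge colouring theorem. -/
lemma koenig' (s : V → Bool) (D : ℕ) {m : V → V → ℕ} (hm : Gr m)
    (hb : ∀ u v, s u = s v → m u v = 0) (hD : ∀ u, deg m u ≤ D) :
    ∃ Ms : Multiset (V → V), Ms.card = D ∧ (∀ σ ∈ Ms, Invo σ) ∧ ∀ u v, m u v = oc Ms u v := by
  rcases isEmpty_or_nonempty V with hV | ⟨⟨v0⟩⟩
  · exact ⟨Multiset.replicate D id, by simp, fun σ _ v => isEmptyElim v, fun u => isEmptyElim u⟩
  let W : V × Bool → V × Bool → ℕ := fun x y =>
    if x.2 = y.2 then m x.1 y.1 else if x.1 = y.1 then D - deg m x.1 else 0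
  have hdeg : ∀ x, ∑ y, W x y = D := by
    rintro ⟨u, b⟩
    rw [Fintype.sum_prod_type_right]
    have := hD u
    cases b <;> simp [W, ← deg.eq_1] <;> omega
  let A : Finset (V × Bool) := univ.filter (fun x => s x.1 = x.2)
  have hA : A.card = Aᶜ.card := by
    refine card_bij (fun x _ => (x.1, !x.2)) ?_ ?_ ?_
    · rintro ⟨u, b⟩ h; simp [A] at h ⊢; simp [h]
    · rintro ⟨u, b⟩ _ ⟨v, c⟩ _ h; simpa using h
    · rintro ⟨u, b⟩ h; refine ⟨(u, !b), ?_, by simp⟩
      simp [A] at h ⊢; cases b <;> simp_all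
  obtain ⟨Ns, h1, h2⟩ := koenig A hA D W (by
      rintro ⟨u, b⟩ ⟨v, c⟩
      simp only [W, hm.1 u v, eq_comm (a := b), eq_comm (a := u)]
      split_ifs with p q
      · rfl
      · rw [q]
      · rfl) (by
      rintro ⟨u, b⟩ ⟨v, c⟩ h
      simp only [A, mem_filter, mem_univ, true_and] at h
      simp only [W]
      split_ifs with p q
      · subst p; exact hb u v (by revert h; cases s u <;> cases s v <;> cases b <;> simp)
      · subst q; exact absurd (by revert h; cases s u <;> cases b <;> cases c <;> simp) p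
      · rfl) hdeg
  let f : (V × Bool → V × Bool) → V → V := fun σ v =>
    if (σ (v, true)).2 = true then (σ (v, true)).1 else v
  refine ⟨Ns.map f, ?_, ?_, fun u v => ?_⟩
  · rw [Multiset.card_map, ← sum_cnt Ns (v0, true), ← hdeg (v0, true)]
    exact sum_congr rfl fun y _ => (h2 _ _).symm
  · intro τ hτ v
    obtain ⟨σ, hσ, rfl⟩ := Multiset.mem_map.1 hτ
    by_cases h : (σ (v, true)).2 = true
    · have : σ ((σ (v, true)).1, true) = (v, true) := by
        have e : ((σ (v, true)).1, true) = σ (v, true) := Prod.ext rfl h.symm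
        rw [e]; exact (h1 σ hσ _).1
      simp [f, h, this]
    · simp [f, h]
  · have := h2 (u, true) (v, true)
    simp only [W, if_true] at this
    rw [this, oc, cnt, Multiset.countP_map, Multiset.countP_eq_card_filter]
    congr 1
    apply Multiset.filter_congr
    intro σ hσ
    have h3 := (h1 σ hσ (u, true)).2
    simp only [f]
    constructor
    · intro h; rw [h] at h3 ⊢; simpa [eq_comm] using h3
    · rintro ⟨h4, h5⟩
      split_ifs at h4 with h6
      · exact Prod.ext h4 h6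
      · exact absurd h4 h5

lemma best_sub {α : Type} (f : α → ℕ) (D : ℕ) : ∀ (k : ℕ) (Ms : Multiset α), Ms.card = D + k →
    ∃ A ≤ Ms, A.card = D ∧ D * (Ms.map f).sum ≤ (D + k) * (A.map f).sum := by
  intro k
  induction k with
  | zero => intro Ms h; exact ⟨Ms, le_rfl, h, le_rfl⟩
  | succ k ih =>
    intro Ms h
    obtain ⟨x, hx, hm⟩ : ∃ x ∈ Ms, ∀ y ∈ Ms, f x ≤ f y := by
      classical
      obtain ⟨x, hx, hm⟩ := exists_min_image Ms.toFinset f (by
        rw [Multiset.toFinset_nonempty, ← Multiset.card_pos]; omega)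
      exact ⟨x, by simpa using hx, fun y hy => hm y (by simpa using hy)⟩
    obtain ⟨Ns, rfl⟩ := Multiset.exists_cons_of_mem hx
    have hc : Ns.card = D + k := by simp at h; omega
    obtain ⟨A, a1, a2, a3⟩ := ih Ns hc
    refine ⟨A, a1.trans (Multiset.le_cons_self _ _), a2, ?_⟩
    have h1 : D * f x ≤ (A.map f).sum := by
      have := Multiset.card_nsmul_le_sum (s := A.map f) (a := f x) (by
        intro y hy
        obtain ⟨z, hz, rfl⟩ := Multiset.mem_map.1 hy
        exact hm z (Multiset.mem_cons_of_mem (Multiset.mem_of_le a1 hz)))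
      simpa [a2] using this
    rw [Multiset.map_cons, Multiset.sum_cons]
    nlinarith

/-- A subgraph with a prescribed number of edges and small maximum degree. -/
lemma select (s : V → Bool) {m : V → V → ℕ} (hm : Gr m) (hb : ∀ u v, s u = s v → m u v = 0)
    {Q D j : ℕ} (hQ : ∀ u, deg m u ≤ Q) (h1 : 2 * j ≤ ∑ u, deg m u)
    (h2 : 2 * j * Q ≤ D * ∑ u, deg m u) :
    ∃ Y : V → V → ℕ, Gr Y ∧ (∀ u v, Y u v ≤ m u v) ∧ (∀ u, deg Y u ≤ D) ∧ ∑ u, deg Y u = 2 * j := by
  have key : ∀ m' : V → V → ℕ, Gr m' → (∀ u v, m' u v ≤ m u v) → (∀ u, deg m' u ≤ D) →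
      2 * j ≤ ∑ u, deg m' u → ∃ Y : V → V → ℕ, Gr Y ∧ (∀ u v, Y u v ≤ m u v) ∧
        (∀ u, deg Y u ≤ D) ∧ ∑ u, deg Y u = 2 * j := by
    intro m' g1 g2 g3 g4
    obtain ⟨Es, p1, p2, p3⟩ := edges _ m' g1 rfl
    obtain ⟨A, B, rfl, hA⟩ := exists_le_card Es (k := j) (by omega)
    have hle : ∀ u v, oc A u v ≤ m' u v := fun u v => by rw [p3, oc_add]; omega
    refine ⟨oc A, gr_oc fun σ hσ => ?_, fun u v => (hle u v).trans (g2 u v),
      fun u => (deg_mono hle u).trans (g3 u), ?_⟩
    · obtain ⟨a, b, -, rfl⟩ := p2 σ (Multiset.mem_add.2 (Or.inl hσ)); exact invo_sw a b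
    · rw [sum_deg_oc, Multiset.map_congr rfl (g := fun _ => 2)]
      · simp [hA, mul_comm]
      · intro σ hσ
        obtain ⟨a, b, h, rfl⟩ := p2 σ (Multiset.mem_add.2 (Or.inl hσ))
        have hab : a ≠ b := fun e => by rw [e, g1.2] at h; omega
        rw [univ_inter, supp_sw hab, card_pair hab]
  rcases le_total Q D with h | h
  · exact key m hm (fun _ _ => le_rfl) (fun u => (hQ u).trans h) h1
  obtain ⟨k, rfl⟩ := Nat.exists_eq_add_of_le h
  obtain ⟨Ms, p1, p2, p3⟩ := koenig' s _ hm hb hQ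
  obtain ⟨A, a1, a2, a3⟩ := best_sub (fun σ => (univ ∩ supp σ).card) D k Ms p1
  rw [← sum_deg_oc, ← sum_deg_oc] at a3
  have e : ∑ u, deg m u = ∑ u, deg (oc Ms) u := sum_congr rfl fun u _ => deg_congr p3 u
  rcases Nat.eq_zero_or_pos (D + k) with h0 | h0
  · refine key m hm (fun _ _ => le_rfl) (fun u => (hQ u).trans (by omega)) h1
  refine key (oc A) (gr_oc fun σ hσ => p2 σ (Multiset.mem_of_le a1 hσ))
    (fun u v => p3 u v ▸ oc_mono a1 u v) (fun u => a2 ▸ deg_oc_le A u) ?_
  rw [← e] at a3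
  exact Nat.le_of_mul_le_mul_left ((mul_comm _ _).le.trans (h2.trans a3)) h0

/-- Greedy placement of small matchings into colour classes. -/
lemma greedy (Pr : (V → V) → Prop) (c f tot : ℕ) (It : Multiset (V → V)) :
    ∀ (Ms : Multiset (V → V)), (∀ σ ∈ Ms, Invo σ ∧ Pr σ ∧ (supp σ).card ≤ c + 4) →
    (∀ ι ∈ It, Invo ι ∧ (supp ι).card ≤ 4 ∧
      (∀ σ, Invo σ → Pr σ → (∀ v, σ v = v ∨ ι v = v) → Pr (un σ ι)) ∧
      ∑ v ∈ supp ι, (deg (oc Ms) v + deg (oc It) v) + f < Ms.card) →
    ∑ v, deg (oc Ms) v + ∑ v, deg (oc It) v ≤ tot → (Fintype.card V ≤ c ∨ tot ≤ f * c) →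
    ∃ Ns : Multiset (V → V), Ns.card = Ms.card ∧
      (∀ σ ∈ Ns, Invo σ ∧ Pr σ ∧ (supp σ).card ≤ c + 4) ∧
      ∀ u v, oc Ns u v = oc Ms u v + oc It u v := by
  induction It using Multiset.induction_on with
  | empty => intro Ms h _ _ _; exact ⟨Ms, rfl, h, by simp⟩
  | cons ι It ih =>
    intro Ms h1 h2 h3 h4
    obtain ⟨i1, i2, i3, i4⟩ := h2 ι (Multiset.mem_cons_self _ _)
    obtain ⟨σ, hσ, s1, s2⟩ : ∃ σ ∈ Ms, (∀ v ∈ supp ι, σ v = v) ∧ (supp σ).card ≤ c := by
      by_contra hc
      have a1 : ∀ S : Finset V, Ms.countP (fun σ => ∃ v ∈ S, σ v ≠ v) ≤ ∑ v ∈ S, deg (oc Ms) v := by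
        intro S
        rw [sum_deg_oc, Multiset.countP_eq_card_filter]
        calc _ ≤ ((Ms.filter (fun σ => ∃ v ∈ S, σ v ≠ v)).map fun σ => (S ∩ supp σ).card).sum := by
              have := Multiset.card_nsmul_le_sum (a := 1)
                (s := (Ms.filter (fun σ => ∃ v ∈ S, σ v ≠ v)).map fun σ => (S ∩ supp σ).card) (by
                intro y hy
                obtain ⟨σ, hσ, rfl⟩ := Multiset.mem_map.1 hy
                obtain ⟨v, hv, h⟩ := (Multiset.mem_filter.1 hσ).2
                exact card_pos.2 ⟨v, by simp [hv, h]⟩)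
              simpa using this
          _ ≤ _ := sum_map_le_of_le _ (Multiset.filter_le _ _)
      have a2 : Ms.countP (fun σ => c < (supp σ).card) ≤ f := by
        rcases h4 with h4 | h4
        · rw [Multiset.countP_eq_zero.2 fun σ _ => by have := card_le_univ (supp σ); omega]; omega
        · have := Multiset.card_nsmul_le_sum (a := c + 1)
            (s := (Ms.filter (fun σ => c < (supp σ).card)).map fun σ => (univ ∩ supp σ).card) (by
              intro y hy
              obtain ⟨σ, hσ, rfl⟩ := Multiset.mem_map.1 hy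
              simpa using (Multiset.mem_filter.1 hσ).2)
          have b2 := sum_map_le_of_le (fun σ => (univ ∩ supp σ).card)
            (Multiset.filter_le (fun σ => c < (supp σ).card) Ms)
          rw [← sum_deg_oc Ms] at b2
          rw [Multiset.card_map, ← Multiset.countP_eq_card_filter, smul_eq_mul] at this
          by_contra hlt
          have b3 : (f + 1) * (c + 1) ≤ Ms.countP (fun σ => c < (supp σ).card) * (c + 1) :=
            Nat.mul_le_mul_right _ (by omega)
          have b4 : (f + 1) * (c + 1) = f * c + f + c + 1 := by ring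
          omega
      have a3 : Ms.card ≤ Ms.countP (fun σ => ∃ v ∈ supp ι, σ v ≠ v)
          + Ms.countP (fun σ => c < (supp σ).card) := by
        have : ∀ Ns : Multiset (V → V), (∀ σ ∈ Ns, (∃ v ∈ supp ι, σ v ≠ v) ∨ c < (supp σ).card) →
            Ns.card ≤ Ns.countP (fun σ => ∃ v ∈ supp ι, σ v ≠ v)
              + Ns.countP (fun σ => c < (supp σ).card) := by
          intro Ns
          induction Ns using Multiset.induction_on with
          | empty => simp
          | cons τ Ns ih' =>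
            intro h
            have := ih' fun σ hσ => h σ (Multiset.mem_cons_of_mem hσ)
            have := h τ (Multiset.mem_cons_self _ _)
            rw [Multiset.card_cons, Multiset.countP_cons, Multiset.countP_cons]
            rcases this with h' | h' <;> simp only [h', if_true] <;> omega
        refine this Ms fun σ hσ => ?_
        by_contra hn
        push Not at hn
        exact hc ⟨σ, hσ, hn.1, hn.2⟩
      have := a1 (supp ι)
      rw [sum_add_distrib] at i4
      omega
    obtain ⟨Ms', rfl⟩ := Multiset.exists_cons_of_mem hσ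
    have hd : ∀ v, σ v = v ∨ ι v = v := fun v => by
      by_cases h : ι v = v
      · exact Or.inr h
      · exact Or.inl (s1 v (by simpa using h))
    obtain ⟨j1, j2, -⟩ := h1 σ hσ
    have e : ∀ u v, oc (un σ ι ::ₘ Ms') u v + oc It u v
        = oc (σ ::ₘ Ms') u v + oc (ι ::ₘ It) u v := by
      intro u v; simp only [oc_cons, oc_un hd]; omega
    have e' : ∀ v, deg (oc (un σ ι ::ₘ Ms')) v + deg (oc It) v
        = deg (oc (σ ::ₘ Ms')) v + deg (oc (ι ::ₘ It)) v := by
      intro v; rw [← deg_add, ← deg_add]; exact deg_congr e v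
    obtain ⟨Ns, n1, n2, n3⟩ := ih (un σ ι ::ₘ Ms') (by
        intro τ hτ
        rcases Multiset.mem_cons.1 hτ with rfl | hτ
        · refine ⟨j1.un i1 hd, i3 σ j1 j2 hd, ?_⟩
          rw [supp_un]; have := card_union_le (supp σ) (supp ι); omega
        · exact h1 τ (Multiset.mem_cons_of_mem hτ)) (by
        intro κ hκ
        obtain ⟨k1, k2, k3, k4⟩ := h2 κ (Multiset.mem_cons_of_mem hκ)
        refine ⟨k1, k2, k3, ?_⟩
        simp only [e']; simpa using k4)
      (by rw [← sum_add_distrib] at h3 ⊢; simpa only [e'] using h3) h4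
    exact ⟨Ns, by simpa using n1, n2, fun u v => by rw [n3, e]⟩

/-- The edges of `σ` with both ends in `Z`. -/
def res (σ : V → V) (Z : Finset V) : V → V := fun v => if v ∈ Z ∧ σ v ∈ Z then σ v else v

/-- The other edges of `σ`. -/
def ser (σ : V → V) (Z : Finset V) : V → V := fun v => if v ∈ Z ∧ σ v ∈ Z then v else σ v

lemma Invo.res {σ : V → V} (h : Invo σ) (Z : Finset V) : Invo (res σ Z) := by
  intro v
  unfold MP_303500_co.res
  by_cases hv : v ∈ Z ∧ σ v ∈ Z
  · rw [if_pos hv, h v, if_pos hv.symm]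
  · rw [if_neg hv, if_neg hv]

lemma Invo.ser {σ : V → V} (h : Invo σ) (Z : Finset V) : Invo (ser σ Z) := by
  intro v
  unfold MP_303500_co.ser
  by_cases hv : v ∈ Z ∧ σ v ∈ Z
  · rw [if_pos hv, if_pos hv]
  · rw [if_neg hv, h v, if_neg (fun e => hv e.symm)]

lemma oc_res (σ : V → V) (Z : Finset V) (u v : V) :
    oc {σ} u v = oc {res σ Z} u v + oc {ser σ Z} u v := by
  simp only [oc_single, res, ser]
  by_cases hv : u ∈ Z ∧ σ u ∈ Z
  · simp only [hv, and_self, if_true]; split_ifs <;> simp_all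
  · simp only [hv, if_false]; split_ifs <;> simp_all

lemma mem_supp_res {σ : V → V} {Z : Finset V} {v : V} :
    res σ Z v ≠ v ↔ v ∈ Z ∧ σ v ∈ Z ∧ σ v ≠ v := by
  unfold res; split_ifs with h <;> tauto

lemma mem_supp_ser {σ : V → V} {Z : Finset V} {v : V} :
    ser σ Z v ≠ v ↔ ¬ (v ∈ Z ∧ σ v ∈ Z) ∧ σ v ≠ v := by
  unfold ser; split_ifs with h <;> tauto

lemma res_eq {σ : V → V} {Z : Finset V} {v : V} (h : res σ Z v ≠ v) : res σ Z v = σ v := by
  unfold res at h ⊢; split_ifs with h' <;> simp_all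

lemma ser_eq {σ : V → V} {Z : Finset V} {v : V} (h : ser σ Z v ≠ v) : ser σ Z v = σ v := by
  unfold ser at h ⊢; split_ifs with h' <;> simp_all

/-- Weighted degree sum. -/
def wsum (w : V → ℤ) (m : V → V → ℕ) : ℤ := ∑ v, w v * (deg m v : ℤ)

lemma wsum_congr (w : V → ℤ) {m m' : V → V → ℕ} (h : ∀ u v, m u v = m' u v) :
    wsum w m = wsum w m' := by
  have : m = m' := by funext u v; exact h u v
  rw [this]

lemma wsum_add (w : V → ℤ) (m m' : V → V → ℕ) :
    wsum w (fun u v => m u v + m' u v) = wsum w m + wsum w m' := by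
  simp only [wsum, deg_add, Nat.cast_add, mul_add, sum_add_distrib]

lemma wsum_zero {w : V → ℤ} {m : V → V → ℕ} (hm : ∀ u v, m u v = m v u)
    (h : ∀ u v, 0 < m u v → w u + w v = 0) : wsum w m = 0 := by
  have e1 : wsum w m = ∑ u, ∑ v, w u * (m u v : ℤ) := by
    simp only [wsum, deg, Nat.cast_sum, mul_sum]
  have e2 : wsum w m = ∑ u, ∑ v, w v * (m u v : ℤ) := by
    rw [e1, sum_comm]; exact sum_congr rfl fun u _ => sum_congr rfl fun v _ => by rw [hm]
  have e3 : wsum w m + wsum w m = 0 := by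
    nth_rewrite 1 [e1]
    rw [e2, ← sum_add_distrib]
    refine sum_eq_zero fun u _ => ?_
    rw [← sum_add_distrib]
    refine sum_eq_zero fun v _ => ?_
    rcases Nat.eq_zero_or_pos (m u v) with h0 | h0
    · simp [h0]
    · rw [← add_mul, h u v h0, zero_mul]
  omega

lemma wsum_single (w : V → ℤ) (σ : V → V) : wsum w (oc {σ}) = ∑ v ∈ supp σ, w v := by
  simp only [wsum, deg_single, supp, sum_filter]
  exact sum_congr rfl fun v _ => by by_cases h : σ v = v <;> simp [h]

lemma wsum_oc (w : V → ℤ) (Ms : Multiset (V → V)) :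
    wsum w (oc Ms) = (Ms.map fun σ => ∑ v ∈ supp σ, w v).sum := by
  induction Ms using Multiset.induction_on with
  | empty => simp [wsum, deg]
  | cons σ Ms ih =>
    rw [wsum_congr w (oc_cons σ Ms), wsum_add, ih, wsum_single, Multiset.map_cons,
      Multiset.sum_cons, add_comm]

lemma wsum_reg (w : V → ℤ) {m : V → V → ℕ} {d : ℕ} (h : ∀ v, deg m v = d) :
    wsum w m = d * ∑ v, w v := by
  simp only [wsum, h]; rw [← sum_mul, mul_comm]

lemma sum_invo {G : Type} [AddCommGroup G] {σ : V → V} (h : Invo σ) {S : Finset V}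
    (hS : ∀ v ∈ S, σ v ∈ S ∧ σ v ≠ v) (w : V → G) (hw : ∀ v ∈ S, w v + w (σ v) = 0) :
    ∑ v ∈ S, w v = 0 :=
  sum_involution (fun v _ => σ v) hw (fun v hv _ => (hS v hv).2) (fun v hv => (hS v hv).1)
    (fun v _ => h v)

lemma even_sum_invo {σ : V → V} (h : Invo σ) {S : Finset V}
    (hS : ∀ v ∈ S, σ v ∈ S ∧ σ v ≠ v) (w : V → ℤ) (hw : ∀ v ∈ S, Even (w v + w (σ v))) :
    Even (∑ v ∈ S, w v) := by
  have := sum_invo h hS (fun v => ((w v : ℤ) : ZMod 2)) (fun v hv => by
    rw [← Int.cast_add, ZMod.intCast_eq_zero_iff_even]; exact hw v hv)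
  rwa [← Int.cast_sum, ZMod.intCast_eq_zero_iff_even] at this

lemma even_card_invo {σ : V → V} (h : Invo σ) {S : Finset V}
    (hS : ∀ v ∈ S, σ v ∈ S ∧ σ v ≠ v) : Even S.card := by
  have := even_sum_invo h hS (fun _ => 1) (fun _ _ => by norm_num)
  simpa using this

lemma Invo.even_supp {σ : V → V} (h : Invo σ) : Even (supp σ).card :=
  even_card_invo h fun v hv => by simpa using ⟨h.ne (by simpa using hv), by simpa using hv⟩

/-- A regular bipartite multigraph is a sum of perfect matchings. -/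
lemma fac_bip (s : V → Bool) {D : ℕ} {m : V → V → ℕ} (hm : Gr m)
    (hb : ∀ u v, s u = s v → m u v = 0) (hD : ∀ u, deg m u = D) : Fac m := by
  obtain ⟨Ms, h1, h2, h3⟩ := koenig' s D hm hb fun u => (hD u).le
  have : ∀ σ ∈ Ms, IsPM σ := by
    intro σ hσ v
    refine ⟨h2 σ hσ v, ?_⟩
    have e : Ms.countP (fun σ => σ v ≠ v) = Ms.card := by
      rw [← deg_oc, ← deg_congr h3, hD, h1]
    exact Multiset.countP_eq_card.1 e σ hσ
  exact ⟨Ms, this, fun u v => by rw [h3, oc_eq_cnt this]⟩

end Pool.Agent.P.MP_303500_co
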