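import Pool.Agent.P.MP_303500_co.Generic

/-! The nearly tight cut case and the induction on the order. -/

set_option linter.unusedSectionVars false

namespace Pool.Agent.P.MP_303500_co
open Finset

variable {V : Type} [Fintype V] [DecidableEq V]

lemma three_pm {S : Finset V} {m : V → V → ℕ} {L U : ℕ} (hc : S.card = Sᶜ.card) (ho : Odd S.card)
    (h3 : 3 ≤ S.card) (hs : ∀ u v, m u v = m v u)
    (h1 : ∀ u v, u ≠ v → (u ∈ S ↔ v ∈ S) → 0 < m u v)
    (h2 : ∀ p ∈ S, L ≤ ∑ q ∈ Sᶜ, m p q) (h4 : ∀ q ∈ Sᶜ, ∑ p ∈ S, m p q ≤ U)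
    (hL : 2 * U < 3 * L) :
    ∃ σ, IsPM σ ∧ (∀ v, 0 < m v (σ v)) ∧ cut (cnt {σ}) S = 3 := by
  obtain ⟨P, hP, cP⟩ := exists_subset_card_eq h3
  obtain ⟨σ0, hσ0⟩ : MOn (fun u v => (u ∈ S ↔ v ∉ S) ∧ (u ∈ P → 0 < m u v)) (S ∪ Sᶜ) := by
    refine mOn_hall (r' := fun p q => p ∈ P → 0 < m p q) disjoint_compl_right hc ?_ ?_
    · intro X hX
      by_cases hXP : X ⊆ P
      · set N := Sᶜ.filter (fun q => ∃ p ∈ X, p ∈ P → 0 < m p q) with hN
        have a1 : X.card * L ≤ ∑ p ∈ X, ∑ q ∈ N, m p q := by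
          rw [← smul_eq_mul, ← sum_const]
          refine sum_le_sum fun p hp => (h2 p (hX hp)).trans (sum_le_sum_of_ne_zero ?_)
          intro q hq hne
          exact mem_filter.2 ⟨hq, p, hp, fun _ => Nat.pos_of_ne_zero hne⟩
        have a2 : ∑ p ∈ X, ∑ q ∈ N, m p q ≤ N.card * U := by
          rw [sum_comm]
          exact sum_le_card_nsmul _ _ _ fun q hq =>
            (sum_le_sum_of_subset hX).trans (h4 q (mem_filter.1 hq).1)
        have a3 := card_le_card hXP
        by_contra hlt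
        have a4 : N.card ≤ 2 := by omega
        have a5 : (N.card + 1) * L ≤ X.card * L := Nat.mul_le_mul_right _ (by omega)
        have a6 : (N.card + 1) * L ≤ N.card * U := by omega
        interval_cases N.card <;> omega
      · obtain ⟨p, hp, hpP⟩ := not_subset.1 hXP
        rw [filter_true_of_mem fun q _ => ⟨p, hp, fun h => absurd h hpP⟩, ← hc]
        exact card_le_card hX
    · intro p hp q hq h
      have := mem_compl.1 hq
      exact ⟨⟨by tauto, h⟩, by tauto, fun h => absurd (hP h) this⟩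
  have hσ : ∀ v, σ0 (σ0 v) = v ∧ σ0 v ≠ v ∧ (v ∈ S ↔ σ0 v ∉ S) ∧ (v ∈ P → 0 < m v (σ0 v)) :=
    fun v => (hσ0 v (by simp)).2
  let Q := P.image σ0
  have hQ : Q ⊆ Sᶜ := fun q hq => by
    obtain ⟨p, hp, rfl⟩ := mem_image.1 hq
    exact mem_compl.2 ((hσ p).2.2.1.1 (hP hp))
  have cQ : Q.card = 3 := by
    rw [card_image_of_injective _ (Function.LeftInverse.injective fun v => (hσ v).1), cP]
  let r : V → V → Prop := fun v w => 0 < m v w ∧ (v ∈ S → (w ∉ S ↔ v ∈ P))
  have M1 : MOn r (P ∪ Q) := by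
    refine ⟨σ0, fun v hv => ?_⟩
    rcases mem_union.1 hv with hv | hv
    · exact ⟨mem_union_right _ (mem_image_of_mem _ hv), (hσ v).1, (hσ v).2.1, (hσ v).2.2.2 hv,
        fun h => ⟨fun _ => hv, fun _ => (hσ v).2.2.1.1 h⟩⟩
    · obtain ⟨p, hp, rfl⟩ := mem_image.1 hv
      refine ⟨by rw [(hσ p).1]; exact mem_union_left _ hp, (hσ _).1, (hσ _).2.1, ?_,
        fun h => absurd h ((hσ p).2.2.1.1 (hP hp))⟩
      rw [(hσ p).1, hs]; exact (hσ p).2.2.2 hp
  obtain ⟨j, hj⟩ := ho
  have M2 : MOn r (S \ P) := mOn_even ⟨j - 1, by rw [card_sdiff_of_subset hP]; omega⟩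
    fun p hp q hq hne => by
      have a := mem_sdiff.1 hp
      have b := mem_sdiff.1 hq
      exact ⟨h1 p q hne (by tauto), by tauto⟩
  have M3 : MOn r (Sᶜ \ Q) := mOn_even ⟨j - 1, by rw [card_sdiff_of_subset hQ]; omega⟩
    fun p hp q hq hne => by
      have a := mem_compl.1 (mem_sdiff.1 hp).1
      have b := mem_compl.1 (mem_sdiff.1 hq).1
      exact ⟨h1 p q hne (by tauto), by tauto⟩
  have mem : ∀ v, (v ∈ P → v ∈ S) ∧ (v ∈ Q → v ∉ S) := fun v =>
    ⟨fun h => hP h, fun h => mem_compl.1 (hQ h)⟩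
  have d1 : Disjoint (P ∪ Q) (S \ P) ∧ Disjoint (P ∪ Q ∪ S \ P) (Sᶜ \ Q) := by
    constructor
    all_goals
      refine disjoint_left.2 fun v => ?_
      have := mem v
      simp only [mem_union, mem_sdiff, mem_compl]; tauto
  obtain ⟨σ, a, b⟩ := ((M1.union M2 d1.1).union M3 d1.2).pm (by
    intro v
    have := mem v
    simp only [mem_union, mem_sdiff, mem_compl]; tauto)
  · refine ⟨σ, a, fun v => (b v).1, ?_⟩
    unfold cut
    rw [← cP, card_eq_sum_ones, ← sum_subset hP]
    · refine sum_congr rfl fun u hu => ?_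
      simp [cnt_singleton, ((b u).2 (hP hu)).2 hu]
    · intro u hu huP
      have : σ u ∈ S := by by_contra h; exact huP (((b u).2 hu).1 h)
      simp [cnt_singleton, this]

lemma three_pms {S : Finset V} {L U : ℕ} (hc : S.card = Sᶜ.card) (ho : Odd S.card)
    (h3 : 3 ≤ S.card) (hL : 2 * U < 3 * L) (j : ℕ) : ∀ m : V → V → ℕ, (∀ u v, m u v = m v u) →
    (∀ u v, u ≠ v → (u ∈ S ↔ v ∈ S) → j ≤ m u v) →
    (∀ p ∈ S, L + j ≤ ∑ q ∈ Sᶜ, m p q) → (∀ q ∈ Sᶜ, ∑ p ∈ S, m p q ≤ U) →
    ∃ Ms : Multiset (V → V), Ms.card = j ∧ (∀ σ ∈ Ms, IsPM σ) ∧ (∀ u v, cnt Ms u v ≤ m u v) ∧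
      cut (cnt Ms) S = 3 * j := by
  induction j with
  | zero => intro m _ _ _ _; exact ⟨0, by simp, by simp, by simp, by simp [cut]⟩
  | succ j ih =>
    intro m hs h1 h2 h4
    obtain ⟨σ, a, b, c⟩ := three_pm hc ho h3 hs (fun u v h h' => by have := h1 u v h h'; omega)
      (fun p hp => by have := h2 p hp; omega) h4 hL
    have hall : ∀ τ ∈ ({σ} : Multiset (V → V)), IsPM τ := by simpa using a
    have hle : ∀ u v, cnt {σ} u v ≤ m u v := by
      intro u v; rw [cnt_singleton]; split_ifs with h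
      · subst h; exact b u
      · omega
    obtain ⟨Ms, p1, p2, p3, p4⟩ := ih (fun u v => m u v - cnt {σ} u v)
      (fun u v => by rw [hs u v, cnt_symm hall u v])
      (fun u v h h' => by
        have := h1 u v h h'
        have := cnt_le_card {σ} u v
        simp only [Multiset.card_singleton] at this
        omega)
      (fun p hp => by
        rw [sum_tsub_distrib _ fun v _ => hle p v]
        have := h2 p hp
        have : ∑ q ∈ Sᶜ, cnt {σ} p q ≤ 1 := by
          have := sum_cnt {σ} p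
          rw [Multiset.card_singleton] at this
          exact this ▸ sum_le_sum_of_subset (subset_univ _)
        omega)
      (fun q hq => (sum_le_sum fun p _ => Nat.sub_le _ _).trans (h4 q hq))
    refine ⟨Ms + {σ}, by simp [p1], ?_, fun u v => ?_, ?_⟩
    · intro τ hτ; rcases Multiset.mem_add.1 hτ with h | h; exacts [p2 _ h, hall _ h]
    · have := p3 u v; have := hle u v; rw [cnt_add]; omega
    · unfold cut at p4 c ⊢
      simp only [cnt_add, sum_add_distrib, p4, c]; ring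

lemma side {n s d δ : ℕ} {m : V → V → ℕ} (h : Reg d m) (hs : ∀ u v, m u v ≤ s) (hd : s * n ≤ d)
    (hn : 2 ≤ n) {S : Finset V} (hS : S.card = n) (hc : cut m S = d + 2 * δ) :
    (∀ u ∈ S, ∀ v ∈ S, u ≠ v → s ≤ m u v + 2 * δ) ∧
      ∀ u ∈ S, s ≤ ∑ q ∈ Sᶜ, m u q ∧ ∑ q ∈ Sᶜ, m u q ≤ s + 2 * δ := by
  obtain ⟨k, rfl⟩ : ∃ k, n = k + 2 := ⟨n - 2, by omega⟩
  have h1 := h.inner_add_cut S
  have row : ∀ u ∈ S, ∑ v ∈ S, m u v ≤ (k + 1) * s := fun u hu => by
    have := h.row_le hs hu; rwa [hS] at this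
  have inn : ∀ u ∈ S, inner m S ≤ ∑ v ∈ S, m u v + (k + 1) * ((k + 1) * s) := by
    intro u hu
    unfold inner
    rw [← add_sum_erase _ _ hu]
    refine Nat.add_le_add_left ((sum_le_card_nsmul _ _ _ fun v hv => row v (mem_erase.1 hv).2).trans
      ?_) _
    rw [card_erase_of_mem hu, hS]; rfl
  rw [hS, hc] at h1
  have h2 := Nat.mul_le_mul_left k hd
  refine ⟨fun u hu v hv huv => ?_, fun u hu => ?_⟩
  · have h3 : ∑ w ∈ S, m u w ≤ m u v + k * s := by
      rw [← add_sum_erase _ _ hv]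
      have := h.row_le hs (S := S.erase v) (mem_erase.2 ⟨huv, hu⟩)
      rw [card_erase_of_mem hv, hS] at this
      exact Nat.add_le_add_left this _
    have := inn u hu
    nlinarith
  · have h3 := sum_add_sum_compl S (fun v => m u v)
    rw [h.deg] at h3
    have := inn u hu
    have := row u hu
    constructor <;> nlinarith

theorem main (n : ℕ) : ∀ (V : Type) [Fintype V] [DecidableEq V], Fintype.card V = 2 * n → 0 < n →
    ∀ (s d : ℕ) (m : V → V → ℕ), Reg d m → (∀ u v, m u v ≤ s) → s * n ≤ d → 600 * n ^ 6 ≤ s →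
      Fac m := by
  induction n using Nat.strong_induction_on with
  | _ n ih =>
  intro V _ _ hN hn s d m h hs hd big
  by_cases ne : ∀ S : Finset V, S.card = n → Odd n → d + (n - 1) * (72 * n ^ 5) ≤ cut m S
  · exact generic hN hn h hs hd big ne
  push Not at ne
  obtain ⟨S, hS, ⟨k, hk⟩, hlt⟩ := ne
  have hSc : Sᶜ.card = n := by rw [card_compl]; omega
  have i1 := h.inner_add_cut S
  have i2 := h.inner_le hs S
  obtain ⟨t, ht⟩ := h.even_inner S
  rw [hS] at i1 i2
  have hn1 : n - 1 = 2 * k := by omega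
  rw [hn1] at i2 hlt
  have i3 : d ≤ cut m S := by
    have := Nat.mul_le_mul_left (2 * k) hd
    subst hk
    nlinarith
  have hk0 : 0 < k := by
    rcases Nat.eq_zero_or_pos k with rfl | h
    · omega
    · exact h
  obtain ⟨δ, hδ⟩ : ∃ δ, cut m S = d + 2 * δ := by
    have : n * d = 2 * (k * d) + d := by rw [hk]; ring
    exact ⟨k * d - t, by omega⟩
  have hδ' : 8 * δ < s := by
    have : 2 * k * (72 * n ^ 5) ≤ n * (72 * n ^ 5) := Nat.mul_le_mul_right _ (by omega)
    have : n * (72 * n ^ 5) = 72 * n ^ 6 := by ring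
    omega
  obtain ⟨a1, a2⟩ := side h hs hd (by omega) hS hδ
  obtain ⟨b1, b2⟩ := side h hs hd (by omega) hSc (by rw [h.cut_compl, hδ])
  obtain ⟨Ms, p1, p2, p3, p4⟩ := three_pms (S := S) (L := s - δ) (U := s + 2 * δ) (by omega)
    (hS ▸ ⟨k, hk⟩) (by omega) (by omega) δ m h.symm
    (fun u v huv hh => by
      by_cases hu : u ∈ S
      · have := a1 u hu v (hh.1 hu) huv; omega
      · have := b1 u (mem_compl.2 hu) v (mem_compl.2 fun h => hu (hh.2 h)) huv; omega)
    (fun p hp => by have := (a2 p hp).1; omega)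
    (fun q hq => by
      have := (b2 q hq).2
      rw [compl_compl] at this
      simpa only [h.symm q] using this)
  have hR := h.sub (reg_cnt p2) p3
  rw [p1] at hR
  have c1 := cut_sub p3 S
  have hsd : s ≤ d := le_trans (Nat.le_mul_of_pos_right _ hn) hd
  have half : ∀ T : Finset V, T.card = n → cut (fun u v => m u v - cnt Ms u v) T = d - δ →
      (∀ u ∈ T, ∑ q ∈ Tᶜ, m u q ≤ s + 2 * δ) →
      Fac (contr T (fun u v => m u v - cnt Ms u v)) := by
    intro T hT hc hx
    refine ih (k + 1) (by omega) (Option T) (by rw [Fintype.card_option, Fintype.card_coe]; omega)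
      (by omega) (s + 2 * δ) (d - δ) _ (hR.contr hc) ?_ ?_ ?_
    · rintro (_ | u) (_ | v)
      · simp [contr]
      · exact (sum_le_sum fun p _ => Nat.sub_le _ _).trans (hx v v.2)
      · exact (sum_le_sum fun p _ => Nat.sub_le _ _).trans (hx u u.2)
      · exact (Nat.sub_le _ _).trans ((hs _ _).trans (Nat.le_add_right _ _))
    · have : k * (8 * δ) ≤ k * s := Nat.mul_le_mul_left _ hδ'.le
      have : δ ≤ k * δ := Nat.le_mul_of_pos_left _ hk0
      subst hk
      apply Nat.le_sub_of_add_le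
      nlinarith
    · have : (k + 1) ^ 6 ≤ n ^ 6 := Nat.pow_le_pow_left (by omega) _
      omega
  refine fac_of_sub p2 p3 (fac_glue S hR.symm (half S hS (by omega) fun u hu => (a2 u hu).2)
    (half Sᶜ hSc (by rw [hR.cut_compl]; omega) fun u hu => (b2 u hu).2))

theorem Fac.perms {d : ℕ} {m : V → V → ℕ} (h : Fac m) (v0 : V) (hd : ∑ v, m v0 v = d) :
    ∃ f : Fin d → Equiv.Perm V, (∀ k i, f k (f k i) = i) ∧ (∀ k i, f k i ≠ i) ∧
      ∀ i j, m i j = (univ.filter (fun k => f k i = j)).card := by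
  obtain ⟨Ms, h1, h2⟩ := h
  induction Ms using Quotient.inductionOn with
  | _ l =>
  have hl : l.length = d := by
    rw [← hd]; simp only [h2, sum_cnt]; rfl
  subst hl
  have hp : ∀ k : Fin l.length, IsPM (l.get k) := fun k => h1 _ (by simp)
  refine ⟨fun k => Function.Involutive.toPerm (l.get k) fun v => (hp k v).1,
    fun k i => (hp k i).1, fun k i => (hp k i).2, fun i j => ?_⟩
  rw [h2]
  simp only [Function.Involutive.coe_toPerm, cnt, Multiset.quot_mk_to_coe, Multiset.coe_countP]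
  rw [card_filter, List.countP_eq_length_filter]
  clear h1 h2 hd hp
  induction l with
  | nil => simp
  | cons a l ih =>
    simp only [List.length_cons, Fin.sum_univ_succ, List.filter_cons]
    simp only [List.get_eq_getElem, Fin.val_zero, List.getElem_cons_zero, Fin.val_succ,
      List.getElem_cons_succ, decide_eq_true_eq] at ih ⊢
    split_ifs <;> simp [ih, add_comm]

end Pool.Agent.P.MP_303500_co
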