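import Pool.Agent.P.MP_303500_co.Dich
import Pool.Agent.P.MP_303500_co.Main

/-! The conjecture for large order, and for all but finitely many pairs. -/

set_option linter.unusedSectionVars false

namespace Pool.Agent.P.MP_303500_co
open Finset

variable {V : Type} [Fintype V] [DecidableEq V]

theorem nonext {n a b x r : ℕ} (hS : Sc n a b x) (hN : Fintype.card V = 2 * n) (hr : 0 < r)
    (hV : Viz (Fintype.card V) a) {m : V → V → ℕ} (h : Reg (r * n) m) (hmr : ∀ u v, m u v ≤ r)
    {s : V → Bool} (hs : ∑ v, pm s v = 0) (st : ∀ v β, sd s β (m v) ≤ sd s (!β) (m v) + r * a)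
    (hG : ∀ S T : Finset V, (∀ u ∈ S, ∀ v ∈ T, s v = !s u) → S.card = n / 2 - 6 * x →
      T.card = n / 2 - 6 * x → 3 * (r * x) * (n / 2 - 6 * x) < ∑ u ∈ S, ∑ v ∈ T, m u v) :
    Fac m := by
  obtain ⟨t0, -, t2, t3, t4, t5, t6⟩ := hS
  have u1 : 1000 * (r * a) ≤ r * b := by rw [mul_left_comm]; exact Nat.mul_le_mul_left _ t5
  have u2 : 1000 * (r * b) ≤ r * x := by rw [mul_left_comm]; exact Nat.mul_le_mul_left _ t6
  have u3 : a ≤ r * a := Nat.le_mul_of_pos_left _ hr
  have u4 : 1000 * (r * x) ≤ r * n := by rw [mul_left_comm]; exact Nat.mul_le_mul_left _ t4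
  let c : Cf V := ⟨s, fun _ => true, false⟩
  let O : V → V → ℕ := fun u v => if s v = s u then m u v else 0
  let W : V → V → ℕ := fun u v => if s v = !s u then m u v else 0
  have gO : Gr O := ⟨fun u v => if_congr eq_comm (h.symm u v) rfl, fun u => by simp [O, h.diag]⟩
  have gW : Gr W := ⟨fun u v => if_congr (by cases s u <;> cases s v <;> simp) (h.symm u v) rfl,
    fun u => by simp [W]⟩
  have e1 : ∀ u v, m u v = W u v + O u v := fun u v => by
    simp only [O, W]; cases s u <;> cases s v <;> simp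
  have e2 : ∀ v, deg W v + deg O v = r * n ∧ deg W v ≤ deg O v + r * a ∧
      deg O v ≤ deg W v + r * a := fun v => by
    have a1 := st v (s v)
    have a2 := st v (!s v)
    rw [Bool.not_not] at a2
    exact ⟨by rw [← deg_add, ← deg_congr e1]; exact h.deg v, a2, a1⟩
  obtain ⟨O0, a1, a2, a3⟩ := viz (D := r * n / 2 + r * a) (C := r * n / 2 + 2 * (r * a)) hV
    (by simp [hN]) hr gO (fun u v => by have := e1 u v; have := hmr u v; omega)
    (fun v => by have := e2 v; omega) (by omega)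
  obtain ⟨Os, b1, b2, b3⟩ := dense a2 (X0 := ∅) (a := 0) (e := 3 * (r * a)) (y := 12 * a) (by simp)
    (fun v _ => by rw [← deg_congr a3, a1]; have := e2 v; omega) (by
      have : r * n * a ≤ 2 * O0.card * a := Nat.mul_le_mul_right _ (by omega)
      rw [hN]; clear * - this; nlinarith)
  replace b3 : ∀ u v, oc Os u v = O u v := fun u v => by rw [b3, a3]
  have g0 : Gr (fun _ _ : V => 0) := ⟨fun _ _ => rfl, fun _ => rfl⟩
  have d0 : ∀ β, c.dl univ β = 0 := fun β => by
    cases β
    · simp [Cf.dl, Cf.sgn, c]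
    · simpa [Cf.dl, Cf.sgn, c, pm] using hs
  have hc : Os.card ≤ r * n := by omega
  have q1 : 5 * (13 * a) * Os.card ≤ 65 * (r * (a * n)) :=
    (Nat.mul_le_mul_left _ hc).trans_eq (by ring)
  have q2 : 50 * (r * (a * n)) ≤ r * (b * b) := by
    have := Nat.mul_le_mul_left r t2; clear * - this; nlinarith
  refine engine c (W := W) (Y := fun _ _ => 0) (R0 := fun _ _ => 0) (Cs := Os)
    (Ts := Multiset.replicate (2 * (r * x)) id) (X0 := ∅)
    (Df := r * n - Os.card - 2 * (r * x)) (μ := 3 * (r * x)) (q := n / 2 - 4 * x)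
    (s0 := n / 2 - 6 * x) (y := 13 * a) (lam := 3 * (r * a)) (lam' := 0) (ρ := r * b) (b := 2 * b)
    (cc := x) (f := r * x) (fun v => ?_) (fun u v => by rw [oc_replicate_id, b3, e1]; simp) gW g0 g0
    (fun u v hp => ⟨by by_contra e; simp [W, show ¬ s v = !s u from e] at hp, rfl⟩)
    (good_of c hr (fun u v => by have := e1 u v; have := hmr u v; omega) (fun v => ?_)
      fun S T p1 p2 p3 => ?_) (by simp) (fun β => by simp [d0, wsum, deg]) (by simp)
    (fun σ hσ => ?_) (fun v => ?_) (fun σ hσ => ?_) (by simp)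
    (fun v _ => by rw [deg_congr (oc_replicate_id _)]; simp [deg]) (by omega) ?_
    (by rw [Multiset.card_replicate]; omega) (by rw [card_empty]; omega) (by omega)
    (by rw [Multiset.card_replicate]; omega) ?_
  · rw [Multiset.card_replicate, show deg m v = r * n from h.deg v]; omega
  · have := e2 v
    have : r * (2 * (n / 2 - 4 * x) + 8 * x) ≤ r * n := Nat.mul_le_mul_left _ (by omega)
    have : r * (2 * (n / 2 - 4 * x) + 8 * x) = 2 * (r * (n / 2 - 4 * x)) + 8 * (r * x) := by ring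
    omega
  · exact (hG S T (fun u hu v hv => (p1 u hu v hv).1) p2 p3).trans_eq
      (sum_congr rfl fun u hu => sum_congr rfl fun v hv => (if_pos (p1 u hu v hv).1).symm)
  · obtain ⟨p1, p2⟩ := b2 σ hσ
    refine ⟨p1, Or.inl ⟨le_trans (card_le_card fun v hv => ?_) (p2.trans (by omega)),
      lt_false c rfl fun β => ?_⟩⟩
    · by_contra e
      rw [mem_compl, not_not, mem_supp] at e
      have := oc_edge hσ e
      rw [b3] at this
      exact (mem_filter.1 hv).2 ⟨e, by by_contra e'; simp [O, show ¬ s (σ v) = s v from e'] at this,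
        rfl⟩
    · cases β
      · simp [c]
      · obtain ⟨k, hk⟩ := p1.even_supp
        have := card_le_univ (supp σ)
        simp only [c, filter_true, card_compl, Nat.even_iff]; omega
  · have := miss_add_deg Os v
    have := e2 v
    rw [deg_congr b3] at *; omega
  · rw [Multiset.eq_of_mem_replicate hσ]; simp [invo_id, d0]
  · have : r * b * (2 * b) = 2 * (r * (b * b)) := by ring
    omega
  · simp only [oc_replicate_id, deg, sum_const_zero, zero_add]
    have : r * (2 * b * b) ≤ r * (x * x) := by gcongr <;> omega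
    have : r * (2 * b * b) = 2 * (r * (b * b)) := by ring
    rw [mul_assoc r]; omega

theorem large_eq {n a b x a' b' x' h i r : ℕ} (hS : Sc n a b x) (hS' : Sc n a' b' x')
    (n1 : 1000 * i * n ≤ a ^ 2) (n2 : 1000 * i ≤ a) (n3 : 1000 * h * n ≤ i ^ 2)
    (n4 : 1000 * h ≤ i) (n5 : 1000 * x' * n ≤ h ^ 2) (n6 : 1000 * x' ≤ h)
    (hN : Fintype.card V = 2 * n) (hr : 0 < r) (hV : Viz (Fintype.card V) a)
    (hB : Big (Fintype.card V) a) (hV' : Viz (Fintype.card V) a') (hB' : Big (Fintype.card V) a')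
    {m : V → V → ℕ} (hm : Reg (r * n) m) (hmr : ∀ u v, m u v ≤ r) : Fac m := by
  obtain ⟨κ, k1, k2⟩ := exists_pairing (univ : Finset V) (by simp [hN])
  have k3 : ∀ v, κ v ≠ v := fun v => mem_supp.1 (k2 ▸ mem_univ v)
  obtain ⟨s, s1, -, s3, -⟩ := split k1 (fun _ => true) (J := (V ⊕ V) ⊕ ((V × V) ⊕ V))
    (Sum.elim (Sum.elim m fun a w => if w ∈ NA m r a then 1 else 0)
      (Sum.elim (fun y w => if w ∈ NA m r y.1 then m y.2 w else 0)
        fun a w => if w ∈ SA m (r * n) (3 * (r * h)) (NA m r a) then 1 else 0))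
    (Sum.elim (Sum.elim (fun _ => r) fun _ => 1) (Sum.elim (fun _ => r) fun _ => 1))
    (by rintro ((v | v) | (v | v)) <;> simp [hr]) (by
      rintro ((v | v) | (v | v)) w <;> simp only [Sum.elim_inl, Sum.elim_inr] <;>
        first | exact hmr _ _ | (split_ifs <;> simp [hmr]))
    (by have := hB.2.1; simp; nlinarith) (by simp [k2]) (fun _ _ => 0) (by simp) hB'
  have hs : ∑ v, pm s v = 0 := sum_invo k1 (fun v _ => ⟨mem_univ _, k3 v⟩) _ fun v _ => by
    simp only [pm, s1 v (k3 v)]; cases s v <;> simp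
  by_cases hG : ∀ S T : Finset V, (∀ u ∈ S, ∀ v ∈ T, s v = !s u) → S.card = n / 2 - 6 * x' →
      T.card = n / 2 - 6 * x' → 3 * (r * x') * (n / 2 - 6 * x') < ∑ u ∈ S, ∑ v ∈ T, m u v
  · exact nonext hS' hN hr hV' hm hmr hs (fun v β => s3 (.inl (.inl v)) β) hG
  push Not at hG
  obtain ⟨S, T, p1, p2, p3, p4⟩ := hG
  have t0 := hS'.h0; have t4 := hS'.h4; have t5 := hS'.h5; have t6 := hS'.h6
  have t7 := hS.h4; have t8 := hS.h5; have t9 := hS.h6
  obtain ⟨u, hu⟩ := card_pos.1 (show 0 < S.card by omega)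
  obtain ⟨v, hv⟩ := card_pos.1 (show 0 < T.card by omega)
  have e1 : r * a' ≤ r * (7 * x') := Nat.mul_le_mul_left _ (by omega)
  obtain ⟨p, ty, q1, q2⟩ := dich (e := 7 * x') (h := h) (i := i) (β := s u) (S := S) (T := T) hN hr
    hm hmr (s := s) (fun β => by
      have := card_ty s univ
      rw [sum_pm] at hs; rw [card_univ] at this
      unfold tp; cases β <;> omega)
    (fun v β => (s3 (.inl (.inl v)) β).trans (Nat.add_le_add_left e1 _)) (fun a β => by
      have := s3 (.inl (.inr a)) β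
      simp only [Sum.elim_inl, Sum.elim_inr, sd_in, ← card_eq_sum_ones] at this; omega)
    (fun a u β => by
      have := s3 (.inr (.inl (a, u))) β
      simp only [Sum.elim_inl, Sum.elim_inr, sd_in] at this; omega) (fun a β => by
      have := s3 (.inr (.inr a)) β
      simp only [Sum.elim_inr, sd_in, ← card_eq_sum_ones] at this; omega)
    (fun w hw => by
      rw [mem_tp]; exact Bool.not_inj ((p1 w hw v hv).symm.trans (p1 u hu v hv)))
    (fun w hw => mem_tp.2 (p1 u hu w hw)) p2 p3 (by omega) (by omega) (by omega)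
    (p4.trans (Nat.mul_le_mul_right _ (by rw [mul_left_comm r]; omega)))
    (le_trans (Nat.mul_le_mul_right _ (by omega)) n5) (by omega)
    (le_trans (Nat.mul_le_mul_right _ (by omega)) n3) (by omega) (by omega) (by omega)
  exact ext_any hS (u := 6 * i) (le_trans (Nat.mul_le_mul_right _ (by omega)) n1) (by omega) hN hr
    hV hB hm hmr (by omega) p ty q1 q2

lemma chain (k : ℕ) : ∃ P n0, 0 < P ∧ ∀ n, n0 ≤ n → ∃ f : ℕ → ℕ, 1000 * f 0 ≤ n ∧
    (∀ j < k, 1000 * f (j + 1) * n ≤ f j ^ 2 ∧ 1000 * f (j + 1) ≤ f j) ∧ n ≤ P * f k := by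
  induction k with
  | zero => exact ⟨2000, 1000, by norm_num, fun n h => ⟨fun _ => n / 1000, by dsimp only; omega,
      by simp, by dsimp only; omega⟩⟩
  | succ k ih =>
    obtain ⟨P, n0, hP, h⟩ := ih
    refine ⟨2000 * P ^ 2, n0 + 1000 * P ^ 2, by positivity, fun n hn => ?_⟩
    obtain ⟨f, f1, f2, f3⟩ := h n (by omega)
    have p0 : 0 < 1000 * P ^ 2 := by positivity
    have a1 := Nat.mul_div_le n (1000 * P ^ 2)
    have a2 := Nat.lt_mul_div_succ n p0
    have a3 : 1 ≤ n / (1000 * P ^ 2) := by rw [Nat.le_div_iff_mul_le p0]; omega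
    obtain ⟨y, hy⟩ : ∃ y, y = n / (1000 * P ^ 2) := ⟨_, rfl⟩
    rw [← hy] at a1 a2 a3
    refine ⟨fun j => if j ≤ k then f j else y, by simpa using f1, fun j hj => ?_, ?_⟩
    · rcases Nat.lt_succ_iff_lt_or_eq.1 hj with e | rfl
      · simpa [e.le, Nat.succ_le_of_lt e] using f2 j e
      · simp only [le_refl, if_true, Nat.not_succ_le_self, if_false]
        refine ⟨Nat.le_of_mul_le_mul_left (c := P ^ 2) ?_ (by positivity),
          Nat.le_of_mul_le_mul_left (c := P) ?_ hP⟩
        · calc _ = 1000 * P ^ 2 * y * n := by ring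
            _ ≤ n * n := Nat.mul_le_mul_right _ a1
            _ ≤ (P * f j) * (P * f j) := Nat.mul_le_mul f3 f3
            _ = _ := by ring
        · calc _ = 1000 * P * y := by ring
            _ ≤ 1000 * P ^ 2 * y := by gcongr; nlinarith
            _ ≤ _ := a1.trans f3
    · simp only [Nat.not_succ_le_self, if_false]; nlinarith

lemma odd_cut {n r d : ℕ} (hN : Fintype.card V = 2 * n) {m : V → V → ℕ} (h : Reg d m)
    (hmr : ∀ u v, m u v ≤ r) (hd : r * n ≤ d) (T : Finset V) (hT : Odd T.card) : d ≤ cut m T := by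
  wlog hs : T.card ≤ n generalizing T
  · have a0 := card_le_univ T
    rw [← h.cut_compl]
    refine this Tᶜ ?_ (by rw [card_compl]; omega)
    rw [card_compl, Nat.odd_iff] at *; omega
  have a1 := h.inner_add_cut T
  have a2 := h.inner_le hmr T
  obtain ⟨k, hk⟩ := hT
  rw [hk] at a1 a2 hs
  rw [Nat.add_sub_cancel] at a2
  have a3 := Nat.mul_le_mul_left (2 * k) ((Nat.mul_le_mul_left r hs).trans hd)
  nlinarith

theorem large : ∃ n0, ∀ n, n0 ≤ n → ∀ (V : Type) [Fintype V] [DecidableEq V],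
    Fintype.card V = 2 * n → ∀ (r d : ℕ) (m : V → V → ℕ), 0 < r → Reg d m → (∀ u v, m u v ≤ r) →
      r * n ≤ d → Fac m := by
  obtain ⟨P, n0, hP, h⟩ := chain 7
  obtain ⟨N1, h1⟩ := big_ev (2 * P)
  obtain ⟨N2, h2⟩ := viz_ev (2 * P)
  refine ⟨n0 + N1 + N2 + 2 * P ^ 2 + 2 * P, fun n hn V _ _ hN r d m hr hm hmr hd => ?_⟩
  obtain ⟨k, rfl⟩ := Nat.exists_eq_add_of_le hd
  induction k generalizing m with
  | succ k ih =>
    obtain ⟨σ, s1, s2⟩ := exists_pm hm (by omega) (odd_cut hN hm hmr hd)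
    have s3 : ∀ τ ∈ ({σ} : Multiset (V → V)), IsPM τ := by simpa using s1
    have s4 : ∀ u v, cnt {σ} u v ≤ m u v := fun u v => by
      rw [cnt_singleton]; split_ifs with e
      · exact e ▸ s2 u
      · omega
    exact fac_of_sub s3 s4 (ih _ (fun u v => (Nat.sub_le _ _).trans (hmr u v))
      (hm.sub (reg_cnt s3) s4) (by omega))
  | zero =>
    obtain ⟨f, f0, f1, f2⟩ := h n (by omega)
    have a1 := f1 0 (by omega); have a2 := f1 1 (by omega); have a3 := f1 2 (by omega)
    have a4 := f1 3 (by omega); have a5 := f1 4 (by omega); have a6 := f1 5 (by omega)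
    have a7 := f1 6 (by omega)
    simp only [Nat.reduceAdd, zero_add] at a1 a2 a3 a4 a5 a6 a7
    have b1 : 2 ≤ f 7 := Nat.le_of_mul_le_mul_left (by omega) hP
    have b2 : 2 * n ≤ f 7 ^ 2 := by
      refine Nat.le_of_mul_le_mul_left (c := P ^ 2) ?_ (by positivity)
      calc _ = 2 * P ^ 2 * n := by ring
        _ ≤ n * n := Nat.mul_le_mul_right _ (by omega)
        _ ≤ (P * f 7) * (P * f 7) := Nat.mul_le_mul f2 f2
        _ = _ := by ring
    have b3 : f 7 ≤ f 2 := by omega
    have b4 : Fintype.card V ≤ 2 * P * f 7 := by rw [hN, mul_assoc]; omega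
    have b5 : Fintype.card V ≤ 2 * P * f 2 := b4.trans (Nat.mul_le_mul_left _ b3)
    exact large_eq (a := f 2) (b := f 1) (x := f 0) (a' := f 7) (b' := f 6) (x' := f 5) (h := f 4)
      (i := f 3) ⟨by omega, b2.trans (Nat.pow_le_pow_left b3 2),
        le_trans (Nat.mul_le_mul_right _ (by omega)) a2.1,
        le_trans (Nat.mul_le_mul_right _ (by omega)) a1.1, f0, a2.2, a1.2⟩
      ⟨b1, b2, le_trans (Nat.mul_le_mul_right _ (by omega)) a7.1,
        le_trans (Nat.mul_le_mul_right _ (by omega)) a6.1, by omega, a7.2, a6.2⟩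
      a3.1 a3.2 a4.1 a4.2 a5.1 a5.2 hN hr (h2 _ _ (by omega) b5) (h1 _ _ (by omega) b5)
      (h2 _ _ (by omega) b4) (h1 _ _ (by omega) b4) hm hmr

theorem cofinite : ∃ C, ∀ r n, 0 < r → 0 < n → C ≤ r + n →
    ∀ (V : Type) [Fintype V] [DecidableEq V], Fintype.card V = 2 * n →
    ∀ (d : ℕ) (m : V → V → ℕ), Reg d m → (∀ u v, m u v ≤ r) → r * n ≤ d → Fac m := by
  obtain ⟨n0, h⟩ := large
  refine ⟨n0 + 600 * n0 ^ 6, fun r n hr hn hC V _ _ hN d m hm hmr hd => ?_⟩
  rcases le_total n0 n with e | e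
  · exact h n e V hN r d m hr hm hmr hd
  · have := Nat.pow_le_pow_left e 6
    exact main n V hN hn r d m hm hmr hd (by omega)

end Pool.Agent.P.MP_303500_co
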