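import Pool.Agent.P.MP_303500_co.Cost

/-! Every pair of inside edges is absorbed by a small reserve of thick perfect matchings. -/

set_option linter.unusedSectionVars false

namespace Pool.Agent.P.MP_303500_co
open Finset

variable {V : Type} [Fintype V] [DecidableEq V]
variable {n k l : ℕ} {H : V → V → Prop} {A B X Y X' Y' e f U : Finset V}

lemma Tight.partner (C : Ctx n H A B) (T : Tight n H A B X Y) (he : Pr A e) :
    ∃ f, Pr B f ∧ Thick H f ∧ Cost H A B 2 (vec e + vec f) := by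
  by_cases hc : ∃ f, Pr B f ∧ Thick H f ∧ Cp n H A B e f
  · obtain ⟨f, a, b, c⟩ := hc
    exact ⟨f, a, b, (c.pos C he a).mono (by norm_num) rfl⟩
  have cA := C.cA
  have cB := C.cB
  have he2 := he.2
  have NC : ∀ b ∈ B, ∀ w ∈ B, H b w →
      ∃ X' Y', (Tight n H A B X' Y' ∧ Disjoint e X' ∧ b ∉ Y') ∧ w ∉ Y' := by
    intro b hb w hw h
    obtain ⟨p1, p2⟩ := C.pair hb hw h
    by_contra hn
    refine hc ⟨_, p1, p2, fun X' Y' T' h1 h2 => hn ⟨X', Y', ⟨T', h1, ?_⟩, ?_⟩⟩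
    · exact disjoint_left.1 h2 (show b ∈ {b, w} by simp)
    · exact disjoint_left.1 h2 (show w ∈ {b, w} by simp)
  let Mx : Finset V → Finset V → Prop := fun X1 Y1 => (Tight n H A B X1 Y1 ∧ Disjoint e X1) ∧
    ∀ X' Y', Tight n H A B X' Y' ∧ Disjoint e X' → X'.card ≤ X1.card
  have st1 : ∀ X1 Y1, Mx X1 Y1 → ∀ b ∈ Y1, ∃ X2 Y2, Mx X2 Y2 ∧ b ∉ Y2 ∧ (∀ a ∈ A \ X1, H b a) ∧
      (∀ w ∈ B, H b w ↔ (w ∉ Y2 ∧ w ≠ b)) := by
    rintro X1 Y1 ⟨⟨T1, d1⟩, m1⟩ b hb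
    obtain ⟨w, hw, h⟩ := T1.chord C hb
    obtain ⟨X2, Y2, ⟨T2, d2, hb2⟩, hm⟩ := exists_max_pair
      (fun X' Y' => Tight n H A B X' Y' ∧ Disjoint e X' ∧ b ∉ Y') (fun X _ => X.card)
      (by obtain ⟨X', Y', h, -⟩ := NC b (T1.sY hb) w hw h; exact ⟨X', Y', h⟩)
    have ch : ∀ w ∈ B, H b w → w ∉ Y2 := by
      intro w hw h hw2
      obtain ⟨X', Y', ⟨T', d', hb'⟩, hn⟩ := NC b (T1.sY hb) w hw h
      have F := ((T2.swap C).fam C.swap (T'.swap C)
        (cB ▸ card_miss1 (union_subset T2.sY T'.sY) (T1.sY hb) (by simp [hb2, hb']))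
        (by have := card_miss (union_subset T2.sX T'.sX) he.1 (disjoint_union_right.2 ⟨d2, d'⟩)
            omega)).swap C.swap
      have := hm _ _ ⟨F, disjoint_union_right.2 ⟨d2, d'⟩, by simp [hb2]⟩
      have h1 := F.card
      have h2 := T2.card
      have := eq_of_subset_of_card_le (inter_subset_left (s₁ := Y2) (s₂ := Y')) (by omega)
      exact hn (mem_inter.1 (this.symm ▸ hw2)).2
    have h1 : ∀ w, H b w → w ∈ A \ X1 ∨ w ∈ (B \ Y2).erase b := by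
      intro w hw
      rcases C.cov w with h | h
      · exact Or.inl (mem_sdiff.2 ⟨h, fun h' => T1.no w h' b hb (C.hs _ _ hw)⟩)
      · exact Or.inr (mem_erase.2 ⟨fun e => C.hi b (e ▸ hw), mem_sdiff.2 ⟨h, ch w h hw⟩⟩)
    have c1 : ((B \ Y2).erase b).card = X2.card := by
      rw [card_erase_of_mem (mem_sdiff.2 ⟨T1.sY hb, hb2⟩), card_sdiff_of_subset T2.sY]
      have := T2.card
      omega
    have c2 := card_sdiff_of_subset T1.sX
    have c3 := C.deg2 b _ _ h1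
    have c4 := m1 _ _ ⟨T2, d2⟩
    have c5 := T1.card
    obtain ⟨q1, q2⟩ := C.deg2_eq b _ _ h1 (by omega)
    refine ⟨X2, Y2, ⟨⟨T2, d2⟩, fun X' Y' h => (m1 X' Y' h).trans (by omega)⟩, hb2, q1,
      fun w hw => ⟨fun h => ⟨ch w hw h, fun e => C.hi b (e ▸ h)⟩,
        fun h => q2 w (mem_erase.2 ⟨h.2, mem_sdiff.2 ⟨hw, h.1⟩⟩)⟩⟩
  have st2 : ∀ X1 Y1, Mx X1 Y1 → ∀ b ∈ Y1, ∃ X2, Mx X2 (B \ Y1) ∧ Disjoint X1 X2 ∧
      (∀ w ∈ B, H b w ↔ (w ∈ Y1 ∧ w ≠ b)) := by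
    intro X1 Y1 M1 b hb
    obtain ⟨X2, Y2, M2, hb2, -, hw⟩ := st1 X1 Y1 M1 b hb
    obtain ⟨⟨T1, d1⟩, m1⟩ := id M1
    obtain ⟨⟨T2, d2⟩, m2⟩ := id M2
    have c1 := T1.card
    have c2 := T2.card
    have c3 := m1 _ _ ⟨T2, d2⟩
    have c4 := m2 _ _ ⟨T1, d1⟩
    have c5 := card_union_add_card_inter X1 X2
    have c6 := card_union_add_card_inter Y1 Y2
    have c7 := card_miss (union_subset T1.sX T2.sX) he.1 (disjoint_union_right.2 ⟨d1, d2⟩)
    have c8 := card_le_card (union_subset T1.sY T2.sY)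
    have big : n ≤ (X1 ∩ X2).card + (Y1 ∪ Y2).card := by
      rcases (Y1 ∩ Y2).eq_empty_or_nonempty with h | h
      · have := card_eq_zero.2 h; omega
      · by_contra hlt
        have h1 := C.el _ (union_subset T1.sX T2.sX) _ (inter_subset_left.trans T1.sY)
          (T1.nX.mono subset_union_left) h (T1.no.ui T2.no)
        have J : Tight n H A B (X1 ∪ X2) (Y1 ∩ Y2) := ⟨union_subset T1.sX T2.sX,
          inter_subset_left.trans T1.sY, T1.nX.mono subset_union_left, h, T1.no.ui T2.no, by omega⟩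
        have := m1 _ _ ⟨J, disjoint_union_right.2 ⟨d1, d2⟩⟩
        have h3 := J.card
        have := eq_of_subset_of_card_le (inter_subset_left (s₁ := Y1) (s₂ := Y2)) (by omega)
        exact hb2 (mem_inter.1 (this.symm ▸ hb)).2
    have dX : X1 ∩ X2 = ∅ := by
      by_contra h
      have := C.el _ (inter_subset_left.trans T1.sX) _ (union_subset T1.sY T2.sY)
        (nonempty_iff_ne_empty.2 h) (T1.nY.mono subset_union_left) (T1.no.iu T2.no)
      omega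
    have := card_eq_zero.2 dX
    have uY : Y1 ∪ Y2 = B := eq_of_subset_of_card_le (union_subset T1.sY T2.sY) (by omega)
    have dY : Disjoint Y1 Y2 := by
      refine disjoint_left.2 fun w h1 h2 => ?_
      obtain ⟨_, _, -, -, q, -⟩ := st1 X1 Y1 M1 w h1
      obtain ⟨a, ha⟩ := T2.nX
      refine T2.no a ha w h2 (C.hs _ _ (q a (mem_sdiff.2 ⟨T2.sX ha, fun h => ?_⟩)))
      have : a ∈ X1 ∩ X2 := mem_inter.2 ⟨h, ha⟩
      simp [dX] at this
    have eY : B \ Y1 = Y2 := by rw [← uY, union_sdiff_cancel_left dY]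
    refine ⟨X2, eY ▸ M2, disjoint_iff_inter_eq_empty.2 dX, fun w hwB => ?_⟩
    rw [hw w hwB, ← eY]
    simp [hwB]
  obtain ⟨X1, Y1, M1⟩ : ∃ X1 Y1, Mx X1 Y1 := by
    obtain ⟨b, hb⟩ := T.nY
    obtain ⟨w, hw, h⟩ := T.chord C hb
    obtain ⟨X', Y', ⟨a, b, -⟩, -⟩ := NC b (T.sY hb) w hw h
    exact exists_max_pair (fun X' Y' => Tight n H A B X' Y' ∧ Disjoint e X') (fun X _ => X.card)
      ⟨X', Y', a, b⟩
  obtain ⟨⟨T1, d1⟩, m1⟩ := id M1
  obtain ⟨b1, hb1⟩ := T1.nY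
  obtain ⟨X2, M2, dX, -⟩ := st2 X1 Y1 M1 b1 hb1
  set Y2 := B \ Y1 with hY2
  obtain ⟨⟨T2, d2⟩, m2⟩ := id M2
  have k1 : ∀ b ∈ Y1, ∀ w ∈ B, H b w ↔ (w ∈ Y1 ∧ w ≠ b) := fun b hb => by
    obtain ⟨_, -, -, q⟩ := st2 X1 Y1 M1 b hb; exact q
  have k2 : ∀ b ∈ Y2, ∀ w ∈ B, H b w ↔ (w ∈ Y2 ∧ w ≠ b) := fun b hb => by
    obtain ⟨_, -, -, q⟩ := st2 X2 Y2 M2 b hb; exact q
  have j1 : ∀ b ∈ Y1, ∀ a ∈ A \ X1, H b a := fun b hb => by
    obtain ⟨_, _, -, -, q, -⟩ := st1 X1 Y1 M1 b hb; exact q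
  have j2 : ∀ b ∈ Y2, ∀ a ∈ A \ X2, H b a := fun b hb => by
    obtain ⟨_, _, -, -, q, -⟩ := st1 X2 Y2 M2 b hb; exact q
  have c1 := T1.card
  have c2 := T2.card
  have c3 := m1 _ _ ⟨T2, d2⟩
  have c4 := m2 _ _ ⟨T1, d1⟩
  have c5 : Y2.card = B.card - Y1.card := card_sdiff_of_subset T1.sY
  have c6 := card_pos.2 T1.nX
  have dY : Disjoint Y1 Y2 := disjoint_sdiff
  have uA : (X1 ∪ X2) ∪ e = A := by
    refine eq_of_subset_of_card_le (union_subset (union_subset T1.sX T2.sX) he.1) ?_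
    rw [card_union_of_disjoint (disjoint_union_right.2 ⟨d1, d2⟩).symm, card_union_of_disjoint dX]
    omega
  obtain ⟨x1, hx1, x2, hx2, hx⟩ : ∃ x1 ∈ X1, ∃ x2 ∈ X2, H x1 x2 := by
    by_contra hn
    refine C.c3 (by omega) (X1 ∪ Y2) (X2 ∪ Y1) ?_ (T1.nX.mono subset_union_left)
      (T2.nX.mono subset_union_left) ?_ ?_
    · simp only [disjoint_union_left, disjoint_union_right]
      exact ⟨⟨dX, (C.disj T2.sX T2.sY).symm⟩, C.disj T1.sX T1.sY, dY.symm⟩
    · rw [card_union_of_disjoint (C.disj T1.sX T2.sY), card_union_of_disjoint (C.disj T2.sX T1.sY)]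
      omega
    · intro a ha b hb h
      rcases mem_union.1 ha with ha | ha <;> rcases mem_union.1 hb with hb | hb
      · exact hn ⟨a, ha, b, hb, h⟩
      · exact T1.no a ha b hb h
      · exact T2.no b hb a ha (C.hs _ _ h)
      · exact disjoint_left.1 dY hb ((k2 a ha b (T1.sY hb)).1 h).1
  obtain ⟨p0, t0⟩ := C.pair (T1.sX hx1) (T2.sX hx2) hx
  obtain ⟨f1, s1, e1⟩ := exists_subset_card_eq (s := Y1) (n := 2) (by omega)
  obtain ⟨f2, s2, e2⟩ := exists_subset_card_eq (s := Y2) (n := 2) (by omega)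
  have p1 : Pr B f1 := ⟨s1.trans T1.sY, e1⟩
  have p2 : Pr B f2 := ⟨s2.trans T2.sY, e2⟩
  have t1 : Thick H f1 := fun u hu v hv h => (k1 u (s1 hu) v (p1.1 hv)).2 ⟨s1 hv, h.symm⟩
  have t2 : Thick H f2 := fun u hu v hv h => (k2 u (s2 hu) v (p2.1 hv)).2 ⟨s2 hv, h.symm⟩
  have z1 := card_erase_of_mem hx1
  have z2 := card_erase_of_mem hx2
  have z3 := card_sdiff_of_subset s1
  have z4 := card_sdiff_of_subset s2
  have dX' := disjoint_left.1 dX
  have d1' := disjoint_left.1 d1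
  have d2' := disjoint_left.1 d2
  have dY' := disjoint_left.1 dY
  have G1 := C.complete (P := X2.erase x2) (Q := Y1 \ f1) ((erase_subset _ _).trans T2.sX)
    (sdiff_subset.trans T1.sY) (by omega) fun p hp q hq => j1 q (mem_sdiff.1 hq).1 p
      (mem_sdiff.2 ⟨T2.sX (mem_erase.1 hp).2, fun h => dX' h (mem_erase.1 hp).2⟩)
  have G2 := C.complete (P := X1.erase x1) (Q := Y2 \ f2) ((erase_subset _ _).trans T1.sX)
    (sdiff_subset.trans T2.sY) (by omega) fun p hp q hq => j2 q (mem_sdiff.1 hq).1 p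
      (mem_sdiff.2 ⟨T1.sX (mem_erase.1 hp).2, dX' (mem_erase.1 hp).2⟩)
  have G3 := C.complete (P := X1.erase x1 ∪ e) (Q := Y2)
    (union_subset ((erase_subset _ _).trans T1.sX) he.1) T2.sY
    (by rw [card_union_of_disjoint (d1.mono_right (erase_subset _ _)).symm]; omega)
    fun p hp q hq => j2 q hq p (by
      rcases mem_union.1 hp with hp | hp
      · exact mem_sdiff.2 ⟨T1.sX (mem_erase.1 hp).2, dX' (mem_erase.1 hp).2⟩
      · exact mem_sdiff.2 ⟨he.1 hp, d2' hp⟩)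
  have mem : ∀ v, (v ∈ A ↔ (v ∈ X1 ∨ v ∈ X2) ∨ v ∈ e) ∧ (v ∈ Y2 ↔ v ∈ B ∧ v ∉ Y1) ∧
      (v ∈ A → v ∉ B) ∧ (v ∈ A ∨ v ∈ B) ∧ (v ∈ X1 → v ∉ X2) ∧ (v ∈ e → v ∉ X1) ∧
      (v ∈ e → v ∉ X2) ∧ (v ∈ Y1 → v ∈ B) ∧ (v ∈ f1 → v ∈ Y1) ∧ (v ∈ f2 → v ∈ Y2) ∧
      (v = x1 → v ∈ X1) ∧ (v = x2 → v ∈ X2) := fun v =>
    ⟨by rw [← uA]; simp only [mem_union], by simp [hY2], C.dis v, C.cov v, fun h => dX' h,
      fun h => d1' h, fun h => d2' h, fun h => T1.sY h, fun h => s1 h, fun h => s2 h,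
      fun h => h ▸ hx1, fun h => h ▸ hx2⟩
  have P1 := ((((PP.base (t := False) (G1.union G2 ?_)).step C ?_ (Or.inl p0) False.elim).step C ?_
    (Or.inr p1) False.elim).step C ?_ (Or.inl he) False.elim).step C ?_ (Or.inr p2) False.elim
  · have P2 := ((PP.base (t := True) (G1.union G3 ?_)).step C ?_ (Or.inl p0) fun _ => t0).step C ?_
      (Or.inr p1) fun _ => t1
    · refine ⟨f2, p2, t2, ((P1.pos ?_).add (P2.neg ?_)).mono le_rfl (by abel)⟩
      all_goals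
        intro v
        have := mem v
        simp only [mem_union, mem_sdiff, mem_erase, mem_insert, mem_singleton]
        clear * - this
        grind
    all_goals
      refine disjoint_left.2 fun v => ?_
      have := mem v
      simp only [mem_union, mem_sdiff, mem_erase, mem_insert, mem_singleton]
      clear * - this
      grind
  all_goals
    refine disjoint_left.2 fun v => ?_
    have := mem v
    simp only [mem_union, mem_sdiff, mem_erase, mem_insert, mem_singleton]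
    clear * - this
    grind

lemma Tight.hubvec (C : Ctx n H A B) (T : Tight n H A B X Y) : ∃ h : V → V → ℤ,
    (∀ e, Pr A e → Cost H A B 6 (vec e + h)) ∧ (∀ f, Pr B f → Cost H A B 6 (vec f - h)) := by
  have key : ∀ A B X Y g : Finset V, Ctx n H A B → Atom n H A B X Y → Pr B g → Thick H g →
      Univ n H A B X g → (∀ e, Pr A e → Cost H A B 6 (vec e + vec g)) ∧
        (∀ f, Pr B f → Cost H A B 6 (vec f - vec g)) := by
    intro A B X Y g C hA hg tg hU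
    refine ⟨fun e he => ?_, fun f hf => (hA.link C hg tg hU hf).1.mono (by norm_num) rfl⟩
    obtain ⟨f, hf, tf, c⟩ := hA.1.partner C he
    exact (c.add ((hA.link C hg tg hU hf).2 tf)).mono le_rfl (by abel)
  have key2 : ∀ A B X Y : Finset V, Ctx n H A B → Atom n H A B X Y → ∃ h : V → V → ℤ,
      (∀ e, Pr A e → Cost H A B 6 (vec e + h)) ∧ (∀ f, Pr B f → Cost H A B 6 (vec f - h)) := by
    intro A B X Y C hA
    rcases hA.hub C with ⟨g, a, b, c⟩ | ⟨X', Y', g, hA', a, b, c⟩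
    · exact ⟨_, key A B X Y g C hA a b c⟩
    · obtain ⟨p, q⟩ := key B A Y' X' g C.swap hA' a b c
      exact ⟨-vec g, fun e he => (q e he).swap.mono le_rfl (by abel),
        fun f hf => (p f hf).swap.mono le_rfl (by abel)⟩
  obtain ⟨X0, Y0, T0, hm⟩ := exists_max_pair (Tight n H A B) (fun X Y => n - min X.card Y.card)
    ⟨X, Y, T⟩
  have hm' : ∀ X' Y', Tight n H A B X' Y' → min X0.card Y0.card ≤ min X'.card Y'.card := by
    intro X' Y' T'
    have := hm X' Y' T'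
    have := T'.card
    have := T0.card
    omega
  rcases le_total X0.card Y0.card with h | h
  · exact key2 A B X0 Y0 C ⟨T0, fun X' Y' T' => by have := hm' X' Y' T'; omega⟩
  · obtain ⟨h, p, q⟩ := key2 B A Y0 X0 C.swap ⟨T0.swap C, fun X' Y' T' => by
      have := hm' Y' X' (T'.swap C.swap); omega⟩
    exact ⟨-h, fun e he => (q e he).swap.mono le_rfl (by abel),
      fun f hf => (p f hf).swap.mono le_rfl (by abel)⟩

theorem Ctx.absorb (C : Ctx n H A B) : ∃ Pl : Multiset (V → V),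
    Pl.card ≤ 6 * (Fintype.card V).choose 2 ∧ (∀ σ ∈ Pl, ThickM H σ) ∧ ∀ e f, Pr A e → Pr B f →
      ∃ Ms Ps : Multiset (V → V), Ms.card ≤ 12 ∧ Ps ≤ Pl ∧ (∀ σ ∈ Ms, GoodM H A B σ) ∧
        ∀ u v, ¬ Cross A B u v → vec e u v + vec f u v = cnt Ms u v - cnt Ps u v := by
  by_cases hT : ∃ X Y, Tight n H A B X Y
  swap
  · refine ⟨0, by simp, by simp, fun e f he hf => ?_⟩
    obtain ⟨P, hU⟩ := Cp.pp (t := False) C (fun X Y T _ _ => hT ⟨X, Y, T⟩) he hf False.elim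
      False.elim
    generalize (((A \ e) ∪ (B \ f)) ∪ e) ∪ f = W at P hU
    obtain ⟨σ, hσ, hx⟩ := P
    refine ⟨{σ}, 0, by simp, le_rfl, ?_, fun u v h => ?_⟩
    · intro τ hτ
      rw [Multiset.mem_singleton] at hτ
      subst hτ
      exact ⟨fun v => ⟨(hσ v (hU v)).2.1, (hσ v (hU v)).2.2.1⟩,
        fun v hv => (hσ v (hU v)).2.2.2 (Or.inr hv)⟩
    · simpa [hU, cnt_singleton] using hx u v h
  obtain ⟨X, Y, T⟩ := hT
  obtain ⟨h, p, q⟩ := T.hubvec C
  have : ∀ g : Finset V, ∃ Ms Ps : Multiset (V → V), Ms.card ≤ 6 ∧ Ps.card ≤ 6 ∧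
      (∀ σ ∈ Ms, GoodM H A B σ) ∧ (∀ σ ∈ Ps, ThickM H σ) ∧
      (Pr A g → ∀ u v, ¬ Cross A B u v → (vec g + h) u v = cnt Ms u v - cnt Ps u v) ∧
      (Pr B g → ∀ u v, ¬ Cross A B u v → (vec g - h) u v = cnt Ms u v - cnt Ps u v) := by
    intro g
    by_cases h1 : Pr A g
    · obtain ⟨Ms, Ps, a, b, c, d, e⟩ := p g h1
      refine ⟨Ms, Ps, a, b, c, d, fun _ => e, fun h2 => ?_⟩
      obtain ⟨v, hv⟩ := card_pos.1 (show 0 < g.card by rw [h1.2]; norm_num)
      exact absurd (h2.1 hv) (C.dis v (h1.1 hv))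
    by_cases h2 : Pr B g
    · obtain ⟨Ms, Ps, a, b, c, d, e⟩ := q g h2
      exact ⟨Ms, Ps, a, b, c, d, fun h => absurd h h1, fun _ => e⟩
    · exact ⟨0, 0, by simp, by simp, by simp, by simp, fun h => absurd h h1, fun h => absurd h h2⟩
  choose Ms Ps a b c d e1 e2 using this
  refine ⟨∑ g ∈ powersetCard 2 univ, Ps g, ?_, ?_, fun e f he hf => ?_⟩
  · rw [Multiset.card_sum]
    refine (sum_le_card_nsmul _ _ 6 fun g _ => b g).trans ?_
    simp [mul_comm]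
  · intro σ hσ
    obtain ⟨g, -, hg⟩ := Multiset.mem_sum.1 hσ
    exact d g σ hg
  · have hef : e ≠ f := by
      rintro rfl
      obtain ⟨v, hv⟩ := card_pos.1 (show 0 < e.card by rw [he.2]; norm_num)
      exact absurd (hf.1 hv) (C.dis v (he.1 hv))
    refine ⟨Ms e + Ms f, Ps e + Ps f, ?_, ?_, ?_, fun u v huv => ?_⟩
    · have := a e; have := a f; simp; omega
    · rw [← sum_pair hef]
      refine sum_le_sum_of_subset ?_
      simp [insert_subset_iff, mem_powersetCard, he.2, hf.2]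
    · intro σ hσ; rcases Multiset.mem_add.1 hσ with h | h; exacts [c _ σ h, c _ σ h]
    · have h1 := e1 e he u v huv
      have h2 := e2 f hf u v huv
      simp only [Pi.add_apply, Pi.sub_apply] at h1 h2
      rw [cnt_add, cnt_add]; push_cast; linarith

end Pool.Agent.P.MP_303500_co
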