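import Pool.Agent.P.MP_303500_co.Inv

/-! Completing one colour class to a perfect matching. -/

set_option linter.unusedSectionVars false

namespace Pool.Agent.P.MP_303500_co
open Finset

variable {V : Type} [Fintype V] [DecidableEq V]

/-- Two sides, two blocks and the rule for dense edges inside a side. -/
structure Cf (V : Type) where
  side : V → Bool
  blk : V → Bool
  p : Bool

def Cf.sgn (c : Cf V) (β : Bool) (v : V) : ℤ :=
  if c.blk v = β then (if c.side v = true then 1 else -1) else 0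

def Cf.dl (c : Cf V) (F : Finset V) (β : Bool) : ℤ := ∑ v ∈ F, c.sgn β v

def Cf.Own (c : Cf V) (u v : V) : Prop := c.side v = c.side u ∧ c.blk v = (c.blk u ^^ c.p)

def Cf.Crs (c : Cf V) (u v : V) : Prop := c.side v = (!c.side u) ∧ c.blk v = c.blk u

instance (c : Cf V) : DecidableRel c.Own := fun _ _ => by unfold Cf.Own; infer_instance
instance (c : Cf V) : DecidableRel c.Crs := fun _ _ => by unfold Cf.Crs; infer_instance

def Lt (p : Bool) (d : Bool → ℤ) : Prop :=
  if p = true then d true = d false else Even (d true) ∧ Even (d false)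

lemma Cf.Own.symm {c : Cf V} {u v : V} (h : c.Own u v) : c.Own v u := by
  unfold Cf.Own at *; grind

lemma Cf.Crs.symm {c : Cf V} {u v : V} (h : c.Crs u v) : c.Crs v u := by
  unfold Cf.Crs at *; grind

lemma Cf.Crs.sgn {c : Cf V} {u v : V} (h : c.Crs u v) (β : Bool) : c.sgn β u + c.sgn β v = 0 := by
  unfold Cf.Crs Cf.sgn at *; grind

lemma Cf.Crs.ne {c : Cf V} {u v : V} (h : c.Crs u v) : u ≠ v := by
  rintro rfl; simp [Cf.Crs] at h

lemma Cf.dl_union (c : Cf V) {F G : Finset V} (h : Disjoint F G) (β : Bool) :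
    c.dl (F ∪ G) β = c.dl F β + c.dl G β := sum_union h

lemma Cf.dl_compl (c : Cf V) (F : Finset V) (β : Bool) :
    c.dl F β + c.dl Fᶜ β = c.dl univ β := sum_add_sum_compl _ _

lemma Cf.dl_le (c : Cf V) (F : Finset V) :
    (c.dl F true).natAbs + (c.dl F false).natAbs ≤ F.card := by
  induction F using Finset.induction_on with
  | empty => simp [Cf.dl]
  | insert a F ha ih =>
    simp only [Cf.dl, sum_insert ha, card_insert_of_notMem ha, Cf.sgn] at *
    cases c.blk a <;> cases c.side a <;> simp <;> omega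

lemma Cf.exists_part (c : Cf V) {F : Finset V} {f : V → ℕ} {β s : Bool}
    (h : 0 < (if s = true then 1 else -1) * ∑ v ∈ F, c.sgn β v * f v) :
    ∃ v ∈ F, 0 < f v ∧ c.side v = s ∧ c.blk v = β := by
  by_contra hc
  push Not at hc
  rw [mul_sum] at h
  refine absurd (sum_nonpos fun v hv => ?_) h.not_ge
  rcases Nat.eq_zero_or_pos (f v) with h0 | h0
  · simp [h0]
  · have := hc v hv h0
    unfold Cf.sgn
    by_cases e : c.blk v = β
    · have e2 : c.side v ≠ s := fun e2 => this e2 e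
      revert e2
      cases c.side v <;> cases s <;> simp [e]
    · simp [e]

lemma Cf.exists_crs (c : Cf V) {F : Finset V} {f : V → ℕ}
    (h : ∀ β, ∑ v ∈ F, c.sgn β v * f v = 0) {a : V} (ha : a ∈ F) (hf : 0 < f a) :
    ∃ b ∈ F, 0 < f b ∧ c.Crs a b := by
  have := h (c.blk a)
  rw [← add_sum_erase _ _ ha] at this
  obtain ⟨b, b1, b2, b3, b4⟩ := c.exists_part (F := F.erase a) (f := f) (β := c.blk a)
    (s := !c.side a) (by
      rw [eq_neg_of_add_eq_zero_right this, Cf.sgn]
      cases c.side a <;> simpa using hf)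
  exact ⟨b, mem_of_mem_erase b1, b2, b3, b4⟩

lemma card_filter_sdiff (G Z : Finset V) (p : V → Prop) [DecidablePred p] :
    (G.filter p).card ≤ ((G \ Z).filter p).card + Z.card :=
  (card_le_card fun x => by simp only [mem_union, mem_filter, mem_sdiff]; tauto).trans
    (card_union_le _ _)

lemma equalize (c : Cf V) {σ : V → V} (hσ : Invo σ) (k : ℕ) : ∀ (d : Bool → ℤ) (G : Finset V),
    Lt c.p d → (d true).natAbs + (d false).natAbs ≤ k →
    (∀ v ∈ G, σ v ∈ G ∧ σ v ≠ v ∧ c.Own v (σ v)) →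
    (∀ β s, 0 < (if s = true then 1 else -1) * d β →
      k ≤ (G.filter fun v => c.side v = s ∧ c.blk v = β).card) →
    ∃ Z ⊆ G, (∀ v ∈ Z, σ v ∈ Z) ∧ Z.card ≤ k ∧ ∀ β, c.dl Z β = d β := by
  induction k using Nat.strong_induction_on with
  | _ k ih =>
  intro d G h1 h2 h3 h4
  by_cases h0 : ∃ β, d β ≠ 0
  swap
  · push Not at h0
    exact ⟨∅, by simp, by simp, by simp, fun β => by simp [Cf.dl, h0]⟩
  obtain ⟨β, hβ⟩ := h0
  obtain ⟨s, hs⟩ : ∃ s : Bool, 0 < (if s = true then 1 else -1) * d β := by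
    rcases lt_or_gt_of_ne hβ with h | h
    · exact ⟨false, by simpa using h⟩
    · exact ⟨true, by simpa using h⟩
  have hk : 2 ≤ k := by
    unfold Lt at h1
    split_ifs at h1
    · cases β <;> omega
    · obtain ⟨⟨x, hx⟩, y, hy⟩ := h1; cases β <;> omega
  obtain ⟨v, hv⟩ := card_pos.1 (lt_of_lt_of_le (by omega) (h4 β s hs))
  obtain ⟨v1, v2, v3⟩ := mem_filter.1 hv
  obtain ⟨w1, w2, w3, w4⟩ := h3 v v1
  have e : ∀ γ, c.sgn γ v + c.sgn γ (σ v) = (if s = true then 1 else -1) *
      ((if β = γ then 1 else 0) + if (β ^^ c.p) = γ then 1 else 0) := by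
    intro γ; simp only [Cf.sgn, w3, w4, v2, v3]; split_ifs <;> simp
  have hsub : G \ {v, σ v} ⊆ G := sdiff_subset
  obtain ⟨Z, z1, z2, z3, z4⟩ := ih (k - 2) (by omega)
    (fun γ => d γ - (c.sgn γ v + c.sgn γ (σ v))) (G \ {v, σ v}) (by
      simp only [e]; unfold Lt at *
      revert h1
      cases c.p <;> cases β <;> cases s <;> simp [Int.even_iff]) (by
      simp only [e]; unfold Lt at *
      revert h1 hs
      cases c.p <;> cases β <;> cases s <;> simp [Int.even_iff] <;> omega) (by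
      intro x hx
      obtain ⟨a1, a2⟩ := mem_sdiff.1 hx
      refine ⟨mem_sdiff.2 ⟨(h3 x a1).1, fun h => a2 ?_⟩, (h3 x a1).2⟩
      simp only [mem_insert, mem_singleton] at h ⊢
      rcases h with h | h
      · right; rw [← h, hσ]
      · left; exact hσ.inj h) (by
      intro γ t ht
      have := h4 γ t (by
        simp only [e] at ht; unfold Lt at *
        revert h1 hs ht
        cases c.p <;> cases β <;> cases s <;> cases γ <;> cases t <;> simp [Int.even_iff] <;> omega)
      have a1 := card_filter_sdiff G {v, σ v} fun v => c.side v = t ∧ c.blk v = γ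
      have a2 := card_le_two (a := v) (b := σ v)
      omega)
  have hd : Disjoint Z {v, σ v} := disjoint_left.2 fun x hx => (mem_sdiff.1 (z1 hx)).2
  refine ⟨Z ∪ {v, σ v}, union_subset (z1.trans hsub) (by simp [insert_subset_iff, v1, w1]), ?_, ?_,
    fun γ => ?_⟩
  · intro x hx
    simp only [mem_union, mem_insert, mem_singleton] at hx ⊢
    rcases hx with h | rfl | rfl
    · exact Or.inl (z2 x h)
    · simp
    · simp [hσ v]
  · have := card_union_le Z {v, σ v}
    have := card_le_two (a := v) (b := σ v)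
    omega
  · rw [c.dl_union hd, z4, Cf.dl, sum_pair w2.symm]; ring

/-- Any two large sets on opposite sides of one block are joined. -/
def Rob (c : Cf V) (av : V → V → Prop) (s0 : ℕ) : Prop :=
  ∀ S T : Finset V, (∀ u ∈ S, ∀ v ∈ T, c.Crs u v) → s0 ≤ S.card → s0 ≤ T.card →
    ∃ u ∈ S, ∃ v ∈ T, av u v

lemma mOn_two {av : V → V → Prop} (hs : ∀ u v, av u v → av v u) {a b : V} (hab : a ≠ b)
    (h : av a b) : MOn av {a, b} := by
  refine mOn_pair (card_pair hab) fun u hu v hv huv => ?_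
  simp only [mem_insert, mem_singleton] at hu hv
  rcases hu with rfl | rfl <;> rcases hv with rfl | rfl <;> first | exact h | exact hs _ _ h | tauto

lemma path5 (c : Cf V) {av : V → V → Prop} [DecidableRel av] (hs : ∀ u v, av u v → av v u)
    (hc : ∀ u v, av u v → c.Crs u v) {s0 : ℕ} (hR : Rob c av s0) {σ : V → V} (hσ : Invo σ)
    {G : Finset V} (h1 : ∀ v ∈ G, σ v ∈ G ∧ σ v ≠ v)
    (h2 : (∀ v ∈ G, c.Own v (σ v)) ∨ ∀ v ∈ G, c.Crs v (σ v)) {a b : V} (ha : a ∉ G) (hb : b ∉ G)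
    (hab : c.Crs a b) (na : s0 ≤ (G.filter (av a)).card) (nb : s0 ≤ (G.filter (av b)).card) :
    ∃ Z ⊆ G, (∀ v ∈ Z, σ v ∈ Z) ∧ Z.card ≤ 4 ∧ MOn av ({a, b} ∪ Z) := by
  obtain ⟨x, hx, y, hy, hxy⟩ := hR ((G.filter (av a)).image σ) ((G.filter (av b)).image σ) (by
      intro x hx y hy
      obtain ⟨u, hu, rfl⟩ := mem_image.1 hx
      obtain ⟨v, hv, rfl⟩ := mem_image.1 hy
      rw [mem_filter] at hu hv
      have p1 := hc _ _ hu.2
      have p2 := hc _ _ hv.2
      rcases h2 with h | h <;> have p3 := h u hu.1 <;> have p4 := h v hv.1 <;>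
        simp only [Cf.Own, Cf.Crs] at * <;> grind)
    (by rwa [card_image_of_injective _ hσ.inj]) (by rwa [card_image_of_injective _ hσ.inj])
  obtain ⟨u, hu, rfl⟩ := mem_image.1 hx
  obtain ⟨v, hv, rfl⟩ := mem_image.1 hy
  rw [mem_filter] at hu hv
  have p1 := h1 u hu.1
  have p2 := h1 v hv.1
  have n0 := hab.ne
  have n1 : a ≠ u := fun e => ha (e ▸ hu.1)
  have n2 : a ≠ v := fun e => ha (e ▸ hv.1)
  have n3 : b ≠ u := fun e => hb (e ▸ hu.1)
  have n4 : b ≠ v := fun e => hb (e ▸ hv.1)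
  have n5 : u ≠ v := by
    rintro rfl
    have := hc _ _ hu.2; have := hc _ _ hv.2
    simp only [Cf.Crs] at *; grind
  have m1 := (mOn_two hs n1 hu.2).union (mOn_two hs n4 hv.2) (by simp [n0.symm, n2.symm, n3, n5.symm])
  by_cases e : σ u = v
  · refine ⟨{u, v}, by simp [insert_subset_iff, hu.1, hv.1], by simp [e, hσ.symm.1 e],
      card_le_two.trans (by norm_num), ?_⟩
    convert m1 using 1
    ext x; simp only [mem_union, mem_insert, mem_singleton]; tauto
  have e' : σ v ≠ u := fun h => e (hσ.symm.1 h)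
  have n6 : a ≠ σ u := fun e => ha (e ▸ p1.1)
  have n7 : a ≠ σ v := fun e => ha (e ▸ p2.1)
  have n8 : b ≠ σ u := fun e => hb (e ▸ p1.1)
  have n9 : b ≠ σ v := fun e => hb (e ▸ p2.1)
  refine ⟨{u, v, σ u, σ v}, by simp [insert_subset_iff, hu.1, hv.1, p1.1, p2.1],
    by simp [hσ u, hσ v], card_le_four, ?_⟩
  convert m1.union (mOn_two hs (hc _ _ hxy).ne hxy) (by
    simp [n6.symm, n7.symm, n8.symm, n9.symm, p1.2, p2.2, e', e]) using 1
  ext x; simp only [mem_union, mem_insert, mem_singleton]; tauto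

lemma mOn_empty (av : V → V → Prop) : MOn av ∅ := ⟨id, by simp⟩

lemma closed_sdiff {σ : V → V} (hσ : Invo σ) {G Z : Finset V} (h1 : ∀ v ∈ G, σ v ∈ G)
    (h2 : ∀ v ∈ Z, σ v ∈ Z) : ∀ v ∈ G \ Z, σ v ∈ G \ Z := fun v hv => by
  rw [mem_sdiff] at hv ⊢
  exact ⟨h1 v hv.1, fun h => hv.2 (hσ v ▸ h2 _ h)⟩

lemma paths (c : Cf V) {av : V → V → Prop} [DecidableRel av] (hs : ∀ u v, av u v → av v u)
    (hc : ∀ u v, av u v → c.Crs u v) {s0 : ℕ} (hR : Rob c av s0) {σ : V → V} (hσ : Invo σ)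
    (k : ℕ) : ∀ F G : Finset V, (∀ v ∈ G, σ v ∈ G ∧ σ v ≠ v) →
    ((∀ v ∈ G, c.Own v (σ v)) ∨ ∀ v ∈ G, c.Crs v (σ v)) → F.card ≤ 2 * k → Disjoint F G →
    (∀ β, c.dl F β = 0) → (∀ v ∈ F, s0 + 4 * k ≤ (G.filter (av v)).card) →
    ∃ Z ⊆ G, (∀ v ∈ Z, σ v ∈ Z) ∧ Z.card ≤ 4 * k ∧ MOn av (F ∪ Z) := by
  induction k with
  | zero =>
    intro F G _ _ h _ _ _
    rw [card_eq_zero.1 (by omega : F.card = 0)]
    exact ⟨∅, by simp, by simp, by simp, by simpa using mOn_empty av⟩
  | succ k ih =>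
    intro F G h1 h2 h3 h4 h5 h6
    rcases F.eq_empty_or_nonempty with rfl | ⟨a, ha⟩
    · exact ⟨∅, by simp, by simp, by simp, by simpa using mOn_empty av⟩
    obtain ⟨b, hb, -, hab⟩ := c.exists_crs (F := F) (f := fun _ => 1)
      (fun β => by simpa [Cf.dl] using h5 β) ha one_pos
    obtain ⟨Z, z1, z2, z3, z4⟩ := path5 c hs hc hR hσ h1 h2 (disjoint_left.1 h4 ha)
      (disjoint_left.1 h4 hb) hab (by have := h6 a ha; omega) (by have := h6 b hb; omega)
    have hsub : {a, b} ⊆ F := by simp [insert_subset_iff, ha, hb]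
    obtain ⟨Y, y1, y2, y3, y4⟩ := ih (F \ {a, b}) (G \ Z)
      (fun v hv => ⟨closed_sdiff hσ (fun v hv => (h1 v hv).1) z2 v hv, (h1 v (mem_sdiff.1 hv).1).2⟩)
      (h2.imp (fun h v hv => h v (mem_sdiff.1 hv).1) fun h v hv => h v (mem_sdiff.1 hv).1)
      (by rw [card_sdiff_of_subset hsub, card_pair hab.ne]; omega)
      (h4.mono sdiff_subset sdiff_subset) (fun β => by
        have := h5 β
        rw [← sdiff_union_of_subset hsub, c.dl_union sdiff_disjoint, Cf.dl.eq_1 c {a, b},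
          sum_pair hab.ne, hab.sgn] at this
        simpa using this) (fun v hv => by
        have := h6 v (mem_sdiff.1 hv).1
        have := card_filter_sdiff G Z (av v)
        omega)
    refine ⟨Z ∪ Y, union_subset z1 (y1.trans sdiff_subset), fun v hv => ?_, ?_, ?_⟩
    · rw [mem_union] at hv ⊢; exact hv.imp (z2 v) (y2 v)
    · have := card_union_le Z Y; omega
    · convert z4.union y4 ?_ using 1
      · ext x
        have := @hsub x
        simp only [mem_union, mem_sdiff] at *; tauto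
      · rw [disjoint_left]
        intro x h7 h8
        have := @hsub x; have := @z1 x; have := @y1 x; have := @disjoint_left.1 h4 x
        simp only [mem_union, mem_sdiff] at *; tauto

lemma hall (c : Cf V) {av : V → V → Prop} [DecidableRel av] (hs : ∀ u v, av u v → av v u)
    (hc : ∀ u v, av u v → c.Crs u v) {s0 : ℕ} (hR : Rob c av s0) {F : Finset V}
    (h1 : ∀ β, c.dl F β = 0) (h2 : ∀ v ∈ F, s0 ≤ (F.filter (av v)).card) : MOn av F := by
  have key : ∀ β, MOn av ((F.filter fun v => c.side v = true ∧ c.blk v = β) ∪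
      F.filter fun v => c.side v = false ∧ c.blk v = β) := by
    intro β
    set P := F.filter fun v => c.side v = true ∧ c.blk v = β with hP
    set Q := F.filter fun v => c.side v = false ∧ c.blk v = β with hQ
    have hPQ : P.card = Q.card := by
      have : (P.card : ℤ) - Q.card = 0 := by
        rw [← h1 β, hP, hQ, card_filter, card_filter, Cf.dl]
        push_cast
        rw [← sum_sub_distrib]
        exact sum_congr rfl fun v _ => by
          unfold Cf.sgn; cases c.side v <;> split_ifs <;> simp_all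
      omega
    refine mOn_hall (r' := av) (disjoint_filter.2 fun v _ h h' => by simp_all) hPQ ?_
      fun p _ q _ h => ⟨h, hs _ _ h⟩
    intro X hX
    rcases X.eq_empty_or_nonempty with rfl | ⟨x, hx⟩
    · simp
    set Y := Q.filter (fun q => ∃ p ∈ X, av p q) with hY
    have hYQ : Y ⊆ Q := filter_subset _ _
    rcases le_total X.card s0 with h | h
    · have a1 := mem_filter.1 (hX hx)
      refine h.trans ((h2 x a1.1).trans (card_le_card fun v hv => ?_))
      rw [mem_filter] at hv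
      have := hc _ _ hv.2
      simp only [hY, hQ, mem_filter, Cf.Crs] at *
      exact ⟨⟨hv.1, by grind⟩, x, hx, hv.2⟩
    have a1 : (Q \ Y).card < s0 := by
      by_contra h3
      obtain ⟨u, hu, v, hv, h4⟩ := hR X (Q \ Y) (fun u hu v hv => by
        have := mem_filter.1 (hX hu)
        have := mem_filter.1 (mem_sdiff.1 hv).1
        simp only [Cf.Crs]; grind) h (by omega)
      rw [mem_sdiff] at hv
      exact hv.2 (mem_filter.2 ⟨hv.1, u, hu, h4⟩)
    have a2 := card_sdiff_add_card_eq_card hYQ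
    have a3 := card_sdiff_add_card_eq_card hX
    rcases (Q \ Y).eq_empty_or_nonempty with e | ⟨t, ht⟩
    · rw [e, card_empty] at a2; omega
    rw [mem_sdiff] at ht
    have a4 := mem_filter.1 ht.1
    have : (F.filter (av t)).card ≤ (P \ X).card := card_le_card fun v hv => by
      rw [mem_filter] at hv
      have := hc _ _ hv.2
      refine mem_sdiff.2 ⟨?_, fun h => ht.2 (mem_filter.2 ⟨ht.1, v, h, hs _ _ hv.2⟩)⟩
      simp only [hP, mem_filter, Cf.Crs] at *
      exact ⟨hv.1, by grind⟩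
    have := h2 t a4.1
    omega
  convert (key true).union (key false) ?_ using 1
  · ext v; simp only [mem_union, mem_filter]; cases c.side v <;> cases c.blk v <;> simp
  · rw [disjoint_left]; intro v; simp only [mem_union, mem_filter]; grind

/-- A nearly perfect class, made mostly of dense edges of one kind. -/
def Cls (c : Cf V) (y : ℕ) (σ : V → V) : Prop := Invo σ ∧
  (((univ.filter fun v => ¬ (σ v ≠ v ∧ c.Own v (σ v))).card ≤ y ∧ Lt c.p (c.dl (supp σ)ᶜ)) ∨
    ((univ.filter fun v => ¬ (σ v ≠ v ∧ c.Crs v (σ v))).card ≤ y ∧ ∀ β, c.dl (supp σ)ᶜ β = 0))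

lemma Lt.neg {p : Bool} {d : Bool → ℤ} (h : Lt p d) : Lt p (fun β => -d β) := by
  unfold Lt at *; split_ifs at * <;> simp_all

lemma Lt.add {p : Bool} {d e : Bool → ℤ} (h : Lt p d) (h' : Lt p e) :
    Lt p (fun β => d β + e β) := by
  unfold Lt at *; split_ifs at *
  · simp_all
  · exact ⟨h.1.add h'.1, h.2.add h'.2⟩

lemma complete (c : Cf V) {av : V → V → Prop} [DecidableRel av] (hs : ∀ u v, av u v → av v u)
    (hc : ∀ u v, av u v → c.Crs u v) {s0 q y b : ℕ} (hR : Rob c av s0)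
    (hq : ∀ u, q ≤ (univ.filter (av u)).card) {σ : V → V} (h : Cls c y σ) {B : Finset V}
    (hB : B.card ≤ b) (hn : s0 + 6 * y + 2 * b ≤ q) :
    ∃ Z : Finset V, (∀ v ∈ Z, σ v ∈ Z ∧ v ∉ B ∧ (c.Own v (σ v) ∨ c.Crs v (σ v))) ∧
      Z.card ≤ 5 * y ∧ MOn av ((supp σ)ᶜ ∪ Z) := by
  obtain ⟨hσ, h⟩ := h
  have main : ∀ (K : V → V → Prop) [DecidableRel K], (∀ u v, K u v → K v u) →
      (univ.filter fun v => ¬ (σ v ≠ v ∧ K v (σ v))).card ≤ y → ∃ G : Finset V,
      (∀ v ∈ G, σ v ∈ G ∧ σ v ≠ v ∧ K v (σ v)) ∧ (∀ v ∈ G, v ∉ B) ∧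
      (∀ u, s0 + 5 * y ≤ (G.filter (av u)).card) ∧ (supp σ)ᶜ.card ≤ y := by
    intro K _ hK hy
    refine ⟨univ \ ((univ.filter fun v => ¬ (σ v ≠ v ∧ K v (σ v))) ∪ (B ∪ B.image σ)),
      fun v hv => ?_, fun v hv => ?_, fun u => ?_, le_trans (card_le_card fun v => ?_) hy⟩
    · simp only [mem_sdiff, mem_univ, true_and, mem_union, mem_filter, not_or, not_not,
        mem_image] at hv ⊢
      obtain ⟨⟨a1, a2⟩, a3, a4⟩ := hv
      refine ⟨⟨⟨hσ.ne a1, by rw [hσ v]; exact hK _ _ a2⟩, fun h => a4 ⟨_, h, hσ v⟩,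
        fun ⟨x, hx, e⟩ => a3 (hσ.inj e ▸ hx)⟩, a1, a2⟩
    · simp only [mem_sdiff, mem_union, not_or] at hv; exact hv.2.2.1
    · have := card_filter_sdiff univ
        ((univ.filter fun v => ¬ (σ v ≠ v ∧ K v (σ v))) ∪ (B ∪ B.image σ)) (av u)
      have := card_union_le (univ.filter fun v => ¬ (σ v ≠ v ∧ K v (σ v))) (B ∪ B.image σ)
      have := card_union_le B (B.image σ)
      have := card_image_le (s := B) (f := σ)
      have := hq u
      omega
    · simp only [mem_compl, mem_supp, mem_filter, mem_univ, true_and]; tauto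
  rcases h with ⟨hy, h⟩ | ⟨hy, h⟩
  · obtain ⟨G, g1, g2, g3, g4⟩ := main c.Own (fun _ _ h => h.symm) hy
    obtain ⟨Z, z1, z2, z3, z4⟩ := equalize c hσ y _ G h.neg
      (by have := c.dl_le (supp σ)ᶜ; simp only [Int.natAbs_neg]; omega) g1 (fun β s hs => by
        obtain ⟨a, -, -, a1, a2⟩ := c.exists_part (F := (supp σ)ᶜ) (f := fun _ => 1) (β := β)
          (s := !s) (by cases s <;> simpa [Cf.dl] using hs)
        refine le_trans (by have := g3 a; omega) (card_le_card
          (monotone_filter_right G (p := av a) fun v _ hv => ?_))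
        have := hc _ _ hv
        simp only [Cf.Crs] at this; grind)
    have hd : ∀ v ∈ G, v ∉ (supp σ)ᶜ := fun v hv => by simpa using (g1 v hv).2.1
    obtain ⟨Y, y1, y2, y3, y4⟩ := paths c hs hc hR hσ y ((supp σ)ᶜ ∪ Z) (G \ Z)
      (fun v hv => ⟨closed_sdiff hσ (fun v hv => (g1 v hv).1) z2 v hv,
        (g1 v (mem_sdiff.1 hv).1).2.1⟩) (Or.inl fun v hv => (g1 v (mem_sdiff.1 hv).1).2.2)
      (by have := card_union_le (supp σ)ᶜ Z; omega)
      (disjoint_left.2 fun v h1 h2 => by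
        rw [mem_sdiff] at h2
        exact (mem_union.1 h1).elim (hd v h2.1) h2.2)
      (fun β => by rw [c.dl_union (disjoint_right.2 fun v hv => hd v (z1 hv)), z4]; simp)
      (fun v _ => by have := g3 v; have := card_filter_sdiff G Z (av v); omega)
    refine ⟨Z ∪ Y, fun v hv => ?_, by have := card_union_le Z Y; omega, by rwa [← union_assoc]⟩
    have : v ∈ G := (mem_union.1 hv).elim (@z1 v) fun h => (mem_sdiff.1 (y1 h)).1
    exact ⟨mem_union.2 ((mem_union.1 hv).imp (z2 v) (y2 v)), g2 v this, Or.inl (g1 v this).2.2⟩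
  · obtain ⟨G, g1, g2, g3, g4⟩ := main c.Crs (fun _ _ h => h.symm) hy
    obtain ⟨Y, y1, y2, y3, y4⟩ := paths c hs hc hR hσ y (supp σ)ᶜ G
      (fun v hv => ⟨(g1 v hv).1, (g1 v hv).2.1⟩) (Or.inr fun v hv => (g1 v hv).2.2) (by omega)
      (disjoint_right.2 fun v hv => by simpa using (g1 v hv).2.1) h
      (fun v _ => by have := g3 v; omega)
    exact ⟨Y, fun v hv => ⟨y2 v hv, g2 v (y1 hv), Or.inr (g1 v (y1 hv)).2.2⟩, by omega, y4⟩

end Pool.Agent.P.MP_303500_co
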