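import Pool.Agent.P.MP_303500_co.Assemble

/-! Colouring the special edges. -/

set_option linter.unusedSectionVars false

namespace Pool.Agent.P.MP_303500_co
open Finset

variable {V : Type} [Fintype V] [DecidableEq V]

def pm (ty : V → Bool) (v : V) : ℤ := if ty v = true then 1 else -1

lemma pm_cases (ty : V → Bool) (v : V) : pm ty v = 1 ∨ pm ty v = -1 := by
  unfold pm; split_ifs <;> simp

lemma sum_pm (ty : V → Bool) (F : Finset V) : ∑ v ∈ F, pm ty v =
    ((F.filter fun v => ty v = true).card : ℤ) - (F.filter fun v => ty v = false).card := by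
  rw [card_filter, card_filter]
  push_cast
  rw [← sum_sub_distrib]
  exact sum_congr rfl fun v _ => by unfold pm; cases ty v <;> simp

lemma card_ty (ty : V → Bool) (F : Finset V) :
    (F.filter fun v => ty v = true).card + (F.filter fun v => ty v = false).card = F.card := by
  rw [← card_filter_add_card_filter_not (s := F) (fun v => ty v = true)]; simp

lemma spec1 {e r K y t : ℕ} (hV : Viz (Fintype.card V) e) (hN : Even (Fintype.card V)) (hr : 0 < r)
    (ty : V → Bool) {m : V → V → ℕ} (hm : Gr m) (h1 : ∀ u v, m u v ≤ r)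
    (h2 : ∀ u, deg m u + r * e ≤ K) (h3 : ∑ u, deg m u ≤ K * y) (h0 : r * e ≤ K)
    (h4 : wsum (pm ty) m = K * (2 * t)) :
    ∃ Ms : Multiset (V → V), Ms.card = K ∧ (∀ σ ∈ Ms, Invo σ ∧ wt (pm ty) σ = 2 * t ∧
      (supp σ).card ≤ 2 * (y + 2) + 2 * t) ∧ ∀ u v, m u v = oc Ms u v := by
  obtain ⟨M0, a1, a2, a3⟩ := viz (D := K - r * e) (C := K) hV hN hr hm h1
    (fun u => by have := h2 u; omega) (by omega)
  obtain ⟨M1, b1, b2, b3⟩ := equit_le M0 a2 (y := y) (by simpa only [← deg_congr a3, a1] using h3)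
  obtain ⟨M2, c1, c2, c3⟩ := balance (pm_cases ty) M1 b2 (t := t) (by
    rw [wsum_congr _ b3, ← wsum_congr _ a3, h4, b1, a1])
  exact ⟨M2, by omega, c2, fun u v => by rw [c3, b3, a3]⟩

/-- The invariant of the classes in the case of two cliques. -/
def Par (ty : V → Bool) (X0 : Finset V) (p c0 : ℕ) (σ : V → V) : Prop :=
  (∀ β, (((supp σ).filter fun v => ty v = β).card + p) % 2 = 0) ∧
    (supp σ).card ≤ c0 + 2 * (supp σ ∩ X0).card

lemma place (ty : V → Bool) (X0 : Finset V) (p c0 : ℕ) {Ms : Multiset (V → V)}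
    (h1 : ∀ σ ∈ Ms, Invo σ ∧ Par ty X0 p c0 σ) {D : V → V → ℕ} (hD : Gr D)
    (h2 : ∀ u v, 0 < D u v → ty u = ty v ∧ (u ∈ X0 ∨ v ∈ X0) ∧
      deg (oc Ms) u + deg D u + (deg (oc Ms) v + deg D v) < Ms.card) :
    ∃ Ns : Multiset (V → V), Ns.card = Ms.card ∧ (∀ σ ∈ Ns, Invo σ ∧ Par ty X0 p c0 σ) ∧
      ∀ u v, oc Ns u v = oc Ms u v + D u v := by
  obtain ⟨Es, -, p2, p3⟩ := edges _ D hD rfl
  obtain ⟨Ns, a, b, c⟩ := greedy (Par ty X0 p c0) (Fintype.card V) 0 _ Es Ms
    (fun σ h => ⟨(h1 σ h).1, (h1 σ h).2, by have := card_le_univ (supp σ); omega⟩) (by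
      intro ι hι
      obtain ⟨a, b, h, rfl⟩ := p2 ι hι
      have hab : a ≠ b := fun e => by rw [e, hD.2] at h; omega
      obtain ⟨q1, q2, q3⟩ := h2 a b h
      rw [supp_sw hab, card_pair hab, sum_pair hab]
      simp only [← deg_congr p3]
      refine ⟨invo_sw a b, by omega, fun σ _ hσ hd => ?_, q3⟩
      have d1 : Disjoint (supp σ) {a, b} := by
        rw [← supp_sw hab]
        exact disjoint_left.2 fun v h1 h2 => by have := hd v; simp only [mem_supp] at h1 h2; tauto
      unfold Par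
      rw [supp_un, supp_sw hab]
      refine ⟨fun β => ?_, ?_⟩
      · have := hσ.1 β
        rw [filter_union, card_union_of_disjoint (disjoint_filter_filter d1),
          card_filter _ {a, b}, sum_pair hab, q1]
        split_ifs <;> omega
      · have := hσ.2
        have : 0 < ({a, b} ∩ X0).card := card_pos.2 (q2.elim (fun h => ⟨a, by simp [h]⟩)
          fun h => ⟨b, by simp [h]⟩)
        rw [union_inter_distrib_right, card_union_of_disjoint d1, card_pair hab,
          card_union_of_disjoint (d1.mono inter_subset_left inter_subset_left)]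
        omega) le_rfl (Or.inl le_rfl)
  exact ⟨Ns, a, fun σ h => ⟨(b σ h).1, (b σ h).2.1⟩, fun u v => by rw [c, p3]⟩

lemma par_bip (ty : V → Bool) (X0 : Finset V) {p c0 j : ℕ} {σ : V → V} (h : Invo σ)
    (h1 : ∀ v, σ v ≠ v → ty v ≠ ty (σ v)) (h2 : (supp σ).card = 2 * j) (h3 : (j + p) % 2 = 0)
    (h4 : 2 * j ≤ c0) : Par ty X0 p c0 σ := by
  have a1 := sum_invo h (supp_closed h) (pm ty) fun v hv => by
    have := h1 v (mem_supp.1 hv); unfold pm; grind
  rw [sum_pm] at a1
  have a2 := card_ty ty (supp σ)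
  exact ⟨fun β => by cases β <;> omega, by omega⟩

lemma spec2 (ty : V → Bool) {X0 : Finset V} {S D : V → V → ℕ} {p k K z X Q c : ℕ} (hp : p ≤ 1)
    (gS : Gr S) (gD : Gr D) (hS : ∀ u v, ty u = ty v → S u v = 0)
    (hD : ∀ u v, 0 < D u v → ty u = ty v ∧ (u ∈ X0 ∨ v ∈ X0))
    (hD' : ∀ u, ∑ v ∈ X0, D u v < k) (hz : ∑ u, deg S u = 2 * (z + p * (20 * k)))
    (hX : ∀ u, deg S u ≤ X) (n0 : p = 1 → 20 * X ≤ 9 * z) (n1 : X ≤ Q)
    (h1 : (z + p * K) % 2 = 0) (h2 : 2 * Q ≤ z) (h3 : 3 * Q ≤ 2 * K)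
    (h4 : p = 1 → 4 * Q ≤ z + K ∧ K ≤ z) (h5 : z ≤ Q * c) (h0 : 0 < Q)
    (h6 : ∀ u ∈ X0, ∀ v ∉ X0, deg S u + deg D u + (deg S v + deg D v) < K + 20 * k) :
    ∃ Ms : Multiset (V → V), Ms.card = K + 20 * k ∧
      (∀ σ ∈ Ms, Invo σ ∧ Par ty X0 p (2 * (c + 3)) σ) ∧ ∀ u v, oc Ms u v = S u v + D u v := by
  obtain ⟨Y, y1, y2, y3, y4⟩ := select ty gS hS (D := 9 * k) (j := p * (20 * k)) hX (by omega) (by
    rw [hz]
    interval_cases p
    · simp
    · have := n0 rfl; nlinarith)
  obtain ⟨Es, e1, e2, e3⟩ := edges _ Y y1 y4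
  obtain ⟨M1, a1, a2, a3⟩ := parity ty (gS.sub y1) (fun u v h => by simp [hS u v h]) hp
    (z := z) (Q := Q) (by
      have : ∑ u, (deg (fun u v => S u v - Y u v) u + deg Y u) = ∑ u, deg S u :=
        sum_congr rfl fun u _ => deg_sub y2 u
      rw [sum_add_distrib] at this; omega)
    (fun u => (deg_mono (fun _ _ => Nat.sub_le _ _) u).trans ((hX u).trans n1)) h1 h2 h3 h4 h5 h0
  let De : V → V → ℕ := fun u v => if u ∈ X0 ∧ v ∈ X0 then D u v else 0
  let Dn : V → V → ℕ := fun u v => if u ∈ X0 ∧ v ∈ X0 then 0 else D u v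
  have e4 : ∀ u v, oc (Es + Multiset.replicate ((1 - p) * (20 * k)) id) u v = Y u v :=
    fun u v => by rw [oc_add, oc_replicate_id, e3, add_zero]
  have e5 : (Es + Multiset.replicate ((1 - p) * (20 * k)) (id : V → V)).card = 20 * k := by
    rw [Multiset.card_add, Multiset.card_replicate]; interval_cases p <;> omega
  have e6 : ∀ u, deg De u < k := fun u => by
    refine lt_of_le_of_lt ?_ (hD' u)
    rw [← univ_inter X0, ← sum_ite_mem]
    exact sum_le_sum fun v _ => by simp only [De]; split_ifs <;> simp_all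
  obtain ⟨M0, b1, b2, b3⟩ := place ty X0 p (2 * (c + 3))
    (Ms := Es + Multiset.replicate ((1 - p) * (20 * k)) id) (fun σ h => by
      rcases Multiset.mem_add.1 h with h | h
      · obtain ⟨a, b, h', rfl⟩ := e2 σ h
        have hab : a ≠ b := fun e => by rw [e, y1.2] at h'; omega
        have hp1 : p = 1 := by
          have := Multiset.card_pos_iff_exists_mem.2 ⟨_, h⟩
          interval_cases p <;> omega
        refine ⟨invo_sw a b, par_bip ty X0 (j := 1) (invo_sw a b) (fun v hv e => ?_)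
          (by rw [supp_sw hab, card_pair hab]) (by omega) (by omega)⟩
        have := oc_edge h hv
        have := e3 v (sw a b v); have := y2 v (sw a b v); have := hS _ _ e
        omega
      · obtain ⟨h0, rfl⟩ := Multiset.mem_replicate.1 h
        have hp0 : p = 0 := by interval_cases p <;> omega
        exact ⟨invo_id, par_bip ty X0 (j := 0) invo_id (by simp) (by simp) (by omega) (by omega)⟩)
    (D := De) ⟨fun u v => by simp only [De, gD.1 u v, and_comm], fun u => by simp [De, gD.2]⟩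
    (fun u v h => by
      simp only [deg_congr e4, e5]
      have := e6 u; have := e6 v; have := y3 u; have := y3 v
      simp only [De] at h
      split_ifs at h with h'
      · exact ⟨(hD u v h).1, Or.inl h'.1, by omega⟩
      · omega)
  have e7 : ∀ u v, oc (M1 + M0) u v + Dn u v = S u v + D u v := fun u v => by
    rw [oc_add, b3, e4, ← a3]; have := y2 u v
    simp only [De, Dn]; split_ifs <;> omega
  have e8 : ∀ u, deg (oc (M1 + M0)) u + deg Dn u = deg S u + deg D u := fun u => by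
    rw [← deg_add, ← deg_add]; exact deg_congr e7 u
  obtain ⟨Ms, c1, c2, c3⟩ := place ty X0 p (2 * (c + 3)) (Ms := M1 + M0) (fun σ h => by
      rcases Multiset.mem_add.1 h with h | h
      · obtain ⟨q1, j, q2, q3, q4⟩ := a2 σ h
        refine ⟨q1, par_bip ty X0 q1 (fun v hv e => ?_) q2 q3 (by omega)⟩
        have := oc_edge h hv
        have := a3 v (σ v); have := hS _ _ e
        omega
      · exact b2 σ h)
    (D := Dn) ⟨fun u v => by simp only [Dn, gD.1 u v, and_comm], fun u => by simp [Dn, gD.2]⟩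
    (fun u v h => by
      rw [e8, e8, Multiset.card_add, a1, b1, e5]
      simp only [Dn] at h
      split_ifs at h with h'
      · omega
      · refine ⟨(hD u v h).1, (hD u v h).2, ?_⟩
        rcases (hD u v h).2 with q | q
        · exact h6 u q v fun q' => h' ⟨q, q'⟩
        · have := h6 v q u fun q' => h' ⟨q', q⟩
          omega)
  exact ⟨Ms, by rw [c1, Multiset.card_add, a1, b1, e5], c2, fun u v => by rw [c3, e7]⟩

lemma lt_true (c : Cf V) (hp : c.p = true) {ty : V → Bool}
    (h : ∀ v, c.blk v = (ty v ^^ (c.p && !c.side v))) {F : Finset V}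
    (h1 : ∑ v ∈ F, pm ty v = 0) : Lt c.p (c.dl F) := by
  rw [Lt, if_pos hp, ← sub_eq_zero, Cf.dl, Cf.dl, ← sum_sub_distrib, ← h1]
  refine sum_congr rfl fun v _ => ?_
  simp only [Cf.sgn, pm, h v, hp]
  cases ty v <;> cases c.side v <;> simp

lemma lt_false (c : Cf V) (hp : c.p = false) {F : Finset V}
    (h1 : ∀ β, Even (F.filter fun v => c.blk v = β).card) : Lt c.p (c.dl F) := by
  have : ∀ β, Even (c.dl F β) := fun β => by
    have a1 : Even (c.dl F β - ((F.filter fun v => c.blk v = β).card : ℤ)) := by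
      rw [card_filter, Cf.dl]
      push_cast
      rw [← sum_sub_distrib]
      exact even_sum _ fun v _ => by unfold Cf.sgn; split_ifs <;> decide
    rwa [Int.even_sub, Int.even_coe_nat, iff_true_right (h1 β)] at a1
  rw [Lt, if_neg (by simp [hp])]
  exact ⟨this _, this _⟩

end Pool.Agent.P.MP_303500_co
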