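import Pool.Agent.P.MP_303500_co.Basic

/-! Tight pairs of an elementary bipartition of a Dirac graph. -/

set_option linter.unusedSectionVars false

namespace Pool.Agent.P.MP_303500_co
open Finset

variable {V : Type} [Fintype V] [DecidableEq V]

def NoE (H : V → V → Prop) (X Y : Finset V) : Prop := ∀ a ∈ X, ∀ b ∈ Y, ¬ H a b

structure Ctx (n : ℕ) (H : V → V → Prop) (A B : Finset V) : Prop where
  hs : ∀ u v, H u v → H v u
  hi : ∀ u, ¬ H u u
  hd : ∀ v, ∀ S : Finset V, (∀ w, H v w → w ∈ S) → n ≤ S.card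
  cA : A.card = n
  cB : B.card = n
  dis : ∀ v, v ∈ A → v ∉ B
  cov : ∀ v, v ∈ A ∨ v ∈ B
  el : ∀ X ⊆ A, ∀ Y ⊆ B, X.Nonempty → Y.Nonempty → NoE H X Y → X.card + Y.card + 1 ≤ n
  c3 : 3 ≤ n → ∀ S T : Finset V, Disjoint S T → S.Nonempty → T.Nonempty →
    S.card + T.card + 2 = 2 * n → ¬ NoE H S T

structure Tight (n : ℕ) (H : V → V → Prop) (A B X Y : Finset V) : Prop where
  sX : X ⊆ A
  sY : Y ⊆ B
  nX : X.Nonempty
  nY : Y.Nonempty
  no : NoE H X Y
  card : X.card + Y.card + 1 = n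

def Pr (A e : Finset V) : Prop := e ⊆ A ∧ e.card = 2

def Thick (H : V → V → Prop) (e : Finset V) : Prop := ∀ u ∈ e, ∀ v ∈ e, u ≠ v → H u v

def Cp (n : ℕ) (H : V → V → Prop) (A B e f : Finset V) : Prop :=
  ∀ X Y, Tight n H A B X Y → Disjoint e X → Disjoint f Y → False

def Atom (n : ℕ) (H : V → V → Prop) (A B X Y : Finset V) : Prop :=
  Tight n H A B X Y ∧ ∀ X' Y', Tight n H A B X' Y' → X.card ≤ X'.card ∧ X.card ≤ Y'.card

def Univ (n : ℕ) (H : V → V → Prop) (A B X f : Finset V) : Prop :=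
  ∀ X' Y', Tight n H A B X' Y' → Disjoint X X' → ¬ Disjoint f Y'

variable {n : ℕ} {H : V → V → Prop} {A B X Y X' Y' e f : Finset V}

lemma NoE.symm (C : Ctx n H A B) (h : NoE H X Y) : NoE H Y X :=
  fun a ha b hb hab => h b hb a ha (C.hs _ _ hab)

lemma Ctx.swap (C : Ctx n H A B) : Ctx n H B A where
  hs := C.hs
  hi := C.hi
  hd := C.hd
  cA := C.cB
  cB := C.cA
  dis := fun v h1 h2 => C.dis v h2 h1
  cov := fun v => (C.cov v).symm
  el := fun X hX Y hY h1 h2 h => by have := C.el Y hY X hX h2 h1 (h.symm C); omega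
  c3 := C.c3

lemma Tight.swap (C : Ctx n H A B) (T : Tight n H A B X Y) : Tight n H B A Y X :=
  ⟨T.sY, T.sX, T.nY, T.nX, T.no.symm C, by have := T.card; omega⟩

lemma Cp.swap (C : Ctx n H A B) (h : Cp n H A B e f) : Cp n H B A f e :=
  fun X Y T h1 h2 => h Y X (T.swap C.swap) h2 h1

lemma NoE.iu (h : NoE H X Y) (h' : NoE H X' Y') : NoE H (X ∩ X') (Y ∪ Y') := by
  intro a ha b hb
  rcases mem_union.1 hb with hb | hb
  exacts [h a (mem_inter.1 ha).1 b hb, h' a (mem_inter.1 ha).2 b hb]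

lemma NoE.ui (h : NoE H X Y) (h' : NoE H X' Y') : NoE H (X ∪ X') (Y ∩ Y') := by
  intro a ha b hb
  rcases mem_union.1 ha with ha | ha
  exacts [h a ha b (mem_inter.1 hb).1, h' a ha b (mem_inter.1 hb).2]

lemma Ctx.deg2 (C : Ctx n H A B) (v : V) (P Q : Finset V) (h : ∀ w, H v w → w ∈ P ∨ w ∈ Q) :
    n ≤ P.card + Q.card :=
  (C.hd v (P ∪ Q) fun w hw => mem_union.2 (h w hw)).trans (card_union_le _ _)

lemma Ctx.deg2_eq (C : Ctx n H A B) (v : V) (P Q : Finset V) (h : ∀ w, H v w → w ∈ P ∨ w ∈ Q)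
    (hc : P.card + Q.card ≤ n) : (∀ w ∈ P, H v w) ∧ (∀ w ∈ Q, H v w) := by
  constructor
  · intro w hw
    by_contra hn
    have := C.deg2 v (P.erase w) Q fun w' hw' => (h w' hw').imp_left fun a =>
      mem_erase.2 ⟨fun e => hn (e ▸ hw'), a⟩
    rw [card_erase_of_mem hw] at this
    have := card_pos.2 ⟨w, hw⟩
    omega
  · intro w hw
    by_contra hn
    have := C.deg2 v P (Q.erase w) fun w' hw' => (h w' hw').imp_right fun a =>
      mem_erase.2 ⟨fun e => hn (e ▸ hw'), a⟩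
    rw [card_erase_of_mem hw] at this
    have := card_pos.2 ⟨w, hw⟩
    omega

lemma card_miss1 {S U : Finset V} {b : V} (hS : S ⊆ U) (hb : b ∈ U) (hb' : b ∉ S) :
    S.card + 1 ≤ U.card :=
  card_lt_card ⟨hS, fun h => hb' (h hb)⟩

lemma card_miss {S U g : Finset V} (hS : S ⊆ U) (hg : g ⊆ U) (hd : Disjoint g S) :
    S.card + g.card ≤ U.card := by
  rw [← card_union_of_disjoint hd.symm]; exact card_le_card (union_subset hS hg)

lemma Tight.join (C : Ctx n H A B) (T : Tight n H A B X Y) (T' : Tight n H A B X' Y')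
    (hY : (Y ∩ Y').Nonempty) (hb : (Y ∪ Y').card + 1 ≤ n) :
    Tight n H A B (X ∪ X') (Y ∩ Y') := by
  have h1 := C.el _ (union_subset T.sX T'.sX) _ (inter_subset_left.trans T.sY)
    (T.nX.mono subset_union_left) hY (T.no.ui T'.no)
  have h2 : (X ∩ X').card + (Y ∪ Y').card + 1 ≤ n := by
    rcases (X ∩ X').eq_empty_or_nonempty with h | h
    · simpa [h] using hb
    · exact C.el _ (inter_subset_left.trans T.sX) _ (union_subset T.sY T'.sY) h
        (T.nY.mono subset_union_left) (T.no.iu T'.no)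
  have := card_union_add_card_inter X X'
  have := card_union_add_card_inter Y Y'
  have := T.card
  have := T'.card
  exact ⟨union_subset T.sX T'.sX, inter_subset_left.trans T.sY, T.nX.mono subset_union_left, hY,
    T.no.ui T'.no, by omega⟩

lemma Tight.fam (C : Ctx n H A B) (T : Tight n H A B X Y) (T' : Tight n H A B X' Y')
    (hX : (X ∪ X').card + 1 ≤ n) (hY : (Y ∪ Y').card + 2 ≤ n) :
    Tight n H A B (X ∩ X') (Y ∪ Y') := by
  refine ((T.swap C).join C.swap (T'.swap C) ?_ hX).swap C.swap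
  rw [nonempty_iff_ne_empty]
  intro h
  have := card_union_add_card_inter X X'
  have := card_union_add_card_inter Y Y'
  have := T.card
  have := T'.card
  have := card_eq_zero.2 h
  rcases (Y ∩ Y').eq_empty_or_nonempty with h' | h'
  · have := card_eq_zero.2 h'; omega
  · have := C.el _ (union_subset T.sX T'.sX) _ (inter_subset_left.trans T.sY)
      (T.nX.mono subset_union_left) h' (T.no.ui T'.no)
    omega

lemma Tight.anti (C : Ctx n H A B) (T : Tight n H A B X Y) (hX : X ⊆ X') (hY : Y' ⊆ B)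
    (h : NoE H X' Y') : Y' ⊆ Y := by
  have h1 := C.el _ T.sX _ (union_subset T.sY hY) T.nX (T.nY.mono subset_union_left) (by
    intro a ha b hb
    rcases mem_union.1 hb with hb | hb
    exacts [T.no a ha b hb, h a (hX ha) b hb])
  have := T.card
  have : Y = Y ∪ Y' := eq_of_subset_of_card_le subset_union_left (by omega)
  rw [this]; exact subset_union_right

lemma Atom.a1 (C : Ctx n H A B) (hA : Atom n H A B X Y) (T' : Tight n H A B X' Y') :
    X ⊆ X' ∨ Disjoint X X' := by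
  have T := hA.1
  rcases (X ∩ X').eq_empty_or_nonempty with h | h
  · exact Or.inr (disjoint_iff_inter_eq_empty.2 h)
  left
  have h2 := C.el _ (inter_subset_left.trans T.sX) _ (union_subset T.sY T'.sY) h
        (T.nY.mono subset_union_left) (T.no.iu T'.no)
  have := card_union_add_card_inter X X'
  have := card_union_add_card_inter Y Y'
  have := T.card
  have := T'.card
  rcases (Y ∩ Y').eq_empty_or_nonempty with h' | h'
  · have := (hA.2 _ _ T').2
    have := card_pos.2 h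
    have := card_eq_zero.2 h'; omega
  · have h1 := C.el _ (union_subset T.sX T'.sX) _ (inter_subset_left.trans T.sY)
      (T.nX.mono subset_union_left) h' (T.no.ui T'.no)
    have T2 : Tight n H A B (X ∩ X') (Y ∪ Y') := ⟨inter_subset_left.trans T.sX,
      union_subset T.sY T'.sY, h, T.nY.mono subset_union_left, T.no.iu T'.no, by omega⟩
    have := eq_of_subset_of_card_le inter_subset_left (hA.2 _ _ T2).1
    rw [← this]; exact inter_subset_right

lemma Atom.a2 (C : Ctx n H A B) (hA : Atom n H A B X Y) (T' : Tight n H A B X' Y')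
    (hd : Disjoint X X') : n ≤ (Y ∪ Y').card + 1 := by
  have T := hA.1
  have := card_union_of_disjoint hd
  have := card_union_add_card_inter Y Y'
  have := T.card
  have := T'.card
  rcases (Y ∩ Y').eq_empty_or_nonempty with h' | h'
  · have := (hA.2 _ _ T').2
    have := card_eq_zero.2 h'; omega
  · have h1 := C.el _ (union_subset T.sX T'.sX) _ (inter_subset_left.trans T.sY)
      (T.nX.mono subset_union_left) h' (T.no.ui T'.no)
    omega

lemma Atom.a3 (C : Ctx n H A B) (hA : Atom n H A B X Y) (hf : Pr B f) (hd : Disjoint f Y) :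
    Univ n H A B X f := by
  intro X' Y' T' h1 h2
  have := hA.a2 C T' h1
  have := card_miss (union_subset hA.1.sY T'.sY) hf.1 (disjoint_union_right.2 ⟨hd, h2⟩)
  have := hf.2
  have := C.cB
  omega

lemma Atom.a4 (C : Ctx n H A B) (hA : Atom n H A B X Y) (hU : Univ n H A B X f)
    (he : ¬ Disjoint e X) : Cp n H A B e f := by
  intro X' Y' T' h1 h2
  rcases hA.a1 C T' with h | h
  · exact he (h1.mono_right h)
  · exact hU _ _ T' h h2

lemma Tight.chord (C : Ctx n H A B) (T : Tight n H A B X Y) {b : V} (hb : b ∈ Y) :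
    ∃ w ∈ B, H b w := by
  by_contra hc
  push Not at hc
  have := C.hd b (A \ X) fun w hw => mem_sdiff.2
    ⟨(C.cov w).resolve_right fun h => hc w h hw, fun h => T.no w h b hb (C.hs _ _ hw)⟩
  rw [card_sdiff_of_subset T.sX, C.cA] at this
  have := card_pos.2 T.nX
  have := T.card
  omega

lemma Ctx.pair (C : Ctx n H A B) {U : Finset V} {b w : V} (hb : b ∈ U) (hw : w ∈ U) (h : H b w) :
    Pr U {b, w} ∧ Thick H {b, w} := by
  have hne : b ≠ w := fun e => C.hi b (e ▸ h)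
  refine ⟨⟨by simp [insert_subset_iff, hb, hw], card_pair hne⟩, ?_⟩
  intro u hu v hv huv
  simp only [mem_insert, mem_singleton] at hu hv
  rcases hu with rfl | rfl <;> rcases hv with rfl | rfl
  · exact absurd rfl huv
  · exact h
  · exact C.hs _ _ h
  · exact absurd rfl huv

lemma exists_max_pair (P : Finset V → Finset V → Prop) (g : Finset V → Finset V → ℕ)
    (h : ∃ X Y, P X Y) : ∃ X Y, P X Y ∧ ∀ X' Y', P X' Y' → g X' Y' ≤ g X Y := by
  classical
  obtain ⟨X0, Y0, h0⟩ := h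
  obtain ⟨p, hp, hm⟩ := exists_max_image (univ.filter (fun p : Finset V × Finset V => P p.1 p.2))
    (fun p => g p.1 p.2) ⟨(X0, Y0), by simpa using h0⟩
  exact ⟨p.1, p.2, (mem_filter.1 hp).2, fun X' Y' h' => hm (X', Y') (by simpa using h')⟩

lemma Atom.hub (C : Ctx n H A B) (hA : Atom n H A B X Y) :
    (∃ f, Pr B f ∧ Thick H f ∧ Univ n H A B X f) ∨
    (∃ X' Y' e, Atom n H B A Y' X' ∧ Pr A e ∧ Thick H e ∧ Univ n H B A Y' e) := by
  by_contra hcon
  rw [not_or] at hcon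
  obtain ⟨NH0, NH2⟩ := hcon
  have T := hA.1
  have hT := T.card
  have cA := C.cA
  have cB := C.cB
  have cB' : (B \ Y).card = X.card + 1 := by rw [card_sdiff_of_subset T.sY]; omega
  have NH : ∀ b ∈ B, ∀ w ∈ B, H b w →
      ∃ X' Y', Tight n H A B X' Y' ∧ Disjoint X X' ∧ b ∉ Y' ∧ w ∉ Y' := by
    intro b hb w hw h
    by_contra hc
    obtain ⟨p1, p2⟩ := C.pair hb hw h
    refine NH0 ⟨_, p1, p2, fun X' Y' T' h1 h2 => hc ⟨X', Y', T', h1, ?_⟩⟩
    simpa using h2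
  have memb : ∀ X' Y', Tight n H A B X' Y' → Disjoint X X' → ∀ b ∈ B \ Y, ∀ b' ∈ B \ Y,
      b ∉ Y' → b' ≠ b → b' ∈ Y' := by
    intro X' Y' T' hd b hb b' hb' h1 h2
    by_contra h3
    have := hA.a2 C T' hd
    have := card_miss (g := {b', b}) (union_subset T.sY T'.sY)
      (by simp [insert_subset_iff, (mem_sdiff.1 hb).1, (mem_sdiff.1 hb').1])
      (by simp [(mem_sdiff.1 hb).2, (mem_sdiff.1 hb').2, h1, h3])
    rw [card_pair h2] at this
    omega
  have maxb : ∀ b ∈ B \ Y, ∃ Xb Yb, Tight n H A B Xb Yb ∧ Disjoint X Xb ∧ b ∉ Yb ∧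
      ∀ X' Y', Tight n H A B X' Y' → Disjoint X X' → b ∉ Y' → Yb ⊆ Y' := by
    intro b hb
    have ex : ∃ X' Y', Tight n H A B X' Y' ∧ Disjoint X X' ∧ b ∉ Y' := by
      obtain ⟨y, hy⟩ := T.nY
      obtain ⟨w, hw, h⟩ := T.chord C hy
      obtain ⟨X0, Y0, T0, d0, -⟩ := NH y (T.sY hy) w hw h
      by_cases hb0 : b ∈ Y0
      · obtain ⟨w, hw, h⟩ := T0.chord C hb0
        obtain ⟨X1, Y1, T1, d1, h1, -⟩ := NH b (T0.sY hb0) w hw h
        exact ⟨X1, Y1, T1, d1, h1⟩
      · exact ⟨X0, Y0, T0, d0, hb0⟩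
    obtain ⟨Xb, Yb, ⟨Tb, db, hbb⟩, hm⟩ := exists_max_pair _ (fun X _ => X.card) ex
    refine ⟨Xb, Yb, Tb, db, hbb, fun X' Y' T' d' hb' => ?_⟩
    obtain ⟨b', hb2, hne⟩ : ∃ b' ∈ B \ Y, b' ≠ b :=
      exists_mem_ne (by have := card_pos.2 T.nX; omega) b
    have J := Tb.join C T' ⟨b', mem_inter.2 ⟨memb _ _ Tb db b hb b' hb2 hbb hne,
      memb _ _ T' d' b hb b' hb2 hb' hne⟩⟩
      (cB ▸ card_miss1 (union_subset Tb.sY T'.sY) (mem_sdiff.1 hb).1 (by simp [hbb, hb']))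
    have := hm _ _ ⟨J, disjoint_union_right.2 ⟨db, d'⟩, by simp [hbb]⟩
    have h1 := J.card
    have h2 := Tb.card
    have := eq_of_subset_of_card_le (inter_subset_left (s₁ := Yb) (s₂ := Y')) (by omega)
    rw [← this]; exact inter_subset_right
  choose! Xb Yb Tb db nb mb using maxb
  have nbr : ∀ b ∈ B \ Y, ∀ W ⊆ A, (∀ a ∈ W, ¬ H a b) →
      W.card ≤ (Xb b).card ∧ ((Xb b).card ≤ W.card → ∀ a ∈ A \ W, H b a) := by
    intro b hb W hW hno
    have hbB := (mem_sdiff.1 hb).1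
    have h1 : ∀ w, H b w → w ∈ A \ W ∨ w ∈ (B \ Yb b).erase b := by
      intro w hw
      rcases C.cov w with h | h
      · exact Or.inl (mem_sdiff.2 ⟨h, fun h' => hno w h' (C.hs _ _ hw)⟩)
      · obtain ⟨X', Y', T', d', h1, h2⟩ := NH b hbB w h hw
        exact Or.inr (mem_erase.2 ⟨fun e => C.hi b (e ▸ hw),
          mem_sdiff.2 ⟨h, fun h3 => h2 (mb b hb _ _ T' d' h1 h3)⟩⟩)
    have c1 : ((B \ Yb b).erase b).card = (Xb b).card := by
      rw [card_erase_of_mem (mem_sdiff.2 ⟨hbB, nb b hb⟩), card_sdiff_of_subset (Tb b hb).sY]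
      have := (Tb b hb).card
      omega
    have c2 : (A \ W).card = n - W.card := by rw [card_sdiff_of_subset hW, cA]
    have c3 := card_le_card hW
    have := C.deg2 b _ _ h1
    exact ⟨by omega, fun h => (C.deg2_eq b _ _ h1 (by omega)).1⟩
  have mem2 : ∀ b ∈ B \ Y, ∀ b' ∈ B \ Y, b' ≠ b → b' ∈ Yb b := fun b hb b' hb' h =>
    memb _ _ (Tb b hb) (db b hb) b hb b' hb' (nb b hb) h
  have eqc : ∀ b ∈ B \ Y, ∀ b' ∈ B \ Y, (Xb b').card ≤ (Xb b).card := by
    intro b hb b' hb'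
    by_cases h : b = b'
    · rw [h]
    · exact (nbr b hb _ (Tb b' hb').sX fun a ha => (Tb b' hb').no a ha b (mem2 b' hb' b hb h)).1
  by_cases hx : 2 ≤ X.card
  · obtain ⟨b1, b2, b3, h1, h2, h3, n12, n13, n23⟩ := two_lt_card_iff.1 (show 2 < (B \ Y).card by omega)
    have := (nbr b1 h1 (Xb b2 ∪ Xb b3) (union_subset (Tb b2 h2).sX (Tb b3 h3).sX) (by
      intro a ha
      rcases mem_union.1 ha with ha | ha
      exacts [(Tb b2 h2).no a ha b1 (mem2 b2 h2 b1 h1 n12),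
        (Tb b3 h3).no a ha b1 (mem2 b3 h3 b1 h1 n13)])).1
    have h4 := eqc b2 h2 b1 h1
    have h5 : Xb b2 = Xb b2 ∪ Xb b3 := eq_of_subset_of_card_le subset_union_left (by omega)
    have h6 : Xb b3 ⊆ Xb b2 := by rw [h5]; exact subset_union_right
    exact nb b3 h3 ((Tb b3 h3).anti C h6 (Tb b2 h2).sY (Tb b2 h2).no (mem2 b2 h2 b3 h3 n23.symm))
  have hx1 : X.card = 1 := by have := card_pos.2 T.nX; omega
  have claim : ∀ b1 ∈ B \ Y, ∀ b2 ∈ B \ Y, b1 ≠ b2 → ∀ w ∈ Y, w ∉ Yb b2 := by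
    intro b1 h1 b2 h2 hne w hw hw2
    have adj := (nbr b1 h1 _ (Tb b2 h2).sX fun a ha =>
      (Tb b2 h2).no a ha b1 (mem2 b2 h2 b1 h1 hne)).2 (eqc b2 h2 b1 h1)
    have ch : ∀ w' ∈ B, H w w' → w ∉ Yb b1 ∧ w' ∉ Yb b1 := by
      intro w' hw' h
      obtain ⟨X', Y', T', d', p1, p2⟩ := NH w (T.sY hw) w' hw' h
      by_cases hb1 : b1 ∈ Y'
      · exfalso
        have : X' ⊆ Xb b2 := by
          intro a ha
          by_contra hna
          exact T'.no a ha b1 hb1 (C.hs _ _ (adj a (mem_sdiff.2 ⟨T'.sX ha, hna⟩)))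
        exact p1 (T'.anti C this (Tb b2 h2).sY (Tb b2 h2).no hw2)
      · have := mb b1 h1 _ _ T' d' hb1
        exact ⟨fun h => p1 (this h), fun h => p2 (this h)⟩
    obtain ⟨w0, hw0, h0⟩ := T.chord C hw
    have hw1 := (ch w0 hw0 h0).1
    have := C.deg2 w (A \ (X ∪ Xb b2)) ((B \ Yb b1).erase w) (by
      intro w' hw'
      rcases C.cov w' with h | h
      · refine Or.inl (mem_sdiff.2 ⟨h, fun h' => ?_⟩)
        rcases mem_union.1 h' with h' | h'
        exacts [T.no w' h' w hw (C.hs _ _ hw'), (Tb b2 h2).no w' h' w hw2 (C.hs _ _ hw')]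
      · exact Or.inr (mem_erase.2 ⟨fun e => C.hi w (e ▸ hw'), mem_sdiff.2 ⟨h, (ch w' h hw').2⟩⟩))
    rw [card_sdiff_of_subset (union_subset T.sX (Tb b2 h2).sX), card_union_of_disjoint (db b2 h2),
      card_erase_of_mem (mem_sdiff.2 ⟨T.sY hw, hw1⟩), card_sdiff_of_subset (Tb b1 h1).sY] at this
    have := (Tb b1 h1).card
    have := (Tb b2 h2).card
    have := eqc b2 h2 b1 h1
    omega
  obtain ⟨b1, b2, hne, hB'⟩ := card_eq_two.1 (show (B \ Y).card = 2 by omega)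
  have h1 : b1 ∈ B \ Y := by rw [hB']; simp
  have h2 : b2 ∈ B \ Y := by rw [hB']; simp
  have one : ∀ b1 ∈ B \ Y, ∀ b2 ∈ B \ Y, b1 ≠ b2 → (Yb b2).card = 1 := by
    intro b1 h1 b2 h2 hne
    have : Yb b2 ⊆ B \ Y := fun w hw => mem_sdiff.2 ⟨(Tb b2 h2).sY hw,
      fun h => claim b1 h1 b2 h2 hne w h hw⟩
    have := card_miss1 this h2 (nb b2 h2)
    have := card_pos.2 (Tb b2 h2).nY
    omega
  obtain ⟨a, ha⟩ := T.nX
  have fin : ∀ b1 ∈ B \ Y, ∀ b2 ∈ B \ Y, b1 ≠ b2 → ∀ α ∈ A, H a α → α ∈ Xb b2 := by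
    intro b1 h1 b2 h2 hne α hα h
    by_contra hn
    have At : Atom n H B A (Yb b2) (Xb b2) := ⟨(Tb b2 h2).swap C, fun X' Y' T' => by
      rw [one b1 h1 b2 h2 hne]; exact ⟨card_pos.2 T'.nX, card_pos.2 T'.nY⟩⟩
    obtain ⟨p1, p2⟩ := C.pair (T.sX ha) hα h
    refine NH2 ⟨_, _, _, At, p1, p2, At.a3 C.swap p1 ?_⟩
    simp [hn, disjoint_left.1 (db b2 h2) ha]
  have := C.deg2 a (Xb b1 ∩ Xb b2) (B \ Y) (by
    intro w hw
    rcases C.cov w with h | h
    · exact Or.inl (mem_inter.2 ⟨fin b2 h2 b1 h1 hne.symm w h hw, fin b1 h1 b2 h2 hne w h hw⟩)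
    · exact Or.inr (mem_sdiff.2 ⟨h, fun h' => T.no a ha w h' hw⟩))
  have c1 := (Tb b1 h1).card
  rw [one b2 h2 b1 h1 hne.symm] at c1
  have h5 := eq_of_subset_of_card_le (inter_subset_left (s₁ := Xb b1) (s₂ := Xb b2)) (by omega)
  have h6 : Xb b1 ⊆ Xb b2 := by rw [← h5]; exact inter_subset_right
  exact nb b1 h1 ((Tb b1 h1).anti C h6 (Tb b2 h2).sY (Tb b2 h2).no (mem2 b2 h2 b1 h1 hne))

end Pool.Agent.P.MP_303500_co
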